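import Pool.Agent.H42.ZR.Df

/-!
# ZR row Ds: descent from `K` to a subfield

`ι : K1 → K` an embedding of fields. (`Pool/Agent/H42/ZD/DS.lean`, proved, is the polynomial version.)

PROOFS.
`DSdense`: as `DSa` of `H42/ZD/DS.lean`: `0 ≠ P ∈ K[X]`, a coefficient `a ≠ 0` of `P`, a `K1`-linear
functional `λ : K → K1` with `λ a ≠ 0`, `Q = Σ_m monomial m (λ (P.coeff m)) ≠ 0`, and
`λ (eval (ι ∘ x) P) = eval x Q` for `x ∈ K1^n`.
`DSorb`: `ι (eval x q) = eval (ι ∘ x) (map ι q)` and injectivity of `ι`.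
`DSinv`: the ring hom `map ι` is injective and induces `κ : FractionRing (MvPolynomial (Fin n) K1) →
FractionRing (MvPolynomial (Fin n) K)` (`IsFractionRing.map`), and
`κ (fs N1 D1 P) = fs (map ι ∘ N1) (map ι ∘ D1) (map ι P)` (ring homs in `P`; compare on `C c`, `X i`). So
for an invariant pair `P, Q` over `K1` the pair `map ι P, map ι Q` is invariant. If
`map ι P = C c * map ι Q`, choose `m` with `Q.coeff m ≠ 0`: `ι (P.coeff m) = c * ι (Q.coeff m)`, so
`c = ι c₁` and `P = C c₁ * Q` by injectivity, a contradiction.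
`DStow`: induction on the tower; `C0` = for `zero` empty; for `step N D a b` the `C0` of the base together
with all coefficients of the coefficients of `a`, `b` and (in the case `Sup`) of `U`, `V`, `ρ`. Given
`ι` with `C0 ⊆ range ι`, lift `a`, `b`, `U`, `V`, `ρ` to `K1` (`mem_range_map_iff_coeffs_subset`,
`Polynomial.lifts_iff_coeff_lifts`); since `map ι` is injective the lifts satisfy the same
identities, inequalities of degrees (`Polynomial.natDegree_map_eq_of_injective`) and non-vanishing, so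
`Mob`/`Sup` holds over `K1`; take `N1 = Step N1' a1`, `D1 = Step D1' b1`. One needs
`(fun i => map ι (Step g h i)) = Step (fun i => map ι (g i)) (h.map (map ι))`: coordinate `0`:
`map ι ((finSuccEquiv _ n).symm h) = (finSuccEquiv _ n).symm (h.map (map ι))` (apply to
`h = finSuccEquiv _ n P`, `MvPolynomial.induction_on P`), coordinate `succ i`: `map_rename`.
-/

open MvPolynomial

namespace H42.ZR

open H42.ZD

universe u

private theorem Ds_eval {K₁ K : Type*} [Field K₁] [Field K] (ι : K₁ →+* K) {n : ℕ}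
    (q : MvPolynomial (Fin n) K₁) (y : Fin n → K₁) :
    eval (fun i => ι (y i)) (map ι q) = ι (eval y q) := by
  rw [eval_map]
  have := eval₂_comp_left ι (RingHom.id K₁) y q
  rw [RingHom.comp_id] at this
  exact this.symm

private theorem Ds_fse {K₁ K : Type*} [Field K₁] [Field K] (ι : K₁ →+* K) {n : ℕ}
    (P : MvPolynomial (Fin (n + 1)) K₁) :
    finSuccEquiv K n (map ι P) = (finSuccEquiv K₁ n P).map (map ι) := by
  induction P using MvPolynomial.induction_on with
  | C a => rw [map_C, fse_C, fse_C, Polynomial.map_C, map_C]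
  | add p q hp hq =>
    have h1 : finSuccEquiv K n (map ι p + map ι q) =
      finSuccEquiv K n (map ι p) + finSuccEquiv K n (map ι q) := map_add _ _ _
    have h2 : finSuccEquiv K₁ n (p + q) = finSuccEquiv K₁ n p + finSuccEquiv K₁ n q :=
      map_add _ _ _
    rw [map_add, h1, h2, Polynomial.map_add, hp, hq]
  | mul_X p i hp =>
    have h1 : finSuccEquiv K n (map ι p * X i) =
      finSuccEquiv K n (map ι p) * finSuccEquiv K n (X i) := map_mul _ _ _
    have h2 : finSuccEquiv K₁ n (p * X i) = finSuccEquiv K₁ n p * finSuccEquiv K₁ n (X i) :=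
      map_mul _ _ _
    rw [map_mul, map_X, h1, h2, Polynomial.map_mul, hp]
    congr 1
    refine Fin.cases ?_ (fun i => ?_) i
    · rw [finSuccEquiv_X_zero, finSuccEquiv_X_zero, Polynomial.map_X]
    · rw [finSuccEquiv_X_succ, finSuccEquiv_X_succ, Polynomial.map_C, map_X]

private theorem Ds_step {K₁ K : Type*} [Field K₁] [Field K] (ι : K₁ →+* K) {n : ℕ}
    (N1 : Fin n → MvPolynomial (Fin n) K₁) (N : Fin n → MvPolynomial (Fin n) K)
    (a1 : Polynomial (MvPolynomial (Fin n) K₁)) (a : Polynomial (MvPolynomial (Fin n) K))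
    (hN : ∀ i, map ι (N1 i) = N i) (ha : a1.map (map ι) = a) (i : Fin (n + 1)) :
    map ι (Step N1 a1 i) = Step N a i := by
  refine Fin.cases ?_ (fun i => ?_) i
  · simp only [Step, Fin.cons_zero]
    apply (finSuccEquiv K n).injective
    rw [Ds_fse, AlgEquiv.apply_symm_apply, AlgEquiv.apply_symm_apply, ha]
  · simp only [Step, Fin.cons_succ]
    rw [map_rename, hN]

private theorem Ds_cf {K : Type*} [Field K] {n : ℕ}
    (a : Polynomial (MvPolynomial (Fin n) K)) :
    ∃ C0 : Finset K, ∀ (K₁ : Type*) [Field K₁] (ι : K₁ →+* K), (∀ c ∈ C0, c ∈ Set.range ι) →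
      ∃ a1 : Polynomial (MvPolynomial (Fin n) K₁), a1.map (map ι) = a := by
  classical
  refine ⟨a.support.biUnion fun j => (a.coeff j).coeffs, ?_⟩
  intro K₁ _ ι h
  refine (Polynomial.mem_lifts (f := (map ι : MvPolynomial (Fin n) K₁ →+* _)) a).1 ?_
  rw [Polynomial.lifts_iff_coeff_lifts]
  intro j
  by_cases hj : j ∈ a.support
  · refine mem_range_map_iff_coeffs_subset.2 ?_
    intro c hc
    exact h c (Finset.mem_biUnion.2 ⟨j, hj, hc⟩)
  · rw [Polynomial.notMem_support_iff.1 hj]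
    exact ⟨0, map_zero _⟩

private theorem Ds_cr {K : Type*} [Field K] {n : ℕ}
    (a : MvPolynomial (Fin n) K) :
    ∃ C0 : Finset K, ∀ (K₁ : Type*) [Field K₁] (ι : K₁ →+* K), (∀ c ∈ C0, c ∈ Set.range ι) →
      ∃ a1 : MvPolynomial (Fin n) K₁, map ι a1 = a := by
  classical
  refine ⟨a.coeffs, ?_⟩
  intro K₁ _ ι h
  exact mem_range_map_iff_coeffs_subset.2 fun c hc => h c hc

private theorem Ds_mob {K₁ K : Type*} [Field K₁] [Field K] (ι : K₁ →+* K) {n : ℕ}
    (a b : Polynomial (MvPolynomial (Fin n) K₁))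
    (h : Mob (a.map (map ι)) (b.map (map ι))) : Mob a b := by
  have hinj : Function.Injective (map (σ := Fin n) ι) := map_injective ι ι.injective
  obtain ⟨h1, h2, h3⟩ := h
  rw [Polynomial.natDegree_map_eq_of_injective hinj] at h1 h2
  refine ⟨h1, h2, ?_⟩
  intro h0
  apply h3
  rw [Polynomial.coeff_map, Polynomial.coeff_map, Polynomial.coeff_map, Polynomial.coeff_map,
    ← map_mul, ← map_mul, ← map_sub, h0, map_zero]

private theorem Ds_sup {K₁ K : Type*} [Field K₁] [Field K] (ι : K₁ →+* K) {n : ℕ}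
    (a b U V : Polynomial (MvPolynomial (Fin n) K₁)) (ρ : MvPolynomial (Fin n) K₁)
    (hb : b.map (map ι) ≠ 0)
    (hd : (b.map (map ι)).natDegree + 2 ≤ (a.map (map ι)).natDegree)
    (hρ : map ι ρ ≠ 0)
    (he : U.map (map ι) * a.map (map ι) + V.map (map ι) * b.map (map ι) =
      Polynomial.C (map ι ρ)) : Sup a b := by
  have hinj : Function.Injective (map (σ := Fin n) ι) := map_injective ι ι.injective
  rw [Polynomial.natDegree_map_eq_of_injective hinj,
    Polynomial.natDegree_map_eq_of_injective hinj] at hd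
  refine ⟨?_, hd, U, V, ρ, ?_, ?_⟩
  · rintro rfl
    exact hb (Polynomial.map_zero _)
  · rintro rfl
    exact hρ (map_zero _)
  · apply Polynomial.map_injective _ hinj
    rw [Polynomial.map_add, Polynomial.map_mul, Polynomial.map_mul, Polynomial.map_C, he]

theorem DSdense {K₁ K : Type u} [Field K₁] [Field K] (ι : K₁ →+* K) {n : ℕ}
    (x : ℕ → Fin n → K₁) (hx : DenseSeq x) : DenseSeq fun t i => ι (x t i) := by
  classical
  intro P hP
  obtain ⟨m, hm⟩ := ne_zero_iff.mp hP
  letI : Algebra K₁ K := ι.toAlgebra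
  obtain ⟨φ, hφ⟩ : ∃ φ : Module.Dual K₁ K, φ (P.coeff m) ≠ 0 := by
    by_contra hcon
    push Not at hcon
    exact hm ((Module.forall_dual_apply_eq_zero_iff K₁ _).1 hcon)
  set Q : MvPolynomial (Fin n) K₁ := ∑ d ∈ P.support, monomial d (φ (P.coeff d)) with hQ
  have hQm : Q.coeff m = φ (P.coeff m) := by
    rw [hQ, coeff_sum, Finset.sum_eq_single m]
    · rw [coeff_monomial, if_pos rfl]
    · intro d _ hd
      rw [coeff_monomial, if_neg hd]
    · intro hd
      rw [coeff_monomial, if_pos rfl, notMem_support_iff.1 hd, map_zero]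
  have hQ0 : Q ≠ 0 := by
    intro h0
    apply hφ
    rw [← hQm, h0, coeff_zero]
  have key : ∀ y : Fin n → K₁, φ (eval (fun i => ι (y i)) P) = eval y Q := by
    intro y
    rw [eval_eq, hQ, map_sum, map_sum]
    apply Finset.sum_congr rfl
    intro d _
    rw [eval_monomial]
    have h1 : P.coeff d * ∏ i ∈ d.support, (ι (y i)) ^ d i =
        (∏ i ∈ d.support, (y i) ^ d i : K₁) • P.coeff d := by
      rw [Algebra.smul_def, mul_comm]
      congr 1
      have : (algebraMap K₁ K) = ι := rfl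
      rw [this, map_prod]
      simp only [map_pow]
    rw [h1, map_smul, smul_eq_mul, mul_comm]
    rfl
  obtain ⟨t, ht⟩ := hx Q hQ0
  refine ⟨t, ?_⟩
  intro h0
  apply ht
  rw [← key, h0, map_zero]

theorem DSorb {K₁ K : Type u} [Field K₁] [Field K] (ι : K₁ →+* K) {n : ℕ}
    (N D : Fin n → MvPolynomial (Fin n) K₁) (x : ℕ → Fin n → K₁) (hx : Orb N D x) :
    Orb (fun i => map ι (N i)) (fun i => map ι (D i)) fun t i => ι (x t i) := by
  intro t i
  obtain ⟨h1, h2⟩ := hx t i
  rw [Ds_eval, Ds_eval]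
  refine ⟨?_, ?_⟩
  · intro h0
    apply h1
    exact (map_eq_zero ι).1 h0
  · rw [← map_mul, h2]

theorem DSinv {K₁ K : Type u} [Field K₁] [Field K] (ι : K₁ →+* K) {n : ℕ}
    (N D : Fin n → MvPolynomial (Fin n) K₁) (h : RInv N D) :
    RInv (fun i => map ι (N i)) (fun i => map ι (D i)) := by
  obtain ⟨P, Q, hQ, hc, he⟩ := h
  have hinj : Function.Injective (map (σ := Fin n) ι) := map_injective ι ι.injective
  have hg : Function.Injective ((algebraMap (MvPolynomial (Fin n) K)
      (FractionRing (MvPolynomial (Fin n) K))).comp (map ι)) := by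
    rw [RingHom.coe_comp]
    exact (IsFractionRing.injective _ _).comp hinj
  let κ : FractionRing (MvPolynomial (Fin n) K₁) →+* FractionRing (MvPolynomial (Fin n) K) :=
    IsFractionRing.lift hg
  have hκ : ∀ p : MvPolynomial (Fin n) K₁, κ (algebraMap _ _ p) =
      algebraMap (MvPolynomial (Fin n) K) (FractionRing (MvPolynomial (Fin n) K)) (map ι p) :=
    fun p => IsFractionRing.lift_algebraMap hg p
  have hfs : ∀ p : MvPolynomial (Fin n) K₁, κ (fs N D p) =
      fs (fun i => map ι (N i)) (fun i => map ι (D i)) (map ι p) := by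
    intro p
    induction p using MvPolynomial.induction_on with
    | C a =>
      have e1 : fs N D (C a) = algebraMap (MvPolynomial (Fin n) K₁) _ (C a) := by
        rw [fs, aeval_C, IsScalarTower.algebraMap_apply K₁ (MvPolynomial (Fin n) K₁)
          (FractionRing (MvPolynomial (Fin n) K₁)), algebraMap_eq]
      have e2 : ∀ N' D' : Fin n → MvPolynomial (Fin n) K, fs N' D' (C (ι a)) =
          algebraMap (MvPolynomial (Fin n) K) _ (C (ι a)) := by
        intro N' D'
        rw [fs, aeval_C, IsScalarTower.algebraMap_apply K (MvPolynomial (Fin n) K)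
          (FractionRing (MvPolynomial (Fin n) K)), algebraMap_eq]
      rw [e1, hκ, map_C, e2]
    | add p q hp hq => rw [map_add, map_add, map_add, map_add, hp, hq]
    | mul_X p i hp =>
      rw [map_mul, map_mul, map_mul, map_mul, hp, map_X]
      congr 1
      rw [fs, fs, aeval_X, aeval_X, map_div₀, hκ, hκ]
  refine ⟨map ι P, map ι Q, ?_, ?_, ?_⟩
  · intro h0
    apply hQ
    apply hinj
    rw [h0, map_zero]
  · intro c hcc
    obtain ⟨m, hm⟩ := ne_zero_iff.mp hQ
    have h1 : ι (P.coeff m) = c * ι (Q.coeff m) := by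
      have := congrArg (coeff m) hcc
      rwa [coeff_map, coeff_C_mul, coeff_map] at this
    have h2 : ι (Q.coeff m) ≠ 0 := by
      rwa [Ne, map_eq_zero]
    have h3 : c = ι (P.coeff m / Q.coeff m) := by
      rw [map_div₀, h1, mul_div_assoc, div_self h2, mul_one]
    apply hc (P.coeff m / Q.coeff m)
    apply hinj
    rw [hcc, h3, map_mul, map_C]
  · rw [← hfs, ← hfs, ← hκ, ← hκ, ← map_mul, ← map_mul, he]

theorem DStow {K : Type u} [Field K] (q : Prop) {n : ℕ} (N D : Fin n → MvPolynomial (Fin n) K)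
    (hT : Tow q N D) :
    ∃ C0 : Finset K, ∀ (K₁ : Type u) [Field K₁] (ι : K₁ →+* K), (∀ c ∈ C0, c ∈ Set.range ι) →
      ∃ N1 D1 : Fin n → MvPolynomial (Fin n) K₁, (∀ i, map ι (N1 i) = N i) ∧
        (∀ i, map ι (D1 i) = D i) ∧ Tow q N1 D1 := by
  classical
  induction hT with
  | zero N D =>
    refine ⟨∅, fun K₁ _ ι _ => ⟨fun i => i.elim0, fun i => i.elim0, fun i => i.elim0,
      fun i => i.elim0, Tow.zero _ _⟩⟩
  | step N D a b h hab ih =>
    obtain ⟨C0, hC0⟩ := ih
    obtain ⟨Ca, hCa⟩ := Ds_cf a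
    obtain ⟨Cb, hCb⟩ := Ds_cf b
    rcases hab with ⟨hq, hM⟩ | ⟨hb, hd, U, V, ρ, hρ, he⟩
    · refine ⟨C0 ∪ Ca ∪ Cb, ?_⟩
      intro K₁ _ ι hr
      obtain ⟨N1, D1, hN1, hD1, hT1⟩ := hC0 K₁ ι fun c hc => hr c (by simp [hc])
      obtain ⟨a1, rfl⟩ := hCa K₁ ι fun c hc => hr c (by simp [hc])
      obtain ⟨b1, rfl⟩ := hCb K₁ ι fun c hc => hr c (by simp [hc])
      exact ⟨Step N1 a1, Step D1 b1, Ds_step ι _ _ _ _ hN1 rfl, Ds_step ι _ _ _ _ hD1 rfl,
        Tow.step N1 D1 a1 b1 hT1 (Or.inl ⟨hq, Ds_mob ι a1 b1 hM⟩)⟩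
    · obtain ⟨CU, hCU⟩ := Ds_cf U
      obtain ⟨CV, hCV⟩ := Ds_cf V
      obtain ⟨Cr, hCr⟩ := Ds_cr ρ
      refine ⟨C0 ∪ Ca ∪ Cb ∪ CU ∪ CV ∪ Cr, ?_⟩
      intro K₁ _ ι hr
      obtain ⟨N1, D1, hN1, hD1, hT1⟩ := hC0 K₁ ι fun c hc => hr c (by simp [hc])
      obtain ⟨a1, rfl⟩ := hCa K₁ ι fun c hc => hr c (by simp [hc])
      obtain ⟨b1, rfl⟩ := hCb K₁ ι fun c hc => hr c (by simp [hc])
      obtain ⟨U1, rfl⟩ := hCU K₁ ι fun c hc => hr c (by simp [hc])
      obtain ⟨V1, rfl⟩ := hCV K₁ ι fun c hc => hr c (by simp [hc])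
      obtain ⟨ρ1, rfl⟩ := hCr K₁ ι fun c hc => hr c (by simp [hc])
      exact ⟨Step N1 a1, Step D1 b1, Ds_step ι _ _ _ _ hN1 rfl, Ds_step ι _ _ _ _ hD1 rfl,
        Tow.step N1 D1 a1 b1 hT1 (Or.inr (Ds_sup ι a1 b1 U1 V1 ρ1 hb hd hρ he))⟩

end H42.ZR
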