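import Pool.Agent.H42.ZR.Tr
import Pool.Agent.H42.ZR.Ds

/-!
# ZR: dense orbits avoiding a hypersurface, for towers over any algebraically closed field of
characteristic zero
-/

open MvPolynomial

namespace H42.ZR

open H42.ZD

universe u

theorem Av_fin {K : Type u} [Field K] [CharZero K] [IsAlgClosed K] (A : Finset K)
    (hA : Algebra.IsAlgebraic (Algebra.adjoin ℤ (A : Set K)) K) {q : Prop} {n : ℕ}
    {N D : Fin n → MvPolynomial (Fin n) K} (hT : Tow q N D) (hI : q → ¬ RInv N D)
    (H : MvPolynomial (Fin n) K) (hH : H ≠ 0) :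
    ∃ x : ℕ → Fin n → K, Orb N D x ∧ DenseSeq x ∧ ∀ t, eval (x t) H ≠ 0 := by
  obtain ⟨w, NW, DW, aW, bW, ζ, N0, hw, -, hNW, hDW, haW, -, hN0, hper, hζ, hζa, -, hζJ⟩ :=
    Tr_place A hA hT (Polynomial.C H) 1 (by simpa using hH) one_ne_zero 0
  obtain ⟨x, hx, hxρ⟩ := Tr A hA hT hI 0 (fun _ => w) (fun i j _ => Fin.ext (by omega)) hw
    (fun _ => ζ 0) NW DW hNW hDW ζ rfl hζ hζJ
  obtain ⟨hred, horb⟩ := Tr_orb_red w hw N D NW DW hNW hDW ζ hζ x (fun j => hxρ 0 j)
  refine ⟨oseq N D x, horb, hx, fun t h0 => ?_⟩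
  have hinj : Function.Injective (map w.Λ.subtype :
      MvPolynomial (Fin n) w.Λ → MvPolynomial (Fin n) K) :=
    map_injective _ Subtype.val_injective
  have h1 := Tr_red_eval w _ _ (hred t) aW.leadingCoeff
  have h2 : map w.Λ.subtype aW.leadingCoeff = H := by
    have := (Polynomial.leadingCoeff_map_of_injective hinj aW).symm
    rw [haW, Polynomial.leadingCoeff_C] at this
    exact this
  rw [h2, h0] at h1
  have h4 := Red.natCast w 0
  rw [Nat.cast_zero, Nat.cast_zero] at h4
  exact hζa t (h1.unique h4)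

theorem Av {K : Type u} [Field K] [CharZero K] [IsAlgClosed K] {q : Prop} {n : ℕ}
    {N D : Fin n → MvPolynomial (Fin n) K} (hT : Tow q N D) (hI : q → ¬ RInv N D)
    (H : MvPolynomial (Fin n) K) (hH : H ≠ 0) :
    ∃ x : ℕ → Fin n → K, Orb N D x ∧ DenseSeq x ∧ ∀ t, eval (x t) H ≠ 0 := by
  classical
  obtain ⟨C1, hC1⟩ := DStow q N D hT
  let C0 : Finset K := C1 ∪ H.coeffs
  let R := Algebra.adjoin ℤ (C0 : Set K)
  let F := FractionRing R
  let _ : Algebra F K := FractionRing.liftAlgebra R K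
  have : IsScalarTower R F K := FractionRing.isScalarTower_liftAlgebra R K
  let K1 : IntermediateField F K := algebraicClosure F K
  have hmem : ∀ c : K, c ∈ C0 → c ∈ K1 := by
    intro c hc
    have h1 : c ∈ R := Algebra.subset_adjoin hc
    have h2 : algebraMap F K (algebraMap R F ⟨c, h1⟩) = c := by
      rw [← IsScalarTower.algebraMap_apply R F K]
      rfl
    rw [← h2]
    exact K1.algebraMap_mem _
  let ι : K1 →+* K := algebraMap K1 K
  obtain ⟨N1, D1, hN1, hD1, hT1⟩ := hC1 K1 ι (by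
    intro c hc
    exact ⟨⟨c, hmem c (Finset.mem_union_left _ hc)⟩, rfl⟩)
  obtain ⟨H1, hH1⟩ : ∃ q : MvPolynomial (Fin n) K1, map ι q = H := by
    have : H ∈ Set.range (map ι : MvPolynomial (Fin n) K1 → MvPolynomial (Fin n) K) := by
      rw [mem_range_map_iff_coeffs_subset]
      intro c hc
      exact ⟨⟨c, hmem c (Finset.mem_union_right _ hc)⟩, rfl⟩
    obtain ⟨q, hq⟩ := this
    exact ⟨q, hq⟩
  have hNN : (fun i => map ι (N1 i)) = N := funext hN1
  have hDD : (fun i => map ι (D1 i)) = D := funext hD1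
  have hI1 : q → ¬ RInv N1 D1 := by
    intro hq h1
    apply hI hq
    rw [← hNN, ← hDD]
    exact DSinv ι N1 D1 h1
  have : IsAlgClosed K1 := IsAlgClosure.isAlgClosed F
  let A : Finset K1 := C0.attach.image fun c => ⟨c.1, hmem c.1 c.2⟩
  have hA : Algebra.IsAlgebraic (Algebra.adjoin ℤ (A : Set K1)) K1 := by
    let ψ : K1 →ₐ[ℤ] K := ι.toIntAlgHom
    have hRS : R ≤ (Algebra.adjoin ℤ (A : Set K1)).map ψ := by
      refine Algebra.adjoin_le fun c hc => ?_
      refine ⟨⟨c, hmem c hc⟩, Algebra.subset_adjoin ?_, rfl⟩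
      exact Finset.mem_coe.2 (Finset.mem_image.2 ⟨⟨c, hc⟩, Finset.mem_attach _ _, rfl⟩)
    let j : R →+* K1 := (algebraMap F K1).comp (algebraMap R F)
    have hj : ∀ r : R, ι (j r) = (r : K) := by
      intro r
      have : ι (j r) = algebraMap F K (algebraMap R F r) := rfl
      rw [this, ← IsScalarTower.algebraMap_apply R F K]
      rfl
    have hjm : ∀ r : R, j r ∈ Algebra.adjoin ℤ (A : Set K1) := by
      intro r
      obtain ⟨a, ha, har⟩ := hRS r.2
      have : j r = a := by
        apply ι.injective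
        rw [hj]
        exact har.symm
      rw [this]
      exact ha
    let φ : R →+* Algebra.adjoin ℤ (A : Set K1) := j.codRestrict _ hjm
    have hφi : Function.Injective φ := by
      intro a b hab
      have h1 : j a = j b := congrArg Subtype.val hab
      apply Subtype.ext
      rw [← hj, ← hj, h1]
    refine ⟨fun x => ?_⟩
    have hxF : IsAlgebraic F x := Algebra.IsAlgebraic.isAlgebraic x
    obtain ⟨q, hq0, hq⟩ := (IsFractionRing.isAlgebraic_iff R F K1).2 hxF
    refine ⟨q.map φ, ?_, ?_⟩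
    · intro h0
      apply hq0
      apply Polynomial.map_injective φ hφi
      rw [h0, Polynomial.map_zero]
    · rw [Polynomial.aeval_def, Polynomial.eval₂_map]
      rw [Polynomial.aeval_def] at hq
      have hcomp : (algebraMap (Algebra.adjoin ℤ (A : Set K1)) K1).comp φ = algebraMap R K1 := by
        refine RingHom.ext fun r => ?_
        exact (IsScalarTower.algebraMap_apply R F K1 r).symm
      rw [hcomp, hq]
  obtain ⟨x, hx1, hx2, hx3⟩ := Av_fin A hA hT1 hI1 H1 (by
    rintro rfl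
    rw [map_zero] at hH1
    exact hH hH1.symm)
  refine ⟨fun t i => ι (x t i), ?_, DSdense ι x hx2, ?_⟩
  · have := DSorb ι N1 D1 x hx1
    rwa [hNN, hDD] at this
  · intro t h0
    apply hx3 t
    apply ι.injective
    rw [Tn_eval_map, hH1, map_zero, ← h0]

end H42.ZR
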