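import Pool.Agent.H42.ZR.In

/-!
# ZR row Bd: three bad fibre points of a fractional linear fibre map give a semi-invariant

`R = MvPolynomial (Fin n) K`, `F = FractionRing R`. `x t` is a dense orbit of the base map `N/D`. The
three sequences `y i t` are fibre orbits of the fractional linear map `a/b`, pairwise different at
`t = 0`, and each of them is bad: some non-zero `P ∈ R[Y]` vanishes on it.

PROOF. For `P ∈ R[Y]` write `P(x, y) = (P.map (eval x)).eval y`.
(0) `y i t ≠ y j t` for `i ≠ j` and all `t`: by induction; if `y i (t+1) = y j (t+1)` then with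
`a = a_1 Y + a_0`, `b = b_1 Y + b_0` at `x_t`: `a(y_i) b(y_j) = a(y_j) b(y_i)`, i.e.
`(a_1 b_0 - a_0 b_1)(x_t) (y_i - y_j) = 0`, so `y i t = y j t`.
(1) `I = {P ∈ R[Y] | ∀ i t, P(x_t, y i t) = 0}` is an ideal, and contains a non-zero element (the product
of the three bad polynomials; `R[Y]` is a domain). Let `m` be the minimal degree of a non-zero element
of `I`, `P ∈ I`, `P ≠ 0`, `P.natDegree = m`. `m ≥ 3`: otherwise `P(x_t, ·)` has degree `≤ 2` and three
distinct roots, so it is `0` for all `t`, and `P.leadingCoeff` vanishes at all `x_t`, against `hdx`.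
(2) SEMI-INVARIANCE. Let `r` be at least all `degreeOf i (P.coeff j)`, `P~_j = Cl N D r (P.coeff j)`, and
`Q = Σ_{j≤m} C (P~_j) a^j b^(m-j) ∈ R[Y]`, `Q.natDegree ≤ m`. By `Cl_spec` (with `φ = eval (x_t)`,
`y i = x_{t+1,i}`): `eval x_t P~_j = Δ(x_t)^r eval x_{t+1} P_j`, `Δ = ∏ D_i`; so
`Q(x_t, y_t) = Δ(x_t)^r b(x_t,y_t)^m P(x_{t+1}, y_{t+1}) = 0`: `Q ∈ I`. Hence
`C (P.leadingCoeff) * Q - C (Q.coeff m) * P ∈ I` has degree `< m`, so it is `0`. By `Cl_spec` (with
`φ = algebraMap R F`, `y i = algebraMap (N i) / algebraMap (D i)`, `D i ≠ 0` because it does not vanish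
at `x_0`): `algebraMap P~_j = (algebraMap Δ)^r * fs N D (P_j)`, `algebraMap Δ ≠ 0`. So with
`A = a.map algebraMap`, `B = b.map algebraMap`:
`Σ_j C (fs N D (P_j)) A^j B^(m-j) = C μ * P.map algebraMap`,
`μ = algebraMap (Q.coeff m) / (algebraMap Δ^r * algebraMap P.leadingCoeff)`. The left side is non-zero
by `In_ne` (`fs N D (P_m) ≠ 0` by `hfs`), so `μ ≠ 0`.
(3) SEPARABLE. `F` is a perfect field (characteristic 0), so it suffices that `P' = P.map algebraMap` is
squarefree (`PerfectField.separable_iff_squarefree`). Suppose `P' = A₁^2 B₁` with `A₁` not a unit,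
`deg A₁ ≥ 1`. Choose `0 ≠ s ∈ R` and `W ∈ R[Y]` with `W.map algebraMap = C (algebraMap s) * (A₁ B₁)`, and
`0 ≠ s' ∈ R`, `B₂ ∈ R[Y]` with `B₂.map algebraMap = C (algebraMap s') * B₁` (clearing denominators,
`IsLocalization.integerNormalization`). Then `C s' * W^2 = C (s^2) * P * B₂` in `R[Y]` (by injectivity of
`R[Y] → F[Y]`), so `(C s' * W)^2 = C s' * C (s^2) * P * B₂ ∈ I`, so `C s' * W` vanishes at all
`(x_t, y i t)`, i.e. `C s' * W ∈ I`; it is non-zero of degree `deg A₁ + deg B₁ < m`. Contradiction.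
-/

open MvPolynomial

namespace H42.ZR

open H42.ZD

private theorem Bd_lin {S : Type*} [CommRing S] (p : Polynomial S) (hp : p.natDegree ≤ 1)
    {T : Type*} [CommRing T] (φ : S →+* T) (z : T) :
    (p.map φ).eval z = φ (p.coeff 1) * z + φ (p.coeff 0) := by
  have h := Polynomial.eq_X_add_C_of_natDegree_le_one hp
  have h2 : (p.map φ).eval z =
      ((Polynomial.C (p.coeff 1) * Polynomial.X + Polynomial.C (p.coeff 0)).map φ).eval z :=
    congrArg (fun q : Polynomial S => (q.map φ).eval z) h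
  rw [h2]
  simp

private theorem Bd_sum {S : Type*} [CommRing S] (p : Polynomial S)
    {T : Type*} [CommRing T] (φ : S →+* T) (z : T) :
    (p.map φ).eval z = ∑ j ∈ Finset.range (p.natDegree + 1), φ (p.coeff j) * z ^ j := by
  rw [Polynomial.eval_map, Polynomial.eval₂_eq_sum_range]

/-- Step (0): the three fibre orbits stay pairwise different. -/
private theorem Bd_ne {K : Type*} [Field K] {n : ℕ} (x : ℕ → Fin n → K)
    (a b : Polynomial (MvPolynomial (Fin n) K)) (hab : Mob a b)
    (hdet : ∀ t, eval (x t) (a.coeff 1 * b.coeff 0 - a.coeff 0 * b.coeff 1) ≠ 0)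
    (y : Fin 3 → ℕ → K)
    (hy : ∀ i t, (b.map (eval (x t))).eval (y i t) ≠ 0 ∧
      y i (t + 1) * (b.map (eval (x t))).eval (y i t) = (a.map (eval (x t))).eval (y i t))
    (hne : Function.Injective fun i => y i 0) (t : ℕ) : Function.Injective fun i => y i t := by
  induction t with
  | zero => exact hne
  | succ t ih =>
    intro i j hij
    apply ih
    show y i t = y j t
    have hij' : y i (t + 1) = y j (t + 1) := hij
    have h1 := (hy i t).2
    have h2 := (hy j t).2
    rw [Bd_lin b hab.2.1, Bd_lin a hab.1] at h1 h2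
    rw [hij'] at h1
    have hd := hdet t
    rw [map_sub, map_mul, map_mul] at hd
    have h3 : (eval (x t) (a.coeff 1) * eval (x t) (b.coeff 0) -
        eval (x t) (a.coeff 0) * eval (x t) (b.coeff 1)) * (y i t - y j t) = 0 := by
      linear_combination (-(eval (x t) (b.coeff 1) * y j t + eval (x t) (b.coeff 0))) * h1 +
        (eval (x t) (b.coeff 1) * y i t + eval (x t) (b.coeff 0)) * h2
    rcases mul_eq_zero.1 h3 with h4 | h4
    · exact absurd h4 hd
    · exact sub_eq_zero.1 h4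

/-- The vanishing condition. -/
private def Bd_V {K : Type*} [Field K] {n : ℕ} (x : ℕ → Fin n → K) (y : Fin 3 → ℕ → K)
    (P : Polynomial (MvPolynomial (Fin n) K)) : Prop :=
  ∀ i t, (P.map (eval (x t))).eval (y i t) = 0

/-- Step (1): a non-zero element of minimal degree. -/
private theorem Bd_min {K : Type*} [Field K] {n : ℕ} (x : ℕ → Fin n → K) (hdx : DenseSeq x)
    (y : Fin 3 → ℕ → K) (hinj : ∀ t, Function.Injective fun i => y i t)
    (hbad : ∀ i, ∃ P : Polynomial (MvPolynomial (Fin n) K), P ≠ 0 ∧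
      ∀ t, (P.map (eval (x t))).eval (y i t) = 0) :
    ∃ P : Polynomial (MvPolynomial (Fin n) K), P ≠ 0 ∧ Bd_V x y P ∧ 3 ≤ P.natDegree ∧
      ∀ Q : Polynomial (MvPolynomial (Fin n) K), Q ≠ 0 → Bd_V x y Q →
        P.natDegree ≤ Q.natDegree := by
  classical
  choose Pb hPb0 hPb using hbad
  have hex : ∃ m : ℕ, ∃ P : Polynomial (MvPolynomial (Fin n) K), P ≠ 0 ∧ Bd_V x y P ∧
      P.natDegree = m := by
    refine ⟨_, ∏ i, Pb i, Finset.prod_ne_zero_iff.2 fun i _ => hPb0 i, ?_, rfl⟩
    intro i t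
    rw [Polynomial.map_prod, Polynomial.eval_prod]
    exact Finset.prod_eq_zero (Finset.mem_univ i) (hPb i t)
  obtain ⟨P, hP0, hPV, hPm⟩ := Nat.find_spec hex
  have hmin : ∀ Q : Polynomial (MvPolynomial (Fin n) K), Q ≠ 0 → Bd_V x y Q →
      P.natDegree ≤ Q.natDegree := by
    intro Q hQ0 hQV
    rw [hPm]
    exact Nat.find_min' hex ⟨Q, hQ0, hQV, rfl⟩
  refine ⟨P, hP0, hPV, ?_, hmin⟩
  by_contra hlt
  have hz : ∀ t, P.map (eval (x t)) = 0 := by
    intro t
    refine Polynomial.eq_zero_of_natDegree_lt_card_of_eval_eq_zero _ (hinj t)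
      (fun i => hPV i t) ?_
    have h1 : (P.map (eval (x t))).natDegree ≤ P.natDegree := Polynomial.natDegree_map_le
    rw [Fintype.card_fin]
    omega
  obtain ⟨t, ht⟩ := hdx P.leadingCoeff (Polynomial.leadingCoeff_ne_zero.2 hP0)
  apply ht
  have h2 : (P.map (eval (x t))).coeff P.natDegree = 0 := by rw [hz t]; simp
  rw [Polynomial.coeff_map] at h2
  exact h2

/-- Clearing denominators. -/
private theorem Bd_clear {R : Type*} [CommRing R] [IsDomain R] (p : Polynomial (FractionRing R)) :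
    ∃ (s : R) (W : Polynomial R), s ≠ 0 ∧
      W.map (algebraMap R (FractionRing R)) =
        Polynomial.C (algebraMap R (FractionRing R) s) * p := by
  obtain ⟨b, hb, h⟩ := IsLocalization.integerNormalization_spec (nonZeroDivisors R) p
  refine ⟨b, _, nonZeroDivisors.ne_zero hb, h.trans ?_⟩
  rw [← algebraMap_smul (FractionRing R) b p, Polynomial.smul_eq_C_mul]

/-- Step (3): separability. -/
private theorem Bd_sep {K : Type*} [Field K] [CharZero K] {n : ℕ} (x : ℕ → Fin n → K)
    (y : Fin 3 → ℕ → K) (P : Polynomial (MvPolynomial (Fin n) K)) (hP0 : P ≠ 0)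
    (hPV : Bd_V x y P)
    (hmin : ∀ Q : Polynomial (MvPolynomial (Fin n) K), Q ≠ 0 → Bd_V x y Q →
        P.natDegree ≤ Q.natDegree) :
    (P.map (algebraMap _ (FractionRing (MvPolynomial (Fin n) K)))).Separable := by
  obtain ⟨φ, hφ⟩ : ∃ φ : MvPolynomial (Fin n) K →+* FractionRing (MvPolynomial (Fin n) K),
    φ = algebraMap _ _ := ⟨_, rfl⟩
  have hinj : Function.Injective φ := by
    rw [hφ]; exact IsFractionRing.injective _ _
  have hmi : Function.Injective (Polynomial.map φ) := Polynomial.map_injective φ hinj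
  rw [PerfectField.separable_iff_squarefree, ← hφ]
  have hP'0 : P.map φ ≠ 0 := by
    intro h
    apply hP0
    apply hmi
    rw [h, Polynomial.map_zero]
  intro A₁ hA
  obtain ⟨B₁, hB⟩ := hA
  by_contra hu
  have hA0 : A₁ ≠ 0 := by
    rintro rfl
    apply hP'0
    rw [hB]; simp
  have hB0 : B₁ ≠ 0 := by
    rintro rfl
    apply hP'0
    rw [hB]; simp
  have hdeg : 0 < A₁.natDegree :=
    Polynomial.natDegree_pos_iff_degree_pos.2 (Polynomial.degree_pos_of_ne_zero_of_nonunit hA0 hu)
  have hdP : P.natDegree = A₁.natDegree + (A₁ * B₁).natDegree := by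
    have h1 : (P.map φ).natDegree = P.natDegree := Polynomial.natDegree_map_eq_of_injective hinj P
    rw [← h1, hB, mul_assoc, Polynomial.natDegree_mul hA0 (mul_ne_zero hA0 hB0)]
  obtain ⟨s, W, hs, hW⟩ := Bd_clear (A₁ * B₁)
  obtain ⟨s', B₂, hs', hB₂⟩ := Bd_clear B₁
  rw [← hφ] at hW hB₂
  have hφs : φ s ≠ 0 := fun h => hs (hinj (by rw [h, map_zero]))
  have hkey : Polynomial.C s' * W ^ 2 = Polynomial.C s ^ 2 * P * B₂ := by
    apply hmi
    rw [Polynomial.map_mul, Polynomial.map_mul, Polynomial.map_mul, Polynomial.map_pow,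
      Polynomial.map_pow, hW, hB₂, hB, Polynomial.map_C, Polynomial.map_C]
    ring
  have hWV : Bd_V x y (Polynomial.C s' * W) := by
    intro i t
    have h1 := congrArg (fun q : Polynomial (MvPolynomial (Fin n) K) =>
      (q.map (eval (x t))).eval (y i t)) hkey
    simp only [Polynomial.map_mul, Polynomial.map_pow, Polynomial.eval_mul, Polynomial.eval_pow,
      Polynomial.map_C, Polynomial.eval_C] at h1
    rw [hPV i t] at h1
    have h2 : (eval (x t) s' * (W.map (eval (x t))).eval (y i t)) ^ 2 = 0 := by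
      have h3 : (eval (x t) s' * (W.map (eval (x t))).eval (y i t)) ^ 2 =
        eval (x t) s' * (eval (x t) s' * (W.map (eval (x t))).eval (y i t) ^ 2) := by ring
      rw [h3, h1]
      ring
    rw [Polynomial.map_mul, Polynomial.eval_mul, Polynomial.map_C, Polynomial.eval_C]
    exact pow_eq_zero_iff (two_ne_zero) |>.1 h2
  have hW0 : W ≠ 0 := by
    rintro rfl
    rw [Polynomial.map_zero] at hW
    have h1 : Polynomial.C (φ s) * (A₁ * B₁) ≠ 0 :=
      mul_ne_zero (Polynomial.C_ne_zero.2 hφs) (mul_ne_zero hA0 hB0)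
    exact h1 hW.symm
  have h5 := hmin (Polynomial.C s' * W) (mul_ne_zero (Polynomial.C_ne_zero.2 hs') hW0) hWV
  have h6 : (Polynomial.C s' * W).natDegree ≤ W.natDegree := Polynomial.natDegree_C_mul_le _ _
  have h7 : W.natDegree = (A₁ * B₁).natDegree := by
    rw [← Polynomial.natDegree_map_eq_of_injective hinj W, hW,
      Polynomial.natDegree_C_mul hφs]
  omega

/-- The degree of the numerator of the pull back. -/
private theorem Bd_Qdeg {S : Type*} [CommRing S] (a b : Polynomial S) (ha : a.natDegree ≤ 1)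
    (hb : b.natDegree ≤ 1) (c : ℕ → S) (m : ℕ) :
    (∑ j ∈ Finset.range (m + 1), Polynomial.C (c j) * a ^ j * b ^ (m - j)).natDegree ≤ m := by
  refine Polynomial.natDegree_sum_le_of_forall_le _ _ fun j hj => ?_
  rw [Finset.mem_range] at hj
  have h1 : (a ^ j).natDegree ≤ j * 1 :=
    Polynomial.natDegree_pow_le.trans (Nat.mul_le_mul_left _ ha)
  have h2 : (b ^ (m - j)).natDegree ≤ (m - j) * 1 :=
    Polynomial.natDegree_pow_le.trans (Nat.mul_le_mul_left _ hb)
  have h3 : (Polynomial.C (c j) * a ^ j).natDegree ≤ (a ^ j).natDegree :=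
    Polynomial.natDegree_C_mul_le _ _
  have h4 : (Polynomial.C (c j) * a ^ j * b ^ (m - j)).natDegree ≤
      (Polynomial.C (c j) * a ^ j).natDegree + (b ^ (m - j)).natDegree :=
    Polynomial.natDegree_mul_le
  omega

/-- Step (2): semi-invariance. -/
private theorem Bd_semi {K : Type*} [Field K] {n : ℕ} (N D : Fin n → MvPolynomial (Fin n) K)
    (hfs : Function.Injective (fs N D)) (x : ℕ → Fin n → K) (hx : Orb N D x)
    (a b : Polynomial (MvPolynomial (Fin n) K)) (hab : Mob a b)
    (y : Fin 3 → ℕ → K)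
    (hy : ∀ i t, (b.map (eval (x t))).eval (y i t) ≠ 0 ∧
      y i (t + 1) * (b.map (eval (x t))).eval (y i t) = (a.map (eval (x t))).eval (y i t))
    (P : Polynomial (MvPolynomial (Fin n) K)) (hP0 : P ≠ 0) (hPV : Bd_V x y P)
    (hmin : ∀ Q : Polynomial (MvPolynomial (Fin n) K), Q ≠ 0 → Bd_V x y Q →
        P.natDegree ≤ Q.natDegree) :
    ∃ μ : FractionRing (MvPolynomial (Fin n) K), μ ≠ 0 ∧
      ∑ j ∈ Finset.range (P.natDegree + 1), Polynomial.C (fs N D (P.coeff j)) *
        (a.map (algebraMap _ (FractionRing (MvPolynomial (Fin n) K)))) ^ j *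
        (b.map (algebraMap _ (FractionRing (MvPolynomial (Fin n) K)))) ^ (P.natDegree - j) =
      Polynomial.C μ * P.map (algebraMap _ (FractionRing (MvPolynomial (Fin n) K))) := by
  classical
  obtain ⟨φ, hφ⟩ : ∃ φ : MvPolynomial (Fin n) K →+* FractionRing (MvPolynomial (Fin n) K),
    φ = algebraMap _ _ := ⟨_, rfl⟩
  have hinj : Function.Injective φ := by
    rw [hφ]; exact IsFractionRing.injective _ _
  have hφ0 : ∀ z, z ≠ 0 → φ z ≠ 0 := fun z hz h => hz (hinj (by rw [h, map_zero]))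
  obtain ⟨m, hm⟩ : ∃ m, m = P.natDegree := ⟨_, rfl⟩
  obtain ⟨r, hr⟩ : ∃ r : ℕ, ∀ j ∈ Finset.range (m + 1), ∀ i, degreeOf i (P.coeff j) ≤ r := by
    refine ⟨∑ j ∈ Finset.range (m + 1), ∑ i, degreeOf i (P.coeff j), fun j hj i => ?_⟩
    have h1 : degreeOf i (P.coeff j) ≤ ∑ i, degreeOf i (P.coeff j) :=
      Finset.single_le_sum (f := fun i => degreeOf i (P.coeff j)) (fun _ _ => Nat.zero_le _)
        (Finset.mem_univ i)
    have h2 : (∑ i, degreeOf i (P.coeff j)) ≤
        ∑ j ∈ Finset.range (m + 1), ∑ i, degreeOf i (P.coeff j) :=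
      Finset.single_le_sum (f := fun j => ∑ i, degreeOf i (P.coeff j)) (fun _ _ => Nat.zero_le _) hj
    exact h1.trans h2
  obtain ⟨Q, hQ⟩ : ∃ Q : Polynomial (MvPolynomial (Fin n) K),
      Q = ∑ j ∈ Finset.range (m + 1),
        Polynomial.C (Cl N D r (P.coeff j)) * a ^ j * b ^ (m - j) := ⟨_, rfl⟩
  have hQd : Q.natDegree ≤ m := by
    rw [hQ]
    exact Bd_Qdeg a b hab.1 hab.2.1 (fun j => Cl N D r (P.coeff j)) m
  -- `Q` vanishes on the orbits
  have hQV : Bd_V x y Q := by
    intro i t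
    have h1 : ∀ j ∈ Finset.range (m + 1), eval (x t) (Cl N D r (P.coeff j)) =
        (∏ i, eval (x t) (D i)) ^ r * eval (x (t + 1)) (P.coeff j) := by
      intro j hj
      rw [Cl_spec N D r (P.coeff j) (hr j hj) (eval (x t)) (x (t + 1)) fun i => (hx t i).2]
      congr 1
      have h2 : (eval (x t)).comp C = RingHom.id K := by
        ext z
        simp
      rw [h2]
      rfl
    have h3 := (hy i t).2
    have h4 : (Q.map (eval (x t))).eval (y i t) =
        (∏ i, eval (x t) (D i)) ^ r * ((b.map (eval (x t))).eval (y i t)) ^ m *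
          (P.map (eval (x (t + 1)))).eval (y i (t + 1)) := by
      rw [hQ, Polynomial.map_sum, Polynomial.eval_finsetSum, Bd_sum P, ← hm, Finset.mul_sum]
      refine Finset.sum_congr rfl fun j hj => ?_
      rw [Polynomial.map_mul, Polynomial.map_mul, Polynomial.map_pow, Polynomial.map_pow,
        Polynomial.eval_mul, Polynomial.eval_mul, Polynomial.eval_pow, Polynomial.eval_pow,
        Polynomial.map_C, Polynomial.eval_C, h1 j hj, ← h3, mul_pow]
      have hjm : j ≤ m := by
        rw [Finset.mem_range] at hj; omega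
      have h5 : ((b.map (eval (x t))).eval (y i t)) ^ m =
          ((b.map (eval (x t))).eval (y i t)) ^ j *
            ((b.map (eval (x t))).eval (y i t)) ^ (m - j) := by
        rw [← pow_add, Nat.add_sub_cancel' hjm]
      rw [h5]
      ring
    rw [h4, hPV i (t + 1), mul_zero]
  -- the combination is zero
  have hT0 : Polynomial.C P.leadingCoeff * Q - Polynomial.C (Q.coeff m) * P = 0 := by
    by_contra hT
    have hTV : Bd_V x y (Polynomial.C P.leadingCoeff * Q - Polynomial.C (Q.coeff m) * P) := by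
      intro i t
      rw [Polynomial.map_sub, Polynomial.eval_sub, Polynomial.map_mul, Polynomial.map_mul,
        Polynomial.eval_mul, Polynomial.eval_mul, hQV i t, hPV i t, mul_zero, mul_zero, sub_zero]
    have h1 := hmin _ hT hTV
    have h2 : (Polynomial.C P.leadingCoeff * Q - Polynomial.C (Q.coeff m) * P).natDegree ≤ m := by
      refine (Polynomial.natDegree_sub_le _ _).trans (max_le ?_ ?_)
      · exact (Polynomial.natDegree_C_mul_le _ _).trans hQd
      · exact (Polynomial.natDegree_C_mul_le _ _).trans hm.symm.le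
    have h3 : (Polynomial.C P.leadingCoeff * Q - Polynomial.C (Q.coeff m) * P).natDegree = m := by
      omega
    have h4 := Polynomial.leadingCoeff_ne_zero.2 hT
    apply h4
    rw [Polynomial.leadingCoeff, h3, Polynomial.coeff_sub, Polynomial.coeff_C_mul,
      Polynomial.coeff_C_mul, Polynomial.leadingCoeff, ← hm]
    ring
  -- the images of the coefficients
  have hD0 : ∀ i, D i ≠ 0 := by
    intro i h0
    have h1 := (hx 0 i).1
    rw [h0, map_zero] at h1
    exact h1 rfl
  have hcoef : ∀ j ∈ Finset.range (m + 1), φ (Cl N D r (P.coeff j)) =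
      (∏ i, φ (D i)) ^ r * fs N D (P.coeff j) := by
    intro j hj
    rw [Cl_spec N D r (P.coeff j) (hr j hj) φ (fun i => φ (N i) / φ (D i))
      fun i => div_mul_cancel₀ _ (hφ0 _ (hD0 i))]
    congr 1
    have h2 : φ.comp C = algebraMap K (FractionRing (MvPolynomial (Fin n) K)) := by
      rw [hφ, IsScalarTower.algebraMap_eq K (MvPolynomial (Fin n) K)
        (FractionRing (MvPolynomial (Fin n) K)), MvPolynomial.algebraMap_eq]
    rw [h2, fs, aeval_def, ← hφ]
  obtain ⟨G, hG⟩ : ∃ G : Polynomial (FractionRing (MvPolynomial (Fin n) K)),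
      G = ∑ j ∈ Finset.range (m + 1), Polynomial.C (fs N D (P.coeff j)) *
        (a.map φ) ^ j * (b.map φ) ^ (m - j) := ⟨_, rfl⟩
  have hQG : Q.map φ = Polynomial.C ((∏ i, φ (D i)) ^ r) * G := by
    rw [hQ, hG, Polynomial.map_sum, Finset.mul_sum]
    refine Finset.sum_congr rfl fun j hj => ?_
    rw [Polynomial.map_mul, Polynomial.map_mul, Polynomial.map_pow, Polynomial.map_pow,
      Polynomial.map_C, hcoef j hj, Polynomial.C_mul]
    ring
  have hrel : Polynomial.C (φ P.leadingCoeff) * (Polynomial.C ((∏ i, φ (D i)) ^ r) * G) =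
      Polynomial.C (φ (Q.coeff m)) * P.map φ := by
    have h1 := congrArg (Polynomial.map φ) (sub_eq_zero.1 hT0)
    rw [Polynomial.map_mul, Polynomial.map_mul, Polynomial.map_C, Polynomial.map_C, hQG] at h1
    exact h1
  have hΔ : (∏ i, φ (D i)) ^ r ≠ 0 :=
    pow_ne_zero _ (Finset.prod_ne_zero_iff.2 fun i _ => hφ0 _ (hD0 i))
  have hl : φ P.leadingCoeff ≠ 0 := hφ0 _ (Polynomial.leadingCoeff_ne_zero.2 hP0)
  have hG0 : G ≠ 0 := by
    rw [hG]
    refine In_ne (a.map φ) (b.map φ) (Or.inl ⟨?_, ?_, ?_⟩) (fun j => fs N D (P.coeff j)) m ?_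
    · exact Polynomial.natDegree_map_le.trans hab.1
    · exact Polynomial.natDegree_map_le.trans hab.2.1
    · rw [Polynomial.coeff_map, Polynomial.coeff_map, Polynomial.coeff_map, Polynomial.coeff_map,
        ← map_mul, ← map_mul, ← map_sub]
      exact hφ0 _ hab.2.2
    · intro h0
      have h1 : P.coeff m = 0 := hfs (by rw [map_zero]; exact h0)
      rw [hm] at h1
      exact Polynomial.leadingCoeff_ne_zero.2 hP0 h1
  obtain ⟨μ, hμ⟩ : ∃ μ, μ = φ (Q.coeff m) / (φ P.leadingCoeff * (∏ i, φ (D i)) ^ r) := ⟨_, rfl⟩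
  have hfin : G = Polynomial.C μ * P.map φ := by
    have h1 : Polynomial.C (φ P.leadingCoeff * (∏ i, φ (D i)) ^ r) ≠ 0 :=
      Polynomial.C_ne_zero.2 (mul_ne_zero hl hΔ)
    apply mul_left_cancel₀ h1
    rw [Polynomial.C_mul, mul_assoc, hrel, ← mul_assoc, ← Polynomial.C_mul, ← Polynomial.C_mul,
      hμ, mul_div_cancel₀]
    exact mul_ne_zero hl hΔ
  refine ⟨μ, ?_, ?_⟩
  · rintro rfl
    apply hG0
    rw [hfin]
    simp
  · rw [← hφ, ← hm, ← hG]
    exact hfin

theorem BADr {K : Type*} [Field K] [CharZero K] {n : ℕ} (N D : Fin n → MvPolynomial (Fin n) K)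
    (hfs : Function.Injective (fs N D)) (x : ℕ → Fin n → K) (hx : Orb N D x) (hdx : DenseSeq x)
    (a b : Polynomial (MvPolynomial (Fin n) K)) (hab : Mob a b)
    (hdet : ∀ t, eval (x t) (a.coeff 1 * b.coeff 0 - a.coeff 0 * b.coeff 1) ≠ 0)
    (y : Fin 3 → ℕ → K)
    (hy : ∀ i t, (b.map (eval (x t))).eval (y i t) ≠ 0 ∧
      y i (t + 1) * (b.map (eval (x t))).eval (y i t) = (a.map (eval (x t))).eval (y i t))
    (hne : Function.Injective fun i => y i 0)
    (hbad : ∀ i, ∃ P : Polynomial (MvPolynomial (Fin n) K), P ≠ 0 ∧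
      ∀ t, (P.map (eval (x t))).eval (y i t) = 0) :
    ∃ (P : Polynomial (MvPolynomial (Fin n) K)) (μ : FractionRing (MvPolynomial (Fin n) K)),
      μ ≠ 0 ∧ 3 ≤ P.natDegree ∧
      (P.map (algebraMap _ (FractionRing (MvPolynomial (Fin n) K)))).Separable ∧
      ∑ j ∈ Finset.range (P.natDegree + 1), Polynomial.C (fs N D (P.coeff j)) *
        (a.map (algebraMap _ (FractionRing (MvPolynomial (Fin n) K)))) ^ j *
        (b.map (algebraMap _ (FractionRing (MvPolynomial (Fin n) K)))) ^ (P.natDegree - j) =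
      Polynomial.C μ * P.map (algebraMap _ (FractionRing (MvPolynomial (Fin n) K))) := by
  have hinj := Bd_ne x a b hab hdet y hy hne
  obtain ⟨P, hP0, hPV, hP3, hmin⟩ := Bd_min x hdx y hinj hbad
  obtain ⟨μ, hμ, hsum⟩ := Bd_semi N D hfs x hx a b hab y hy P hP0 hPV hmin
  exact ⟨P, μ, hμ, hP3, Bd_sep x y P hP0 hPV hmin, hsum⟩

end H42.ZR
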