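import Pool.Agent.H42.ZR.Df

/-!
# ZR row Ca: periodic orbits of fractional linear cocycles over `\bar F_p`

`a t / b t` (`t ∈ ℕ`, periodic with period `N0`) are fractional linear maps over the locally finite
algebraically closed field `k` and `G t ≠ 0` are polynomials (periodic). There is a periodic orbit
`y t`, well defined and avoiding the zeros of `G t`.

PROOF. Let `M_t = [[a_1, a_0], [b_1, b_0]]` (`a_i = (a t).coeff i`, …), an invertible matrix
(`det = a_1 b_0 - a_0 b_1 ≠ 0`). For `v ∈ k` put `(p_0, q_0) = (v, 1)` and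
`(p_{t+1}, q_{t+1}) = M_t (p_t, q_t)`, so `(p_t, q_t) = C_t (v, 1)`, `C_t = M_{t-1} ⋯ M_0`
invertible. Let `C = C_{N0}`. The entries of `C` lie in a common finite subfield of `k` (by `lf`; the
set `{y | y^(p^r) = y}` with `r` the product of the exponents of the four entries), and `C` is
invertible, so `C` has finite order in `GL_2` of that finite ring: `C^m = 1` for some `m ≥ 1` (the
powers of `C` take finitely many values and `C` is a unit of the matrix ring over `k`). Since `M_t` is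
`N0`-periodic, `C_{N0 j} = C^j` and `C_{t + N0 m} = C_t`.
So `p_{t + N0 m} = p_t`, `q_{t+N0 m} = q_t` for all `t`.

For `t < N0 m`: `q_t` is a polynomial in `v` of degree `≤ 1`, `q_t = γ v + δ` with `(γ, δ) ≠ (0,0)`
(second row of an invertible matrix), so `q_t = 0` for at most one `v`. If all `q_t ≠ 0` put
`y_t = p_t / q_t`. Then `(b t).eval (y_t) = b_1 y_t + b_0 = q_{t+1}/q_t ≠ 0` and
`y_{t+1} * (b t).eval y_t = p_{t+1}/q_t = (a t).eval y_t` (both polynomials have degree `≤ 1`).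
Avoiding `G`: `v ↦ p_t/q_t` is injective on `{v | q_t ≠ 0}` (`C_t` invertible: if
`C_t (v,1) = c C_t (v',1)` then `(v,1) = c (v',1)`, `v = v'`), and `G t` has finitely many zeros, so
for each `t` only finitely many `v` have `(G t).eval (y_t) = 0`. For `t < N0 m` this excludes finitely
many `v`; `k` is infinite, so some `v` satisfies everything for `t < N0 m`, and by periodicity
(`G`, `a`, `b`, `q`, `y` are all periodic with period `N0 m`) for all `t`. Take `M = m`.
-/

open Polynomial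

namespace H42.ZR

private theorem ZRCa_pow {k : Type*} [Monoid k] {p r : ℕ} {y : k} (h : y ^ (p ^ r) = y) (s : ℕ) :
    y ^ (p ^ (r * s)) = y := by
  induction s with
  | zero => simp
  | succ s ih => rw [Nat.mul_succ, pow_add, pow_mul, ih, h]

/-- Elements of a locally finite field of characteristic `p` lie in a common finite subring. -/
private theorem ZRCa_finite {k : Type*} [Field k] {p : ℕ} [Fact p.Prime] [CharP k p]
    (lf : ∀ y : k, ∃ r : ℕ, 0 < r ∧ y ^ (p ^ r) = y) (s : Finset k) :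
    ∃ S : Subring k, (S : Set k).Finite ∧ ∀ y ∈ s, y ∈ S := by
  classical
  have hp : p.Prime := Fact.out
  have h1 : ∃ r : ℕ, 0 < r ∧ ∀ y ∈ s, y ^ (p ^ r) = y := by
    induction s using Finset.induction_on with
    | empty => exact ⟨1, one_pos, by simp⟩
    | insert x s _ ih =>
      obtain ⟨r, hr, h⟩ := ih
      obtain ⟨r', hr', h'⟩ := lf x
      refine ⟨r * r', Nat.mul_pos hr hr', fun y hy => ?_⟩
      rcases Finset.mem_insert.1 hy with rfl | hy
      · rw [mul_comm]
        exact ZRCa_pow h' r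
      · exact ZRCa_pow (h y hy) r'
  obtain ⟨r, hr, h⟩ := h1
  refine ⟨(iterateFrobenius k p r).eqLocus (RingHom.id k), ?_, fun y hy => ?_⟩
  · have hne : (X ^ p ^ r - X : k[X]) ≠ 0 :=
      FiniteField.X_pow_card_pow_sub_X_ne_zero k hr.ne' hp.one_lt
    refine (Polynomial.finite_setOfPred_isRoot hne).subset fun y hy => ?_
    have h2 : y ^ p ^ r = y := hy
    show IsRoot _ _
    simp [h2]
  · show y ^ p ^ r = y
    exact h y hy

/-- Invertible matrices over a locally finite field have finite order. -/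
private theorem ZRCa_order {k : Type*} [Field k] {p : ℕ} [Fact p.Prime] [CharP k p]
    (lf : ∀ y : k, ∃ r : ℕ, 0 < r ∧ y ^ (p ^ r) = y) (A : Matrix (Fin 2) (Fin 2) k)
    (hA : A.det ≠ 0) : ∃ m : ℕ, 0 < m ∧ A ^ m = 1 := by
  classical
  obtain ⟨S, hS, hmem⟩ := ZRCa_finite lf (Finset.univ.image fun q : Fin 2 × Fin 2 => A q.1 q.2)
  have hA1 : ∀ i j, A i j ∈ S := fun i j =>
    hmem _ (Finset.mem_image.2 ⟨(i, j), Finset.mem_univ _, rfl⟩)
  have hpow : ∀ n : ℕ, ∀ i j, (A ^ n) i j ∈ S := by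
    intro n
    induction n with
    | zero =>
      intro i j
      rw [pow_zero, Matrix.one_apply]
      split_ifs
      · exact S.one_mem
      · exact S.zero_mem
    | succ n ih =>
      intro i j
      rw [pow_succ, Matrix.mul_apply]
      exact S.sum_mem fun l _ => S.mul_mem (ih i l) (hA1 l j)
  have hfin : {B : Matrix (Fin 2) (Fin 2) k | ∀ i, B i ∈ {f : Fin 2 → k | ∀ j, f j ∈ (S : Set k)}}.Finite :=
    Set.Finite.pi' fun _ => Set.Finite.pi' fun _ => hS
  obtain ⟨i, j, hij, he⟩ := Set.Finite.exists_lt_map_eq_of_forall_mem (f := fun n : ℕ => A ^ n)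
    (t := {B : Matrix (Fin 2) (Fin 2) k | ∀ i, B i ∈ {f : Fin 2 → k | ∀ j, f j ∈ (S : Set k)}})
    (fun n i j => hpow n i j) hfin
  refine ⟨j - i, by omega, ?_⟩
  have hu : IsUnit (A ^ i) := ((Matrix.isUnit_iff_isUnit_det A).2 (isUnit_iff_ne_zero.2 hA)).pow i
  have h1 : A ^ i * A ^ (j - i) = A ^ i * 1 := by
    rw [← pow_add, mul_one, Nat.add_sub_cancel' hij.le]
    exact he.symm
  exact hu.mul_left_cancel h1

/-- The matrix of the fibre map. -/
private noncomputable def ZRCa_M {k : Type*} [Field k] (a b : ℕ → k[X]) (t : ℕ) :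
    Matrix (Fin 2) (Fin 2) k :=
  !![(a t).coeff 1, (a t).coeff 0; (b t).coeff 1, (b t).coeff 0]

/-- The product of the matrices. -/
private noncomputable def ZRCa_C {k : Type*} [Field k] (a b : ℕ → k[X]) :
    ℕ → Matrix (Fin 2) (Fin 2) k
  | 0 => 1
  | t + 1 => ZRCa_M a b t * ZRCa_C a b t

private theorem ZRCa_add {k : Type*} [Field k] (a b : ℕ → k[X]) (N0 : ℕ)
    (hpa : ∀ t, a (t + N0) = a t) (hpb : ∀ t, b (t + N0) = b t) (t : ℕ) :
    ZRCa_C a b (t + N0) = ZRCa_C a b t * ZRCa_C a b N0 := by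
  induction t with
  | zero => rw [Nat.zero_add]; simp [ZRCa_C]
  | succ t ih =>
    have h1 : t + 1 + N0 = (t + N0) + 1 := by omega
    have h2 : ZRCa_M a b (t + N0) = ZRCa_M a b t := by
      unfold ZRCa_M
      rw [hpa, hpb]
    rw [h1]
    simp only [ZRCa_C]
    rw [h2, ih, Matrix.mul_assoc]

private theorem ZRCa_addmul {k : Type*} [Field k] (a b : ℕ → k[X]) (N0 : ℕ)
    (hpa : ∀ t, a (t + N0) = a t) (hpb : ∀ t, b (t + N0) = b t) (t m : ℕ) :
    ZRCa_C a b (t + N0 * m) = ZRCa_C a b t * ZRCa_C a b N0 ^ m := by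
  induction m with
  | zero => simp
  | succ m ih =>
    rw [Nat.mul_succ, ← Nat.add_assoc, ZRCa_add a b N0 hpa hpb, ih, pow_succ, Matrix.mul_assoc]

private theorem ZRCa_det {k : Type*} [Field k] (a b : ℕ → k[X])
    (hab : ∀ t, Mob (a t) (b t)) (t : ℕ) : (ZRCa_C a b t).det ≠ 0 := by
  induction t with
  | zero => simp [ZRCa_C]
  | succ t ih =>
    simp only [ZRCa_C]
    rw [Matrix.det_mul]
    refine mul_ne_zero ?_ ih
    unfold ZRCa_M
    rw [Matrix.det_fin_two_of]
    exact (hab t).2.2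

/-- the zero set of the denominator is finite -/
private theorem ZRCa_fin1 {k : Type*} [Field k] (A : Matrix (Fin 2) (Fin 2) k) (hA : A.det ≠ 0) :
    {v : k | A 1 0 * v + A 1 1 = 0}.Finite := by
  refine Set.Subsingleton.finite fun v hv w hw => ?_
  have hv' : A 1 0 * v + A 1 1 = 0 := hv
  have hw' : A 1 0 * w + A 1 1 = 0 := hw
  have h1 : A 1 0 * (v - w) = 0 := by linear_combination hv' - hw'
  rcases mul_eq_zero.1 h1 with h | h
  · exfalso
    apply hA
    rw [Matrix.det_fin_two, h]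
    rw [h] at hv'
    have h2 : A 1 1 = 0 := by linear_combination hv'
    rw [h2]
    ring
  · exact sub_eq_zero.1 h

private theorem ZRCa_fin2 {k : Type*} [Field k] (A : Matrix (Fin 2) (Fin 2) k) (hA : A.det ≠ 0)
    (G : k[X]) (hG : G ≠ 0) :
    {v : k | A 1 0 * v + A 1 1 ≠ 0 ∧ G.eval ((A 0 0 * v + A 0 1) / (A 1 0 * v + A 1 1)) = 0}.Finite := by
  refine Set.Finite.of_injOn (f := fun v => (A 0 0 * v + A 0 1) / (A 1 0 * v + A 1 1))
    (t := {y | G.IsRoot y}) (fun v hv => hv.2) ?_ (Polynomial.finite_setOfPred_isRoot hG)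
  intro v hv w hw h
  have h0 : (A 0 0 * v + A 0 1) / (A 1 0 * v + A 1 1) = (A 0 0 * w + A 0 1) / (A 1 0 * w + A 1 1) := h
  rw [div_eq_div_iff hv.1 hw.1] at h0
  have h1 : A.det * (v - w) = 0 := by
    rw [Matrix.det_fin_two]
    linear_combination h0
  rcases mul_eq_zero.1 h1 with h2 | h2
  · exact absurd h2 hA
  · exact sub_eq_zero.1 h2

private theorem ZRCa_eval {k : Type*} [Field k] {f : k[X]} (hf : f.natDegree ≤ 1) (y : k) :
    f.eval y = f.coeff 1 * y + f.coeff 0 := by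
  conv_lhs => rw [Polynomial.eq_X_add_C_of_natDegree_le_one hf]
  simp

theorem CLa {k : Type*} [Field k] [IsAlgClosed k] {p : ℕ} [Fact p.Prime] [CharP k p]
    (lf : ∀ y : k, ∃ r : ℕ, 0 < r ∧ y ^ (p ^ r) = y) (a b G : ℕ → k[X]) (N0 : ℕ) (hN0 : 0 < N0)
    (hab : ∀ t, Mob (a t) (b t)) (hG : ∀ t, G t ≠ 0) (hpa : ∀ t, a (t + N0) = a t)
    (hpb : ∀ t, b (t + N0) = b t) (hpG : ∀ t, G (t + N0) = G t) :
    ∃ (y : ℕ → k) (M : ℕ), 0 < M ∧ (∀ t, y (t + N0 * M) = y t) ∧
      (∀ t, (b t).eval (y t) ≠ 0 ∧ y (t + 1) * (b t).eval (y t) = (a t).eval (y t)) ∧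
      ∀ t, (G t).eval (y t) ≠ 0 := by
  classical
  obtain ⟨m, hm, hC⟩ := ZRCa_order lf (ZRCa_C a b N0) (ZRCa_det a b hab N0)
  have hper : ∀ t, ZRCa_C a b (t + N0 * m) = ZRCa_C a b t := by
    intro t
    rw [ZRCa_addmul a b N0 hpa hpb, hC, mul_one]
  have hperG : ∀ t, G (t + N0 * m) = G t := by
    intro t
    have h1 : Function.Periodic G N0 := hpG
    have h2 := h1.nat_mul m
    have h3 : N0 * m = m * N0 := Nat.mul_comm _ _
    rw [h3]
    exact h2 t
  obtain ⟨q, hq⟩ : ∃ q : ℕ → k → k, q = fun t v => ZRCa_C a b t 1 0 * v + ZRCa_C a b t 1 1 := ⟨_, rfl⟩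
  obtain ⟨P, hP⟩ : ∃ P : ℕ → k → k, P = fun t v => ZRCa_C a b t 0 0 * v + ZRCa_C a b t 0 1 := ⟨_, rfl⟩
  have hfin : (⋃ t ∈ Finset.range (N0 * m), ({v : k | q t v = 0} ∪
      {v : k | q t v ≠ 0 ∧ (G t).eval (P t v / q t v) = 0})).Finite := by
    refine Set.Finite.biUnion (Finset.finite_toSet _) fun t _ => ?_
    rw [hq, hP]
    exact (ZRCa_fin1 _ (ZRCa_det a b hab t)).union (ZRCa_fin2 _ (ZRCa_det a b hab t) _ (hG t))
  have : Infinite k := IsAlgClosed.instInfinite
  obtain ⟨v, hv⟩ := hfin.infinite_compl.nonempty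
  have hv1 : ∀ t, t < N0 * m → q t v ≠ 0 ∧ (G t).eval (P t v / q t v) ≠ 0 := by
    intro t ht
    have h1 : v ∉ ({v : k | q t v = 0} ∪ {v : k | q t v ≠ 0 ∧ (G t).eval (P t v / q t v) = 0}) := by
      intro h
      exact hv (Set.mem_biUnion (Finset.mem_range.2 ht) h)
    have h2 : q t v ≠ 0 := fun h => h1 (Or.inl h)
    exact ⟨h2, fun h => h1 (Or.inr ⟨h2, h⟩)⟩
  have hpos : 0 < N0 * m := Nat.mul_pos hN0 hm
  have hmodC : ∀ t, ZRCa_C a b (t % (N0 * m)) = ZRCa_C a b t := fun t =>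
    Function.Periodic.map_mod_nat (f := ZRCa_C a b) hper t
  have hmodG : ∀ t, G (t % (N0 * m)) = G t := fun t => Function.Periodic.map_mod_nat (f := G) hperG t
  have hv2 : ∀ t, q t v ≠ 0 ∧ (G t).eval (P t v / q t v) ≠ 0 := by
    intro t
    have h1 := hv1 (t % (N0 * m)) (Nat.mod_lt _ hpos)
    rw [hq, hP] at h1 ⊢
    simp only [hmodC, hmodG] at h1
    exact h1
  have hqs : ∀ t, q (t + 1) v = (b t).coeff 1 * P t v + (b t).coeff 0 * q t v := by
    intro t
    rw [hq, hP]
    simp only [ZRCa_C, ZRCa_M, Matrix.mul_apply, Fin.sum_univ_two]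
    simp
    ring
  have hPs : ∀ t, P (t + 1) v = (a t).coeff 1 * P t v + (a t).coeff 0 * q t v := by
    intro t
    rw [hq, hP]
    simp only [ZRCa_C, ZRCa_M, Matrix.mul_apply, Fin.sum_univ_two]
    simp
    ring
  refine ⟨fun t => P t v / q t v, m, hm, fun t => ?_, fun t => ?_, fun t => (hv2 t).2⟩
  · rw [hq, hP]
    simp only [hper]
  · have h0 := (hv2 t).1
    have h1 := (hv2 (t + 1)).1
    have e1 : (b t).eval (P t v / q t v) = q (t + 1) v / q t v := by
      rw [ZRCa_eval (hab t).2.1, hqs, eq_div_iff h0]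
      field_simp
    have e2 : (a t).eval (P t v / q t v) = P (t + 1) v / q t v := by
      rw [ZRCa_eval (hab t).1, hPs, eq_div_iff h0]
      field_simp
    refine ⟨?_, ?_⟩
    · rw [e1]
      exact div_ne_zero h1 h0
    · rw [e1, e2]
      field_simp

end H42.ZR
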