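import Pool.Agent.H42.ZR.IP

/-!
# ZR row Cb: periodic orbits of superattracting cocycles over `\bar F_p`

`a t / b t` (`t ∈ ℕ`, periodic with period `N0`), `deg (a t) ≥ deg (b t) + 2`, coprime; `G t ≠ 0`
periodic. There is a periodic orbit `y t`, well defined and avoiding the zeros of `G t`.
(`Pool/Agent/H42/ZD/CL.lean`, proved, contains the polynomial version of this argument.)

PROOF. For a start time `t0 = 0` compose the pairs: `(A_0, B_0) = (X, 1)`,
`A_{t+1} = hom (a t).natDegree (a t) A_t B_t`, `B_{t+1} = hom (a t).natDegree (b t) A_t B_t`. By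
`Cp_step` and induction: `B_t ≠ 0`, `deg B_t < deg A_t`, coprime; for `t ≥ 1`,
`deg B_t + 2 ≤ deg A_t`; and if `B_t(v) ≠ 0` then, with `y_0 = v`, `y_{s+1} = a_s(y_s) / b_s(y_s)`,
all `b_s(y_s) ≠ 0` for `s < t` and `y_t = A_t(v)/B_t(v)`.
Let `(A, B) = (A_{N0}, B_{N0})` and `φ(v) = A(v)/B(v)`. By `IPr` the set `Per` of `v` with
`φ^[m] v = v` for some `m > 0` and `B(φ^[j] v) ≠ 0` for all `j` is infinite. For `v ∈ Per` let
`y_t(v)` be the sequence `y_0 = v`, `y_{t+1} = a_t(y_t)/b_t(y_t)`. By the periodicity of `a`, `b` and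
the composition statement, `y_{N0 j}(v) = φ^[j] v` and `b_t(y_t) ≠ 0` for all `t`; so
`y_{t + N0 m} = y_t` for all `t` (same recursion, same value at `t = 0`).

Avoiding `G`: consider the map `F (t, y) = (t + 1, a_t(y)/b_t(y))` on `ZMod N0 × k` or simply the
pairs `(t mod N0, y_t)`. Bad pairs: `Bad = {(t, y) | t < N0, (G t).eval y = 0}`, a finite set. If
`v ∈ Per` and `(G t).eval (y_t(v)) = 0` for some `t`, then `(t mod N0, y_t(v)) ∈ Bad`. For each bad
pair `(t0, y)` the set of `v ∈ Per` such that `(t mod N0, y_t(v)) = (t0, y)` for some `t` is finite: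
such a `v` is one of the values `y'_s` of the sequence starting from `(t0, y)` (since `v`'s sequence
is periodic, `v` is reached again from `(t0, y)`), that sequence is determined by `(t0, y)`, and it is
periodic, hence takes finitely many values. So only finitely many `v ∈ Per` are excluded and some
`v ∈ Per` satisfies `(G t).eval (y_t(v)) ≠ 0` for all `t`. Take its sequence, `M = m`.
-/

open Polynomial

namespace H42.ZR

private theorem Cb_orbit_finite {α : Type*} (F : α → α) (b : α) (M : ℕ) (hM : 0 < M)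
    (h : F^[M] b = b) : (Set.range fun s : ℕ => F^[s] b).Finite := by
  have hp : Function.IsPeriodicPt F M b := h
  refine ((Finset.range M).finite_toSet.image (fun s : ℕ => F^[s] b)).subset ?_
  rintro _ ⟨s, rfl⟩
  exact ⟨s % M, by simpa using Nat.mod_lt s hM, hp.iterate_mod_apply s⟩

private theorem Cb_back {α : Type*} (F : α → α) (q : α) (M t : ℕ) (hM : 0 < M)
    (h : F^[M] q = q) : F^[M] (F^[t] q) = F^[t] q ∧ ∃ s : ℕ, F^[s] (F^[t] q) = q := by
  have hp : Function.IsPeriodicPt F M q := h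
  refine ⟨hp.apply_iterate t, (M - 1) * t, ?_⟩
  rw [← Function.iterate_add_apply]
  have e : (M - 1) * t + t = t * M := by
    obtain ⟨m, rfl⟩ : ∃ m, M = m + 1 := ⟨M - 1, by omega⟩
    simp only [Nat.add_sub_cancel]
    ring
  rw [e]
  exact hp.const_mul t

private noncomputable def Cb_Y {k : Type*} [Field k] (a b : ℕ → k[X]) (v : k) : ℕ → k
  | 0 => v
  | t + 1 => (a t).eval (Cb_Y a b v t) / (b t).eval (Cb_Y a b v t)

private noncomputable def Cb_AB {k : Type*} [Field k] (a b : ℕ → k[X]) : ℕ → k[X] × k[X]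
  | 0 => (X, 1)
  | t + 1 => (hom (a t).natDegree (a t) (Cb_AB a b t).1 (Cb_AB a b t).2,
      hom (a t).natDegree (b t) (Cb_AB a b t).1 (Cb_AB a b t).2)

private theorem Cb_comp {k : Type*} [Field k] [IsAlgClosed k] (a b : ℕ → k[X])
    (hb : ∀ t, b t ≠ 0) (hab : ∀ t, (b t).natDegree + 2 ≤ (a t).natDegree)
    (hco : ∀ t, IsCoprime (a t) (b t)) (t : ℕ) :
    (Cb_AB a b t).2 ≠ 0 ∧ (Cb_AB a b t).2.natDegree < (Cb_AB a b t).1.natDegree ∧
    (0 < t → (Cb_AB a b t).2.natDegree + 2 ≤ (Cb_AB a b t).1.natDegree) ∧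
    IsCoprime (Cb_AB a b t).1 (Cb_AB a b t).2 ∧
    ∀ v : k, (Cb_AB a b t).2.eval v ≠ 0 → (∀ s < t, (b s).eval (Cb_Y a b v s) ≠ 0) ∧
      Cb_Y a b v t = (Cb_AB a b t).1.eval v / (Cb_AB a b t).2.eval v := by
  induction t with
  | zero =>
    refine ⟨one_ne_zero, ?_, fun h => absurd h (lt_irrefl 0), isCoprime_one_right, ?_⟩
    · change (1 : k[X]).natDegree < (X : k[X]).natDegree
      rw [natDegree_one, natDegree_X]
      exact one_pos
    · intro v _
      refine ⟨fun s hs => absurd hs (Nat.not_lt_zero s), ?_⟩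
      change v = (X : k[X]).eval v / (1 : k[X]).eval v
      rw [eval_X, eval_one, div_one]
  | succ t ih =>
    obtain ⟨i1, i2, -, i4, i5⟩ := ih
    obtain ⟨c1, c2, c3, c4, c5⟩ := Cp_step (a t) (b t) (Cb_AB a b t).1 (Cb_AB a b t).2 (hb t)
      (hab t) (hco t) i1 i2 i4
    refine ⟨c2, ?_, fun _ => c3, c4, ?_⟩
    · change (hom (a t).natDegree (b t) (Cb_AB a b t).1 (Cb_AB a b t).2).natDegree <
        (hom (a t).natDegree (a t) (Cb_AB a b t).1 (Cb_AB a b t).2).natDegree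
      omega
    · intro v hv
      obtain ⟨d1, d2, d3⟩ := c5 v hv
      obtain ⟨e1, e2⟩ := i5 v d1
      rw [← e2] at d2 d3
      refine ⟨fun s hs => ?_, d3.symm⟩
      rcases Nat.lt_succ_iff_lt_or_eq.1 hs with hs | rfl
      · exact e1 s hs
      · exact d2

private theorem Cb_shift {k : Type*} [Field k] (a b : ℕ → k[X]) (N0 : ℕ)
    (hpa : ∀ t, a (t + N0) = a t) (hpb : ∀ t, b (t + N0) = b t) (v : k) (j s : ℕ) :
    Cb_Y a b v (N0 * j + s) = Cb_Y a b (Cb_Y a b v (N0 * j)) s := by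
  have ha : ∀ s, a (N0 * j + s) = a s := by
    intro s
    have h1 := Function.Periodic.map_mod_nat (f := a) (a := N0) hpa
    rw [← h1 (N0 * j + s), Nat.mul_add_mod, h1 s]
  have hb : ∀ s, b (N0 * j + s) = b s := by
    intro s
    have h1 := Function.Periodic.map_mod_nat (f := b) (a := N0) hpb
    rw [← h1 (N0 * j + s), Nat.mul_add_mod, h1 s]
  induction s with
  | zero => rfl
  | succ s ih =>
    change (a (N0 * j + s)).eval (Cb_Y a b v (N0 * j + s)) /
      (b (N0 * j + s)).eval (Cb_Y a b v (N0 * j + s)) =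
      (a s).eval (Cb_Y a b (Cb_Y a b v (N0 * j)) s) / (b s).eval (Cb_Y a b (Cb_Y a b v (N0 * j)) s)
    rw [ih, ha, hb]

theorem CLb {k : Type*} [Field k] [IsAlgClosed k] {p : ℕ} [Fact p.Prime] [CharP k p]
    (lf : ∀ y : k, ∃ r : ℕ, 0 < r ∧ y ^ (p ^ r) = y) (a b G : ℕ → k[X]) (N0 : ℕ) (hN0 : 0 < N0)
    (hb : ∀ t, b t ≠ 0) (hab : ∀ t, (b t).natDegree + 2 ≤ (a t).natDegree)
    (hco : ∀ t, IsCoprime (a t) (b t)) (hG : ∀ t, G t ≠ 0) (hpa : ∀ t, a (t + N0) = a t)
    (hpb : ∀ t, b (t + N0) = b t) (hpG : ∀ t, G (t + N0) = G t) :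
    ∃ (y : ℕ → k) (M : ℕ), 0 < M ∧ (∀ t, y (t + N0 * M) = y t) ∧
      (∀ t, (b t).eval (y t) ≠ 0 ∧ y (t + 1) * (b t).eval (y t) = (a t).eval (y t)) ∧
      ∀ t, (G t).eval (y t) ≠ 0 := by
  obtain ⟨A, hA⟩ : ∃ A, A = (Cb_AB a b N0).1 := ⟨_, rfl⟩
  obtain ⟨B, hB⟩ : ∃ B, B = (Cb_AB a b N0).2 := ⟨_, rfl⟩
  obtain ⟨c1, c2, c3, c4, c5⟩ := Cb_comp a b hb hab hco N0
  rw [← hB] at c1 c5
  rw [← hA, ← hB] at c3 c4
  rw [← hA] at c5
  have hPer := IPr lf A B (c3 hN0) c1 c4
  have hma := Function.Periodic.map_mod_nat (f := a) (a := N0) hpa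
  have hmb := Function.Periodic.map_mod_nat (f := b) (a := N0) hpb
  have hmG := Function.Periodic.map_mod_nat (f := G) (a := N0) hpG
  -- the orbits of the truly periodic points
  have hgood : ∀ (v : k), (∀ j : ℕ, B.eval ((fun z => A.eval z / B.eval z)^[j] v) ≠ 0) →
      (∀ j, Cb_Y a b v (N0 * j) = (fun z => A.eval z / B.eval z)^[j] v) ∧
      ∀ t, (b t).eval (Cb_Y a b v t) ≠ 0 := by
    intro v hv
    have h1 : ∀ j, Cb_Y a b v (N0 * j) = (fun z => A.eval z / B.eval z)^[j] v := by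
      intro j
      induction j with
      | zero => rfl
      | succ j ih =>
        rw [Nat.mul_succ, Cb_shift a b N0 hpa hpb, ih, (c5 _ (hv j)).2,
          Function.iterate_succ_apply']
    refine ⟨h1, fun t => ?_⟩
    have h2 := (c5 _ (hv (t / N0))).1 (t % N0) (Nat.mod_lt t hN0)
    rw [← h1, ← Cb_shift a b N0 hpa hpb, Nat.div_add_mod, hmb] at h2
    exact h2
  have hper : ∀ (v : k) (m : ℕ), (∀ j : ℕ, B.eval ((fun z => A.eval z / B.eval z)^[j] v) ≠ 0) →
      (fun z => A.eval z / B.eval z)^[m] v = v → ∀ t, Cb_Y a b v (t + N0 * m) = Cb_Y a b v t := by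
    intro v m hv hm t
    rw [Nat.add_comm, Cb_shift a b N0 hpa hpb, (hgood v hv).1, hm]
  -- the map on pairs
  obtain ⟨F, hF⟩ : ∃ F : ℕ × k → ℕ × k, F = fun q =>
    ((q.1 + 1) % N0, (a q.1).eval q.2 / (b q.1).eval q.2) := ⟨_, rfl⟩
  have hFit : ∀ (v : k) (t : ℕ), F^[t] (0, v) = (t % N0, Cb_Y a b v t) := by
    intro v t
    induction t with
    | zero => 
      rw [Nat.zero_mod]
      rfl
    | succ t ih =>
      rw [Function.iterate_succ_apply', ih, hF]
      change ((t % N0 + 1) % N0, (a (t % N0)).eval (Cb_Y a b v t) /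
        (b (t % N0)).eval (Cb_Y a b v t)) = _
      rw [hma, hmb, Nat.mod_add_mod]
      rfl
  by_contra hcon
  apply hPer
  set Bad : Set (ℕ × k) := ⋃ t ∈ Finset.range N0, (fun z : k => (t, z)) ''
    {z : k | (G t).IsRoot z} with hBad
  have hBf : Bad.Finite := by
    refine Set.Finite.biUnion (Finset.finite_toSet _) fun t _ => Set.Finite.image _ ?_
    exact Polynomial.finite_setOfPred_isRoot (hG t)
  have hOf : (⋃ b ∈ Bad, {q : ℕ × k | ∃ M : ℕ, 0 < M ∧ F^[M] b = b ∧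
      ∃ s : ℕ, F^[s] b = q}).Finite := by
    refine Set.Finite.biUnion hBf fun b _ => ?_
    by_cases hb : ∃ M : ℕ, 0 < M ∧ F^[M] b = b
    · obtain ⟨M, hM, hMb⟩ := hb
      refine (Cb_orbit_finite _ b M hM hMb).subset ?_
      rintro q ⟨_, _, _, s, rfl⟩
      exact ⟨s, rfl⟩
    · have he : {q : ℕ × k | ∃ M : ℕ, 0 < M ∧ F^[M] b = b ∧
          ∃ s : ℕ, F^[s] b = q} = ∅ := by
        ext q
        simp only [Set.mem_ofPred_eq, Set.mem_empty_iff_false, iff_false]
        rintro ⟨M, hM, hMb, _⟩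
        exact hb ⟨M, hM, hMb⟩
      rw [he]
      exact Set.finite_empty
  have hinj : Function.Injective (fun y : k => ((0, y) : ℕ × k)) := by
    intro y y' hy
    exact congrArg Prod.snd hy
  refine (hOf.preimage (f := fun y : k => ((0, y) : ℕ × k)) (hinj.injOn)).subset ?_
  rintro v ⟨m, hm, hmv, hv⟩
  have hper' := hper v m hv hmv
  have hbad : ∃ t, (G t).eval (Cb_Y a b v t) = 0 := by
    by_contra hno
    refine hcon ⟨Cb_Y a b v, m, hm, hper', fun t => ?_, fun t h0 => hno ⟨t, h0⟩⟩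
    have h1 := (hgood v hv).2 t
    refine ⟨h1, ?_⟩
    change (a t).eval (Cb_Y a b v t) / (b t).eval (Cb_Y a b v t) * (b t).eval (Cb_Y a b v t) = _
    exact div_mul_cancel₀ _ h1
  obtain ⟨t, ht⟩ := hbad
  have hq : F^[N0 * m] (0, v) = (0, v) := by
    rw [hFit, Nat.mul_mod_right]
    have h2 := hper' 0
    rw [Nat.zero_add] at h2
    rw [h2]
    rfl
  obtain ⟨hb1, s, hs⟩ := Cb_back F (0, v) (N0 * m) t (Nat.mul_pos hN0 hm) hq
  simp only [Set.mem_preimage, Set.mem_iUnion, Set.mem_ofPred_eq, exists_prop]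
  refine ⟨F^[t] (0, v), ?_, N0 * m, Nat.mul_pos hN0 hm, hb1, s, hs⟩
  rw [hFit, hBad]
  simp only [Set.mem_iUnion, exists_prop, Finset.mem_range]
  refine ⟨t % N0, Nat.mod_lt t hN0, Cb_Y a b v t, ?_, rfl⟩
  simp only [Set.mem_ofPred_eq, Polynomial.IsRoot.def]
  rw [hmG]
  exact ht

end H42.ZR
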