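import Pool.Agent.H42.ZR.Df
import Pool.Agent.H42.ZR.Ca
import Pool.Agent.H42.ZR.Cb

/-!
# ZR row CL: towers over `\bar F_p` have periodic orbits avoiding a given hypersurface

PROOF. Induction on the tower `hT` (`induction hT`), the statement being: for all `H ≠ 0` ….
* `zero`: `ξ t = Fin.elim0` (the unique point), `N0 = 1`; `Orb` is vacuous (`Fin 0`), and `H ≠ 0` in
  `MvPolynomial (Fin 0) k` is a non-zero constant (`eq_C_of_isEmpty`).
* `step N D a b`: let `Ĥ = finSuccEquiv k n H ≠ 0` and apply the induction hypothesis to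
  `H' = Ĥ.leadingCoeff * δ`, where `δ = a.coeff 1 * b.coeff 0 - a.coeff 0 * b.coeff 1` in the case
  `Mob a b`, and `δ = a.leadingCoeff * b.leadingCoeff * ρ` in the case `Sup a b` (`U a + V b = C ρ`);
  `H' ≠ 0`. We get `ξ`, `N0`. For each `t` put `a_t = a.map (eval (ξ t))`, `b_t`, `G_t = Ĥ.map (eval (ξ t))`;
  they are `N0`-periodic in `t`, `G_t ≠ 0` (its coefficient at `Ĥ.natDegree` is
  `eval (ξ t) Ĥ.leadingCoeff ≠ 0`). Case `Mob`: `Mob (a_t) (b_t)` (degrees only drop, the determinant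
  is `eval (ξ t) δ ≠ 0`), use `CLa`. Case `Sup`: `eval (ξ t) a.leadingCoeff ≠ 0` so
  `natDegree a_t = natDegree a` (`Polynomial.natDegree_map_of_leadingCoeff_ne_zero`), same for `b`,
  `b_t ≠ 0`, and `a_t`, `b_t` are coprime because `U_t a_t + V_t b_t = C (eval (ξ t) ρ)` with
  `eval (ξ t) ρ ≠ 0`; use `CLb`. In both cases get `y`, `M`. Take `ξ' t = Fin.cons (y t) (ξ t)`, period
  `N0 * M`. `Orb` by `orb_step`; `eval (ξ' t) H = G_t.eval (y t) ≠ 0` by `eval_cons`.
-/

open MvPolynomial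

namespace H42.ZR

open H42.ZD

private theorem CL_mob {k : Type*} [Field k] {n : ℕ} {a b : Polynomial (MvPolynomial (Fin n) k)}
    (h : Mob a b) (x : Fin n → k)
    (hx : eval x (a.coeff 1 * b.coeff 0 - a.coeff 0 * b.coeff 1) ≠ 0) :
    Mob (a.map (eval x)) (b.map (eval x)) := by
  refine ⟨Polynomial.natDegree_map_le.trans h.1, Polynomial.natDegree_map_le.trans h.2.1, ?_⟩
  simpa only [Polynomial.coeff_map, map_sub, map_mul] using hx

private theorem CL_combine {k : Type*} [Field k] {n : ℕ}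
    (N D : Fin n → MvPolynomial (Fin n) k) (a b : Polynomial (MvPolynomial (Fin n) k))
    (H : MvPolynomial (Fin (n + 1)) k) (ξ : ℕ → Fin n → k) (N0 : ℕ) (hN0 : 0 < N0)
    (hper : ∀ t, ξ (t + N0) = ξ t) (hO : Orb N D ξ)
    (hy : ∃ (y : ℕ → k) (M : ℕ), 0 < M ∧ (∀ t, y (t + N0 * M) = y t) ∧
      (∀ t, (b.map (eval (ξ t))).eval (y t) ≠ 0 ∧
        y (t + 1) * (b.map (eval (ξ t))).eval (y t) = (a.map (eval (ξ t))).eval (y t)) ∧
      ∀ t, ((finSuccEquiv k n H).map (eval (ξ t))).eval (y t) ≠ 0) :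
    ∃ (ξ : ℕ → Fin (n + 1) → k) (N0 : ℕ), 0 < N0 ∧ (∀ t, ξ (t + N0) = ξ t) ∧
      Orb (Step N a) (Step D b) ξ ∧ ∀ t, eval (ξ t) H ≠ 0 := by
  obtain ⟨y, M, hM, hyp, hyo, hyG⟩ := hy
  have hper' : ∀ t, ξ (t + N0 * M) = ξ t := by
    intro t
    have h1 : Function.Periodic ξ N0 := hper
    have h2 := h1.nat_mul M
    have h3 : N0 * M = M * N0 := Nat.mul_comm _ _
    rw [h3]
    exact h2 t
  refine ⟨fun t => Fin.cons (y t) (ξ t), N0 * M, Nat.mul_pos hN0 hM, ?_, ?_, ?_⟩
  · intro t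
    show (Fin.cons (y (t + N0 * M)) (ξ (t + N0 * M)) : Fin (n + 1) → k) = Fin.cons (y t) (ξ t)
    rw [hyp, hper']
  · exact (orb_step N D a b ξ y).2 ⟨hO, hyo⟩
  · intro t
    show eval (Fin.cons (y t) (ξ t) : Fin (n + 1) → k) H ≠ 0
    rw [eval_cons]
    exact hyG t

theorem CLr {k : Type*} [Field k] [IsAlgClosed k] {p : ℕ} [Fact p.Prime] [CharP k p]
    (lf : ∀ y : k, ∃ r : ℕ, 0 < r ∧ y ^ (p ^ r) = y) (q : Prop) {n : ℕ}
    (N D : Fin n → MvPolynomial (Fin n) k) (hT : Tow q N D) (H : MvPolynomial (Fin n) k)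
    (hH : H ≠ 0) :
    ∃ (ξ : ℕ → Fin n → k) (N0 : ℕ), 0 < N0 ∧ (∀ t, ξ (t + N0) = ξ t) ∧ Orb N D ξ ∧
      ∀ t, eval (ξ t) H ≠ 0 := by
  induction hT with
  | zero N D =>
    refine ⟨fun _ => Fin.elim0, 1, one_pos, fun _ => rfl, fun _ i => i.elim0, fun t h0 => hH ?_⟩
    rw [eq_C_of_isEmpty H] at h0 ⊢
    rw [eval_C] at h0
    rw [h0, map_zero]
  | @step n N D a b h hab ih =>
    have hH' : finSuccEquiv k n H ≠ 0 := by
      intro h0
      apply hH
      have h1 := congrArg (finSuccEquiv k n).symm h0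
      simpa using h1
    have hl : (finSuccEquiv k n H).leadingCoeff ≠ 0 := Polynomial.leadingCoeff_ne_zero.2 hH'
    have hper0 : ∀ (ξ : ℕ → Fin n → k) (N0 : ℕ), (∀ t, ξ (t + N0) = ξ t) →
        ∀ (P : Polynomial (MvPolynomial (Fin n) k)) (t : ℕ),
          P.map (eval (ξ (t + N0))) = P.map (eval (ξ t)) := by
      intro ξ N0 h1 P t
      rw [h1 t]
    have hG0 : ∀ x : Fin n → k, eval x (finSuccEquiv k n H).leadingCoeff ≠ 0 →
        (finSuccEquiv k n H).map (eval x) ≠ 0 := by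
      intro x hx h0
      apply hx
      have h1 := congrArg (fun P => P.coeff (finSuccEquiv k n H).natDegree) h0
      simp only [Polynomial.coeff_map, Polynomial.coeff_zero] at h1
      exact h1
    rcases hab with ⟨_, hm⟩ | hs
    · obtain ⟨ξ, N0, hN0, hper, hO, hne⟩ := ih
        ((finSuccEquiv k n H).leadingCoeff * (a.coeff 1 * b.coeff 0 - a.coeff 0 * b.coeff 1))
        (mul_ne_zero hl hm.2.2)
      simp only [map_mul, mul_ne_zero_iff] at hne
      refine CL_combine N D a b H ξ N0 hN0 hper hO ?_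
      refine CLa lf (fun t => a.map (eval (ξ t))) (fun t => b.map (eval (ξ t)))
        (fun t => (finSuccEquiv k n H).map (eval (ξ t))) N0 hN0 ?_ ?_ ?_ ?_ ?_
      · intro t
        exact CL_mob hm (ξ t) (by simpa only [map_sub, map_mul] using (hne t).2)
      · intro t
        exact hG0 (ξ t) (hne t).1
      · exact hper0 ξ N0 hper a
      · exact hper0 ξ N0 hper b
      · exact hper0 ξ N0 hper (finSuccEquiv k n H)
    · obtain ⟨hb0, hdeg, U, V, ρ, hρ, hUV⟩ := hs
      have ha0 : a ≠ 0 := by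
        rintro rfl
        simp at hdeg
      have hla : a.leadingCoeff ≠ 0 := Polynomial.leadingCoeff_ne_zero.2 ha0
      have hlb : b.leadingCoeff ≠ 0 := Polynomial.leadingCoeff_ne_zero.2 hb0
      obtain ⟨ξ, N0, hN0, hper, hO, hne⟩ := ih
        ((finSuccEquiv k n H).leadingCoeff * (a.leadingCoeff * b.leadingCoeff * ρ))
        (mul_ne_zero hl (mul_ne_zero (mul_ne_zero hla hlb) hρ))
      simp only [map_mul, mul_ne_zero_iff] at hne
      refine CL_combine N D a b H ξ N0 hN0 hper hO ?_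
      refine CLb lf (fun t => a.map (eval (ξ t))) (fun t => b.map (eval (ξ t)))
        (fun t => (finSuccEquiv k n H).map (eval (ξ t))) N0 hN0 ?_ ?_ ?_ ?_ ?_ ?_ ?_
      · intro t h0
        have h0' : b.map (eval (ξ t)) = 0 := h0
        have h1 := congrArg (fun P => P.coeff b.natDegree) h0'
        simp only [Polynomial.coeff_map, Polynomial.coeff_zero] at h1
        exact (hne t).2.1.2 h1
      · intro t
        show (b.map (eval (ξ t))).natDegree + 2 ≤ (a.map (eval (ξ t))).natDegree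
        rw [Polynomial.natDegree_map_of_leadingCoeff_ne_zero _ (hne t).2.1.1,
          Polynomial.natDegree_map_of_leadingCoeff_ne_zero _ (hne t).2.1.2]
        exact hdeg
      · intro t
        have hr : eval (ξ t) ρ ≠ 0 := (hne t).2.2
        refine ⟨Polynomial.C (eval (ξ t) ρ)⁻¹ * U.map (eval (ξ t)),
          Polynomial.C (eval (ξ t) ρ)⁻¹ * V.map (eval (ξ t)), ?_⟩
        have h1 := congrArg (Polynomial.map (eval (ξ t))) hUV
        rw [Polynomial.map_add, Polynomial.map_mul, Polynomial.map_mul, Polynomial.map_C] at h1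
        show Polynomial.C (eval (ξ t) ρ)⁻¹ * U.map (eval (ξ t)) * a.map (eval (ξ t)) +
          Polynomial.C (eval (ξ t) ρ)⁻¹ * V.map (eval (ξ t)) * b.map (eval (ξ t)) = 1
        rw [mul_assoc, mul_assoc, ← mul_add, h1, ← Polynomial.C_mul, inv_mul_cancel₀ hr,
          Polynomial.C_1]
      · intro t
        exact hG0 (ξ t) (hne t).1
      · exact hper0 ξ N0 hper a
      · exact hper0 ξ N0 hper b
      · exact hper0 ξ N0 hper (finSuccEquiv k n H)

end H42.ZR
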