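import Mathlib

/-!
# ZR row Cp: composition of rational functions as pairs of polynomials

`hom E p U V = Σ_{j ≤ E} p_j U^j V^(E-j)` is the homogenization of `p` in degree `E`, evaluated at
`(U, V)`.

PROOFS.
`hom_eval_ne`: if `V(y) ≠ 0` and `deg p ≤ E`, then `hom E p U V` at `y` is
`Σ p_j U(y)^j V(y)^(E-j) = V(y)^E Σ p_j (U(y)/V(y))^j`.
`hom_eval_zero`: if `V(y) = 0`, only the term `j = E` survives.

`Cp_step`: composition. `(A, B)` is a pair with `B ≠ 0`, `deg B < deg A`, coprime; `(a, b)` a pair with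
`b ≠ 0`, `deg b + 2 ≤ deg a = E`, coprime. `A' = hom E a A B`, `B' = hom E b A B`.
* `deg A' = E * deg A`: the term `j = E` is `a_E A^E` of degree `E deg A`, the others have degree
  `≤ j deg A + (E-j) deg B < E deg A`.
* `deg B' + 2 ≤ deg A'`, and `B' ≠ 0`: with `l = deg b ≤ E - 2`, the term `j = l` is
  `b_l A^l B^(E-l)` of degree exactly `l deg A + (E-l) deg B`, and the terms with `j < l` have strictly
  smaller degree `j deg A + (E-j) deg B` (`deg B < deg A`); so
  `deg B' = l deg A + (E-l) deg B` and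
  `E deg A - deg B' = (E-l)(deg A - deg B) ≥ 2`.
* coprime: `k` is algebraically closed, so it suffices that `A'`, `B'` have no common root `y`
  (`Polynomial.isCoprime_of_...`/ a nonunit gcd has a root). If `B(y) = 0` then
  `A'(y) = a_E A(y)^E ≠ 0` as `A(y) ≠ 0` by coprimality. If `B(y) ≠ 0` then
  `A'(y) = B(y)^E a(A(y)/B(y))`, `B'(y) = B(y)^E b(A(y)/B(y))` do not both vanish, by coprimality of
  `a`, `b`.
* `B'(y) ≠ 0 → B(y) ≠ 0 ∧ b(A(y)/B(y)) ≠ 0 ∧ A'(y)/B'(y) = a(A(y)/B(y)) / b(A(y)/B(y))`: if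
  `B(y) = 0` then `B'(y) = b_E A(y)^E = 0` as `deg b < E`. The rest is `hom_eval_ne`.
-/

open Polynomial

namespace H42.ZR

variable {k : Type*} [Field k]

/-- Homogenization of `p` in degree `E`, evaluated at `(U, V)`. -/
noncomputable def hom (E : ℕ) (p U V : k[X]) : k[X] :=
  ∑ j ∈ Finset.range (E + 1), C (p.coeff j) * U ^ j * V ^ (E - j)

theorem hom_eval_ne (E : ℕ) (p U V : k[X]) (hp : p.natDegree ≤ E) (y : k) (hV : V.eval y ≠ 0) :
    (hom E p U V).eval y = V.eval y ^ E * p.eval (U.eval y / V.eval y) := by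
  unfold hom
  rw [eval_finsetSum, eval_eq_sum_range' (Nat.lt_succ_of_le hp), Finset.mul_sum]
  refine Finset.sum_congr rfl fun j hj => ?_
  have hj' : j ≤ E := Nat.lt_succ_iff.1 (Finset.mem_range.1 hj)
  have e : V.eval y ^ E = V.eval y ^ (E - j) * V.eval y ^ j := by
    rw [← pow_add, Nat.sub_add_cancel hj']
  rw [eval_mul, eval_mul, eval_C, eval_pow, eval_pow, e, div_pow]
  have h0 : V.eval y ^ j ≠ 0 := pow_ne_zero _ hV
  field_simp

theorem hom_eval_zero (E : ℕ) (p U V : k[X]) (y : k) (hV : V.eval y = 0) :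
    (hom E p U V).eval y = p.coeff E * U.eval y ^ E := by
  unfold hom
  rw [eval_finsetSum, Finset.sum_range_succ, Finset.sum_eq_zero, zero_add]
  · rw [eval_mul, eval_mul, eval_C, eval_pow, eval_pow, Nat.sub_self, pow_zero, mul_one]
  · intro j hj
    have hj' : j < E := Finset.mem_range.1 hj
    rw [eval_mul, eval_pow, hV, zero_pow (by omega), mul_zero]

theorem Cp_term (c : k) (hc : c ≠ 0) (A B : k[X]) (hA : A ≠ 0) (hB : B ≠ 0) (i j : ℕ) :
    (C c * A ^ i * B ^ j).degree = ((i * A.natDegree + j * B.natDegree : ℕ) : WithBot ℕ) := by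
  have h1 : C c * A ^ i * B ^ j ≠ 0 :=
    mul_ne_zero (mul_ne_zero (C_ne_zero.2 hc) (pow_ne_zero _ hA)) (pow_ne_zero _ hB)
  rw [degree_eq_natDegree h1, natDegree_mul (mul_ne_zero (C_ne_zero.2 hc) (pow_ne_zero _ hA))
    (pow_ne_zero _ hB), natDegree_C_mul hc, natDegree_pow, natDegree_pow]

theorem Cp_deg (E : ℕ) (p A B : k[X]) (hp : p ≠ 0) (hl : p.natDegree ≤ E) (hB : B ≠ 0)
    (hAB : B.natDegree < A.natDegree) :
    hom E p A B ≠ 0 ∧ (hom E p A B).natDegree =
      p.natDegree * A.natDegree + (E - p.natDegree) * B.natDegree := by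
  have hA : A ≠ 0 := by
    rintro rfl
    rw [natDegree_zero] at hAB
    exact Nat.not_lt_zero _ hAB
  set l := p.natDegree with hl'
  have hmem : l ∈ Finset.range (E + 1) := Finset.mem_range.2 (Nat.lt_succ_of_le hl)
  have hT : (C (p.coeff l) * A ^ l * B ^ (E - l)).degree =
      ((l * A.natDegree + (E - l) * B.natDegree : ℕ) : WithBot ℕ) :=
    Cp_term _ (by rw [hl', coeff_natDegree]; exact leadingCoeff_ne_zero.2 hp) A B hA hB _ _
  have hR : (∑ j ∈ (Finset.range (E + 1)).erase l, C (p.coeff j) * A ^ j * B ^ (E - j)).degree <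
      (C (p.coeff l) * A ^ l * B ^ (E - l)).degree := by
    refine lt_of_le_of_lt (degree_sum_le _ _) ?_
    rw [Finset.sup_lt_iff (by rw [hT]; exact WithBot.bot_lt_coe _)]
    intro j hj
    rw [Finset.mem_erase, Finset.mem_range] at hj
    by_cases hc : p.coeff j = 0
    · rw [hc, C_0, zero_mul, zero_mul, degree_zero, hT]
      exact WithBot.bot_lt_coe _
    · have hjl : j < l := by
        have h1 := le_natDegree_of_ne_zero hc
        omega
      rw [Cp_term _ hc A B hA hB, hT]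
      rw [Nat.cast_lt]
      obtain ⟨m, hm⟩ : ∃ m, l = j + (m + 1) := ⟨l - j - 1, by omega⟩
      obtain ⟨d, hd⟩ : ∃ d, A.natDegree = B.natDegree + (d + 1) :=
        ⟨A.natDegree - B.natDegree - 1, by omega⟩
      obtain ⟨q, hq⟩ : ∃ q, E = j + (m + 1) + q := ⟨E - (j + (m + 1)), by omega⟩
      have e1 : E - j = m + 1 + q := by omega
      have e2 : E - l = q := by omega
      rw [e1, e2, hd, hm]
      nlinarith [Nat.zero_le (m * d), Nat.zero_le m, Nat.zero_le d]
  have hsum : hom E p A B = C (p.coeff l) * A ^ l * B ^ (E - l) +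
      ∑ j ∈ (Finset.range (E + 1)).erase l, C (p.coeff j) * A ^ j * B ^ (E - j) := by
    unfold hom
    exact (Finset.add_sum_erase _ _ hmem).symm
  have hdeg : (hom E p A B).degree =
      ((l * A.natDegree + (E - l) * B.natDegree : ℕ) : WithBot ℕ) := by
    rw [hsum, degree_add_eq_left_of_degree_lt hR, hT]
  refine ⟨?_, natDegree_eq_of_degree_eq_some hdeg⟩
  intro h0
  rw [h0, degree_zero] at hdeg
  exact WithBot.bot_ne_coe hdeg

theorem Cp_cop [IsAlgClosed k] (p q : k[X]) :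
    IsCoprime p q ↔ ∀ y : k, p.eval y ≠ 0 ∨ q.eval y ≠ 0 := by
  rw [isCoprime_iff_aeval_ne_zero_of_isAlgClosed k k]
  simp only [coe_aeval_eq_eval]

theorem Cp_step [IsAlgClosed k] (a b A B : k[X]) (hb : b ≠ 0) (hab : b.natDegree + 2 ≤ a.natDegree)
    (hco : IsCoprime a b) (hB : B ≠ 0) (hAB : B.natDegree < A.natDegree) (hco' : IsCoprime A B) :
    (hom a.natDegree a A B).natDegree = a.natDegree * A.natDegree ∧
    hom a.natDegree b A B ≠ 0 ∧
    (hom a.natDegree b A B).natDegree + 2 ≤ (hom a.natDegree a A B).natDegree ∧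
    IsCoprime (hom a.natDegree a A B) (hom a.natDegree b A B) ∧
    ∀ y : k, (hom a.natDegree b A B).eval y ≠ 0 →
      B.eval y ≠ 0 ∧ b.eval (A.eval y / B.eval y) ≠ 0 ∧
      (hom a.natDegree a A B).eval y / (hom a.natDegree b A B).eval y =
        a.eval (A.eval y / B.eval y) / b.eval (A.eval y / B.eval y) := by
  have ha : a ≠ 0 := by
    rintro rfl
    rw [natDegree_zero] at hab
    omega
  have hblt : b.natDegree < a.natDegree := by omega
  obtain ⟨-, d1⟩ := Cp_deg a.natDegree a A B ha le_rfl hB hAB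
  obtain ⟨n2, d2⟩ := Cp_deg a.natDegree b A B hb hblt.le hB hAB
  rw [Nat.sub_self, zero_mul, add_zero] at d1
  have hlead : a.coeff a.natDegree ≠ 0 := by
    rw [coeff_natDegree]
    exact leadingCoeff_ne_zero.2 ha
  have hcoE : b.coeff a.natDegree = 0 := coeff_eq_zero_of_natDegree_lt hblt
  refine ⟨d1, n2, ?_, ?_, ?_⟩
  · rw [d1, d2]
    obtain ⟨m, hm⟩ : ∃ m, a.natDegree = b.natDegree + (m + 2) :=
      ⟨a.natDegree - b.natDegree - 2, by omega⟩
    obtain ⟨d, hd⟩ : ∃ d, A.natDegree = B.natDegree + (d + 1) :=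
      ⟨A.natDegree - B.natDegree - 1, by omega⟩
    have e1 : a.natDegree - b.natDegree = m + 2 := by omega
    rw [e1, hm, hd]
    nlinarith [Nat.zero_le (m * d), Nat.zero_le m, Nat.zero_le d]
  · rw [Cp_cop]
    intro y
    by_cases hy : B.eval y = 0
    · left
      rw [hom_eval_zero _ _ _ _ _ hy]
      have hAy : A.eval y ≠ 0 := by
        rcases (Cp_cop A B).1 hco' y with h1 | h1
        · exact h1
        · exact absurd hy h1
      exact mul_ne_zero hlead (pow_ne_zero _ hAy)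
    · rw [hom_eval_ne _ _ _ _ le_rfl _ hy, hom_eval_ne _ _ _ _ hblt.le _ hy]
      rcases (Cp_cop a b).1 hco (A.eval y / B.eval y) with h1 | h1
      · exact Or.inl (mul_ne_zero (pow_ne_zero _ hy) h1)
      · exact Or.inr (mul_ne_zero (pow_ne_zero _ hy) h1)
  · intro y hy
    have hBy : B.eval y ≠ 0 := by
      intro h0
      rw [hom_eval_zero _ _ _ _ _ h0, hcoE, zero_mul] at hy
      exact hy rfl
    rw [hom_eval_ne _ _ _ _ hblt.le _ hBy] at hy
    have hby : b.eval (A.eval y / B.eval y) ≠ 0 := right_ne_zero_of_mul hy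
    refine ⟨hBy, hby, ?_⟩
    rw [hom_eval_ne _ _ _ _ le_rfl _ hBy, hom_eval_ne _ _ _ _ hblt.le _ hBy]
    rw [mul_div_mul_left _ _ (pow_ne_zero _ hBy)]

end H42.ZR
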