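import Pool.Agent.H42.ZD.Df
import Pool.Agent.H42.ZD.Pl

/-!
# MP_dd25b9 (Zariski dense orbits), project ZR: towers of rational fibre maps

A rational self-map of `A^n` is given by numerators `N i` and denominators `D i`. In a tower, the
coordinate `0` of `(Step N a, Step D b)` is the fibre coordinate, with fibre map `a(Y) / b(Y)` over
the base map `(N, D)`.
-/

open MvPolynomial

namespace H42.ZR

open H42.ZD

universe u

section defs

variable {R : Type*} [CommRing R] {n : ℕ}

/-- The numerator of the derivative of `N_i / D_i` in the direction `i`. -/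
noncomputable def Jac (N D : Fin n → MvPolynomial (Fin n) R) (i : Fin n) :
    MvPolynomial (Fin n) R :=
  pderiv i (N i) * D i - N i * pderiv i (D i)

/-- The sequence `x 0, x 1, …` is a well defined forward orbit of the rational map `N / D`. -/
def Orb (N D : Fin n → MvPolynomial (Fin n) R) (x : ℕ → Fin n → R) : Prop :=
  ∀ t i, eval (x t) (D i) ≠ 0 ∧ x (t + 1) i * eval (x t) (D i) = eval (x t) (N i)

/-- No non-zero polynomial vanishes on the sequence. -/
def DenseSeq (x : ℕ → Fin n → R) : Prop :=
  ∀ P : MvPolynomial (Fin n) R, P ≠ 0 → ∃ t : ℕ, eval (x t) P ≠ 0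

/-- The fibre map `a / b` is a fractional linear map (generically invertible). -/
def Mob {B : Type*} [CommRing B] (a b : Polynomial B) : Prop :=
  a.natDegree ≤ 1 ∧ b.natDegree ≤ 1 ∧ a.coeff 1 * b.coeff 0 - a.coeff 0 * b.coeff 1 ≠ 0

/-- The fibre map `a / b` has a superattracting fixed point at infinity, and `a`, `b` are
coprime (generically). -/
def Sup {B : Type*} [CommRing B] (a b : Polynomial B) : Prop :=
  b ≠ 0 ∧ b.natDegree + 2 ≤ a.natDegree ∧
    ∃ (U V : Polynomial B) (ρ : B), ρ ≠ 0 ∧ U * a + V * b = Polynomial.C ρ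

/-- Towers of fibre maps, each of which is fractional linear (allowed only if `q` holds) or
superattracting at infinity. -/
inductive Tow {R : Type*} [CommRing R] (q : Prop) : ∀ {n : ℕ},
    (Fin n → MvPolynomial (Fin n) R) → (Fin n → MvPolynomial (Fin n) R) → Prop
  | zero (N D : Fin 0 → MvPolynomial (Fin 0) R) : Tow q N D
  | step {n : ℕ} (N D : Fin n → MvPolynomial (Fin n) R) (a b : Polynomial (MvPolynomial (Fin n) R))
      (h : Tow q N D) (hab : (q ∧ Mob a b) ∨ Sup a b) : Tow q (Step N a) (Step D b)

/-- Evaluation of `P (y, x)`. -/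
theorem eval_cons (x : Fin n → R) (y : R) (P : MvPolynomial (Fin (n + 1)) R) :
    eval (Fin.cons y x : Fin (n + 1) → R) P = ((finSuccEquiv R n P).map (eval x)).eval y :=
  eval_eq_eval_mv_eval' _ _ _

theorem eval_cons_symm (x : Fin n → R) (y : R) (P : Polynomial (MvPolynomial (Fin n) R)) :
    eval (Fin.cons y x : Fin (n + 1) → R) ((finSuccEquiv R n).symm P) =
      (P.map (eval x)).eval y := by
  rw [eval_cons, AlgEquiv.apply_symm_apply]

theorem eval_cons_rename (x : Fin n → R) (y : R) (P : MvPolynomial (Fin n) R) :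
    eval (Fin.cons y x : Fin (n + 1) → R) (rename Fin.succ P) = eval x P := by
  rw [eval_cons, fse_rename, Polynomial.map_C, Polynomial.eval_C]

/-- Orbits in a tower. -/
theorem orb_step (N D : Fin n → MvPolynomial (Fin n) R) (a b : Polynomial (MvPolynomial (Fin n) R))
    (x : ℕ → Fin n → R) (y : ℕ → R) :
    Orb (Step N a) (Step D b) (fun t => Fin.cons (y t) (x t)) ↔
      Orb N D x ∧ ∀ t, (b.map (eval (x t))).eval (y t) ≠ 0 ∧
        y (t + 1) * (b.map (eval (x t))).eval (y t) = (a.map (eval (x t))).eval (y t) := by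
  constructor
  · intro h
    refine ⟨fun t i => ?_, fun t => ?_⟩
    · have := h t i.succ
      simpa only [Step, Fin.cons_succ, eval_cons_rename] using this
    · have := h t 0
      simpa only [Step, Fin.cons_zero, eval_cons_symm] using this
  · rintro ⟨h1, h2⟩ t i
    refine Fin.cases ?_ (fun i => ?_) i
    · simpa only [Step, Fin.cons_zero, eval_cons_symm] using h2 t
    · simpa only [Step, Fin.cons_succ, eval_cons_rename] using h1 t i

/-- Density in a tower. -/
theorem denseSeq_step (x : ℕ → Fin n → R) (y : ℕ → R) :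
    DenseSeq (fun t => (Fin.cons (y t) (x t) : Fin (n + 1) → R)) ↔
      ∀ P : Polynomial (MvPolynomial (Fin n) R), P ≠ 0 →
        ∃ t : ℕ, (P.map (eval (x t))).eval (y t) ≠ 0 := by
  constructor
  · intro H P hP
    obtain ⟨t, ht⟩ := H ((finSuccEquiv R n).symm P) (by
      intro h0; exact hP (by simpa using h0))
    refine ⟨t, ?_⟩
    rwa [eval_cons_symm] at ht
  · intro H P hP
    obtain ⟨t, ht⟩ := H (finSuccEquiv R n P) (by
      intro h0; exact hP (by simpa using h0))
    refine ⟨t, ?_⟩
    rwa [eval_cons]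

/-- Clearing denominators: `Cl N D r P = (∏ D_i)^r P(N / D)` if `r` is at least the degree of `P`
in every variable. -/
noncomputable def Cl (N D : Fin n → MvPolynomial (Fin n) R) (r : ℕ) (P : MvPolynomial (Fin n) R) :
    MvPolynomial (Fin n) R :=
  ∑ m ∈ P.support, C (coeff m P) * ∏ i, (N i ^ m i * D i ^ (r - m i))

theorem Cl_spec (N D : Fin n → MvPolynomial (Fin n) R) (r : ℕ) (P : MvPolynomial (Fin n) R)
    (hr : ∀ i, degreeOf i P ≤ r) {S : Type*} [CommRing S] (φ : MvPolynomial (Fin n) R →+* S)
    (y : Fin n → S) (hy : ∀ i, y i * φ (D i) = φ (N i)) :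
    φ (Cl N D r P) = (∏ i, φ (D i)) ^ r * P.eval₂ (φ.comp C) y := by
  rw [Cl, map_sum, eval₂_eq', Finset.mul_sum]
  refine Finset.sum_congr rfl fun m hm => ?_
  rw [map_mul, map_prod, RingHom.comp_apply, mul_left_comm, ← Finset.prod_pow,
    ← Finset.prod_mul_distrib]
  congr 1
  refine Finset.prod_congr rfl fun i _ => ?_
  have hmi : m i ≤ r := by
    refine le_trans ?_ (hr i)
    rw [degreeOf_eq_sup]
    exact Finset.le_sup (f := fun m : Fin n →₀ ℕ => m i) hm
  rw [map_mul, map_pow, map_pow, ← hy i, mul_pow]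
  have : φ (D i) ^ r = φ (D i) ^ (m i) * φ (D i) ^ (r - m i) := by
    rw [← pow_add, Nat.add_sub_cancel' hmi]
  rw [this]
  ring

end defs

section fields

variable {K : Type*} [Field K] {n : ℕ}

/-- The comorphism `P ↦ P(N / D)`, with values in rational functions. -/
noncomputable def fs (N D : Fin n → MvPolynomial (Fin n) K) :
    MvPolynomial (Fin n) K →ₐ[K] FractionRing (MvPolynomial (Fin n) K) :=
  aeval fun i => algebraMap (MvPolynomial (Fin n) K) (FractionRing (MvPolynomial (Fin n) K)) (N i) /
    algebraMap (MvPolynomial (Fin n) K) (FractionRing (MvPolynomial (Fin n) K)) (D i)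

/-- The rational map `N / D` has a non-constant invariant rational function `P / Q`. -/
def RInv (N D : Fin n → MvPolynomial (Fin n) K) : Prop :=
  ∃ P Q : MvPolynomial (Fin n) K, Q ≠ 0 ∧ (∀ c : K, P ≠ C c * Q) ∧
    fs N D P * algebraMap _ (FractionRing (MvPolynomial (Fin n) K)) Q =
      algebraMap _ (FractionRing (MvPolynomial (Fin n) K)) P * fs N D Q

/-- The place is local: elements with non-zero reduction are invertible. -/
def IsLoc {K : Type u} [Field K] (v : Plc K) : Prop :=
  ∀ x : v.Λ, v.ψ x ≠ 0 → (x : K)⁻¹ ∈ v.Λ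

end fields

end H42.ZR
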