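import Pool.Agent.H42.ZR.Vl

/-!
# ZR row Ep: dense orbits on an affine variety with the given function field

`L = K(x)` is the function field of the affine variety `Spec A` (`A` a finitely generated subalgebra of
`L` with fraction field `L`), `τ = f^*` for a dominant rational self-map `f`, and `τ^m (x_i) = N_i(x)/D_i(x)`.
Given orbits of `N/D` in affine space avoiding any given hypersurface, there is a sequence of `K`-points
`ε 0, ε 1, …` of `Spec A` with `f` regular at `ε t`, `f (ε t) = ε (t+1)`, and dense.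

PROOF. Let `a_1, …, a_r` generate `A` (`hA`). By `hfrac` choose `b_i, c_i ∈ A`, `c_i ≠ 0`, with
`τ(a_i) c_i = b_i`. Let `H` be the product, over `s < m` (in fact `s ≤ m`) and all `i`, of the polynomials
given by `Val_exists` for `τ^s(a_i)` and by `Val_ne` for `τ^s(c_i)` (`τ` is injective so
`τ^s(c_i) ≠ 0`). Let `ξ` be as in `hdense H`.
(1) For all `t`, `s < m`, `a ∈ A` there is `c` with `Val x (ξ t) (τ^[s] a) c`: true for the generators
(`H(ξ t) ≠ 0`), and the set of such `a` is a subalgebra (`Val_add`, `Val_mul`, `Val_algebraMap`;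
`τ^[s]` is a `K`-algebra hom), `Algebra.adjoin_induction`. By `Val_unique` the value is unique: this
defines `e t s : A →ₐ[K] K`.
Let `ε j = e (j / m) (j % m)`.
(2) RELATION for generators: `ε (j+1) (a_i) * ε j (c_i) = ε j (b_i)` and `ε j (c_i) ≠ 0`. Let
`t = j / m`, `s = j % m`. `Val x (ξ t) (τ^s c_i) (ε j c_i)` and the value is non-zero by `Val_ne` and
uniqueness. If `s + 1 < m` then `(j+1)/m = t`, `(j+1)%m = s+1`, and `τ^{s+1}(a_i) τ^s(c_i) = τ^s(b_i)`,
take values at `ξ t` (`Val_mul`, `Val_unique`). If `s + 1 = m` then `(j+1)/m = t+1`, `(j+1)%m = 0`,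
`Val x (ξ (t+1)) (a_i) (ε (j+1) a_i)`; by `Val_map` with `σ = τ^m` (`AlgHom` power, `hND`, and
`Orb N D ξ` at `t`), `Val x (ξ t) (τ^m a_i) (ε (j+1) a_i)`, and again
`τ^m(a_i) τ^s(c_i) = τ^s(b_i)`.
(3) RELATION in general: for fixed `j`, the set of `a ∈ A` for which there are `b, c ∈ A` with
`τ a * c = b`, `ε j c ≠ 0`, `ε (j+1) a * ε j c = ε j b` contains `K` (`c = 1`) and the generators and is
closed under sums and products (`(b c' + b' c, c c')`, `(b b', c c')`), so it is `A`.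
(4) DENSITY: for `a ≠ 0`, `Val_dense` gives `t` with `¬ Val x (ξ t) a 0`; since
`Val x (ξ t) a (ε (m t) a)`, `ε (m t) a ≠ 0`.
-/

open MvPolynomial

namespace H42.ZR

open H42.ZD

theorem Ep_iter {K L : Type*} [Field K] [Field L] [Algebra K L] (τ : L →ₐ[K] L) (s : ℕ) (z : L) :
    (τ ^ s : L →ₐ[K] L) z = τ^[s] z := by
  induction s generalizing z with
  | zero => rfl
  | succ s ih =>
    rw [Function.iterate_succ_apply, ← ih, pow_succ]
    rfl

theorem Ep_hom {K L : Type*} [Field K] [Field L] [Algebra K L] {n : ℕ} (x : Fin n → L)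
    (hx : AlgebraicIndependent K x) (σ : L →ₐ[K] L) (ξ : Fin n → K) (A : Subalgebra K L)
    (h : ∀ a : A, ∃ c, Val x ξ (σ a) c) : ∃ e : A →ₐ[K] K, ∀ a : A, Val x ξ (σ a) (e a) := by
  choose f hf using h
  have hC : ∀ c : K, f (algebraMap K A c) = c := by
    intro c
    refine Val_unique hx (hf _) ?_
    have h1 : σ ((algebraMap K A c : A) : L) = algebraMap K L c := σ.commutes c
    rw [h1]
    exact Val_algebraMap ξ c
  refine ⟨{ toFun := f, map_one' := ?_, map_mul' := ?_, map_zero' := ?_, map_add' := ?_,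
            commutes' := hC }, hf⟩
  · have h1 := hC 1
    rw [map_one] at h1
    exact h1
  · intro a b
    refine Val_unique hx (hf _) ?_
    have h1 : σ ((a * b : A) : L) = σ a * σ b := map_mul σ (a : L) (b : L)
    rw [h1]
    exact Val_mul (hf a) (hf b)
  · have h1 := hC 0
    rw [map_zero] at h1
    exact h1
  · intro a b
    refine Val_unique hx (hf _) ?_
    have h1 : σ ((a + b : A) : L) = σ a + σ b := map_add σ (a : L) (b : L)
    rw [h1]
    exact Val_add (hf a) (hf b)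

theorem Ep_val {K L : Type*} [Field K] [Field L] [Algebra K L] {n : ℕ} (x : Fin n → L)
    (σ : L →ₐ[K] L) (ξ : Fin n → K) (S : Finset L)
    (h : ∀ a ∈ S, ∃ c, Val x ξ (σ a) c) (a : L) (ha : a ∈ Algebra.adjoin K (S : Set L)) :
    ∃ c, Val x ξ (σ a) c := by
  refine Algebra.adjoin_induction (p := fun a _ => ∃ c, Val x ξ (σ a) c) ?_ ?_ ?_ ?_ ha
  · intro a ha
    exact h a ha
  · intro r
    refine ⟨r, ?_⟩
    rw [σ.commutes]
    exact Val_algebraMap ξ r
  · rintro a b _ _ ⟨c, hc⟩ ⟨d, hd⟩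
    refine ⟨c + d, ?_⟩
    rw [map_add]
    exact Val_add hc hd
  · rintro a b _ _ ⟨c, hc⟩ ⟨d, hd⟩
    refine ⟨c * d, ?_⟩
    rw [map_mul]
    exact Val_mul hc hd

theorem EPr {K L : Type*} [Field K] [Field L] [Algebra K L] {n : ℕ} (x : Fin n → L)
    (hx : AlgebraicIndependent K x) (hgen : IntermediateField.adjoin K (Set.range x) = ⊤)
    (τ : L →ₐ[K] L) (m : ℕ) (hm : 0 < m) (N D : Fin n → MvPolynomial (Fin n) K)
    (hND : ∀ i, aeval x (D i) ≠ 0 ∧ τ^[m] (x i) * aeval x (D i) = aeval x (N i))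
    (hdense : ∀ H : MvPolynomial (Fin n) K, H ≠ 0 →
      ∃ ξ : ℕ → Fin n → K, Orb N D ξ ∧ DenseSeq ξ ∧ ∀ t, eval (ξ t) H ≠ 0)
    (A : Subalgebra K L) (hA : A.FG) (hfrac : ∀ z : L, ∃ a b : A, b ≠ 0 ∧ z * b = a) :
    ∃ ε : ℕ → A →ₐ[K] K,
      (∀ (t : ℕ) (a : A), ∃ b c : A, τ a * c = b ∧ ε t c ≠ 0 ∧ ε (t + 1) a * ε t c = ε t b) ∧
      ∀ a : A, a ≠ 0 → ∃ t, ε t a ≠ 0 := by
  obtain ⟨S, hS⟩ := hA
  have hmem : ∀ a ∈ S, a ∈ A := fun a ha => by
    rw [← hS]
    exact Algebra.subset_adjoin ha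
  choose nb cb hcb0 hcb using hfrac
  choose H1 hH1 hH1v using fun u : L => Val_exists hgen hx u
  have h2 : ∀ u : L, ∃ H : MvPolynomial (Fin n) K, H ≠ 0 ∧
      (u ≠ 0 → ∀ ξ, eval ξ H ≠ 0 → ∃ c, c ≠ 0 ∧ Val x ξ u c) := by
    intro u
    by_cases hu : u = 0
    · exact ⟨1, one_ne_zero, fun h => absurd hu h⟩
    · obtain ⟨H, hH, hv⟩ := Val_ne hgen hx u hu
      exact ⟨H, hH, fun _ => hv⟩
  choose H2 hH2 hH2v using h2
  obtain ⟨ξ, hOrb, hDen, hξH⟩ := hdense
    (∏ s ∈ Finset.range m, ∏ a ∈ S, (H1 ((τ ^ s : L →ₐ[K] L) a) *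
      H2 ((τ ^ s : L →ₐ[K] L) (cb (τ a) : L))))
    (Finset.prod_ne_zero_iff.2 fun s _ => Finset.prod_ne_zero_iff.2 fun a _ =>
      mul_ne_zero (hH1 _) (hH2 _))
  have hξ : ∀ t, ∀ s < m, ∀ a ∈ S, eval (ξ t) (H1 ((τ ^ s : L →ₐ[K] L) a)) ≠ 0 ∧
      eval (ξ t) (H2 ((τ ^ s : L →ₐ[K] L) (cb (τ a) : L))) ≠ 0 := by
    intro t s hs a ha
    have h1 := hξH t
    rw [map_prod] at h1
    have h3 := Finset.prod_ne_zero_iff.1 h1 s (Finset.mem_range.2 hs)
    rw [map_prod] at h3
    have h4 := Finset.prod_ne_zero_iff.1 h3 a ha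
    rw [map_mul] at h4
    exact ⟨left_ne_zero_of_mul h4, right_ne_zero_of_mul h4⟩
  have hex : ∀ j : ℕ, ∃ e : A →ₐ[K] K,
      ∀ a : A, Val x (ξ (j / m)) ((τ ^ (j % m) : L →ₐ[K] L) a) (e a) := by
    intro j
    refine Ep_hom x hx _ _ A fun a => ?_
    refine Ep_val x _ _ S (fun z hz => ?_) a (by rw [hS]; exact a.2)
    exact hH1v _ _ (hξ _ _ (Nat.mod_lt _ hm) z hz).1
  choose ε hε using hex
  -- the value of the next term
  have hnext : ∀ (j : ℕ) (a : A),
      Val x (ξ (j / m)) ((τ ^ (j % m) : L →ₐ[K] L) (τ a)) (ε (j + 1) a) := by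
    intro j a
    have h3 := hε (j + 1) a
    have h5 : (τ ^ (j % m) : L →ₐ[K] L) (τ a) = (τ ^ (j % m + 1) : L →ₐ[K] L) a := by
      rw [pow_succ]
      rfl
    rw [h5]
    by_cases hs : j % m + 1 < m
    · have h6 : (j + 1) / m = j / m := by
        rw [Nat.succ_div, if_neg, add_zero]
        intro h7
        have h8 := Nat.mod_eq_zero_of_dvd h7
        rw [Nat.add_mod, Nat.mod_eq_of_lt (show 1 < m by omega),
          Nat.mod_eq_of_lt hs] at h8
        omega
      have h7 : (j + 1) % m = j % m + 1 := by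
        rw [Nat.add_mod, Nat.mod_eq_of_lt (show 1 < m by omega), Nat.mod_eq_of_lt hs]
      rw [h6, h7] at h3
      exact h3
    · have h0 : j % m + 1 = m := by
        have := Nat.mod_lt j hm
        omega
      have h8 : j + 1 = m * (j / m + 1) := by
        have := Nat.div_add_mod j m
        rw [mul_add, mul_one]
        omega
      have h6 : (j + 1) / m = j / m + 1 := by
        rw [h8, Nat.mul_div_cancel_left _ hm]
      have h7 : (j + 1) % m = 0 := by
        rw [h8, Nat.mul_mod_right]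
      rw [h6, h7, pow_zero] at h3
      rw [h0]
      refine Val_map (τ ^ m) N D (fun i => ?_) (fun i => hOrb (j / m) i) h3
      rw [Ep_iter]
      exact hND i
  have hrel : ∀ (j : ℕ) (a b c : A), τ a * c = b → ε (j + 1) a * ε j c = ε j b := by
    intro j a b c h
    refine Val_unique hx (Val_mul (hnext j a) (hε j c)) ?_
    rw [← map_mul, h]
    exact hε j b
  refine ⟨ε, fun j a => ?_, fun a ha => ?_⟩
  · have key : ∃ b c : A, τ (a : L) * c = b ∧ ε j c ≠ 0 := by
      refine Algebra.adjoin_induction (s := (S : Set L))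
        (p := fun (a : L) _ => ∃ b c : A, τ a * c = b ∧ ε j c ≠ 0) ?_ ?_ ?_ ?_
        (by rw [hS]; exact a.2)
      · intro z hz
        refine ⟨nb (τ z), cb (τ z), hcb _, ?_⟩
        have h3 : (τ ^ (j % m) : L →ₐ[K] L) (cb (τ z) : L) ≠ 0 := by
          rw [map_ne_zero]
          intro h4
          exact hcb0 (τ z) (Subtype.ext h4)
        obtain ⟨c, hc, hv⟩ := hH2v _ h3 _ (hξ (j / m) _ (Nat.mod_lt _ hm) z hz).2
        rw [Val_unique hx (hε j (cb (τ z))) hv]
        exact hc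
      · intro r
        refine ⟨algebraMap K A r, 1, ?_, ?_⟩
        · rw [τ.commutes]
          show algebraMap K L r * 1 = _
          rw [mul_one]
          rfl
        · rw [map_one]
          exact one_ne_zero
      · rintro a₁ a₂ _ _ ⟨b, c, h, hc⟩ ⟨b', c', h', hc'⟩
        refine ⟨b * c' + b' * c, c * c', ?_, ?_⟩
        · rw [map_add]
          show (τ a₁ + τ a₂) * ((c : L) * c') = (b : L) * c' + (b' : L) * c
          rw [← h, ← h']
          ring
        · rw [map_mul]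
          exact mul_ne_zero hc hc'
      · rintro a₁ a₂ _ _ ⟨b, c, h, hc⟩ ⟨b', c', h', hc'⟩
        refine ⟨b * b', c * c', ?_, ?_⟩
        · rw [map_mul]
          show (τ a₁ * τ a₂) * ((c : L) * c') = (b : L) * b'
          rw [← h, ← h']
          ring
        · rw [map_mul]
          exact mul_ne_zero hc hc'
    obtain ⟨b, c, h, hc⟩ := key
    exact ⟨b, c, h, hc, hrel j a b c h⟩
  · obtain ⟨t, ht⟩ := Val_dense hgen hx ξ hDen (a : L) (fun h => ha (Subtype.ext h))
    refine ⟨m * t, fun h0 => ht ?_⟩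
    have h3 := hε (m * t) a
    rw [h0, Nat.mul_div_cancel_left _ hm, Nat.mul_mod_right, pow_zero] at h3
    exact h3

end H42.ZR
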