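import Pool.Agent.H42.ZR.Df

/-!
# ZR: function fields: values of rational functions at points
-/

open MvPolynomial

namespace H42.ZR

open H42.ZD

/-- `L = K(x_0, …, x_{n-1})`; the element `u` of `L` is regular at the point `ξ` of affine space,
with value `c`. -/
def Val {K L : Type*} [Field K] [Field L] [Algebra K L] {n : ℕ} (x : Fin n → L) (ξ : Fin n → K)
    (u : L) (c : K) : Prop :=
  ∃ P Q : MvPolynomial (Fin n) K, eval ξ Q ≠ 0 ∧ u * aeval x Q = aeval x P ∧
    c * eval ξ Q = eval ξ P

end H42.ZR
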