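import Pool.Agent.H42.ZR.Iv

/-!
# ZR: descent of invariants along an algebraic extension of function fields
-/

open MvPolynomial

namespace H42.ZR

open H42.ZD

theorem Iw_iter {K L : Type*} [Field K] [Field L] [Algebra K L] (τ : L →ₐ[K] L) (m : ℕ) (u : L) :
    (τ ^ m) u = τ^[m] u := by
  rw [AlgHom.coe_pow]

theorem Iw_main {K L L' : Type*} [Field K] [IsAlgClosed K] [Field L] [Field L'] [Algebra K L]
    [Algebra K L'] [Algebra L L'] [IsScalarTower K L L'] [Algebra.IsAlgebraic L L']
    (τ : L →ₐ[K] L) (σ : L' →ₐ[K] L') (m : ℕ) (hm : 0 < m)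
    (hστ : ∀ u : L, σ (algebraMap L L' u) = algebraMap L L' (τ^[m] u))
    (u' : L') (hu' : σ u' = u') (hu'K : u' ∉ Set.range (algebraMap K L')) :
    ∃ u : L, τ u = u ∧ u ∉ Set.range (algebraMap K L) := by
  set φ : L →+* L := ((τ ^ m : L →ₐ[K] L) : L →+* L) with hφ
  have hφτ : ∀ u, φ u = τ^[m] u := fun u => Iw_iter τ m u
  have halg : IsIntegral L u' := (Algebra.IsAlgebraic.isAlgebraic u').isIntegral
  set q := minpoly L u' with hq
  have h1 : Polynomial.aeval u' (q.map φ) = 0 := by
    have h2 : σ (Polynomial.aeval u' q) = Polynomial.aeval u' (q.map φ) := by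
      rw [Polynomial.aeval_def, Polynomial.aeval_def, Polynomial.eval₂_map]
      have h3 : σ (Polynomial.eval₂ (algebraMap L L') u' q) =
          Polynomial.eval₂ ((σ : L' →+* L').comp (algebraMap L L')) (σ u') q :=
        Polynomial.hom_eval₂ q (algebraMap L L') (σ : L' →+* L') u'
      rw [h3, hu']
      congr 1
      refine RingHom.ext fun u => ?_
      rw [RingHom.comp_apply, RingHom.comp_apply, hφτ]
      exact hστ u
    rw [← h2, hq, minpoly.aeval, map_zero]
  have h2 : q.map φ = q := by
    exact (minpoly.unique_of_degree_le_degree_minpoly L u' ((minpoly.monic halg).map φ) h1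
      (Polynomial.degree_map q φ).le).trans hq.symm
  have h3 : ∀ i, φ (q.coeff i) = q.coeff i := by
    intro i
    rw [← Polynomial.coeff_map, h2]
  by_cases hall : ∀ i, q.coeff i ∈ Set.range (algebraMap K L)
  · exfalso
    obtain ⟨q0, hq0⟩ : ∃ q0 : Polynomial K, q0.map (algebraMap K L) = q := by
      rw [← Polynomial.mem_lifts, Polynomial.lifts_iff_coeff_lifts]
      exact hall
    have h4 : IsAlgebraic K u' := by
      refine ⟨q0, ?_, ?_⟩
      · rintro rfl
        rw [Polynomial.map_zero] at hq0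
        exact (minpoly.ne_zero halg) hq0.symm
      · have h5 : Polynomial.aeval u' (q0.map (algebraMap K L)) = 0 := by
          rw [hq0, hq, minpoly.aeval]
        rwa [Polynomial.aeval_map_algebraMap] at h5
    have h5 : IsIntegral K u' := h4.isIntegral
    exact hu'K (minpoly.mem_range_of_degree_eq_one K u'
      (IsAlgClosed.degree_eq_one_of_irreducible K (minpoly.irreducible h5)))
  · push Not at hall
    obtain ⟨i, hi⟩ := hall
    have h4 : InvR (K := K) (τ^[m] : L → L) := by
      refine ⟨q.coeff i, 1, one_ne_zero, ?_, ?_⟩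
      · intro c hc
        exact hi ⟨c, by rw [hc, mul_one]⟩
      · rw [← hφτ, ← hφτ, h3 i, map_one]
    obtain ⟨P', Q', hQ', hc, he⟩ := Fr_main τ τ.toRingHom.injective m hm h4
    have hτQ : τ Q' ≠ 0 := fun h0 => hQ' (τ.toRingHom.injective (by
      rw [map_zero]; exact h0))
    refine ⟨P' / Q', ?_, ?_⟩
    · rw [map_div₀, div_eq_div_iff hτQ hQ', he]
    · rintro ⟨c, hc'⟩
      apply hc c
      rw [hc', div_mul_cancel₀ _ hQ']

end H42.ZR
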