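import Pool.Agent.H42.ZR.Fd

/-!
# ZR row NM: from a tower of function fields to polynomial data

`x i ∈ L` algebraically independent over `K`, `L_i = K(x_j, j > i)`; for every `i`, `z i = P(x_i)/Q(x_i)` with
`P, Q ∈ L_i[T]`, fractional linear (only if `q`) or with `deg P ≥ deg Q + 2`. Then there are polynomial data
`N`, `D` (a tower `Tow q N D`) with `z i = N_i(x)/D_i(x)`.

PROOF. Induction on `n` (generalizing `x`, `z`). `n = 0`: `N = D = Fin.elim0`, `Tow.zero`.
`n + 1`: let `x' = x ∘ Fin.succ`, `z' = z ∘ Fin.succ` (algebraically independent: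
`AlgebraicIndependent.comp` with `Fin.succ_injective`). `x '' {j | i.succ < j} = x' '' {j | i < j}`, so the
hypothesis for `x` at `i.succ` is (after `Set` equality, `subst`/`▸`-transport or stating the lemma
with an arbitrary set `S` and a proof `S = …`) the hypothesis for `x'` at `i`. By induction we get `N'`, `D'`.
Top coordinate: `x '' {j | 0 < j} = Set.range x'`. Let `F = IntermediateField.adjoin K (Set.range x')`,
`R = MvPolynomial (Fin n) K`, `φ : R → F`, `φ = aeval x'` (values in `F`), injective, and every element of `F`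
is `φ p / φ s` with `s ≠ 0` (`F` is generated as a field by the image of `φ`:
`IntermediateField.adjoin_induction` or `IntermediateField.mem_adjoin_range_iff`:
elements of the adjoin are quotients of polynomial expressions). So for finitely many elements of `F`
there is a common denominator `φ s`, `0 ≠ s ∈ R` (or: `IsFractionRing R F` and
`IsLocalization.exist_integer_multiples`).
Let `P, Q ∈ F[T]` be as in `hz 0`; `x 0` is transcendental over `F`
(`AlgebraicIndependent` of `Fin.cons`/`option`; `algebraicIndependent …transcendental`: if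
`G(x_0) = 0` with `0 ≠ G ∈ F[T]`, clear denominators to get a non-zero polynomial relation between
`x_0, x'`). So `Q(x_0) ≠ 0` whenever `Q ≠ 0`.
* Case `q ∧ Mob P Q`: `s P = φ a`, `s Q = φ b` with `a, b ∈ R[T]` (coefficientwise), `s ≠ 0`. Then
  `Mob a b` (`natDegree` is preserved since `φ` is injective and `s ≠ 0`; the determinant is multiplied
  by `s²`). `Q ≠ 0`.
* Case `Q ≠ 0`, `deg Q + 2 ≤ deg P`: let `g = gcd P Q` (`EuclideanDomain.gcd` in `F[T]`), `P = g P'`,
  `Q = g Q'`, `IsCoprime P' Q'`, `Q' ≠ 0`, `deg Q' + 2 ≤ deg P'` and `Q'(x_0) z_0 = P'(x_0)` (cancel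
  `g(x_0) ≠ 0`). Choose `0 ≠ s ∈ R` and `a, b ∈ R[T]` with `φ a = s P'`, `φ b = s Q'`; with
  `U' P' + V' Q' = 1` and `0 ≠ s₂ ∈ R`, `U, V ∈ R[T]`, `φ U = s₂ U'`, `φ V = s₂ V'`, we get
  `U a + V b = C (s s₂)` (by injectivity of `R[T] → F[T]`). So `Sup a b`.
In both cases `b(x', x_0) ≠ 0` and `z_0 b(x', x_0) = a(x', x_0)`, where
`(aeval x) ((finSuccEquiv K n).symm a) = Σ_j (aeval x' (a_j)) x_0^j`. Take `N = Step N' a`,
`D = Step D' b`; `aeval x (rename Fin.succ p) = aeval x' p`.
-/

open MvPolynomial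

namespace H42.ZR

open H42.ZD

/-- common denominators of the coefficients of a polynomial -/
theorem NM_den {R F : Type*} [CommRing R] [IsDomain R] [Field F] (φ : R →+* F)
    (hq : ∀ y : F, ∃ p s : R, s ≠ 0 ∧ φ s * y = φ p) (P : Polynomial F) :
    ∃ (s : R) (a : Polynomial R), s ≠ 0 ∧ a.map φ = Polynomial.C (φ s) * P := by
  induction P using Polynomial.induction_on' with
  | add P Q hP hQ =>
    obtain ⟨s, a, hs, ha⟩ := hP
    obtain ⟨s', a', hs', ha'⟩ := hQ
    refine ⟨s * s', Polynomial.C s' * a + Polynomial.C s * a', mul_ne_zero hs hs', ?_⟩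
    rw [Polynomial.map_add, Polynomial.map_mul, Polynomial.map_mul, Polynomial.map_C,
      Polynomial.map_C, ha, ha', map_mul, map_mul]
    ring
  | monomial n y =>
    obtain ⟨p, s, hs, hy⟩ := hq y
    refine ⟨s, Polynomial.monomial n p, hs, ?_⟩
    rw [Polynomial.map_monomial, ← hy, Polynomial.C_mul_monomial]

/-- common denominators for two polynomials -/
theorem NM_den2 {R F : Type*} [CommRing R] [IsDomain R] [Field F] (φ : R →+* F)
    (hq : ∀ y : F, ∃ p s : R, s ≠ 0 ∧ φ s * y = φ p) (P Q : Polynomial F) :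
    ∃ (s : R) (a b : Polynomial R), s ≠ 0 ∧ a.map φ = Polynomial.C (φ s) * P ∧
      b.map φ = Polynomial.C (φ s) * Q := by
  obtain ⟨s, a, hs, ha⟩ := NM_den φ hq P
  obtain ⟨s', b, hs', hb⟩ := NM_den φ hq Q
  refine ⟨s * s', Polynomial.C s' * a, Polynomial.C s * b, mul_ne_zero hs hs', ?_, ?_⟩
  · rw [Polynomial.map_mul, Polynomial.map_C, ha, map_mul, map_mul]
    ring
  · rw [Polynomial.map_mul, Polynomial.map_C, hb, map_mul, map_mul]
    ring

/-- the top coordinate, abstractly -/
theorem NM_abs {R F L : Type*} [CommRing R] [IsDomain R] [Field F] [Field L] (φ : R →+* F)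
    (hφ : Function.Injective φ) (hq : ∀ y : F, ∃ p s : R, s ≠ 0 ∧ φ s * y = φ p)
    (ι : F →+* L) (t z : L) (ht : ∀ b : Polynomial R, b ≠ 0 → b.eval₂ (ι.comp φ) t ≠ 0)
    (q : Prop) (P Q : Polynomial F) (h : Q.eval₂ ι t * z = P.eval₂ ι t)
    (hPQ : (q ∧ Mob P Q) ∨ (Q ≠ 0 ∧ Q.natDegree + 2 ≤ P.natDegree)) :
    ∃ a b : Polynomial R, ((q ∧ Mob a b) ∨ Sup a b) ∧ b.eval₂ (ι.comp φ) t ≠ 0 ∧
      z * b.eval₂ (ι.comp φ) t = a.eval₂ (ι.comp φ) t := by
  have hφ0 : ∀ s : R, s ≠ 0 → φ s ≠ 0 := by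
    intro s hs h0
    exact hs (hφ (h0.trans (map_zero φ).symm))
  have hev : ∀ (b : Polynomial R) (s : R) (G : Polynomial F), b.map φ = Polynomial.C (φ s) * G →
      b.eval₂ (ι.comp φ) t = ι (φ s) * G.eval₂ ι t := by
    intro b s G hb
    rw [← Polynomial.eval₂_map, hb, Polynomial.eval₂_mul, Polynomial.eval₂_C]
  have hnz : ∀ (b : Polynomial R) (s : R) (G : Polynomial F), s ≠ 0 → G ≠ 0 →
      b.map φ = Polynomial.C (φ s) * G → b ≠ 0 := by
    intro b s G hs hG hb h0
    rw [h0, Polynomial.map_zero] at hb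
    exact mul_ne_zero (Polynomial.C_ne_zero.2 (hφ0 s hs)) hG hb.symm
  have htr : ∀ G : Polynomial F, G ≠ 0 → G.eval₂ ι t ≠ 0 := by
    intro G hG h0
    obtain ⟨s, b, hs, hb⟩ := NM_den φ hq G
    have h1 := ht b (hnz b s G hs hG hb)
    rw [hev b s G hb, h0, mul_zero] at h1
    exact h1 rfl
  have hdeg : ∀ (b : Polynomial R) (s : R) (G : Polynomial F), s ≠ 0 →
      b.map φ = Polynomial.C (φ s) * G → b.natDegree = G.natDegree := by
    intro b s G hs hb
    rw [← Polynomial.natDegree_map_eq_of_injective hφ, hb,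
      Polynomial.natDegree_C_mul (hφ0 s hs)]
  have hcf : ∀ (b : Polynomial R) (s : R) (G : Polynomial F),
      b.map φ = Polynomial.C (φ s) * G → ∀ i, φ (b.coeff i) = φ s * G.coeff i := by
    intro b s G hb i
    rw [← Polynomial.coeff_map, hb, Polynomial.coeff_C_mul]
  rcases hPQ with ⟨hq', h1, h2, h3⟩ | ⟨hQ, hd⟩
  · have hQ : Q ≠ 0 := by
      rintro rfl
      apply h3
      simp
    obtain ⟨s, a, b, hs, ha, hb⟩ := NM_den2 φ hq P Q
    refine ⟨a, b, Or.inl ⟨hq', ?_, ?_, ?_⟩, ht b (hnz b s Q hs hQ hb), ?_⟩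
    · rw [hdeg a s P hs ha]
      exact h1
    · rw [hdeg b s Q hs hb]
      exact h2
    · intro h0
      have h4 : φ (a.coeff 1 * b.coeff 0 - a.coeff 0 * b.coeff 1) = 0 := by rw [h0, map_zero]
      rw [map_sub, map_mul, map_mul, hcf a s P ha, hcf a s P ha, hcf b s Q hb, hcf b s Q hb] at h4
      have h5 : (φ s) ^ 2 * (P.coeff 1 * Q.coeff 0 - P.coeff 0 * Q.coeff 1) = 0 := by
        linear_combination h4
      rcases mul_eq_zero.1 h5 with h6 | h6
      · exact pow_ne_zero 2 (hφ0 s hs) h6
      · exact h3 h6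
    · rw [hev a s P ha, hev b s Q hb, ← h]
      ring
  · have hP : P ≠ 0 := by
      rintro rfl
      rw [Polynomial.natDegree_zero] at hd
      omega
    obtain ⟨g, P', Q', hg, hP', hQ', U', V', hUV⟩ : ∃ g P' Q' : Polynomial F, g ≠ 0 ∧
        P = g * P' ∧ Q = g * Q' ∧ ∃ U' V' : Polynomial F, U' * P' + V' * Q' = 1 := by
      classical
      have hg : EuclideanDomain.gcd P Q ≠ 0 := fun h0 =>
        hQ (EuclideanDomain.gcd_eq_zero_iff.1 h0).2
      obtain ⟨P', hP'⟩ := EuclideanDomain.gcd_dvd_left P Q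
      obtain ⟨Q', hQ'⟩ := EuclideanDomain.gcd_dvd_right P Q
      refine ⟨EuclideanDomain.gcd P Q, P', Q', hg, hP', hQ', EuclideanDomain.gcdA P Q,
        EuclideanDomain.gcdB P Q, ?_⟩
      apply mul_left_cancel₀ hg
      have h1 := EuclideanDomain.gcd_eq_gcd_ab P Q
      rw [mul_one, mul_add]
      calc EuclideanDomain.gcd P Q * (EuclideanDomain.gcdA P Q * P') +
            EuclideanDomain.gcd P Q * (EuclideanDomain.gcdB P Q * Q')
          = (EuclideanDomain.gcd P Q * P') * EuclideanDomain.gcdA P Q +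
            (EuclideanDomain.gcd P Q * Q') * EuclideanDomain.gcdB P Q := by ring
        _ = P * EuclideanDomain.gcdA P Q + Q * EuclideanDomain.gcdB P Q := by
            rw [← hP', ← hQ']
        _ = EuclideanDomain.gcd P Q := h1.symm
    have hP0 : P' ≠ 0 := by
      rintro rfl
      exact hP (by rw [hP', mul_zero])
    have hQ0 : Q' ≠ 0 := by
      rintro rfl
      exact hQ (by rw [hQ', mul_zero])
    have hd' : Q'.natDegree + 2 ≤ P'.natDegree := by
      rw [hP', hQ', Polynomial.natDegree_mul hg hP0, Polynomial.natDegree_mul hg hQ0] at hd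
      omega
    have h' : Q'.eval₂ ι t * z = P'.eval₂ ι t := by
      rw [hP', hQ', Polynomial.eval₂_mul, Polynomial.eval₂_mul] at h
      apply mul_left_cancel₀ (htr g hg)
      rw [← h]
      ring
    obtain ⟨s, a, b, hs, ha, hb⟩ := NM_den2 φ hq P' Q'
    obtain ⟨s2, U, V, hs2, hU, hV⟩ := NM_den2 φ hq U' V'
    refine ⟨a, b, Or.inr ⟨hnz b s Q' hs hQ0 hb, ?_, U, V, s * s2, mul_ne_zero hs hs2, ?_⟩,
      ht b (hnz b s Q' hs hQ0 hb), ?_⟩
    · rw [hdeg a s P' hs ha, hdeg b s Q' hs hb]
      exact hd'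
    · apply Polynomial.map_injective φ hφ
      rw [Polynomial.map_add, Polynomial.map_mul, Polynomial.map_mul, ha, hb, hU, hV,
        Polynomial.map_C, map_mul, map_mul]
      calc Polynomial.C (φ s2) * U' * (Polynomial.C (φ s) * P') +
            Polynomial.C (φ s2) * V' * (Polynomial.C (φ s) * Q')
          = Polynomial.C (φ s) * Polynomial.C (φ s2) * (U' * P' + V' * Q') := by ring
        _ = Polynomial.C (φ s) * Polynomial.C (φ s2) := by rw [hUV, mul_one]
    · rw [hev a s P' ha, hev b s Q' hb, ← h']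
      ring

/-- values of polynomials in the top coordinate -/
theorem NM_symm {K L : Type*} [Field K] [Field L] [Algebra K L] {n : ℕ} (x : Fin (n + 1) → L)
    (b : Polynomial (MvPolynomial (Fin n) K)) :
    aeval x ((finSuccEquiv K n).symm b) =
      b.eval₂ ((aeval (fun i => x (Fin.succ i)) : MvPolynomial (Fin n) K →ₐ[K] L) :
        MvPolynomial (Fin n) K →+* L) (x 0) := by
  have key : ((aeval x : MvPolynomial (Fin (n + 1)) K →ₐ[K] L) :
      MvPolynomial (Fin (n + 1)) K →+* L) =
      (Polynomial.eval₂RingHom ((aeval (fun i => x (Fin.succ i)) :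
        MvPolynomial (Fin n) K →ₐ[K] L) : MvPolynomial (Fin n) K →+* L) (x 0)).comp
        ((finSuccEquiv K n : MvPolynomial (Fin (n + 1)) K ≃ₐ[K] _) :
          MvPolynomial (Fin (n + 1)) K →+* Polynomial (MvPolynomial (Fin n) K)) := by
    apply MvPolynomial.ringHom_ext
    · intro r
      rw [RingHom.comp_apply]
      change aeval x (C r) = Polynomial.eval₂ _ _ (finSuccEquiv K n (C r))
      rw [fse_C, Polynomial.eval₂_C]
      simp
    · intro i
      rw [RingHom.comp_apply]
      change aeval x (X i) = Polynomial.eval₂ _ _ (finSuccEquiv K n (X i))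
      refine Fin.cases ?_ (fun j => ?_) i
      · rw [finSuccEquiv_X_zero, Polynomial.eval₂_X, aeval_X]
      · rw [finSuccEquiv_X_succ, Polynomial.eval₂_C, aeval_X]
        simp
  have h1 := DFunLike.congr_fun key ((finSuccEquiv K n).symm b)
  rw [RingHom.comp_apply] at h1
  refine h1.trans ?_
  change Polynomial.eval₂ _ _ (finSuccEquiv K n ((finSuccEquiv K n).symm b)) = _
  rw [AlgEquiv.apply_symm_apply]

/-- the top coordinate -/
theorem NM_top {K L : Type*} [Field K] [Field L] [Algebra K L] {n : ℕ} (q : Prop)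
    (x : Fin (n + 1) → L) (z : L) (hx : AlgebraicIndependent K x) (S : Set L)
    (hS : S = Set.range fun i : Fin n => x i.succ)
    (h : ∃ P Q : Polynomial (IntermediateField.adjoin K S),
      Polynomial.aeval (x 0) Q * z = Polynomial.aeval (x 0) P ∧
      ((q ∧ Mob P Q) ∨ (Q ≠ 0 ∧ Q.natDegree + 2 ≤ P.natDegree))) :
    ∃ a b : Polynomial (MvPolynomial (Fin n) K), ((q ∧ Mob a b) ∨ Sup a b) ∧
      b.eval₂ ((aeval (fun i => x (Fin.succ i)) : MvPolynomial (Fin n) K →ₐ[K] L) :
        MvPolynomial (Fin n) K →+* L) (x 0) ≠ 0 ∧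
      z * b.eval₂ ((aeval (fun i => x (Fin.succ i)) : MvPolynomial (Fin n) K →ₐ[K] L) :
        MvPolynomial (Fin n) K →+* L) (x 0) =
      a.eval₂ ((aeval (fun i => x (Fin.succ i)) : MvPolynomial (Fin n) K →ₐ[K] L) :
        MvPolynomial (Fin n) K →+* L) (x 0) := by
  subst hS
  obtain ⟨P, Q, hPQ, hc⟩ := h
  obtain ⟨φ, hφ⟩ : ∃ φ : MvPolynomial (Fin n) K →ₐ[K]
      IntermediateField.adjoin K (Set.range fun i : Fin n => x i.succ),
      ∀ p, ((φ p : IntermediateField.adjoin K (Set.range fun i : Fin n => x i.succ)) : L) =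
        aeval (fun i => x (Fin.succ i)) p := by
    refine ⟨aeval fun i => ⟨x i.succ, IntermediateField.subset_adjoin K _ ⟨i, rfl⟩⟩, ?_⟩
    intro p
    have h1 : (IntermediateField.val (IntermediateField.adjoin K
        (Set.range fun i : Fin n => x i.succ))).comp
        (aeval fun i : Fin n => (⟨x i.succ, IntermediateField.subset_adjoin K _ ⟨i, rfl⟩⟩ :
          IntermediateField.adjoin K (Set.range fun i : Fin n => x i.succ))) =
        (aeval (fun i => x (Fin.succ i)) : MvPolynomial (Fin n) K →ₐ[K] L) := by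
      apply MvPolynomial.algHom_ext
      intro i
      rw [AlgHom.comp_apply, aeval_X, aeval_X]
      rfl
    exact DFunLike.congr_fun h1 p
  have hx' : Function.Injective (aeval (fun i => x (Fin.succ i)) : MvPolynomial (Fin n) K →ₐ[K] L) :=
    hx.comp Fin.succ (Fin.succ_injective n)
  have hcomp : (algebraMap (IntermediateField.adjoin K (Set.range fun i : Fin n => x i.succ)) L).comp
      (φ : MvPolynomial (Fin n) K →+* _) =
      ((aeval (fun i => x (Fin.succ i)) : MvPolynomial (Fin n) K →ₐ[K] L) :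
        MvPolynomial (Fin n) K →+* L) := by
    exact RingHom.ext fun p => hφ p
  have main := NM_abs (φ : MvPolynomial (Fin n) K →+*
    IntermediateField.adjoin K (Set.range fun i : Fin n => x i.succ)) ?_ ?_
    (algebraMap (IntermediateField.adjoin K (Set.range fun i : Fin n => x i.succ)) L) (x 0) z ?_
    q P Q ?_ hc
  · rw [hcomp] at main
    exact main
  · intro p p' hp
    apply hx'
    rw [← hφ, ← hφ]
    exact congrArg _ hp
  · intro y
    obtain ⟨p, s, hy⟩ := (IntermediateField.mem_adjoin_range_iff K _ (y : L)).1 y.2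
    by_cases hs : s = 0
    · refine ⟨0, 1, one_ne_zero, ?_⟩
      have hy0 : y = 0 := by
        apply Subtype.ext
        rw [hy, hs, map_zero, div_zero]
        rfl
      rw [hy0, mul_zero, map_zero]
    · refine ⟨p, s, hs, ?_⟩
      apply Subtype.ext
      have hs' : (aeval (fun i => x (Fin.succ i)) : MvPolynomial (Fin n) K →ₐ[K] L) s ≠ 0 := by
        intro h0
        exact hs (hx' (h0.trans (map_zero _).symm))
      change ((φ s : IntermediateField.adjoin K (Set.range fun i : Fin n => x i.succ)) : L) *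
        (y : L) = ((φ p : IntermediateField.adjoin K (Set.range fun i : Fin n => x i.succ)) : L)
      rw [hφ, hφ, hy]
      field_simp
  · intro b hb
    rw [hcomp, ← NM_symm]
    intro h0
    have h1 : (finSuccEquiv K n).symm b = 0 := by
      apply (show Function.Injective (aeval x : MvPolynomial (Fin (n + 1)) K →ₐ[K] L) from hx)
      rw [h0, map_zero]
    apply hb
    have h2 := congrArg (finSuccEquiv K n) h1
    rwa [AlgEquiv.apply_symm_apply, map_zero] at h2
  · rw [← Polynomial.aeval_def, ← Polynomial.aeval_def]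
    exact hPQ

theorem NMr {K L : Type*} [Field K] [Field L] [Algebra K L] (q : Prop) (n : ℕ) :
    ∀ (x z : Fin n → L), AlgebraicIndependent K x →
    (∀ i, ∃ P Q : Polynomial (IntermediateField.adjoin K (x '' {j | i < j})),
      Polynomial.aeval (x i) Q * z i = Polynomial.aeval (x i) P ∧
      ((q ∧ Mob P Q) ∨ (Q ≠ 0 ∧ Q.natDegree + 2 ≤ P.natDegree))) →
    ∃ N D : Fin n → MvPolynomial (Fin n) K, Tow q N D ∧
      ∀ i, aeval x (D i) ≠ 0 ∧ z i * aeval x (D i) = aeval x (N i) := by
  induction n with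
  | zero =>
    intro x z _ _
    exact ⟨Fin.elim0, Fin.elim0, Tow.zero _ _, fun i => i.elim0⟩
  | succ n ih =>
    intro x z hx hz
    obtain ⟨N', D', hT, hv⟩ := ih (fun i => x i.succ) (fun i => z i.succ)
      (hx.comp Fin.succ (Fin.succ_injective n)) (fun i => by
        have e : x '' {j | i.succ < j} = (fun i => x (Fin.succ i)) '' {j | i < j} := by
          ext y
          constructor
          · rintro ⟨j, hj, rfl⟩
            obtain ⟨k, rfl⟩ := Fin.exists_succ_eq.2 (Fin.ne_zero_of_lt hj)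
            exact ⟨k, Fin.succ_lt_succ_iff.1 hj, rfl⟩
          · rintro ⟨k, hk, rfl⟩
            exact ⟨k.succ, Fin.succ_lt_succ_iff.2 hk, rfl⟩
        have h := hz i.succ
        rw [e] at h
        exact h)
    have e0 : x '' {j | 0 < j} = Set.range fun i : Fin n => x i.succ := by
      ext y
      constructor
      · rintro ⟨j, hj, rfl⟩
        obtain ⟨k, rfl⟩ := Fin.exists_succ_eq.2 (Fin.ne_zero_of_lt hj)
        exact ⟨k, rfl⟩
      · rintro ⟨k, rfl⟩
        exact ⟨k.succ, Fin.succ_pos k, rfl⟩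
    obtain ⟨a, b, hab, hb, hz0⟩ := NM_top q x (z 0) hx _ e0 (hz 0)
    refine ⟨Step N' a, Step D' b, Tow.step N' D' a b hT hab, ?_⟩
    intro i
    refine Fin.cases ?_ (fun i => ?_) i
    · simp only [Step, Fin.cons_zero, NM_symm]
      exact ⟨hb, hz0⟩
    · simp only [Step, Fin.cons_succ, aeval_rename]
      exact hv i

end H42.ZR
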