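import Pool.Agent.H42.ZR.Av
import Pool.Agent.H42.ZR.NM
import Pool.Agent.H42.ZR.Eq
import Pool.Agent.H42.ZR.Iw

/-!
# ZR: the final theorem
-/

open MvPolynomial

namespace H42.ZR

open H42.ZD

universe u v w

theorem Fin_main {K : Type u} {L : Type v} {L' : Type w} [Field K] [CharZero K] [IsAlgClosed K]
    [Field L] [Field L'] [Algebra K L] [Algebra K L'] [Algebra L L'] [IsScalarTower K L L']
    [Algebra.IsAlgebraic L L'] {n : ℕ} (x : Fin n → L') (hx : AlgebraicIndependent K x)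
    (hgen : IntermediateField.adjoin K (Set.range x) = ⊤)
    (τ : L →ₐ[K] L) (σ : L' →ₐ[K] L') (m : ℕ) (hm : 0 < m)
    (hστ : ∀ u : L, σ (algebraMap L L' u) = algebraMap L L' (τ^[m] u))
    (q : Prop) (hfib : ∀ i, ∃ P Q : Polynomial (IntermediateField.adjoin K (x '' {j | i < j})),
      Polynomial.aeval (x i) Q * σ (x i) = Polynomial.aeval (x i) P ∧
      ((q ∧ Mob P Q) ∨ (Q ≠ 0 ∧ Q.natDegree + 2 ≤ P.natDegree)))
    (hinv : q → ∀ u : L, τ u = u → u ∈ Set.range (algebraMap K L))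
    (A : Subalgebra K L) (hA : A.FG) (hfrac : ∀ z : L, ∃ a b : A, b ≠ 0 ∧ z * b = a) :
    ∃ ε : ℕ → A →ₐ[K] K,
      (∀ (t : ℕ) (a : A), ∃ b c : A, τ a * c = b ∧ ε t c ≠ 0 ∧ ε (t + 1) a * ε t c = ε t b) ∧
      ∀ a : A, a ≠ 0 → ∃ t, ε t a ≠ 0 := by
  obtain ⟨N, D, hT, hND⟩ := NMr q n x (fun i => σ (x i)) hx hfib
  have hI : q → ¬ RInv N D := by
    intro hq hR
    obtain ⟨u', hu', hu'K⟩ := IVr x hx σ 1 one_pos N D (fun i => hND i) hR
    obtain ⟨u, hu, huK⟩ := Iw_main τ σ m hm hστ u' hu' hu'K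
    exact huK (hinv hq u hu)
  exact EPs x hx hgen τ σ m hm hστ N D hND (fun H hH => Av hT hI H hH) A hA hfrac

end H42.ZR
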