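import Pool.Agent.H42.ZR.Df

/-!
# ZR row Fl: the function fields of base and total space

`F = FractionRing (MvPolynomial (Fin n) K)`, `L = FractionRing (MvPolynomial (Fin (n+1)) K)`,
`J : F → L` induced by `rename Fin.succ`, `evY : F[T] → L`, `T ↦ X_0`.

PROOFS.
`J` is `IsFractionRing.map` of the injective ring hom `rename Fin.succ`
(`rename_injective _ (Fin.succ_injective n)`); `J_algebraMap` is `IsFractionRing.map`'s / `IsLocalization.map_eq`.
`evY_map`: for `P ∈ MvPolynomial (Fin n) K [Y]`, by induction on `P` (`Polynomial.induction_on'`), using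
`(finSuccEquiv K n).symm (C p * X^j) = rename Fin.succ p * X 0 ^ j`
(apply `finSuccEquiv` and `fse_rename`, `finSuccEquiv_X_zero`).
`evY_injective`: let `Q ∈ F[T]`, `evY Q = 0`. Clear denominators: there are `0 ≠ s ∈ R = MvPolynomial (Fin n) K`
and `P ∈ R[T]` with `P.map (algebraMap R F) = C (algebraMap s) * Q`
(`IsLocalization.integerNormalization`, or the common denominator of the finitely many coefficients).
Then `algebraMap ((finSuccEquiv).symm P) = evY (P.map algebraMap) = J(algebraMap s) * evY Q = 0`, so
`(finSuccEquiv).symm P = 0`, `P = 0`, `C (algebraMap s) * Q = 0`, `Q = 0`.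
`fs_rename`: both sides are ring homs in `P` (`K`-algebra homs `MvPolynomial (Fin n) K → L`), compare
on `X i`: `fs (Step N a) (Step D b) (X i.succ) = algebraMap (rename succ (N i)) / algebraMap (rename succ (D i))
= J (algebraMap (N i) / algebraMap (D i))`.
`fs_zero`: `fs … (X 0) = algebraMap (symm a) / algebraMap (symm b)` and `evY_map`.
`fs_symm`: `fs (Step N a) (Step D b) ((finSuccEquiv K n).symm P) = Σ_j J (fs N D (P.coeff j)) * (fs … (X 0))^j`,
by writing `P = Σ_j C (P_j) X^j` (`Polynomial.as_sum_range`).
-/

open MvPolynomial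

namespace H42.ZR

open H42.ZD

variable {K : Type*} [Field K] {n : ℕ}

/-- The embedding of the function field of the base. -/
noncomputable def J (K : Type*) [Field K] (n : ℕ) :
    FractionRing (MvPolynomial (Fin n) K) →+* FractionRing (MvPolynomial (Fin (n + 1)) K) :=
  IsFractionRing.map (j := (rename Fin.succ : MvPolynomial (Fin n) K →ₐ[K] _).toRingHom)
    (rename_injective _ (Fin.succ_injective n))

theorem J_algebraMap (P : MvPolynomial (Fin n) K) :
    J K n (algebraMap _ _ P) = algebraMap _ _ (rename Fin.succ P) := by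
  unfold J IsFractionRing.map
  rw [IsLocalization.map_eq]
  rfl

/-- `T ↦ X_0`. -/
noncomputable def evY (K : Type*) [Field K] (n : ℕ) :
    Polynomial (FractionRing (MvPolynomial (Fin n) K)) →+*
      FractionRing (MvPolynomial (Fin (n + 1)) K) :=
  Polynomial.eval₂RingHom (J K n)
    (algebraMap (MvPolynomial (Fin (n + 1)) K) (FractionRing (MvPolynomial (Fin (n + 1)) K)) (X 0))

theorem Fl_symm_C (p : MvPolynomial (Fin n) K) :
    (finSuccEquiv K n).symm (Polynomial.C p) = rename Fin.succ p := by
  rw [AlgEquiv.symm_apply_eq, fse_rename]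

theorem Fl_symm_X : (finSuccEquiv K n).symm Polynomial.X = X 0 := by
  rw [AlgEquiv.symm_apply_eq, finSuccEquiv_X_zero]

theorem Fl_evY_C (x : FractionRing (MvPolynomial (Fin n) K)) :
    evY K n (Polynomial.C x) = J K n x := by
  unfold evY
  rw [Polynomial.coe_eval₂RingHom, Polynomial.eval₂_C]

theorem Fl_evY_X : evY K n Polynomial.X =
    algebraMap (MvPolynomial (Fin (n + 1)) K) (FractionRing (MvPolynomial (Fin (n + 1)) K))
      (X 0) := by
  unfold evY
  rw [Polynomial.coe_eval₂RingHom, Polynomial.eval₂_X]

theorem evY_map (P : Polynomial (MvPolynomial (Fin n) K)) :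
    evY K n (P.map (algebraMap _ _)) = algebraMap _ _ ((finSuccEquiv K n).symm P) := by
  induction P using Polynomial.induction_on' with
  | add p q hp hq => rw [Polynomial.map_add, map_add, hp, hq, map_add, map_add]
  | monomial m a =>
    rw [← Polynomial.C_mul_X_pow_eq_monomial, Polynomial.map_mul, Polynomial.map_pow,
      Polynomial.map_C, Polynomial.map_X, map_mul, map_pow, Fl_evY_C, Fl_evY_X, J_algebraMap,
      map_mul, map_pow, Fl_symm_C, Fl_symm_X, map_mul, map_pow]

theorem evY_injective : Function.Injective (evY K n) := by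
  rw [injective_iff_map_eq_zero]
  intro Q hQ
  obtain ⟨b, hb, h1⟩ := IsLocalization.integerNormalization_spec
    (nonZeroDivisors (MvPolynomial (Fin n) K)) Q
  set P := IsLocalization.integerNormalization (nonZeroDivisors (MvPolynomial (Fin n) K)) Q with hP
  have h2 : evY K n (P.map (algebraMap _ _)) = 0 := by
    rw [h1, Algebra.smul_def, map_mul, hQ, mul_zero]
  rw [evY_map] at h2
  have h3 : (finSuccEquiv K n).symm P = 0 := by
    apply IsFractionRing.injective (MvPolynomial (Fin (n + 1)) K)
      (FractionRing (MvPolynomial (Fin (n + 1)) K))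
    rw [h2, map_zero]
  have h4 : P = 0 := by
    have := congrArg (finSuccEquiv K n) h3
    rwa [AlgEquiv.apply_symm_apply, map_zero] at this
  rw [h4, Polynomial.map_zero] at h1
  have h5 := (smul_eq_zero.1 h1.symm)
  rcases h5 with h5 | h5
  · exact absurd h5 (nonZeroDivisors.ne_zero hb)
  · exact h5

theorem fs_rename (N D : Fin n → MvPolynomial (Fin n) K) (a b : Polynomial (MvPolynomial (Fin n) K))
    (P : MvPolynomial (Fin n) K) :
    fs (Step N a) (Step D b) (rename Fin.succ P) = J K n (fs N D P) := by
  induction P using MvPolynomial.induction_on with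
  | C c =>
    have e1 : fs N D (C c) = algebraMap (MvPolynomial (Fin n) K)
        (FractionRing (MvPolynomial (Fin n) K)) (C c) := by
      unfold fs
      rw [aeval_C]
      exact IsScalarTower.algebraMap_apply K (MvPolynomial (Fin n) K) _ c
    have e2 : fs (Step N a) (Step D b) (C c) = algebraMap (MvPolynomial (Fin (n + 1)) K)
        (FractionRing (MvPolynomial (Fin (n + 1)) K)) (C c) := by
      unfold fs
      rw [aeval_C]
      exact IsScalarTower.algebraMap_apply K (MvPolynomial (Fin (n + 1)) K) _ c
    rw [rename_C, e1, e2, J_algebraMap, rename_C]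
  | add p q hp hq => rw [map_add, map_add, hp, hq, map_add, map_add]
  | mul_X p i hp =>
    rw [map_mul, map_mul, hp, map_mul, map_mul, rename_X]
    congr 1
    unfold fs
    rw [aeval_X, aeval_X, map_div₀, J_algebraMap, J_algebraMap]
    simp only [Step, Fin.cons_succ]

theorem fs_zero (N D : Fin n → MvPolynomial (Fin n) K)
    (a b : Polynomial (MvPolynomial (Fin n) K)) :
    fs (Step N a) (Step D b) (X 0) =
      evY K n (a.map (algebraMap _ _)) / evY K n (b.map (algebraMap _ _)) := by
  rw [evY_map, evY_map]
  unfold fs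
  rw [aeval_X]
  simp only [Step, Fin.cons_zero]

theorem fs_symm (N D : Fin n → MvPolynomial (Fin n) K)
    (a b : Polynomial (MvPolynomial (Fin n) K)) (P : Polynomial (MvPolynomial (Fin n) K)) :
    fs (Step N a) (Step D b) ((finSuccEquiv K n).symm P) =
      ∑ j ∈ Finset.range (P.natDegree + 1), J K n (fs N D (P.coeff j)) *
        (evY K n (a.map (algebraMap _ _)) / evY K n (b.map (algebraMap _ _))) ^ j := by
  conv_lhs => rw [Polynomial.as_sum_range P]
  rw [map_sum, map_sum]
  refine Finset.sum_congr rfl fun j _ => ?_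
  rw [← Polynomial.C_mul_X_pow_eq_monomial, map_mul, map_pow, Fl_symm_C, Fl_symm_X, map_mul,
    map_pow, fs_rename, fs_zero]

end H42.ZR
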