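import Pool.Agent.H42.ZR.Df
import Pool.Agent.H42.ZD.GP

/-!
# ZR row GP: existence of local places

PROOF. Take the place `v` given by `H42.ZD.GP` (with `A`, `B`, `b`, `N`) and localize it: let
`Λ' = {s ∈ K | ∃ u v' ∈ v.Λ, v.ψ v' ≠ 0 ∧ s * v' = u}` (a subring of `K` containing `v.Λ`; note
`v.ψ v' ≠ 0` implies `v' ≠ 0`) and `ψ' : Λ' → v.k`, `ψ' s = v.ψ u / v.ψ v'`; this is well defined
(if `s v' = u`, `s v'' = u'` then `u v'' = u' v'` so `ψ u ψ v'' = ψ u' ψ v'`) and a ring hom extending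
`v.ψ`. (Or: `Λ'` is the localization of `v.Λ` at the prime ideal `ker v.ψ`, and
`IsLocalization.lift`.) The new place `v'` has the same `p`, `k`, `hp`, `lf`; `surj` since `ψ'` extends
the surjective `v.ψ`; `int`, `inv` and `fr` since `v.Λ ≤ Λ'`. It is local: if `s v' = u` and
`ψ' s ≠ 0` then `v.ψ u ≠ 0` and `s⁻¹ u = v'`, so `s⁻¹ ∈ Λ'`. The remaining claims hold since
`v.Λ ≤ Λ'` and `ψ'` extends `v.ψ`.
-/

namespace H42.ZR

open H42.ZD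

universe u

section loc

variable {K : Type u} [Field K]

/-- `s = a / w` with `w` of non-zero reduction -/
def GPr_fr (v : Plc K) (s : K) (a w : v.Λ) : Prop := v.ψ w ≠ 0 ∧ s * (w : K) = (a : K)

theorem GPr_uni (v : Plc K) {s : K} {a w a' w' : v.Λ} (h : GPr_fr v s a w)
    (h' : GPr_fr v s a' w') : v.ψ a / v.ψ w = v.ψ a' / v.ψ w' := by
  have e : a * w' = a' * w := by
    apply Subtype.ext
    rw [Subring.coe_mul, Subring.coe_mul, ← h.2, ← h'.2]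
    ring
  rw [div_eq_div_iff h.1 h'.1, ← map_mul, ← map_mul, e]

theorem GPr_coe (v : Plc K) (x : v.Λ) : GPr_fr v (x : K) x 1 := by
  refine ⟨?_, ?_⟩
  · rw [map_one]
    exact one_ne_zero
  · rw [Subring.coe_one, mul_one]

theorem GPr_mul (v : Plc K) {s s' : K} {a w a' w' : v.Λ} (h : GPr_fr v s a w)
    (h' : GPr_fr v s' a' w') : GPr_fr v (s * s') (a * a') (w * w') := by
  refine ⟨?_, ?_⟩
  · rw [map_mul]
    exact mul_ne_zero h.1 h'.1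
  · rw [Subring.coe_mul, Subring.coe_mul, ← h.2, ← h'.2]
    ring

theorem GPr_add (v : Plc K) {s s' : K} {a w a' w' : v.Λ} (h : GPr_fr v s a w)
    (h' : GPr_fr v s' a' w') : GPr_fr v (s + s') (a * w' + a' * w) (w * w') := by
  refine ⟨?_, ?_⟩
  · rw [map_mul]
    exact mul_ne_zero h.1 h'.1
  · rw [Subring.coe_add, Subring.coe_mul, Subring.coe_mul, Subring.coe_mul, ← h.2, ← h'.2]
    ring

theorem GPr_neg (v : Plc K) {s : K} {a w : v.Λ} (h : GPr_fr v s a w) :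
    GPr_fr v (-s) (-a) w := by
  refine ⟨h.1, ?_⟩
  rw [Subring.coe_neg, ← h.2]
  ring

/-- the local ring -/
def GPr_L (v : Plc K) : Subring K where
  carrier := {s | ∃ a w : v.Λ, GPr_fr v s a w}
  one_mem' := ⟨1, 1, GPr_coe v 1⟩
  zero_mem' := ⟨0, 1, GPr_coe v 0⟩
  mul_mem' := by
    rintro s s' ⟨a, w, h⟩ ⟨a', w', h'⟩
    exact ⟨_, _, GPr_mul v h h'⟩
  add_mem' := by
    rintro s s' ⟨a, w, h⟩ ⟨a', w', h'⟩
    exact ⟨_, _, GPr_add v h h'⟩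
  neg_mem' := by
    rintro s ⟨a, w, h⟩
    exact ⟨_, _, GPr_neg v h⟩

theorem GPr_le (v : Plc K) {x : K} (hx : x ∈ v.Λ) : x ∈ GPr_L v :=
  ⟨⟨x, hx⟩, 1, GPr_coe v ⟨x, hx⟩⟩

/-- the reduction on the local ring -/
noncomputable def GPr_val (v : Plc K) (s : GPr_L v) : v.k :=
  v.ψ s.2.choose / v.ψ s.2.choose_spec.choose

theorem GPr_val_eq (v : Plc K) (s : GPr_L v) {a w : v.Λ} (h : GPr_fr v (s : K) a w) :
    GPr_val v s = v.ψ a / v.ψ w :=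
  GPr_uni v s.2.choose_spec.choose_spec h

noncomputable def GPr_psi (v : Plc K) : GPr_L v →+* v.k where
  toFun := GPr_val v
  map_one' := by
    have h : GPr_fr v ((1 : GPr_L v) : K) 1 1 := GPr_coe v 1
    rw [GPr_val_eq v _ h, map_one, div_one]
  map_zero' := by
    have h : GPr_fr v ((0 : GPr_L v) : K) 0 1 := GPr_coe v 0
    rw [GPr_val_eq v _ h, map_zero, zero_div]
  map_mul' := by
    rintro ⟨s, hs⟩ ⟨s', hs'⟩
    obtain ⟨a, w, h⟩ := hs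
    obtain ⟨a', w', h'⟩ := hs'
    have h1 : GPr_fr v (((⟨s, ⟨a, w, h⟩⟩ : GPr_L v) * ⟨s', ⟨a', w', h'⟩⟩ : GPr_L v) : K)
        (a * a') (w * w') := GPr_mul v h h'
    have h2 : GPr_fr v ((⟨s, ⟨a, w, h⟩⟩ : GPr_L v) : K) a w := h
    have h3 : GPr_fr v ((⟨s', ⟨a', w', h'⟩⟩ : GPr_L v) : K) a' w' := h'
    rw [GPr_val_eq v _ h1, GPr_val_eq v _ h2, GPr_val_eq v _ h3, map_mul, map_mul,
      div_mul_div_comm]
  map_add' := by
    rintro ⟨s, hs⟩ ⟨s', hs'⟩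
    obtain ⟨a, w, h⟩ := hs
    obtain ⟨a', w', h'⟩ := hs'
    have h1 : GPr_fr v (((⟨s, ⟨a, w, h⟩⟩ : GPr_L v) + ⟨s', ⟨a', w', h'⟩⟩ : GPr_L v) : K)
        (a * w' + a' * w) (w * w') := GPr_add v h h'
    have h2 : GPr_fr v ((⟨s, ⟨a, w, h⟩⟩ : GPr_L v) : K) a w := h
    have h3 : GPr_fr v ((⟨s', ⟨a', w', h'⟩⟩ : GPr_L v) : K) a' w' := h'
    rw [GPr_val_eq v _ h1, GPr_val_eq v _ h2, GPr_val_eq v _ h3, map_add, map_mul, map_mul,
      map_mul, div_add_div _ _ h.1 h'.1]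
    ring

theorem GPr_psi_eq (v : Plc K) (s : GPr_L v) {a w : v.Λ} (h : GPr_fr v (s : K) a w) :
    GPr_psi v s = v.ψ a / v.ψ w := GPr_val_eq v s h

theorem GPr_psi_coe (v : Plc K) {x : K} (hx : x ∈ v.Λ) :
    GPr_psi v ⟨x, GPr_le v hx⟩ = v.ψ ⟨x, hx⟩ := by
  have h : GPr_fr v ((⟨x, GPr_le v hx⟩ : GPr_L v) : K) ⟨x, hx⟩ 1 := GPr_coe v ⟨x, hx⟩
  rw [GPr_psi_eq v _ h, map_one, div_one]

/-- the localized place -/
noncomputable def GPr_P (v : Plc K) : Plc K where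
  p := v.p
  k := v.k
  hp := v.hp
  lf := v.lf
  Λ := GPr_L v
  ψ := GPr_psi v
  surj := by
    intro y
    obtain ⟨x, hx⟩ := v.surj y
    exact ⟨⟨x, GPr_le v x.2⟩, (GPr_psi_coe v x.2).trans hx⟩
  int := fun x hx => GPr_le v (v.int x hx)
  inv := fun s hs => GPr_le v (v.inv s hs)
  fr := by
    intro x
    obtain ⟨s, hs, h0, h1⟩ := v.fr x
    exact ⟨s, GPr_le v hs, h0, GPr_le v h1⟩

theorem GPr_isLoc (v : Plc K) : IsLoc (GPr_P v) := by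
  intro x hx
  obtain ⟨a, w, h⟩ := x.2
  have h1 : GPr_psi v x = v.ψ a / v.ψ w := GPr_psi_eq v x h
  have h2 : GPr_psi v x ≠ 0 := hx
  rw [h1] at h2
  have h3 : v.ψ a ≠ 0 := fun h0 => h2 (by rw [h0, zero_div])
  refine ⟨w, a, h3, ?_⟩
  have h4 : (x : K) ≠ 0 := by
    intro h0
    apply h3
    have h5 : (a : K) = 0 := by
      rw [← h.2, h0, zero_mul]
    have h6 : a = 0 := Subtype.ext h5
    rw [h6, map_zero]
  rw [← h.2, inv_mul_cancel_left₀ h4]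

end loc

theorem GPr {K : Type u} [Field K] [CharZero K] [IsAlgClosed K] (A : Finset K)
    (hA : Algebra.IsAlgebraic (Algebra.adjoin ℤ (A : Set K)) K) (B : Finset K) (b : K)
    (hb : b ≠ 0) (N : ℕ) :
    ∃ v : Plc K, IsLoc v ∧ N < v.p ∧ (∀ x ∈ B, x ∈ v.Λ) ∧
      ∃ h : b ∈ v.Λ, v.ψ ⟨b, h⟩ ≠ 0 := by
  obtain ⟨v, h1, h2, h3, h4⟩ := H42.ZD.GP A hA B b hb N
  exact ⟨GPr_P v, GPr_isLoc v, h1, fun x hx => GPr_le v (h2 x hx), GPr_le v h3, by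
    have h5 : GPr_psi v ⟨b, GPr_le v h3⟩ ≠ 0 := by
      rw [GPr_psi_coe v h3]
      exact h4
    exact h5⟩

end H42.ZR
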