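import Pool.Agent.H42.ZR.Df

/-!
# ZR row GR: the growth lemma (fibre maps with a superattracting point at infinity)

`S` is a noetherian domain inside a field `K`, `I` a maximal ideal such that all elements outside
`I` are units, `π ∈ I`. `x t ∈ S^n` is a sequence recurrent modulo all powers of `I` (the base
orbit); `Y t ∈ K` satisfies `Y_{t+1} b(x_t, Y_t) = a(x_t, Y_t)` and starts at `Y 0 = z / π` with
`z ∉ I`; `deg a ≥ deg b + 2`, and the leading coefficients of `a`, `b` do not vanish modulo `I` along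
`x`. Then a polynomial `P` in the fibre coordinate vanishing along `(Y_t, x_t)` has a leading
coefficient vanishing along `x`. (The polynomial case is `Pool/Agent/H42/ZD/GR.lean`, proved: adapt.)

PROOF. `E = a.natDegree`, `l = b.natDegree`, `e = E - l ≥ 2`. For `c ∈ MvPolynomial (Fin n) S` write
`c(t) = eval (x t) c ∈ S`. Let `ι = algebraMap S K` (injective). `π ≠ 0`, since otherwise `hY0` gives
`z = 0 ∈ I`.

(1) There are `u_t ∈ S`, `u_t ∉ I`, with `ι(π)^(e^t) * Y t = ι(u_t)`. `u_0 = z`. Given `u_t`, put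
`w = e^t` and
`α = Σ_{j≤E} a_j(t) u_t^j π^((E-j) w)`, `β = Σ_{j≤l} b_j(t) u_t^j π^((l-j) w)` (`a_j = a.coeff j` etc.);
the terms with `j < E` (resp. `j < l`) are in `I`, and the top terms are not in `I` (`I` prime), so
`α, β ∉ I`. Then `ι(π)^(E w) a(Y_t) = ι(α)` and `ι(π)^(l w) b(Y_t) = ι(β)`. Multiplying
`Y_{t+1} b(Y_t) = a(Y_t)` by `ι(π)^(E w)`: `ι(π)^(e w) Y_{t+1} ι(β) = ι(α)`, and `β` is a unit of `S`
(`hloc`), so `ι(π)^(e^(t+1)) Y_{t+1} = ι(α β⁻¹)`, `u_{t+1} = α β⁻¹ ∉ I`.

(2) Let `m = P.natDegree`, `P_m = P.leadingCoeff`, `w = e^t`. Multiply `hP t` by `ι(π)^(m w)`: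
in `S`, `P_m(t) u_t^m = - Σ_{j<m} P_j(t) u_t^j π^((m-j) w) ∈ I^w`; `u_t` is a unit, so
`P_m(t) ∈ I^(e^t)` for every `t`.

(3) Fix `t`, `k`, and `M > 0` from `hrec k`. By induction `x_{t+jM} ≡ x_t mod I^k` for all `j`, so
`P_m(t) - P_m(t + jM) ∈ I^k`; take `j = k`: `e^(t+kM) ≥ 2^k ≥ k`, so `P_m(t+kM) ∈ I^k` and
`P_m(t) ∈ I^k`. So `P_m(t) ∈ ⨅ k, I^k = ⊥` (Krull, `Ideal.iInf_pow_eq_bot_of_isDomain`).
-/

open MvPolynomial

namespace H42.ZR

open H42.ZD

private theorem GRr_hom {R S K : Type*} [CommRing R] [CommRing S] [Field K] (φ : R →+* S)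
    (ι : S →+* K) (p : Polynomial R) (D : ℕ) (hD : p.natDegree ≤ D) (a u : S) (y : K)
    (h : ι a * y = ι u) :
    ι a ^ D * p.eval₂ (ι.comp φ) y =
      ι (∑ j ∈ Finset.range (D + 1), φ (p.coeff j) * u ^ j * a ^ (D - j)) := by
  rw [Polynomial.eval₂_eq_sum_range' (ι.comp φ) (n := D + 1) (Nat.lt_succ_of_le hD), Finset.mul_sum,
    map_sum]
  refine Finset.sum_congr rfl fun j hj => ?_
  have hj' : j ≤ D := Nat.lt_succ_iff.1 (Finset.mem_range.1 hj)
  rw [map_mul, map_mul, map_pow, map_pow, ← h, mul_pow, RingHom.comp_apply]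
  have e : ι a ^ D = ι a ^ j * ι a ^ (D - j) := by
    rw [← pow_add, Nat.add_sub_cancel' hj']
  rw [e]
  ring

private theorem GRr_congr {S : Type*} [CommRing S] (J : Ideal S) {n : ℕ} (u v : Fin n → S)
    (h : ∀ i, u i - v i ∈ J) (p : MvPolynomial (Fin n) S) : eval u p - eval v p ∈ J := by
  induction p using MvPolynomial.induction_on with
  | C a =>
    rw [eval_C, eval_C, sub_self]
    exact J.zero_mem
  | add p q hp hq =>
    rw [map_add, map_add]
    have e : eval u p + eval u q - (eval v p + eval v q) =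
        (eval u p - eval v p) + (eval u q - eval v q) := by ring
    rw [e]
    exact J.add_mem hp hq
  | mul_X p i hp =>
    rw [map_mul, map_mul, eval_X, eval_X]
    have e : eval u p * u i - eval v p * v i =
        (eval u p - eval v p) * u i + eval v p * (u i - v i) := by ring
    rw [e]
    exact J.add_mem (J.mul_mem_right _ hp) (J.mul_mem_left _ (h i))

private theorem GRr_top {S : Type*} [CommRing S] (I : Ideal S) [I.IsMaximal] {n : ℕ}
    (x : Fin n → S) (h : Polynomial (MvPolynomial (Fin n) S)) (hc : eval x h.leadingCoeff ∉ I)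
    {u p : S} (hu : u ∉ I) (hp : p ∈ I) :
    ∑ j ∈ Finset.range (h.natDegree + 1), eval x (h.coeff j) * u ^ j * p ^ (h.natDegree - j) ∉ I := by
  rw [Finset.sum_range_succ, Nat.sub_self, pow_zero, mul_one]
  intro hcon
  have h3 : ∑ j ∈ Finset.range h.natDegree, eval x (h.coeff j) * u ^ j *
      p ^ (h.natDegree - j) ∈ I := by
    refine I.sum_mem fun j hj => I.mul_mem_left _ ?_
    have hj' := Finset.mem_range.1 hj
    exact I.pow_mem_of_mem hp _ (by omega)
  have h4 := (I.add_mem_iff_right h3).1 hcon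
  have hprime : I.IsPrime := inferInstance
  rcases hprime.mem_or_mem h4 with h5 | h5
  · exact hc h5
  · exact hu (hprime.mem_of_pow_mem _ h5)

theorem GRr {S K : Type*} [CommRing S] [IsDomain S] [IsNoetherianRing S] [Field K] [Algebra S K]
    (hinj : Function.Injective (algebraMap S K)) (I : Ideal S) [I.IsMaximal]
    (hloc : ∀ s : S, s ∉ I → IsUnit s) (π : S) (hπ : π ∈ I) {n : ℕ} (x : ℕ → Fin n → S)
    (hrec : ∀ k : ℕ, ∃ M : ℕ, 0 < M ∧ ∀ t i, x (t + M) i - x t i ∈ I ^ k)
    (a b : Polynomial (MvPolynomial (Fin n) S)) (hab : b.natDegree + 2 ≤ a.natDegree)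
    (ha : ∀ t, eval (x t) a.leadingCoeff ∉ I) (hb : ∀ t, eval (x t) b.leadingCoeff ∉ I)
    (z : S) (hz : z ∉ I) (Y : ℕ → K) (hY0 : algebraMap S K π * Y 0 = algebraMap S K z)
    (hY : ∀ t, Y (t + 1) * b.eval₂ ((algebraMap S K).comp (eval (x t))) (Y t) =
      a.eval₂ ((algebraMap S K).comp (eval (x t))) (Y t))
    (P : Polynomial (MvPolynomial (Fin n) S))
    (hP : ∀ t, P.eval₂ ((algebraMap S K).comp (eval (x t))) (Y t) = 0) (t : ℕ) :
    eval (x t) P.leadingCoeff = 0 := by
  have hprime : I.IsPrime := inferInstance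
  obtain ⟨e, he⟩ : ∃ e, a.natDegree = e + b.natDegree := ⟨a.natDegree - b.natDegree, by omega⟩
  have he2 : 2 ≤ e := by omega
  have hepos : ∀ t, 1 ≤ e ^ t := fun t => Nat.one_le_pow _ _ (by omega)
  have h1 : ∀ t, ∃ u : S, u ∉ I ∧ algebraMap S K (π ^ e ^ t) * Y t = algebraMap S K u := by
    intro t
    induction t with
    | zero => exact ⟨z, hz, by rw [pow_zero, pow_one]; exact hY0⟩
    | succ t ih =>
      obtain ⟨u, hu, hu'⟩ := ih
      have hpm : π ^ e ^ t ∈ I := I.pow_mem_of_mem hπ _ (hepos t)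
      have hA := GRr_hom (eval (x t)) (algebraMap S K) a a.natDegree le_rfl _ _ _ hu'
      have hB := GRr_hom (eval (x t)) (algebraMap S K) b b.natDegree le_rfl _ _ _ hu'
      have nA := GRr_top I (x t) a (ha t) hu hpm
      have nB := GRr_top I (x t) b (hb t) hu hpm
      obtain ⟨α, hα⟩ : ∃ α, α = ∑ j ∈ Finset.range (a.natDegree + 1), eval (x t) (a.coeff j) * u ^ j *
        (π ^ e ^ t) ^ (a.natDegree - j) := ⟨_, rfl⟩
      obtain ⟨β, hβ⟩ : ∃ β, β = ∑ j ∈ Finset.range (b.natDegree + 1), eval (x t) (b.coeff j) * u ^ j *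
        (π ^ e ^ t) ^ (b.natDegree - j) := ⟨_, rfl⟩
      rw [← hα] at hA nA
      rw [← hβ] at hB nB
      obtain ⟨β', hβ'⟩ := (hloc β nB).exists_right_inv
      have nB' : β' ∉ I := by
        intro h0
        have h2 := I.mul_mem_left β h0
        rw [hβ'] at h2
        exact hprime.ne_top ((Ideal.eq_top_iff_one I).2 h2)
      refine ⟨α * β', fun h0 => ?_, ?_⟩
      · rcases hprime.mem_or_mem h0 with h5 | h5
        · exact nA h5
        · exact nB' h5
      · have h6 : algebraMap S K (π ^ e ^ (t + 1)) = algebraMap S K (π ^ e ^ t) ^ e := by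
          rw [pow_succ, pow_mul, map_pow]
        have h7 : algebraMap S K (π ^ e ^ t) ^ a.natDegree =
            algebraMap S K (π ^ e ^ t) ^ e * algebraMap S K (π ^ e ^ t) ^ b.natDegree := by
          rw [he, pow_add]
        have h8 : algebraMap S K β * algebraMap S K β' = 1 := by rw [← map_mul, hβ', map_one]
        rw [h6, map_mul, ← hA, ← hY t, h7]
        linear_combination (-(algebraMap S K (π ^ e ^ t) ^ e * Y (t + 1) * algebraMap S K β')) * hB -
          (algebraMap S K (π ^ e ^ t) ^ e * Y (t + 1)) * h8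
  have h2 : ∀ t, eval (x t) P.leadingCoeff ∈ I ^ (e ^ t) := by
    intro t
    obtain ⟨u, hu, hu'⟩ := h1 t
    have h3 := GRr_hom (eval (x t)) (algebraMap S K) P P.natDegree le_rfl _ _ _ hu'
    rw [hP t, mul_zero] at h3
    have h4 := (map_eq_zero_iff _ hinj).1 h3.symm
    rw [Finset.sum_range_succ, Nat.sub_self, pow_zero, mul_one] at h4
    have hun : IsUnit (u ^ P.natDegree) := (hloc u hu).pow _
    have h5 : eval (x t) P.leadingCoeff * u ^ P.natDegree =
        -∑ j ∈ Finset.range P.natDegree, eval (x t) (P.coeff j) * u ^ j *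
          (π ^ e ^ t) ^ (P.natDegree - j) := by
      rw [Polynomial.leadingCoeff]
      exact eq_neg_of_add_eq_zero_right h4
    refine (Ideal.mul_unit_mem_iff_mem (I ^ e ^ t) hun).1 ?_
    rw [h5]
    refine (I ^ e ^ t).neg_mem ((I ^ e ^ t).sum_mem fun j hj => (I ^ e ^ t).mul_mem_left _ ?_)
    have hj' := Finset.mem_range.1 hj
    exact (I ^ e ^ t).pow_mem_of_mem (Ideal.pow_mem_pow hπ _) _ (by omega)
  have h3 : ∀ k, eval (x t) P.leadingCoeff ∈ I ^ k := by
    intro k
    obtain ⟨N, hN, hNk⟩ := hrec k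
    have h4 : ∀ j, eval (x (t + j * N)) P.leadingCoeff -
        eval (x t) P.leadingCoeff ∈ I ^ k := by
      intro j
      induction j with
      | zero =>
        rw [Nat.zero_mul, Nat.add_zero, sub_self]
        exact (I ^ k).zero_mem
      | succ j ih =>
        have h5 := GRr_congr (I ^ k) _ _ (hNk (t + j * N)) P.leadingCoeff
        have e' : t + (j + 1) * N = t + j * N + N := by ring
        rw [e']
        have h6 := (I ^ k).add_mem h5 ih
        rwa [sub_add_sub_cancel] at h6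
    have h7 : eval (x (t + k * N)) P.leadingCoeff ∈ I ^ k := by
      refine Ideal.pow_le_pow_right ?_ (h2 (t + k * N))
      have e1 : k ≤ t + k * N := (Nat.le_mul_of_pos_right k hN).trans (Nat.le_add_left _ _)
      calc k ≤ 2 ^ k := Nat.lt_two_pow_self.le
        _ ≤ 2 ^ (t + k * N) := Nat.pow_le_pow_right (by norm_num) e1
        _ ≤ e ^ (t + k * N) := Nat.pow_le_pow_left he2 _
    have h8 := (I ^ k).sub_mem h7 (h4 k)
    rwa [sub_sub_cancel] at h8
  have h4 : eval (x t) P.leadingCoeff ∈ (⨅ k : ℕ, I ^ k) := by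
    rw [Submodule.mem_iInf]
    exact h3
  have h5 : (⨅ k : ℕ, I ^ k) = ⊥ :=
    Ideal.iInf_pow_eq_bot_of_isDomain I (Ideal.IsMaximal.ne_top inferInstance)
  rw [h5] at h4
  exact (Submodule.mem_bot S).1 h4

end H42.ZR
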