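import Pool.Agent.H42.ZR.Cp

/-!
# ZR row IP: rational functions over `\bar F_p`, superattracting at infinity, have infinitely many
periodic points

`φ(z) = A(z) / B(z)` (total function `k → k`, `x / 0 = 0`). A point `y` is *truly periodic* if
`φ^[N] y = y` for some `N > 0` and `B` does not vanish on its orbit; `Per` is the set of these.
(The polynomial case is `Pool/Agent/H42/ZD/IPb.lean`, proved, a simpler version of this argument.)

Call a pair `(A, B)` of polynomials *good* if `B ≠ 0`, `B.natDegree + 2 ≤ A.natDegree`,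
`IsCoprime A B`. For a good pair with `E = A.natDegree` define the iterates
`(A_0, B_0) = (X, 1)`, `A_{r+1} = hom E A A_r B_r`, `B_{r+1} = hom E B A_r B_r`.

(1) By `Cp_step` and induction: `B_r ≠ 0`, `deg B_r < deg A_r = E^r`, `A_r`, `B_r` coprime, for
`r ≥ 1` the pair `(A_r, B_r)` is good; and if `B_r(y) ≠ 0` then `B(φ^[j] y) ≠ 0` for `j < r` and
`φ^[r] y = A_r(y) / B_r(y)`.
Let `F_r = A_r - X B_r`; for `r ≥ 1`, `deg F_r = E^r`. If `F_r(y) = 0` then `B_r(y) ≠ 0` (otherwise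
`A_r(y) = 0` too, against coprimality) and `φ^[r] y = y`, so `y ∈ Per` (if `r ≥ 1`; the orbit of `y`
is `y, φ y, …, φ^[r-1] y` and `B` does not vanish on it).

(2) LOCAL COMPUTATION at a fixed point. Let `(A, B)` be good, `B(s) ≠ 0`, `A(s) = s B(s)`. Write
`A_r - s B_r = (X - s) V_r`. (`A_r(s) = s B_r(s)` and `B_r(s) ≠ 0` by induction on `r`:
`hom_eval_ne` gives `A_{r+1}(s) = B_r(s)^E A(s)`, `B_{r+1}(s) = B_r(s)^E B(s)`.) Put
`λ_r = V_r(s) / B_r(s)`, `λ = λ_1`. Then `λ_0 = 1` and `λ_{r+1} = λ λ_r`: with `A - s B = (X - s) V`,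
`A_{r+1} - s B_{r+1} = hom E (A - s B) A_r B_r = (A_r - s B_r) hom (E-1) V A_r B_r`
(`hom` is additive in `p`, `hom E ((X - s) q) U W = (U - s W) hom (E-1) q U W` for `deg q ≤ E-1`), so
`V_{r+1}(s) = V_r(s) B_r(s)^(E-1) V(s)` by `hom_eval_ne` (`A_r(s)/B_r(s) = s`), and
`B_{r+1}(s) = B_r(s)^E B(s)`. Hence `λ_r = λ^r`.

(3) MULTIPLICITIES. Let moreover `λ ∈ {0, 1}`. `F = F_1 = A - X B ≠ 0`, `F(s) = 0`,
`F = (X - s)^m W`, `W(s) ≠ 0`, `m ≥ 1`. If `λ = 0` then `m = 1`
(`F'(s) = A'(s) - B(s) - s B'(s) = V(s) - B(s) = -B(s) ≠ 0` as `V(s) = A'(s) - s B'(s) = 0`).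
CLAIM: for `r ≥ 1`, `F_r = (X - s)^m W_r` with `W_{r+1}(s)/B_{r+1}(s) = λ^(r m) W(s)/B(s) + W_r(s)/B_r(s)`.
Indeed `A_{r+1} B_r - A_r B_{r+1} = B_r hom E F A_r B_r`: both sides agree because
`hom E (X B) U W * W = U * hom E B U W`-type identity (`deg B < E`:
`W * hom E (X B) U W = U * hom E B U W`), applied with `U = A_r`, `W = B_r`. Hence
`B_r F_{r+1} = (A_{r+1} B_r - A_r B_{r+1}) + B_{r+1} (A_r - X B_r) = B_r hom E F A_r B_r + B_{r+1} F_r`.
Now `hom E F A_r B_r = (A_r - s B_r)^m hom (E-m) W A_r B_r = (X-s)^m V_r^m hom (E-m) W A_r B_r`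
(`deg F = E`, `deg W = E - m`). So `(X - s)^m` divides `B_r F_{r+1}`, hence `F_{r+1}`
(`B_r(s) ≠ 0`), `F_{r+1} = (X-s)^m W_{r+1}`, and at `s` (`hom (E-m) W A_r B_r` at `s` is
`B_r(s)^(E-m) W(s)`): `B_r(s) W_{r+1}(s) = B_r(s) V_r(s)^m B_r(s)^(E-m) W(s) + B_{r+1}(s) W_r(s)`; divide
by `B_r(s) B_{r+1}(s) = B_r(s) B_r(s)^E B(s)` and use `V_r(s) = λ^r B_r(s)`.
Consequently: if `λ = 1`, `W_r(s)/B_r(s) = r W(s)/B(s)`; if `λ = 0` (`m = 1`),
`W_r(s)/B_r(s) = W(s)/B(s)` for `r ≥ 1`. For `r = p + 1` both give `W_{p+1}(s) ≠ 0`. So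
`rootMultiplicity s F_{p+1} = m = rootMultiplicity s F_1`.

(4) CONCLUSION. Suppose `Per` (for `A`, `B`) is finite. Let `M_1 ≥ 1` be a common period of all
points of `Per` and `(A¹, B¹) = (A_{M_1}, B_{M_1})`, a good pair with `B¹(s) ≠ 0`,
`A¹(s) = s B¹(s)` for `s ∈ Per` (`B_{r}(s) ≠ 0` for all `r`: by (1)-type induction, if `B_r(s) ≠ 0` and
`B(φ^[r] s) ≠ 0` then `B_{r+1}(s) = B_r(s)^E B(φ^[r] s) ≠ 0`). Let `λ_s` be its multiplier at `s`
(`λ` of (2)). By `lf`, `λ_s = 0` or `λ_s^(p^{r_s} - 1) = 1`; let `M_2 = ∏_s (p^{r_s} - 1) ≥ 1` and let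
`(A², B²)` be the `M_2`-th iterate of the pair `(A¹, B¹)`: a good pair fixing each `s ∈ Per`, with
multipliers `λ_s^(M_2) ∈ {0, 1}` (for `λ_s = 0`: `0^(M_2) = 0`). By (1) for `(A², B²)`, `(A¹, B¹)` and
`(A, B)`, every root of `F²_r`, `r ≥ 1`, is truly periodic for `A²/B²`, hence for `A¹/B¹`, hence for
`φ = A/B`, so it lies in `Per`. By (3) and algebraic closedness (number of roots with multiplicity =
degree) `deg F²_{p+1} = Σ_{s ∈ Per} mult_s F²_{p+1} = Σ_{s ∈ Per} mult_s F²_1 = deg F²_1`, i.e.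
`E_2^(p+1) = E_2` with `E_2 = deg A² ≥ 2`. Contradiction.
-/

open Polynomial

namespace H42.ZR

section aux

variable {k : Type*} [Field k]

/-- the iterates as pairs -/
noncomputable def IP_it (A B : k[X]) : ℕ → k[X] × k[X]
  | 0 => (X, 1)
  | r + 1 => (hom A.natDegree A (IP_it A B r).1 (IP_it A B r).2,
      hom A.natDegree B (IP_it A B r).1 (IP_it A B r).2)

theorem IP_it_zero (A B : k[X]) : IP_it A B 0 = (X, 1) := rfl

theorem IP_it_succ (A B : k[X]) (r : ℕ) : IP_it A B (r + 1) =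
    (hom A.natDegree A (IP_it A B r).1 (IP_it A B r).2,
      hom A.natDegree B (IP_it A B r).1 (IP_it A B r).2) := rfl

/-- good pairs -/
def IP_good (A B : k[X]) : Prop := B ≠ 0 ∧ B.natDegree + 2 ≤ A.natDegree ∧ IsCoprime A B

/-- the map -/
noncomputable def IP_phi (A B : k[X]) : k → k := fun z => A.eval z / B.eval z

/-- homogenization in the fraction field -/
theorem IP_hom (E : ℕ) (p U W : k[X]) (hp : p.natDegree ≤ E) (hW : W ≠ 0) :
    algebraMap k[X] (FractionRing k[X]) (hom E p U W) =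
      algebraMap k[X] (FractionRing k[X]) W ^ E *
        p.eval₂ ((algebraMap k[X] (FractionRing k[X])).comp C)
          (algebraMap k[X] (FractionRing k[X]) U / algebraMap k[X] (FractionRing k[X]) W) := by
  have hw : algebraMap k[X] (FractionRing k[X]) W ≠ 0 := by
    intro h0
    exact hW ((IsFractionRing.injective k[X] (FractionRing k[X])) (h0.trans (map_zero _).symm))
  unfold hom
  rw [map_sum, eval₂_eq_sum_range' _ (Nat.lt_succ_of_le hp), Finset.mul_sum]
  refine Finset.sum_congr rfl fun j hj => ?_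
  have hj' : j ≤ E := Nat.lt_succ_iff.1 (Finset.mem_range.1 hj)
  have e : algebraMap k[X] (FractionRing k[X]) W ^ E =
      algebraMap k[X] (FractionRing k[X]) W ^ (E - j) *
        algebraMap k[X] (FractionRing k[X]) W ^ j := by
    rw [← pow_add, Nat.sub_add_cancel hj']
  rw [map_mul, map_mul, map_pow, map_pow, e, div_pow, RingHom.comp_apply]
  have h0 : algebraMap k[X] (FractionRing k[X]) W ^ j ≠ 0 := pow_ne_zero _ hw
  field_simp

theorem IP_hom_mul (m n : ℕ) (p q U W : k[X]) (hp : p.natDegree ≤ m) (hq : q.natDegree ≤ n)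
    (hW : W ≠ 0) : hom (m + n) (p * q) U W = hom m p U W * hom n q U W := by
  apply IsFractionRing.injective k[X] (FractionRing k[X])
  rw [IP_hom _ _ _ _ (natDegree_mul_le.trans (Nat.add_le_add hp hq)) hW, map_mul,
    IP_hom _ _ _ _ hp hW, IP_hom _ _ _ _ hq hW, eval₂_mul, pow_add]
  ring

theorem IP_hom_lin (s : k) (U W : k[X]) : hom 1 (X - C s) U W = U - C s * W := by
  unfold hom
  rw [Finset.sum_range_succ, Finset.sum_range_one]
  simp only [coeff_sub, coeff_X_zero, coeff_C_zero, zero_sub, pow_zero, mul_one, Nat.sub_zero,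
    pow_one, coeff_X_one, coeff_C_succ, sub_zero, map_one, one_mul, Nat.sub_self, map_neg]
  ring

theorem IP_hom_pow (m : ℕ) (s : k) (U W : k[X]) (hW : W ≠ 0) :
    hom m ((X - C s) ^ m) U W = (U - C s * W) ^ m := by
  induction m with
  | zero =>
    unfold hom
    simp
  | succ m ih =>
    rw [pow_succ, IP_hom_mul m 1 _ _ U W ?_ ?_ hW, ih, IP_hom_lin, pow_succ]
    · rw [natDegree_pow, natDegree_X_sub_C, mul_one]
    · rw [natDegree_X_sub_C]

theorem IP_hom_sub (E : ℕ) (p q U W : k[X]) : hom E (p - q) U W = hom E p U W - hom E q U W := by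
  unfold hom
  rw [← Finset.sum_sub_distrib]
  refine Finset.sum_congr rfl fun j _ => ?_
  rw [coeff_sub, map_sub]
  ring

theorem IP_hom_C (E : ℕ) (s : k) (p U W : k[X]) : hom E (C s * p) U W = C s * hom E p U W := by
  unfold hom
  rw [Finset.mul_sum]
  refine Finset.sum_congr rfl fun j _ => ?_
  rw [coeff_C_mul, map_mul]
  ring

/-- the identity for `F` -/
theorem IP_F (E : ℕ) (A B U W : k[X]) (hA : A.natDegree ≤ E) (hB : B.natDegree < E) (hW : W ≠ 0) :
    W * (hom E A U W - X * hom E B U W) =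
      W * hom E (A - X * B) U W + hom E B U W * (U - X * W) := by
  have hXB : (X * B).natDegree ≤ E := by
    refine natDegree_mul_le.trans ?_
    rw [natDegree_X]
    omega
  apply IsFractionRing.injective k[X] (FractionRing k[X])
  have hw : algebraMap k[X] (FractionRing k[X]) W ≠ 0 := by
    intro h0
    exact hW ((IsFractionRing.injective k[X] (FractionRing k[X])) (h0.trans (map_zero _).symm))
  rw [map_mul, map_sub, map_mul, map_add, map_mul, map_mul, map_sub, map_mul,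
    IP_hom _ _ _ _ hA hW, IP_hom _ _ _ _ hB.le hW,
    IP_hom _ _ _ _ ((natDegree_sub_le _ _).trans (max_le hA hXB)) hW, eval₂_sub, eval₂_mul,
    eval₂_X]
  field_simp
  ring

variable [IsAlgClosed k]

theorem IP_F1 {A B : k[X]} (h : IP_good A B) (r : ℕ) :
    (IP_it A B r).2 ≠ 0 ∧ (IP_it A B r).2.natDegree < (IP_it A B r).1.natDegree ∧
    IsCoprime (IP_it A B r).1 (IP_it A B r).2 ∧
    (IP_it A B r).1.natDegree = A.natDegree ^ r := by
  induction r with
  | zero =>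
    rw [IP_it_zero]
    refine ⟨one_ne_zero, ?_, isCoprime_one_right, ?_⟩
    · rw [natDegree_one, natDegree_X]
      exact one_pos
    · rw [natDegree_X, pow_zero]
  | succ r ih =>
    obtain ⟨h1, h2, h3, h4⟩ := ih
    obtain ⟨c1, c2, c3, c4, -⟩ := Cp_step A B _ _ h.1 h.2.1 h.2.2 h1 h2 h3
    rw [IP_it_succ]
    refine ⟨c2, Nat.lt_of_lt_of_le (Nat.lt_add_of_pos_right two_pos) c3, c4, ?_⟩
    rw [c1, h4, pow_succ, mul_comm]

theorem IP_F1' {A B : k[X]} (h : IP_good A B) (r : ℕ) :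
    IP_good (IP_it A B (r + 1)).1 (IP_it A B (r + 1)).2 := by
  obtain ⟨h1, h2, h3, h4⟩ := IP_F1 h r
  obtain ⟨c1, c2, c3, c4, -⟩ := Cp_step A B _ _ h.1 h.2.1 h.2.2 h1 h2 h3
  exact ⟨c2, c3, c4⟩

theorem IP_F2 {A B : k[X]} (h : IP_good A B) (r : ℕ) (y : k) (hy : (IP_it A B r).2.eval y ≠ 0) :
    (∀ j < r, B.eval ((IP_phi A B)^[j] y) ≠ 0) ∧
    (IP_phi A B)^[r] y = (IP_it A B r).1.eval y / (IP_it A B r).2.eval y := by
  induction r with
  | zero =>
    refine ⟨fun j hj => absurd hj (Nat.not_lt_zero j), ?_⟩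
    rw [IP_it_zero, eval_X, eval_one, div_one]
    rfl
  | succ r ih =>
    obtain ⟨h1, h2, h3, h4⟩ := IP_F1 h r
    obtain ⟨-, -, -, -, c5⟩ := Cp_step A B _ _ h.1 h.2.1 h.2.2 h1 h2 h3
    obtain ⟨d1, d2, d3⟩ := c5 y hy
    obtain ⟨e1, e2⟩ := ih d1
    refine ⟨fun j hj => ?_, ?_⟩
    · rcases Nat.lt_succ_iff_lt_or_eq.1 hj with hj | rfl
      · exact e1 j hj
      · rw [e2]
        exact d2
    · rw [Function.iterate_succ_apply', e2, IP_it_succ, d3]
      rfl

theorem IP_F2' {A B : k[X]} (h : IP_good A B) (r : ℕ) (y : k)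
    (hy : ∀ j < r, B.eval ((IP_phi A B)^[j] y) ≠ 0) : (IP_it A B r).2.eval y ≠ 0 := by
  induction r with
  | zero =>
    rw [IP_it_zero, eval_one]
    exact one_ne_zero
  | succ r ih =>
    have h1 := ih fun j hj => hy j (by omega)
    have h2 := (IP_F2 h r y h1).2
    have h3 : B.natDegree ≤ A.natDegree := by
      have := h.2.1
      omega
    rw [IP_it_succ]
    change (hom A.natDegree B (IP_it A B r).1 (IP_it A B r).2).eval y ≠ 0
    rw [hom_eval_ne _ _ _ _ h3 _ h1, ← h2]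
    exact mul_ne_zero (pow_ne_zero _ h1) (hy r (Nat.lt_succ_self r))

/-- the polynomial of the `r`-periodic points -/
noncomputable def IP_P (A B : k[X]) (r : ℕ) : k[X] := (IP_it A B r).1 - X * (IP_it A B r).2

theorem IP_P_deg {A B : k[X]} (h : IP_good A B) (r : ℕ) :
    (IP_P A B (r + 1)).natDegree = A.natDegree ^ (r + 1) := by
  obtain ⟨g1, g2, g3⟩ := IP_F1' h r
  unfold IP_P
  rw [natDegree_sub_eq_left_of_natDegree_lt, (IP_F1 h (r + 1)).2.2.2]
  refine lt_of_le_of_lt natDegree_mul_le ?_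
  rw [natDegree_X]
  omega

/-- the truly periodic points -/
def IP_Per (A B : k[X]) (y : k) : Prop := ∃ N : ℕ, 0 < N ∧ (IP_phi A B)^[N] y = y ∧
  ∀ j : ℕ, B.eval ((IP_phi A B)^[j] y) ≠ 0

theorem IP_root {A B : k[X]} (h : IP_good A B) (r : ℕ) (hr : 0 < r) (y : k)
    (hy : (IP_P A B r).eval y = 0) : IP_Per A B y := by
  have h0 : (IP_it A B r).1.eval y = y * (IP_it A B r).2.eval y := by
    have h1 := hy
    unfold IP_P at h1
    rw [eval_sub, eval_mul, eval_X] at h1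
    exact sub_eq_zero.1 h1
  have h1 : (IP_it A B r).2.eval y ≠ 0 := by
    intro h2
    rw [h2, mul_zero] at h0
    rcases (Cp_cop _ _).1 (IP_F1 h r).2.2.1 y with h3 | h3
    · exact h3 h0
    · exact h3 h2
  obtain ⟨h2, h3⟩ := IP_F2 h r y h1
  rw [h0, mul_div_cancel_right₀ _ h1] at h3
  refine ⟨r, hr, h3, fun j => ?_⟩
  have h4 : Function.IsPeriodicPt (IP_phi A B) r y := h3
  rw [← h4.iterate_mod_apply j]
  exact h2 _ (Nat.mod_lt _ hr)

theorem IP_trans {A B : k[X]} (h : IP_good A B) (M : ℕ) (hM : 0 < M) (y : k)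
    (hy : IP_Per (IP_it A B M).1 (IP_it A B M).2 y) : IP_Per A B y := by
  obtain ⟨N, hN, h1, h2⟩ := hy
  have h3 : ∀ q, (∀ i < M, B.eval ((IP_phi A B)^[i]
      ((IP_phi (IP_it A B M).1 (IP_it A B M).2)^[q] y)) ≠ 0) ∧
      (IP_phi A B)^[M] ((IP_phi (IP_it A B M).1 (IP_it A B M).2)^[q] y) =
      (IP_phi (IP_it A B M).1 (IP_it A B M).2)^[q + 1] y := by
    intro q
    obtain ⟨h4, h5⟩ := IP_F2 h M _ (h2 q)
    refine ⟨h4, ?_⟩
    rw [h5, Function.iterate_succ_apply']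
    rfl
  have h4 : ∀ q, (IP_phi A B)^[M * q] y = (IP_phi (IP_it A B M).1 (IP_it A B M).2)^[q] y := by
    intro q
    induction q with
    | zero => rfl
    | succ q ih =>
      rw [Nat.mul_succ, Nat.add_comm, Function.iterate_add_apply, ih]
      exact (h3 q).2
  refine ⟨M * N, Nat.mul_pos hM hN, ?_, fun j => ?_⟩
  · rw [h4, h1]
  · have h5 : j = j % M + M * (j / M) := (Nat.mod_add_div j M).symm
    rw [h5, Function.iterate_add_apply, h4]
    exact (h3 _).1 _ (Nat.mod_lt _ hM)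

/-- the multiplier -/
noncomputable def IP_lam (A B : k[X]) (s : k) : k :=
  (derivative (A - C s * B)).eval s / B.eval s

omit [IsAlgClosed k] in
theorem IP_fix {A B : k[X]} (h : IP_good A B) {s : k} (hB : B.eval s ≠ 0)
    (hA : A.eval s = s * B.eval s) (r : ℕ) :
    (IP_it A B r).2.eval s ≠ 0 ∧ (IP_it A B r).1.eval s = s * (IP_it A B r).2.eval s ∧
    (IP_it A B (r + 1)).2.eval s = (IP_it A B r).2.eval s ^ A.natDegree * B.eval s := by
  have hle : B.natDegree ≤ A.natDegree := by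
    have := h.2.1
    omega
  have key : ∀ r, (IP_it A B r).2.eval s ≠ 0 → (IP_it A B r).1.eval s =
      s * (IP_it A B r).2.eval s →
      (IP_it A B (r + 1)).2.eval s = (IP_it A B r).2.eval s ^ A.natDegree * B.eval s ∧
      (IP_it A B (r + 1)).1.eval s = (IP_it A B r).2.eval s ^ A.natDegree * A.eval s := by
    intro r h1 h2
    rw [IP_it_succ]
    change (hom A.natDegree B (IP_it A B r).1 (IP_it A B r).2).eval s = _ ∧
      (hom A.natDegree A (IP_it A B r).1 (IP_it A B r).2).eval s = _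
    rw [hom_eval_ne _ _ _ _ hle _ h1, hom_eval_ne _ _ _ _ le_rfl _ h1, h2,
      mul_div_cancel_right₀ _ h1]
    exact ⟨rfl, rfl⟩
  have main : (IP_it A B r).2.eval s ≠ 0 ∧
      (IP_it A B r).1.eval s = s * (IP_it A B r).2.eval s := by
    induction r with
    | zero =>
      rw [IP_it_zero, eval_one, eval_X, mul_one]
      exact ⟨one_ne_zero, rfl⟩
    | succ r ih =>
      obtain ⟨h1, h2⟩ := key r ih.1 ih.2
      rw [h1, h2, hA]
      exact ⟨mul_ne_zero (pow_ne_zero _ ih.1) hB, by ring⟩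
  exact ⟨main.1, main.2, (key r main.1 main.2).1⟩

omit [IsAlgClosed k] in
theorem IP_der {q v : k[X]} {s : k} (h : q = (X - C s) * v) : (derivative q).eval s = v.eval s := by
  rw [h, derivative_mul, derivative_sub, derivative_X, derivative_C, sub_zero, one_mul, eval_add,
    eval_mul, eval_sub, eval_X, eval_C, sub_self, zero_mul, add_zero]

omit [IsAlgClosed k] in
theorem IP_fac {A B : k[X]} {s : k} (hA : A.eval s = s * B.eval s) :
    ∃ v, A - C s * B = (X - C s) * v := by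
  have h1 : (X - C s) ∣ A - C s * B := by
    refine dvd_iff_isRoot.2 ?_
    change (A - C s * B).eval s = 0
    rw [eval_sub, eval_mul, eval_C, hA, sub_self]
  exact h1

theorem IP_V {A B : k[X]} (h : IP_good A B) {s : k} (hB : B.eval s ≠ 0)
    (hA : A.eval s = s * B.eval s) (r : ℕ) :
    ∃ v : k[X], (IP_it A B r).1 - C s * (IP_it A B r).2 = (X - C s) * v ∧
      v.eval s = IP_lam A B s ^ r * (IP_it A B r).2.eval s := by
  obtain ⟨V, hV⟩ := IP_fac hA
  have hVs : V.eval s = IP_lam A B s * B.eval s := by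
    unfold IP_lam
    rw [div_mul_cancel₀ _ hB, IP_der hV]
  have hlt : B.natDegree < A.natDegree := by
    have := h.2.1
    omega
  have hE : 1 ≤ A.natDegree := by omega
  have hdV : V.natDegree ≤ A.natDegree - 1 := by
    by_cases hV0 : V = 0
    · rw [hV0, natDegree_zero]
      exact Nat.zero_le _
    · have h1 : ((X - C s) * V).natDegree = 1 + V.natDegree := by
        rw [natDegree_mul (X_sub_C_ne_zero s) hV0, natDegree_X_sub_C]
      rw [← hV] at h1
      have h2 : (A - C s * B).natDegree ≤ A.natDegree := by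
        refine (natDegree_sub_le _ _).trans (max_le le_rfl ?_)
        exact (natDegree_C_mul_le _ _).trans hlt.le
      omega
  induction r with
  | zero =>
    refine ⟨1, ?_, ?_⟩
    · rw [IP_it_zero]
      ring
    · rw [IP_it_zero, eval_one, pow_zero, mul_one]
  | succ r ih =>
    obtain ⟨v, hv, hvs⟩ := ih
    have hW := (IP_F1 h r).1
    obtain ⟨f1, f2, f3⟩ := IP_fix h hB hA r
    refine ⟨v * hom (A.natDegree - 1) V (IP_it A B r).1 (IP_it A B r).2, ?_, ?_⟩
    · rw [IP_it_succ]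
      change hom A.natDegree A _ _ - C s * hom A.natDegree B _ _ = _
      rw [← IP_hom_C, ← IP_hom_sub, hV]
      have e : A.natDegree = 1 + (A.natDegree - 1) := by omega
      conv_lhs => rw [e]
      rw [IP_hom_mul 1 _ _ _ _ _ (natDegree_X_sub_C s).le hdV hW, IP_hom_lin, hv, mul_assoc]
    · rw [eval_mul, hom_eval_ne _ _ _ _ hdV _ f1, f2, mul_div_cancel_right₀ _ f1, f3, hvs, hVs]
      have e : (IP_it A B r).2.eval s ^ A.natDegree =
          (IP_it A B r).2.eval s ^ (A.natDegree - 1) * (IP_it A B r).2.eval s := by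
        rw [← pow_succ, Nat.sub_add_cancel hE]
      rw [e, pow_succ]
      ring

theorem IP_lam_it {A B : k[X]} (h : IP_good A B) {s : k} (hB : B.eval s ≠ 0)
    (hA : A.eval s = s * B.eval s) (r : ℕ) :
    IP_lam (IP_it A B r).1 (IP_it A B r).2 s = IP_lam A B s ^ r := by
  obtain ⟨v, hv, hvs⟩ := IP_V h hB hA r
  have h1 : IP_lam (IP_it A B r).1 (IP_it A B r).2 s = v.eval s / (IP_it A B r).2.eval s := by
    rw [← IP_der hv]
    rfl
  rw [h1, hvs, mul_div_cancel_right₀ _ (IP_fix h hB hA r).1]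

theorem IP_mult {p : ℕ} [Fact p.Prime] [CharP k p] {A B : k[X]} (h : IP_good A B)
    {s : k} (hB : B.eval s ≠ 0) (hA : A.eval s = s * B.eval s)
    (h01 : IP_lam A B s = 0 ∨ IP_lam A B s = 1) :
    (IP_P A B (p + 1)).rootMultiplicity s = (IP_P A B 1).rootMultiplicity s := by
  have hlt : B.natDegree < A.natDegree := by
    have := h.2.1
    omega
  have hP1 : IP_P A B 1 = A - X * B := by
    have e := IP_F A.natDegree A B X 1 le_rfl hlt one_ne_zero
    rw [one_mul, one_mul, mul_one, sub_self, mul_zero, add_zero] at e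
    have e1 : hom A.natDegree (A - X * B) X 1 = A - X * B := by
      have hXB : (A - X * B).natDegree ≤ A.natDegree := by
        refine (natDegree_sub_le _ _).trans (max_le le_rfl (natDegree_mul_le.trans ?_))
        rw [natDegree_X]
        omega
      refine Eq.trans ?_ (as_sum_range_C_mul_X_pow' (A - X * B) (Nat.lt_succ_of_le hXB)).symm
      unfold hom
      refine Finset.sum_congr rfl fun j _ => ?_
      rw [one_pow, mul_one]
    rw [← e1, ← e]
    rfl
  have hne1 : IP_P A B 1 ≠ 0 := by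
    intro h0
    have h1 := IP_P_deg h 0
    rw [zero_add, h0, natDegree_zero, pow_one] at h1
    omega
  obtain ⟨w, hw, hnd⟩ := exists_eq_pow_rootMultiplicity_mul_and_not_dvd (IP_P A B 1) hne1 s
  obtain ⟨m, hm⟩ : ∃ m, m = (IP_P A B 1).rootMultiplicity s := ⟨_, rfl⟩
  rw [← hm] at hw ⊢
  have hws : w.eval s ≠ 0 := fun h0 => hnd (dvd_iff_isRoot.2 h0)
  have hw0 : w ≠ 0 := by
    rintro rfl
    exact hws eval_zero
  have hm0 : m ≠ 0 := by
    rintro rfl
    rw [pow_zero, one_mul] at hw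
    apply hws
    rw [← hw, hP1, eval_sub, eval_mul, eval_X, hA, sub_self]
  have hdeg : (A - X * B).natDegree = m + w.natDegree := by
    rw [← hP1, hw, natDegree_mul (pow_ne_zero _ (X_sub_C_ne_zero s)) hw0, natDegree_pow,
      natDegree_X_sub_C, mul_one]
  have hdegA : (A - X * B).natDegree = A.natDegree := by
    rw [← hP1]
    have h1 := IP_P_deg h 0
    rwa [zero_add, pow_one] at h1
  have hEm : A.natDegree = m + w.natDegree := hdegA.symm.trans hdeg
  have key : ∀ r : ℕ, ∃ u : k[X], IP_P A B r = (X - C s) ^ m * u ∧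
      u.eval s * B.eval s = (∑ i ∈ Finset.range r, IP_lam A B s ^ (i * m)) * w.eval s *
        (IP_it A B r).2.eval s := by
    intro r
    induction r with
    | zero =>
      refine ⟨0, ?_, ?_⟩
      · unfold IP_P
        rw [IP_it_zero]
        ring
      · rw [Finset.range_zero, Finset.sum_empty, eval_zero]
        ring
    | succ r ih =>
      obtain ⟨u, hu, hus⟩ := ih
      obtain ⟨v, hv, hvs⟩ := IP_V h hB hA r
      obtain ⟨f1, f2, f3⟩ := IP_fix h hB hA r
      have hW := (IP_F1 h r).1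
      have e1 : (IP_it A B r).2 * IP_P A B (r + 1) =
          (IP_it A B r).2 * hom A.natDegree (A - X * B) (IP_it A B r).1 (IP_it A B r).2 +
            (IP_it A B (r + 1)).2 * IP_P A B r :=
        IP_F A.natDegree A B _ _ le_rfl hlt hW
      have e2 : hom A.natDegree (A - X * B) (IP_it A B r).1 (IP_it A B r).2 =
          (X - C s) ^ m * (v ^ m * hom w.natDegree w (IP_it A B r).1 (IP_it A B r).2) := by
        have e0 : ((X - C s) ^ m : k[X]).natDegree ≤ m := by
          rw [natDegree_pow, natDegree_X_sub_C, mul_one]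
        rw [← hP1, hw, hEm, IP_hom_mul m w.natDegree _ _ _ _ e0 le_rfl hW,
          IP_hom_pow m s _ _ hW, hv, mul_pow, mul_assoc]
      have e3 : (IP_it A B r).2 * IP_P A B (r + 1) = (X - C s) ^ m *
          ((IP_it A B r).2 * (v ^ m * hom w.natDegree w (IP_it A B r).1 (IP_it A B r).2) +
            (IP_it A B (r + 1)).2 * u) := by
        rw [e1, e2, hu]
        ring
      have hcop : IsCoprime ((X - C s) ^ m) (IP_it A B r).2 := by
        refine IsCoprime.pow_left ?_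
        refine ((irreducible_X_sub_C s).coprime_iff_not_dvd).2 fun hd => ?_
        exact f1 (dvd_iff_isRoot.1 hd)
      obtain ⟨u', hu'⟩ : (X - C s) ^ m ∣ IP_P A B (r + 1) :=
        hcop.dvd_of_dvd_mul_left (Dvd.intro _ e3.symm)
      refine ⟨u', hu', ?_⟩
      have e4 : (IP_it A B r).2 * u' =
          (IP_it A B r).2 * (v ^ m * hom w.natDegree w (IP_it A B r).1 (IP_it A B r).2) +
            (IP_it A B (r + 1)).2 * u := by
        refine mul_left_cancel₀ (pow_ne_zero m (X_sub_C_ne_zero s)) ?_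
        rw [← e3, hu']
        ring
      have e5 := congrArg (eval s) e4
      rw [eval_add, eval_mul, eval_mul, eval_mul, eval_mul, eval_pow,
        hom_eval_ne _ _ _ _ le_rfl _ f1, f2, mul_div_cancel_right₀ _ f1, f3, hvs] at e5
      refine mul_left_cancel₀ f1 ?_
      rw [Finset.sum_range_succ, f3, pow_mul]
      have e6 : (IP_it A B r).2.eval s ^ A.natDegree =
          (IP_it A B r).2.eval s ^ m * (IP_it A B r).2.eval s ^ w.natDegree := by
        rw [← pow_add, ← hEm]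
      rw [mul_pow] at e5
      calc (IP_it A B r).2.eval s * (u'.eval s * B.eval s)
          = ((IP_it A B r).2.eval s * u'.eval s) * B.eval s := by ring
        _ = _ := by
          rw [e5, e6]
          linear_combination (IP_it A B r).2.eval s ^ m * (IP_it A B r).2.eval s ^ w.natDegree *
            B.eval s * hus
  obtain ⟨u, hu, hus⟩ := key (p + 1)
  have hsum : (∑ i ∈ Finset.range (p + 1), IP_lam A B s ^ (i * m)) = 1 := by
    rcases h01 with h0 | h0
    · rw [h0, Finset.sum_range_succ', Nat.zero_mul, pow_zero, Finset.sum_eq_zero, zero_add]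
      intro i _
      exact zero_pow (Nat.mul_ne_zero (Nat.succ_ne_zero i) hm0)
    · rw [h0]
      simp only [one_pow]
      rw [Finset.sum_const, Finset.card_range, nsmul_eq_mul, mul_one, Nat.cast_add,
        CharP.cast_eq_zero, zero_add, Nat.cast_one]
  have hus0 : u.eval s ≠ 0 := by
    intro h0
    rw [h0, zero_mul, hsum, one_mul] at hus
    exact mul_ne_zero hws (IP_fix h hB hA (p + 1)).1 hus.symm
  have hu0 : u ≠ 0 := by
    rintro rfl
    exact hus0 eval_zero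
  rw [hu, mul_comm, rootMultiplicity_mul_X_sub_C_pow hu0, rootMultiplicity_eq_zero hus0, zero_add]

theorem IP_main {p : ℕ} [Fact p.Prime] [CharP k p] {A B : k[X]} (h : IP_good A B)
    (hs : ∀ s : k, (∃ r : ℕ, 0 < r ∧ (IP_P A B r).eval s = 0) → B.eval s ≠ 0 ∧
      A.eval s = s * B.eval s ∧ (IP_lam A B s = 0 ∨ IP_lam A B s = 1)) : False := by
  have hr : (IP_P A B (p + 1)).roots = (IP_P A B 1).roots := by
    classical
    refine Multiset.ext.2 fun a => ?_
    rw [count_roots, count_roots]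
    by_cases ha : ∃ r : ℕ, 0 < r ∧ (IP_P A B r).eval a = 0
    · obtain ⟨h1, h2, h3⟩ := hs a ha
      exact IP_mult h h1 h2 h3
    · rw [rootMultiplicity_eq_zero fun h0 => ha ⟨p + 1, Nat.succ_pos p, h0⟩,
        rootMultiplicity_eq_zero fun h0 => ha ⟨1, one_pos, h0⟩]
  have h1 : ∀ q : k[X], q.roots.card = q.natDegree := fun q =>
    splits_iff_card_roots.1 (IsAlgClosed.splits q)
  have h2 := h1 (IP_P A B (p + 1))
  have h3 := IP_P_deg h 0
  rw [zero_add] at h3
  rw [hr, h1, IP_P_deg h p, h3] at h2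
  have hp : 1 < p + 1 := Nat.succ_lt_succ (Fact.out (p := p.Prime)).pos
  have hd := h.2.1
  exact absurd h2 (Nat.pow_lt_pow_right (by omega) hp).ne

end aux

theorem IPr {k : Type*} [Field k] [IsAlgClosed k] {p : ℕ} [Fact p.Prime] [CharP k p]
    (lf : ∀ y : k, ∃ r : ℕ, 0 < r ∧ y ^ (p ^ r) = y) (A B : k[X])
    (hAB : B.natDegree + 2 ≤ A.natDegree) (hB : B ≠ 0) (hco : IsCoprime A B) :
    {y : k | ∃ N : ℕ, 0 < N ∧ (fun z => A.eval z / B.eval z)^[N] y = y ∧
      ∀ j : ℕ, B.eval ((fun z => A.eval z / B.eval z)^[j] y) ≠ 0}.Infinite := by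
  intro hfin
  have hg : IP_good A B := ⟨hB, hAB, hco⟩
  obtain ⟨S, hS⟩ : ∃ S : Finset k, ∀ y, y ∈ S ↔ IP_Per A B y :=
    ⟨hfin.toFinset, fun y => hfin.mem_toFinset⟩
  have hc : ∀ y : k, ∃ N : ℕ, 0 < N ∧ (y ∈ S → Function.IsPeriodicPt (IP_phi A B) N y ∧
      ∀ j : ℕ, B.eval ((IP_phi A B)^[j] y) ≠ 0) := by
    intro y
    by_cases hy : y ∈ S
    · obtain ⟨N, h1, h2, h3⟩ := (hS y).1 hy
      exact ⟨N, h1, fun _ => ⟨h2, h3⟩⟩
    · exact ⟨1, one_pos, fun h => absurd h hy⟩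
  choose N hN0 hN using hc
  obtain ⟨M₁, hM₁⟩ : ∃ M, M = ∏ y ∈ S, N y := ⟨_, rfl⟩
  have hM₁0 : 0 < M₁ := by
    rw [hM₁]
    exact Finset.prod_pos fun y _ => hN0 y
  have hfix : ∀ y ∈ S, Function.IsPeriodicPt (IP_phi A B) M₁ y := by
    intro y hy
    refine (hN y hy).1.trans_dvd ?_
    rw [hM₁]
    exact Finset.dvd_prod_of_mem _ hy
  obtain ⟨A₁, hA₁⟩ : ∃ G, G = (IP_it A B M₁).1 := ⟨_, rfl⟩
  obtain ⟨B₁, hB₁⟩ : ∃ G, G = (IP_it A B M₁).2 := ⟨_, rfl⟩
  have hg₁ : IP_good A₁ B₁ := by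
    obtain ⟨m, rfl⟩ : ∃ m, M₁ = m + 1 := ⟨M₁ - 1, by omega⟩
    rw [hA₁, hB₁]
    exact IP_F1' hg m
  have hs₁ : ∀ s ∈ S, B₁.eval s ≠ 0 ∧ A₁.eval s = s * B₁.eval s := by
    intro s hs
    have h1 : B₁.eval s ≠ 0 := by
      rw [hB₁]
      exact IP_F2' hg M₁ s fun j _ => (hN s hs).2 j
    refine ⟨h1, ?_⟩
    have h2 := (IP_F2 hg M₁ s (by rw [← hB₁]; exact h1)).2
    rw [← hA₁, ← hB₁] at h2
    have h3 : (IP_phi A B)^[M₁] s = s := hfix s hs
    rw [h3] at h2
    rw [eq_div_iff h1] at h2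
    exact h2.symm
  choose R hR0 hR using fun s : k => lf (IP_lam A₁ B₁ s)
  have hp2 : 2 ≤ p := (Fact.out (p := p.Prime)).two_le
  have hpr : ∀ s, 0 < p ^ R s - 1 := fun s =>
    Nat.sub_pos_of_lt (Nat.one_lt_pow (hR0 s).ne' (by omega))
  obtain ⟨M₂, hM₂⟩ : ∃ M, M = ∏ y ∈ S, (p ^ R y - 1) := ⟨_, rfl⟩
  have hM₂0 : 0 < M₂ := by
    rw [hM₂]
    exact Finset.prod_pos fun y _ => hpr y
  obtain ⟨A₂, hA₂⟩ : ∃ G, G = (IP_it A₁ B₁ M₂).1 := ⟨_, rfl⟩
  obtain ⟨B₂, hB₂⟩ : ∃ G, G = (IP_it A₁ B₁ M₂).2 := ⟨_, rfl⟩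
  have hg₂ : IP_good A₂ B₂ := by
    obtain ⟨m, rfl⟩ : ∃ m, M₂ = m + 1 := ⟨M₂ - 1, by omega⟩
    rw [hA₂, hB₂]
    exact IP_F1' hg₁ m
  refine IP_main (p := p) hg₂ ?_
  rintro s ⟨r, hr, h1⟩
  have h2 : IP_Per A₂ B₂ s := IP_root hg₂ r hr s h1
  rw [hA₂, hB₂] at h2
  have h3 : IP_Per A₁ B₁ s := IP_trans hg₁ M₂ hM₂0 s h2
  rw [hA₁, hB₁] at h3
  have hs : s ∈ S := (hS s).2 (IP_trans hg M₁ hM₁0 s h3)
  obtain ⟨f1, f2⟩ := hs₁ s hs
  obtain ⟨g1, g2, -⟩ := IP_fix hg₁ f1 f2 M₂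
  refine ⟨?_, ?_, ?_⟩
  · rw [hB₂]
    exact g1
  · rw [hA₂, hB₂]
    exact g2
  · rw [hA₂, hB₂, IP_lam_it hg₁ f1 f2]
    by_cases h0 : IP_lam A₁ B₁ s = 0
    · left
      rw [h0, zero_pow hM₂0.ne']
    · right
      have h4 : IP_lam A₁ B₁ s ^ (p ^ R s - 1) = 1 := by
        refine mul_right_cancel₀ h0 ?_
        rw [← pow_succ, Nat.sub_add_cancel (Nat.one_le_pow _ _ (by omega)), one_mul]
        exact hR s
      obtain ⟨c, hcc⟩ : p ^ R s - 1 ∣ M₂ := by
        rw [hM₂]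
        exact Finset.dvd_prod_of_mem (fun y => p ^ R y - 1) hs
      rw [hcc, pow_mul, h4, one_pow]

end H42.ZR
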