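import Pool.Agent.H42.ZR.Fl

/-!
# ZR row In: the comorphism of a tower is injective

PROOF.
`In_ne`: `F` a field, `A, B ∈ F[T]` with (1) `A.natDegree ≤ 1`, `B.natDegree ≤ 1`,
`A_1 B_0 - A_0 B_1 ≠ 0`, or (2) `B ≠ 0`, `B.natDegree < A.natDegree`; `c : ℕ → F`, `c m ≠ 0`. Then
`G = Σ_{j ≤ m} C (c j) A^j B^(m-j) ≠ 0`. If `m = 0`, `G = C (c 0) ≠ 0`. Case (2): the term `j = m` has
degree `m deg A`, the terms `j < m` have degree `≤ j deg A + (m-j) deg B < m deg A`. Case (1) with
`B_1 = 0`: then `B_0 ≠ 0`, `A_1 ≠ 0`, so `B = C B_0`, `deg B = 0 < deg A = 1`: as case (2). Case (1) with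
`B_1 ≠ 0`: evaluate at `θ = -B_0/B_1`: `B(θ) = 0`, so `G(θ) = c_m A(θ)^m`, and
`A(θ) = (A_0 B_1 - A_1 B_0)/B_1 ≠ 0`.

`INJr`: induction on the tower. `zero`: every `P ∈ MvPolynomial (Fin 0) K` is `C c`, and
`fs (C c) = algebraMap c` (algebra hom), `K → FractionRing` injective. `step`: let
`fs (Step N a) (Step D b) P = 0` and suppose `P ≠ 0`; `Q = finSuccEquiv K n P ≠ 0`, `m = Q.natDegree`,
`P = (finSuccEquiv K n).symm Q`. Let `A = a.map (algebraMap _ F)`, `B = b.map (algebraMap _ F)`,
`F = FractionRing (MvPolynomial (Fin n) K)`. `evY B ≠ 0` (`B ≠ 0`, `evY_injective`). By `fs_symm`,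
multiplying by `(evY B)^m`:
`0 = Σ_j J (fs N D (Q_j)) (evY A)^j (evY B)^(m-j) = evY (Σ_j C (fs N D (Q_j)) A^j B^(m-j))`, so
`Σ_j C (fs N D (Q_j)) A^j B^(m-j) = 0` by `evY_injective`. But `fs N D (Q_m) ≠ 0` by the induction
hypothesis, contradicting `In_ne` (`Mob a b`: `Mob`-type condition for `A`, `B` as `algebraMap` is
injective; `Sup a b`: case (2)).
-/

open MvPolynomial

namespace H42.ZR

open H42.ZD

private theorem In_deg {F : Type*} [Field F] (A B : Polynomial F)
    (h : B.natDegree < A.natDegree) (c : ℕ → F) (m : ℕ) (hc : c m ≠ 0) :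
    ∑ j ∈ Finset.range (m + 1), Polynomial.C (c j) * A ^ j * B ^ (m - j) ≠ 0 := by
  intro h0
  have hA : A ≠ 0 := by
    rintro rfl
    simp at h
  have h1 := congrArg (fun p => Polynomial.coeff p (m * A.natDegree)) h0
  simp only [Polynomial.finset_sum_coeff, Polynomial.coeff_zero] at h1
  rw [Finset.sum_range_succ, Finset.sum_eq_zero, zero_add, Nat.sub_self, pow_zero, mul_one,
    Polynomial.coeff_C_mul, Polynomial.coeff_pow_mul_natDegree] at h1
  · exact mul_ne_zero hc (pow_ne_zero _ (Polynomial.leadingCoeff_ne_zero.2 hA)) h1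
  · intro j hj
    have hj' : j < m := Finset.mem_range.1 hj
    apply Polynomial.coeff_eq_zero_of_natDegree_lt
    have e1 : (Polynomial.C (c j) * A ^ j * B ^ (m - j)).natDegree ≤
        j * A.natDegree + (m - j) * B.natDegree := by
      refine Polynomial.natDegree_mul_le.trans (add_le_add ?_ Polynomial.natDegree_pow_le)
      exact (Polynomial.natDegree_C_mul_le _ _).trans Polynomial.natDegree_pow_le
    refine lt_of_le_of_lt e1 ?_
    have e2 : (m - j) * B.natDegree < (m - j) * A.natDegree :=
      Nat.mul_lt_mul_of_pos_left h (by omega)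
    calc j * A.natDegree + (m - j) * B.natDegree < j * A.natDegree + (m - j) * A.natDegree := by
          omega
      _ = (j + (m - j)) * A.natDegree := by ring
      _ = m * A.natDegree := by rw [Nat.add_sub_cancel' hj'.le]

theorem In_ne {F : Type*} [Field F] (A B : Polynomial F)
    (hAB : Mob A B ∨ (B ≠ 0 ∧ B.natDegree < A.natDegree)) (c : ℕ → F) (m : ℕ) (hc : c m ≠ 0) :
    ∑ j ∈ Finset.range (m + 1), Polynomial.C (c j) * A ^ j * B ^ (m - j) ≠ 0 := by
  rcases hAB with ⟨hA, hB, hd⟩ | ⟨-, h⟩
  · by_cases hB1 : B.coeff 1 = 0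
    · apply In_deg A B ?_ c m hc
      rw [hB1, mul_zero, sub_zero] at hd
      have hA1 : A.coeff 1 ≠ 0 := left_ne_zero_of_mul hd
      have h1 : 1 ≤ A.natDegree := Polynomial.le_natDegree_of_ne_zero hA1
      have h2 : B.natDegree ≠ 1 := by
        intro h3
        have h4 : B ≠ 0 := by
          rintro rfl
          simp at h3
        apply Polynomial.leadingCoeff_ne_zero.2 h4
        rw [Polynomial.leadingCoeff, h3, hB1]
      omega
    · intro h0
      have h1 := congrArg (Polynomial.eval (-(B.coeff 0) / B.coeff 1)) h0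
      rw [Polynomial.eval_finset_sum, Polynomial.eval_zero] at h1
      have hBθ : B.eval (-(B.coeff 0) / B.coeff 1) = 0 := by
        rw [Polynomial.eq_X_add_C_of_natDegree_le_one hB]
        simp only [Polynomial.eval_add, Polynomial.eval_mul, Polynomial.eval_C,
          Polynomial.eval_X, Polynomial.coeff_add, Polynomial.coeff_C_mul, Polynomial.coeff_C_zero,
          Polynomial.coeff_X_zero, Polynomial.coeff_X_one, mul_zero, mul_one, zero_add,
          Polynomial.coeff_C_succ, add_zero]
        field_simp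
        ring
      have hAθ : A.eval (-(B.coeff 0) / B.coeff 1) ≠ 0 := by
        have e : A.eval (-(B.coeff 0) / B.coeff 1) =
            A.coeff 1 * (-(B.coeff 0) / B.coeff 1) + A.coeff 0 := by
          conv_lhs => rw [Polynomial.eq_X_add_C_of_natDegree_le_one hA]
          simp
        rw [e]
        intro h2
        apply hd
        field_simp at h2
        linear_combination -h2
      rw [Finset.sum_range_succ, Finset.sum_eq_zero, zero_add] at h1
      · simp only [Polynomial.eval_mul, Polynomial.eval_C, Polynomial.eval_pow, Nat.sub_self,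
          pow_zero, mul_one] at h1
        exact mul_ne_zero hc (pow_ne_zero _ hAθ) h1
      · intro j hj
        have hj' : j < m := Finset.mem_range.1 hj
        rw [Polynomial.eval_mul, Polynomial.eval_pow (n := m - j), hBθ, zero_pow (by omega), mul_zero]
  · exact In_deg A B h c m hc

private theorem In_evC {K : Type*} [Field K] {n : ℕ}
    (u : FractionRing (MvPolynomial (Fin n) K)) : evY K n (Polynomial.C u) = J K n u := by
  rw [evY, Polynomial.coe_eval₂RingHom, Polynomial.eval₂_C]

theorem INJr {K : Type*} [Field K] (q : Prop) {n : ℕ} (N D : Fin n → MvPolynomial (Fin n) K)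
    (hT : Tow q N D) : Function.Injective (fs N D) := by
  induction hT with
  | zero N D =>
    rw [injective_iff_map_eq_zero]
    intro P hP
    rw [MvPolynomial.eq_C_of_isEmpty P] at hP ⊢
    have h1 : fs N D (C (coeff 0 P)) =
        algebraMap K (FractionRing (MvPolynomial (Fin 0) K)) (coeff 0 P) := by
      rw [← MvPolynomial.algebraMap_eq]
      exact (fs N D).commutes _
    rw [h1, map_eq_zero] at hP
    rw [hP, map_zero]
  | @step n N D a b h hab ih =>
    rw [injective_iff_map_eq_zero]
    intro P hP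
    by_contra hP0
    obtain ⟨Q, hQ⟩ : ∃ Q, Q = finSuccEquiv K n P := ⟨_, rfl⟩
    have hPQ : P = (finSuccEquiv K n).symm Q := by
      rw [hQ, AlgEquiv.symm_apply_apply]
    have hQ0 : Q ≠ 0 := by
      rintro rfl
      rw [map_zero] at hPQ
      exact hP0 hPQ
    rw [hPQ, fs_symm] at hP
    obtain ⟨A, hA⟩ : ∃ A, A = a.map
      (algebraMap (MvPolynomial (Fin n) K) (FractionRing (MvPolynomial (Fin n) K))) := ⟨_, rfl⟩
    obtain ⟨B, hB⟩ : ∃ B, B = b.map
      (algebraMap (MvPolynomial (Fin n) K) (FractionRing (MvPolynomial (Fin n) K))) := ⟨_, rfl⟩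
    rw [← hA, ← hB] at hP
    have hinj : Function.Injective
        (algebraMap (MvPolynomial (Fin n) K) (FractionRing (MvPolynomial (Fin n) K))) :=
      IsFractionRing.injective _ _
    have hAB : B ≠ 0 ∧ (Mob A B ∨ (B ≠ 0 ∧ B.natDegree < A.natDegree)) := by
      have hdA : A.natDegree = a.natDegree := by
        rw [hA, Polynomial.natDegree_map_eq_of_injective hinj]
      have hdB : B.natDegree = b.natDegree := by
        rw [hB, Polynomial.natDegree_map_eq_of_injective hinj]
      rcases hab with ⟨-, h1, h2, h3⟩ | ⟨h1, h2, -⟩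
      · have h4 : Mob A B := by
          refine ⟨hdA.trans_le h1, hdB.trans_le h2, ?_⟩
          rw [hA, hB, Polynomial.coeff_map, Polynomial.coeff_map, Polynomial.coeff_map,
            Polynomial.coeff_map, ← map_mul, ← map_mul, ← map_sub]
          intro h0
          exact h3 (hinj (h0.trans (map_zero _).symm))
        refine ⟨?_, Or.inl h4⟩
        rintro rfl
        exact h4.2.2 (by simp)
      · have h4 : B ≠ 0 := by
          rw [hB]
          exact (Polynomial.map_ne_zero_iff hinj).2 h1
        exact ⟨h4, Or.inr ⟨h4, by omega⟩⟩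
    have hevB : evY K n B ≠ 0 := by
      intro h0
      exact hAB.1 (evY_injective (h0.trans (map_zero _).symm))
    apply In_ne A B hAB.2 (fun j => fs N D (Q.coeff j)) Q.natDegree (by
      intro h0
      have h1 := ih (h0.trans (map_zero _).symm)
      exact Polynomial.leadingCoeff_ne_zero.2 hQ0 h1)
    apply evY_injective
    rw [map_zero, map_sum]
    have h5 : (∑ j ∈ Finset.range (Q.natDegree + 1), J K n (fs N D (Q.coeff j)) *
        (evY K n A / evY K n B) ^ j) * (evY K n B) ^ Q.natDegree = 0 := by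
      rw [hP, zero_mul]
    rw [Finset.sum_mul] at h5
    rw [← h5]
    refine Finset.sum_congr rfl fun j hj => ?_
    have hj' : j ≤ Q.natDegree := Nat.lt_succ_iff.1 (Finset.mem_range.1 hj)
    rw [map_mul, map_mul, map_pow, map_pow, In_evC, div_pow]
    have e : evY K n B ^ Q.natDegree = evY K n B ^ j * evY K n B ^ (Q.natDegree - j) := by
      rw [← pow_add, Nat.add_sub_cancel' hj']
    rw [e]
    field_simp

end H42.ZR
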