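import Pool.Agent.H42.ZR.Fd
import Pool.Agent.H42.ZD.Fr

/-!
# ZR row Iv: invariants of the polynomial data give invariants in the function field

PROOF. Let `P, Q` be the invariant pair of `RInv N D`. `aeval x : MvPolynomial (Fin n) K → L` is injective
(`hx`), so it extends to `Φ : FractionRing (MvPolynomial (Fin n) K) → L` (`IsFractionRing.lift`), a ring
hom, `K`-linear. `Φ (fs N D p) = τ^[m] (aeval x p)` for all `p`: both sides are ring homs in `p`
(`τ^m` as an `AlgHom` power), they agree on constants and on `X i` by `hND`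
(`Φ (algebraMap (N i) / algebraMap (D i)) = aeval x (N i) / aeval x (D i) = τ^[m] (x i)`).
Apply `Φ` to the invariance equation: with `p = aeval x P`, `r = aeval x Q ≠ 0`,
`τ^[m] p * r = p * τ^[m] r`. Also `p ≠ algebraMap c * r` for `c ∈ K` (injectivity of `aeval x`). So
`InvR (K := K) (τ^[m])` holds in the domain `L`, and `H42.ZD.Fr_main` (with `R = L`, `σ = τ`, injective as a
hom of fields) gives `P', Q'` with `Q' ≠ 0`, `P' ≠ c Q'`, `τ P' * Q' = P' * τ Q'`. Take `u = P'/Q'`.
-/

open MvPolynomial

namespace H42.ZR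

open H42.ZD

theorem IVr {K L : Type*} [Field K] [IsAlgClosed K] [Field L] [Algebra K L] {n : ℕ}
    (x : Fin n → L) (hx : AlgebraicIndependent K x) (τ : L →ₐ[K] L) (m : ℕ) (hm : 0 < m)
    (N D : Fin n → MvPolynomial (Fin n) K)
    (hND : ∀ i, aeval x (D i) ≠ 0 ∧ τ^[m] (x i) * aeval x (D i) = aeval x (N i))
    (hI : RInv N D) : ∃ u : L, τ u = u ∧ u ∉ Set.range (algebraMap K L) := by
  classical
  have hinj : Function.Injective (aeval x : MvPolynomial (Fin n) K →ₐ[K] L) := hx
  have hinj' : Function.Injective ((aeval x : MvPolynomial (Fin n) K →ₐ[K] L) :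
      MvPolynomial (Fin n) K →+* L) := hinj
  let Φ : FractionRing (MvPolynomial (Fin n) K) →+* L := IsFractionRing.lift hinj'
  have hΦ : ∀ p : MvPolynomial (Fin n) K, Φ (algebraMap _ _ p) = aeval x p := fun p =>
    IsFractionRing.lift_algebraMap hinj' p
  have hT : ∀ z : L, τ^[m] z = (τ ^ m) z := by
    intro z
    rw [AlgHom.coe_pow]
  have key : ∀ p : MvPolynomial (Fin n) K, Φ (fs N D p) = (τ ^ m) (aeval x p) := by
    intro p
    induction p using MvPolynomial.induction_on with
    | C c =>
      have e1 : fs N D (C c) = algebraMap (MvPolynomial (Fin n) K)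
          (FractionRing (MvPolynomial (Fin n) K)) (C c) := by
        unfold fs
        rw [aeval_C]
        exact IsScalarTower.algebraMap_apply K (MvPolynomial (Fin n) K) _ c
      rw [e1, hΦ, aeval_C, AlgHom.commutes]
    | add p q hp hq => rw [map_add, map_add, hp, hq, map_add, map_add]
    | mul_X p i hp =>
      rw [map_mul, map_mul, hp, map_mul, map_mul]
      congr 1
      have e2 : fs N D (X i) = algebraMap (MvPolynomial (Fin n) K)
          (FractionRing (MvPolynomial (Fin n) K)) (N i) /
          algebraMap (MvPolynomial (Fin n) K) (FractionRing (MvPolynomial (Fin n) K)) (D i) := by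
        unfold fs
        rw [aeval_X]
      rw [e2, map_div₀, hΦ, hΦ, aeval_X, ← hT, ← (hND i).2]
      exact mul_div_cancel_right₀ _ (hND i).1
  obtain ⟨P, Q, hQ, hc, he⟩ := hI
  have h1 := congrArg Φ he
  rw [map_mul, map_mul, key, key, hΦ, hΦ, ← hT, ← hT] at h1
  have h2 : InvR (K := K) (τ^[m] : L → L) := by
    refine ⟨aeval x P, aeval x Q, ?_, ?_, h1⟩
    · intro h0
      exact hQ (hinj (by rw [h0, map_zero]))
    · intro c h0
      refine hc c (hinj ?_)
      rw [h0, map_mul, aeval_C]
  obtain ⟨P', Q', hQ', hc', he'⟩ := Fr_main τ (τ : L →+* L).injective m hm h2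
  have hτQ : τ Q' ≠ 0 := by
    intro h0
    exact hQ' ((τ : L →+* L).injective (by rw [map_zero]; exact h0))
  refine ⟨P' / Q', ?_, ?_⟩
  · rw [map_div₀, div_eq_div_iff hτQ hQ', he']
  · rintro ⟨c, h0⟩
    exact hc' c (by rw [h0, div_mul_cancel₀ _ hQ'])

end H42.ZR
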