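import Pool.Agent.H42.ZR.Df
import Pool.Agent.H42.ZD.Fr

/-!
# ZR row Mb: a semi-invariant with three zeros gives an invariant (cross ratios)

PROOF. `Ω = AlgebraicClosure L`, `ι = algebraMap L Ω`. All elements of `F`, `L` are considered in `Ω`.
(0) Extend `τ` to a ring hom `T : Ω → Ω` with `T (ι l) = ι (τ l)` (`Ω` is algebraic over `L`; make `Ω` an
`L`-algebra through `ι ∘ τ` and use `IsAlgClosed.lift`). `T` is injective. On `F`: `T (c) = γ c` (in `Ω`).
(1) `m = P.natDegree ≥ 3`, `Z` = the set of roots of `P` in `Ω`, a finite set with exactly `m`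
elements (`P` separable, `Ω` algebraically closed: `Polynomial.card_rootSet_eq_natDegree`), and
`P = ℓ ∏_{z∈Z} (X - z)` over `Ω`. Every `z ∈ Z` is algebraic over `F`.
(2) Let `a = a_1 X + a_0`, `b = b_1 X + b_0`, `det = a_1 b_0 - a_0 b_1 ≠ 0`. For `z ∈ Z`: evaluate `hsemi` at
`z` (over `Ω`): `Σ_j γ(P_j) a(z)^j b(z)^(m-j) = μ P(z) = 0`. If `b(z) = 0` then `γ(P_m) a(z)^m = 0`,
`γ(P_m) ≠ 0` (γ injective), so `a(z) = 0`, and `a_1 b(z) - b_1 a(z) = det = 0`, a contradiction. So
`b(z) ≠ 0`; put `φ(z) = a(z)/b(z)`; then `b(z)^m * (P^γ)(φ(z)) = 0`, where `P^γ = Σ γ(P_j) X^j`, and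
`P^γ = T(ℓ) ∏_{z'∈Z} (X - T z')` over `Ω` (apply `T` to the coefficients of the factorization of `P`). So
`φ(z) = T(π z)` for some `π z ∈ Z` (`T(ℓ) ≠ 0`). The map `π : Z → Z` is injective, because `φ` is
injective where `b ≠ 0`: `φ(u) - φ(v) = det (u - v)/(b(u) b(v))` (*). So `π` is a permutation of the
finite set `Z` and `π^M = id` for some `M ≥ 1`.
(3) Let `U = ι Y`. `U` is transcendental over `F` (`hY`, `ι` injective), so `U ≠ z` for `z` algebraic over
`F`, and `b(U) ≠ 0` (`b ≠ 0`), `T(U) = a(U)/b(U) = φ(U)` by `hτY`. For pairwise different `z_1, z_2, z_3 ∈ Z` let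
`cr(u; z_1, z_2, z_3) = ((u - z_1)(z_3 - z_2)) / ((u - z_2)(z_3 - z_1))`. By (*),
`cr(φ(u); φ z_1, φ z_2, φ z_3) = cr(u; z_1, z_2, z_3)`. So
`T (cr(U; π z_1, π z_2, π z_3)) = cr(φ(U); φ z_1, φ z_2, φ z_3) = cr(U; z_1, z_2, z_3)`, and by induction
`T^M (cr(U; π^M z_1, …)) = cr(U; z_1, …)`, i.e. `c = cr(U; z_1, z_2, z_3)` satisfies `T^M c = c`.
(4) `c` is not in (the image of) `K`: if `c = κ`, then
`U * ((z_3 - z_2) - κ (z_3 - z_1)) = z_1 (z_3 - z_2) - κ z_2 (z_3 - z_1)`. If the coefficient of `U` is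
non-zero then `U` is algebraic over `F` (a quotient of elements algebraic over `F`); if it is zero, then
`z_3 - z_2 = κ (z_3 - z_1)` and `(z_1 - z_2)(z_3 - z_2) = 0`: contradiction in both cases.
(5) `c` is algebraic over `L` (`Ω` is). Let `q = minpoly L c`. The polynomial `q^τ` obtained by applying
`τ^M` to the coefficients is monic of the same degree and `q^τ (c) = T^M (q (c)) = 0` (as `T^M c = c`), so
`q^τ = q` by uniqueness of the minimal polynomial (`minpoly.unique`): all coefficients of `q` are fixed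
by `τ^M`. If they were all in `K`, `c` would be algebraic over `K`, so in `K` (algebraically closed),
contradicting (4). So some `u_0 ∈ L` is not in `K` and `τ^M u_0 = u_0`.
(6) `H42.ZD.Fr_main` (with `R = L`, `σ = τ`, `m = M`, the invariant pair `(u_0, 1)`) gives
`P', Q' ∈ L` with `Q' ≠ 0`, `P'` not a `K`-multiple of `Q'` and `τ P' * Q' = P' * τ Q'`; take `u = P'/Q'`
(`τ Q' ≠ 0`).
-/

open Polynomial

namespace H42.ZR

open H42.ZD

private theorem Mb_ext {L Ω Ω' : Type*} [Field L] [Field Ω] [Algebra L Ω]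
    [Algebra.IsAlgebraic L Ω] [Field Ω'] [IsAlgClosed Ω'] (f : L →+* Ω') :
    ∃ T : Ω →+* Ω', ∀ l, T (algebraMap L Ω l) = f l := by
  let _ := f.toAlgebra
  exact ⟨(IsAlgClosed.lift : Ω →ₐ[L] Ω').toRingHom, fun l => AlgHom.commutes _ l⟩

/-- cross ratio -/
private noncomputable def Mbcr {Ω : Type*} [Field Ω] (u x y z : Ω) : Ω :=
  ((u - x) * (z - y)) / ((u - y) * (z - x))

private theorem Mbcr_map {Ω : Type*} [Field Ω] (T : Ω →+* Ω) (u x y z : Ω) :
    T (Mbcr u x y z) = Mbcr (T u) (T x) (T y) (T z) := by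
  simp only [Mbcr, map_div₀, map_mul, map_sub]

private theorem Mb_sub {Ω : Type*} [Field Ω] (a1 a0 b1 b0 u v : Ω) (hu : b1 * u + b0 ≠ 0)
    (hv : b1 * v + b0 ≠ 0) :
    (a1 * u + a0) / (b1 * u + b0) - (a1 * v + a0) / (b1 * v + b0) =
      (a1 * b0 - a0 * b1) * (u - v) / ((b1 * u + b0) * (b1 * v + b0)) := by
  rw [div_sub_div _ _ hu hv]
  congr 1
  ring

private theorem Mbcr_mob {Ω : Type*} [Field Ω] (a1 a0 b1 b0 : Ω) (hd : a1 * b0 - a0 * b1 ≠ 0)
    (u x y z : Ω) (hu : b1 * u + b0 ≠ 0) (hx : b1 * x + b0 ≠ 0) (hy : b1 * y + b0 ≠ 0)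
    (hz : b1 * z + b0 ≠ 0) (h1 : u ≠ y) (h2 : z ≠ x) :
    Mbcr ((a1 * u + a0) / (b1 * u + b0)) ((a1 * x + a0) / (b1 * x + b0))
      ((a1 * y + a0) / (b1 * y + b0)) ((a1 * z + a0) / (b1 * z + b0)) = Mbcr u x y z := by
  unfold Mbcr
  rw [Mb_sub _ _ _ _ _ _ hu hx, Mb_sub _ _ _ _ _ _ hz hy, Mb_sub _ _ _ _ _ _ hu hy,
    Mb_sub _ _ _ _ _ _ hz hx]
  have e1 : u - y ≠ 0 := sub_ne_zero.2 h1
  have e2 : z - x ≠ 0 := sub_ne_zero.2 h2
  generalize a1 * b0 - a0 * b1 = d at hd
  generalize b1 * u + b0 = bu at hu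
  generalize b1 * x + b0 = bx at hx
  generalize b1 * y + b0 = by' at hy
  generalize b1 * z + b0 = bz at hz
  generalize u - y = e at e1
  generalize z - x = f at e2
  generalize u - x = g
  generalize z - y = h
  field_simp

/-- (2) the permutation of the roots. -/
private theorem Mb_perm {Ω : Type*} [Field Ω] [IsAlgClosed Ω] (T : Ω →+* Ω) (P : Polynomial Ω)
    (a1 a0 b1 b0 μ : Ω) (hd : a1 * b0 - a0 * b1 ≠ 0) (hP0 : P ≠ 0)
    (hsemi : ∀ z : Ω, ∑ j ∈ Finset.range (P.natDegree + 1),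
      T (P.coeff j) * (a1 * z + a0) ^ j * (b1 * z + b0) ^ (P.natDegree - j) = μ * P.eval z) :
    ∀ z : Ω, P.IsRoot z → b1 * z + b0 ≠ 0 ∧
      ∃ z', P.IsRoot z' ∧ (a1 * z + a0) / (b1 * z + b0) = T z' := by
  intro z hz
  have hz' : P.eval z = 0 := hz
  have hb : b1 * z + b0 ≠ 0 := by
    intro h0
    have h1 := hsemi z
    rw [hz', mul_zero, Finset.sum_eq_single P.natDegree] at h1
    · rw [Nat.sub_self, pow_zero, mul_one] at h1
      rcases mul_eq_zero.1 h1 with h2 | h2
      · exact hP0 (Polynomial.leadingCoeff_eq_zero.1 (by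
          rwa [map_eq_zero] at h2))
      · have h3 : a1 * z + a0 = 0 := by
          by_contra h3
          exact pow_ne_zero _ h3 h2
        apply hd
        have h4 : a1 * (b1 * z + b0) - b1 * (a1 * z + a0) = a1 * b0 - a0 * b1 := by ring
        rw [← h4, h0, h3]
        ring
    · intro j hj hjn
      have : P.natDegree - j ≠ 0 := by
        have := Finset.mem_range.1 hj
        omega
      rw [h0, zero_pow this, mul_zero]
    · intro h
      exact absurd (Finset.mem_range.2 (Nat.lt_succ_self _)) h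
  refine ⟨hb, ?_⟩
  have h1 := hsemi z
  rw [hz', mul_zero] at h1
  set w := (a1 * z + a0) / (b1 * z + b0) with hw
  have h2 : (P.map T).eval w = 0 := by
    have h3 : (b1 * z + b0) ^ P.natDegree * (P.map T).eval w = 0 := by
      rw [← h1, Polynomial.eval_eq_sum_range, Polynomial.natDegree_map, Finset.mul_sum]
      refine Finset.sum_congr rfl fun j hj => ?_
      have hj' : j ≤ P.natDegree := Nat.lt_succ_iff.1 (Finset.mem_range.1 hj)
      have h4 : (b1 * z + b0) ^ P.natDegree =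
          (b1 * z + b0) ^ j * (b1 * z + b0) ^ (P.natDegree - j) := by
        rw [← pow_add, Nat.add_sub_cancel' hj']
      rw [h4, Polynomial.coeff_map, hw, div_pow]
      field_simp
    exact (mul_eq_zero.1 h3).resolve_left (pow_ne_zero _ hb)
  have hsplit : P = C P.leadingCoeff * (P.roots.map fun r => X - C r).prod :=
    (IsAlgClosed.splits P).eq_prod_roots
  have h5 : (P.map T).eval w = T P.leadingCoeff * (P.roots.map fun r => w - T r).prod := by
    conv_lhs => rw [hsplit]
    rw [Polynomial.map_mul, Polynomial.map_C, Polynomial.eval_mul, Polynomial.eval_C,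
      Polynomial.map_multiset_prod, Polynomial.eval_multiset_prod, Multiset.map_map,
      Multiset.map_map]
    congr 2
    refine Multiset.map_congr rfl fun r _ => ?_
    simp
  rw [h5] at h2
  have h6 : T P.leadingCoeff ≠ 0 := by
    rw [_root_.map_ne_zero]
    exact Polynomial.leadingCoeff_ne_zero.2 hP0
  have h7 := (mul_eq_zero.1 h2).resolve_left h6
  rw [Multiset.prod_eq_zero_iff, Multiset.mem_map] at h7
  obtain ⟨r, hr, hr'⟩ := h7
  exact ⟨r, Polynomial.isRoot_of_mem_roots hr, sub_eq_zero.1 hr'⟩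

/-- (2), (3): a number fixed by a power of `T`. -/
private theorem Mb_cross {Ω : Type*} [Field Ω] [IsAlgClosed Ω] (T : Ω →+* Ω) (P : Polynomial Ω)
    (a1 a0 b1 b0 μ U : Ω) (hd : a1 * b0 - a0 * b1 ≠ 0) (hP0 : P ≠ 0)
    (hsemi : ∀ z : Ω, ∑ j ∈ Finset.range (P.natDegree + 1),
      T (P.coeff j) * (a1 * z + a0) ^ j * (b1 * z + b0) ^ (P.natDegree - j) = μ * P.eval z)
    (hU : ∀ z, P.IsRoot z → U ≠ z) (hbU : b1 * U + b0 ≠ 0)
    (hTU : T U = (a1 * U + a0) / (b1 * U + b0)) :
    ∃ M : ℕ, 0 < M ∧ ∀ x y z : Ω, P.IsRoot x → P.IsRoot y → P.IsRoot z → x ≠ y → y ≠ z → x ≠ z →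
      T^[M] (Mbcr U x y z) = Mbcr U x y z := by
  classical
  have hperm := Mb_perm T P a1 a0 b1 b0 μ hd hP0 hsemi
  choose! hb q hq hqT using hperm
  let Z := {z : Ω // P.IsRoot z}
  have : Finite Z := by
    have h1 : {z : Ω | P.IsRoot z}.Finite := Polynomial.finite_setOfPred_isRoot hP0
    exact h1.to_subtype
  let π : Z → Z := fun z => ⟨q z.1, hq z.1 z.2⟩
  have hπ : Function.Injective π := by
    intro u v huv
    have h1 : q u.1 = q v.1 := congrArg Subtype.val huv
    have h2 : (a1 * u.1 + a0) / (b1 * u.1 + b0) = (a1 * v.1 + a0) / (b1 * v.1 + b0) := by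
      rw [hqT u.1 u.2, hqT v.1 v.2, h1]
    have h3 := Mb_sub a1 a0 b1 b0 u.1 v.1 (hb _ u.2) (hb _ v.2)
    rw [h2, sub_self] at h3
    have h4 : (a1 * b0 - a0 * b1) * (u.1 - v.1) = 0 := by
      rcases div_eq_zero_iff.1 h3.symm with h | h
      · exact h
      · exact absurd h (mul_ne_zero (hb _ u.2) (hb _ v.2))
    exact Subtype.ext (sub_eq_zero.1 ((mul_eq_zero.1 h4).resolve_left hd))
  let e : Equiv.Perm Z := Equiv.ofBijective π (Finite.injective_iff_bijective.1 hπ)
  refine ⟨orderOf e, orderOf_pos e, ?_⟩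
  have hstep : ∀ x y z : Z, x ≠ y → x ≠ z →
      T (Mbcr U (π x).1 (π y).1 (π z).1) = Mbcr U x.1 y.1 z.1 := by
    intro x y z hxy hxz
    rw [Mbcr_map, hTU]
    have e1 : T (π x).1 = (a1 * x.1 + a0) / (b1 * x.1 + b0) := (hqT x.1 x.2).symm
    have e2 : T (π y).1 = (a1 * y.1 + a0) / (b1 * y.1 + b0) := (hqT y.1 y.2).symm
    have e3 : T (π z).1 = (a1 * z.1 + a0) / (b1 * z.1 + b0) := (hqT z.1 z.2).symm
    rw [e1, e2, e3]
    exact Mbcr_mob a1 a0 b1 b0 hd U x.1 y.1 z.1 hbU (hb _ x.2) (hb _ y.2) (hb _ z.2)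
      (hU _ y.2) (fun h => hxz (Subtype.ext h.symm))
  have hiter : ∀ (k : ℕ) (x y z : Z), x ≠ y → x ≠ z →
      T^[k] (Mbcr U (π^[k] x).1 (π^[k] y).1 (π^[k] z).1) = Mbcr U x.1 y.1 z.1 := by
    intro k
    induction k with
    | zero => intro x y z _ _; rfl
    | succ k ih =>
      intro x y z hxy hxz
      rw [Function.iterate_succ_apply, Function.iterate_succ_apply', Function.iterate_succ_apply',
        Function.iterate_succ_apply', hstep _ _ _ ((hπ.iterate k).ne hxy) ((hπ.iterate k).ne hxz)]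
      exact ih x y z hxy hxz
  intro x y z hx hy hz hxy hyz hxz
  have h1 := hiter (orderOf e) ⟨x, hx⟩ ⟨y, hy⟩ ⟨z, hz⟩ (fun h => hxy (congrArg Subtype.val h))
    (fun h => hxz (congrArg Subtype.val h))
  have h2 : ∀ w : Z, π^[orderOf e] w = w := by
    intro w
    have h3 : (e ^ orderOf e) w = w := by rw [pow_orderOf_eq_one]; rfl
    have h4 : ∀ (k : ℕ), (e ^ k) w = π^[k] w := by
      intro k
      induction k with
      | zero => rfl
      | succ k ih =>
        rw [pow_succ', Equiv.Perm.mul_apply, ih, Function.iterate_succ_apply']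
        rfl
    rw [← h4, h3]
  rw [h2, h2, h2] at h1
  exact h1

/-- (4) the cross ratio is not a constant. -/
private theorem Mb_notconst {F Ω : Type*} [Field F] [Field Ω] [Algebra F Ω] (U x y z k : Ω)
    (hU : Transcendental F U) (hx : IsAlgebraic F x) (hy : IsAlgebraic F y)
    (hz : IsAlgebraic F z) (hk : IsAlgebraic F k) (hxy : x ≠ y) (hyz : y ≠ z) (hxz : x ≠ z) :
    Mbcr U x y z ≠ k := by
  intro h
  have hUy : U - y ≠ 0 := by
    intro h0
    exact hU (by rw [sub_eq_zero.1 h0]; exact hy)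
  have hzx : z - x ≠ 0 := sub_ne_zero.2 hxz.symm
  rw [Mbcr, div_eq_iff (mul_ne_zero hUy hzx)] at h
  have h1 : U * ((z - y) - k * (z - x)) = x * (z - y) - k * y * (z - x) := by
    linear_combination h
  by_cases h2 : (z - y) - k * (z - x) = 0
  · rw [h2, mul_zero] at h1
    have h3 : z - y = k * (z - x) := sub_eq_zero.1 h2
    have h4 : (x - y) * (z - y) = 0 := by
      linear_combination -h1 - y * h3
    rcases mul_eq_zero.1 h4 with h5 | h5
    · exact hxy (sub_eq_zero.1 h5)
    · exact hyz (sub_eq_zero.1 h5).symm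
  · apply hU
    have h3 : U = (x * (z - y) - k * y * (z - x)) / ((z - y) - k * (z - x)) := by
      rw [eq_div_iff h2, h1]
    rw [h3, div_eq_mul_inv]
    exact ((hx.mul (hz.sub hy)).sub ((hk.mul hy).mul (hz.sub hx))).mul
      ((hz.sub hy).sub (hk.mul (hz.sub hx))).inv

/-- (5) descent of invariants along an algebraic extension. -/
private theorem Mb_descent {K L Ω : Type*} [Field K] [IsAlgClosed K] [Field L] [Algebra K L]
    [Field Ω] [Algebra L Ω] [Algebra K Ω] [IsScalarTower K L Ω] [Algebra.IsAlgebraic L Ω]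
    (τ : L →+* L) (T : Ω →+* Ω) (hT : ∀ l, T (algebraMap L Ω l) = algebraMap L Ω (τ l)) (c : Ω)
    (hc : T c = c) (hcK : ∀ k : K, c ≠ algebraMap K Ω k) :
    ∃ u : L, τ u = u ∧ ∀ k : K, u ≠ algebraMap K L k := by
  have hint : IsIntegral L c := (Algebra.IsAlgebraic.isAlgebraic (R := L) c).isIntegral
  set q := minpoly L c with hq
  have hmonic : q.Monic := minpoly.monic hint
  have hqτ : q.map τ = q := by
    have h1 : aeval c (q.map τ) = 0 := by
      rw [Polynomial.aeval_def, Polynomial.eval₂_map]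
      have h2 : (algebraMap L Ω).comp τ = T.comp (algebraMap L Ω) := by
        ext l
        exact (hT l).symm
      rw [h2]
      have h3 : Polynomial.eval₂ (T.comp (algebraMap L Ω)) (T c) q =
          T (Polynomial.eval₂ (algebraMap L Ω) c q) := (Polynomial.hom_eval₂ _ _ _ _).symm
      rw [hc] at h3
      rw [h3]
      have h4 : Polynomial.eval₂ (algebraMap L Ω) c q = 0 := minpoly.aeval L c
      rw [h4, map_zero]
    have h5 : q ∣ q.map τ := minpoly.dvd L c h1
    exact (Polynomial.eq_of_monic_of_dvd_of_natDegree_le hmonic (hmonic.map τ) h5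
      (by rw [Polynomial.natDegree_map]))
  by_cases hall : ∀ j, q.coeff j ∈ (algebraMap K L).range
  · exfalso
    obtain ⟨r, hr⟩ : ∃ r : Polynomial K, r.map (algebraMap K L) = q := by
      rw [← Polynomial.mem_lifts, Polynomial.lifts_iff_coeff_lifts]
      intro j
      exact hall j
    have halg : IsAlgebraic K c := by
      refine ⟨r, ?_, ?_⟩
      · rintro rfl
        rw [Polynomial.map_zero] at hr
        exact hmonic.ne_zero hr.symm
      · have h4 : aeval c q = 0 := minpoly.aeval L c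
        rw [← hr, Polynomial.aeval_map_algebraMap] at h4
        exact h4
    obtain ⟨k, hk⟩ : ∃ k : K, algebraMap K Ω k = c := by
      have h1 : IsIntegral K c := halg.isIntegral
      exact minpoly.mem_range_of_degree_eq_one K c
        (IsAlgClosed.degree_eq_one_of_irreducible K (minpoly.irreducible h1))
    exact hcK k hk.symm
  · push Not at hall
    obtain ⟨j, hj⟩ := hall
    refine ⟨q.coeff j, ?_, ?_⟩
    · rw [← Polynomial.coeff_map, hqτ]
    · intro k hk
      exact hj ⟨k, hk.symm⟩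

/-- The main statement with an abstract algebraic closure of `L`. -/
private theorem Mb_main {K F L Ω : Type*} [Field K] [IsAlgClosed K] [Field F] [Field L]
    [Algebra K F] [Algebra F L] [Algebra K L] [IsScalarTower K F L] (γ : F →ₐ[K] F)
    (τ : L →ₐ[K] L) (hγτ : ∀ c : F, τ (algebraMap F L c) = algebraMap F L (γ c)) (Y : L)
    (hY : Transcendental F Y) (a b : F[X]) (hab : Mob a b) (hτY : τ Y * aeval Y b = aeval Y a)
    (P : F[X]) (μ : F) (hP3 : 3 ≤ P.natDegree) (hsep : P.Separable)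
    (hsemi : ∑ j ∈ Finset.range (P.natDegree + 1),
      C (γ (P.coeff j)) * a ^ j * b ^ (P.natDegree - j) = C μ * P)
    [Field Ω] [IsAlgClosed Ω] [Algebra L Ω] [Algebra.IsAlgebraic L Ω] [Algebra F Ω] [Algebra K Ω]
    [IsScalarTower F L Ω] [IsScalarTower K L Ω] [IsScalarTower K F Ω] :
    ∃ (M : ℕ) (u : L), 0 < M ∧ τ^[M] u = u ∧ ∀ k : K, u ≠ algebraMap K L k := by
  classical
  obtain ⟨T, hT⟩ := Mb_ext (Ω := Ω) ((algebraMap L Ω).comp (τ : L →+* L))
  have hT' : ∀ l, T (algebraMap L Ω l) = algebraMap L Ω (τ l) := fun l => hT l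
  have hTF : ∀ c : F, T (algebraMap F Ω c) = algebraMap F Ω (γ c) := by
    intro c
    rw [IsScalarTower.algebraMap_apply F L Ω, IsScalarTower.algebraMap_apply F L Ω, hT', hγτ]
  obtain ⟨ha1, hb1, hdet⟩ := hab
  set j := algebraMap F Ω with hj
  have heva : ∀ z : Ω, (a.map j).eval z = j (a.coeff 1) * z + j (a.coeff 0) := by
    intro z
    conv_lhs => rw [Polynomial.eq_X_add_C_of_natDegree_le_one ha1]
    simp
  have hevb : ∀ z : Ω, (b.map j).eval z = j (b.coeff 1) * z + j (b.coeff 0) := by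
    intro z
    conv_lhs => rw [Polynomial.eq_X_add_C_of_natDegree_le_one hb1]
    simp
  have hP0 : P ≠ 0 := by
    rintro rfl
    simp at hP3
  have hPj0 : P.map j ≠ 0 := (Polynomial.map_ne_zero_iff j.injective).2 hP0
  have hdeg : (P.map j).natDegree = P.natDegree := Polynomial.natDegree_map _
  have hd : j (a.coeff 1) * j (b.coeff 0) - j (a.coeff 0) * j (b.coeff 1) ≠ 0 := by
    rw [← map_mul, ← map_mul, ← map_sub]
    exact (_root_.map_ne_zero j).2 hdet
  have hsemi' : ∀ z : Ω, ∑ i ∈ Finset.range ((P.map j).natDegree + 1),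
      T ((P.map j).coeff i) * (j (a.coeff 1) * z + j (a.coeff 0)) ^ i *
        (j (b.coeff 1) * z + j (b.coeff 0)) ^ ((P.map j).natDegree - i) =
      j μ * (P.map j).eval z := by
    intro z
    have h1 := congrArg (fun R : F[X] => (R.map j).eval z) hsemi
    simp only [Polynomial.map_sum, Polynomial.map_mul, Polynomial.map_pow, Polynomial.map_C,
      Polynomial.eval_finsetSum, Polynomial.eval_mul, Polynomial.eval_pow, Polynomial.eval_C,
      heva, hevb] at h1
    rw [hdeg, ← h1]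
    refine Finset.sum_congr rfl fun i _ => ?_
    rw [Polynomial.coeff_map, hTF]
  set U := algebraMap L Ω Y with hU
  have hUtr : Transcendental F U := by
    rw [hU, transcendental_algebraMap_iff (algebraMap L Ω).injective]
    exact hY
  have halgroot : ∀ z : Ω, (P.map j).IsRoot z → IsAlgebraic F z := by
    intro z hz
    refine ⟨P, hP0, ?_⟩
    rw [Polynomial.aeval_def, Polynomial.eval₂_eq_eval_map]
    exact hz
  have hUz : ∀ z, (P.map j).IsRoot z → U ≠ z := by
    intro z hz h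
    exact hUtr (h ▸ halgroot z hz)
  have hb0 : b ≠ 0 := by
    rintro rfl
    apply hdet
    simp
  have hbU : j (b.coeff 1) * U + j (b.coeff 0) ≠ 0 := by
    rw [← hevb]
    intro h0
    apply hUtr
    refine ⟨b, hb0, ?_⟩
    rw [Polynomial.aeval_def, Polynomial.eval₂_eq_eval_map]
    exact h0
  have hTU : T U = (j (a.coeff 1) * U + j (a.coeff 0)) / (j (b.coeff 1) * U + j (b.coeff 0)) := by
    rw [eq_div_iff hbU, ← heva, ← hevb, hU, hT']
    have h1 := congrArg (algebraMap L Ω) hτY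
    rw [map_mul] at h1
    have h2 : ∀ p : F[X], (p.map j).eval (algebraMap L Ω Y) = algebraMap L Ω (aeval Y p) := by
      intro p
      rw [← Polynomial.aeval_algebraMap_apply, Polynomial.aeval_def,
        Polynomial.eval₂_eq_eval_map]
    rw [h2, h2]
    exact h1
  obtain ⟨M, hM, hcr⟩ := Mb_cross T (P.map j) _ _ _ _ (j μ) U hd hPj0 hsemi' hUz hbU hTU
  -- three roots
  have hroots : (P.map j).roots.toFinset.card = P.natDegree := by
    have h1 : (P.map j).Separable := hsep.map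
    have h2 : (P.map j).roots.Nodup := Polynomial.nodup_roots h1
    rw [Multiset.toFinset_card_of_nodup h2, ← hdeg]
    exact (IsAlgClosed.splits (P.map j)).natDegree_eq_card_roots.symm
  obtain ⟨x, hx, y, hy, z, hz, hxy, hxz, hyz⟩ :=
    Finset.two_lt_card.1 (show 2 < (P.map j).roots.toFinset.card by rw [hroots]; omega)
  have hr : ∀ w ∈ (P.map j).roots.toFinset, (P.map j).IsRoot w := by
    intro w hw
    exact Polynomial.isRoot_of_mem_roots (Multiset.mem_toFinset.1 hw)
  have hfix := hcr x y z (hr _ hx) (hr _ hy) (hr _ hz) hxy hyz hxz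
  have hTM : ∀ (k : ℕ), ∃ TM : Ω →+* Ω, ∀ w, TM w = T^[k] w := by
    intro k
    induction k with
    | zero => exact ⟨RingHom.id Ω, fun w => rfl⟩
    | succ k ih =>
      obtain ⟨TM, h⟩ := ih
      exact ⟨T.comp TM, fun w => by
        rw [RingHom.comp_apply, h, Function.iterate_succ_apply']⟩
  have hτM : ∀ (k : ℕ), ∃ τM : L →+* L, ∀ w, τM w = τ^[k] w := by
    intro k
    induction k with
    | zero => exact ⟨RingHom.id L, fun w => rfl⟩
    | succ k ih =>
      obtain ⟨τM, h⟩ := ih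
      exact ⟨(τ : L →+* L).comp τM, fun w => by
        rw [RingHom.comp_apply, h, Function.iterate_succ_apply']
        rfl⟩
  obtain ⟨TM, hTM⟩ := hTM M
  obtain ⟨τM, hτM⟩ := hτM M
  have hcomm : ∀ l, TM (algebraMap L Ω l) = algebraMap L Ω (τM l) := by
    intro l
    rw [hTM, hτM]
    have h1 : ∀ k : ℕ, T^[k] (algebraMap L Ω l) = algebraMap L Ω (τ^[k] l) := by
      intro k
      induction k with
      | zero => rfl
      | succ k ih => rw [Function.iterate_succ_apply', ih, hT', Function.iterate_succ_apply']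
    exact h1 M
  obtain ⟨u, hu1, hu2⟩ := Mb_descent (K := K) τM TM hcomm (Mbcr U x y z) (by rw [hTM, hfix])
    (fun k => Mb_notconst (F := F) U x y z _ hUtr (halgroot _ (hr _ hx)) (halgroot _ (hr _ hy))
      (halgroot _ (hr _ hz)) (by
        rw [IsScalarTower.algebraMap_apply K F Ω]
        exact isAlgebraic_algebraMap _) hxy hyz hxz)
  exact ⟨M, u, hM, by rw [← hτM, hu1], hu2⟩

theorem MOBr {K F L : Type*} [Field K] [IsAlgClosed K] [CharZero K] [Field F] [Field L]
    [Algebra K F] [Algebra F L] [Algebra K L] [IsScalarTower K F L] (γ : F →ₐ[K] F)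
    (τ : L →ₐ[K] L) (hγτ : ∀ c : F, τ (algebraMap F L c) = algebraMap F L (γ c)) (Y : L)
    (hY : Transcendental F Y) (a b : F[X]) (hab : Mob a b) (hτY : τ Y * aeval Y b = aeval Y a)
    (P : F[X]) (μ : F) (hμ : μ ≠ 0) (hP3 : 3 ≤ P.natDegree) (hsep : P.Separable)
    (hsemi : ∑ j ∈ Finset.range (P.natDegree + 1),
      C (γ (P.coeff j)) * a ^ j * b ^ (P.natDegree - j) = C μ * P) :
    ∃ u : L, τ u = u ∧ u ∉ Set.range (algebraMap K L) := by
  obtain ⟨M, u, hM, hu1, hu2⟩ := Mb_main (Ω := AlgebraicClosure L) γ τ hγτ Y hY a b hab hτY P μ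
    hP3 hsep hsemi
  obtain ⟨P', Q', hQ', hPQ, he⟩ := Fr_main (K := K) (R := L) τ τ.toRingHom.injective M hM
    ⟨u, 1, one_ne_zero, fun c => by rw [mul_one]; exact hu2 c, by
      have h1 : (τ^[M]) (1 : L) = 1 := by
        have : ∀ k : ℕ, (τ^[k]) (1 : L) = 1 := by
          intro k
          induction k with
          | zero => rfl
          | succ k ih => rw [Function.iterate_succ_apply', ih, map_one]
        exact this M
      rw [h1, hu1]⟩
  have hτQ : τ Q' ≠ 0 := (_root_.map_ne_zero τ).2 hQ'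
  refine ⟨P' / Q', ?_, ?_⟩
  · rw [map_div₀, div_eq_div_iff hτQ hQ', he]
  · rintro ⟨k, hk⟩
    apply hPQ k
    rw [hk, div_mul_cancel₀ _ hQ']

end H42.ZR
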