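import Pool.Agent.H42.ZR.Bd
import Pool.Agent.H42.ZR.Mb

/-!
# ZR row L1: the fractional linear fibre step

PROOF. `R = MvPolynomial (Fin n) K`, `F = FractionRing R`, `R' = MvPolynomial (Fin (n+1)) K`,
`L = FractionRing R'`. By `denseSeq_step`, `hnd i` gives a non-zero `P_i ∈ R[Y]` vanishing on
`(y i t, x t)`. Apply `BADr` to get `P`, `μ`. Make `L` an `F`-algebra through `J K n`
(`RingHom.toAlgebra`, as a local instance; `IsScalarTower K F L` holds because
`J (algebraMap c) = algebraMap c` for `c ∈ K`). Since `fs N D : R → F` and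
`fs (Step N a) (Step D b) : R' → L` are injective, they extend to `K`-algebra homs `γ : F → F`,
`τ : L → L` (`IsFractionRing.liftAlgHom`), with `γ (algebraMap p) = fs N D p` etc.
`τ ∘ J = J ∘ γ`: both are ring homs on the fraction field `F`, they agree on `R` by `J_algebraMap`
and `fs_rename` (`IsFractionRing`/`IsLocalization.ringHom_ext`). Let `Y = algebraMap R' L (X 0)`. It is
transcendental over `F`: `aeval Y Q = evY Q` for `Q ∈ F[T]`, and `evY_injective`. With
`A = a.map (algebraMap R F)`, `B = b.map (algebraMap R F)`: `Mob A B` (injectivity of `R → F`), and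
`τ Y * aeval Y B = aeval Y A` by `fs_zero` (`evY B ≠ 0` as `B ≠ 0`). Apply `MOBr` to
`P.map (algebraMap R F)` (its `natDegree` is that of `P`, its coefficients are `algebraMap (P.coeff j)`, and
`γ` of them is `fs N D (P.coeff j)`). It gives `u ∈ L`, `τ u = u`, `u ∉ K`. Write
`u = algebraMap P' / algebraMap Q'` with `Q' ≠ 0` (`IsFractionRing.div_surjective`). Then
`P' ≠ C c * Q'` for all `c` (otherwise `u = c ∈ K`) and
`fs P' * algebraMap Q' = algebraMap P' * fs Q'` from `τ u = u` (`fs Q' ≠ 0` by injectivity). This is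
`RInv (Step N a) (Step D b)`.
-/

open MvPolynomial

namespace H42.ZR

open H42.ZD

theorem L1r_ext {K A F : Type*} [Field K] [CommRing A] [IsDomain A] [Field F] [Algebra K A]
    [Algebra A F] [IsFractionRing A F] [Algebra K F] [IsScalarTower K A F] (g : A →ₐ[K] F)
    (hg : Function.Injective g) : ∃ γ : F →ₐ[K] F, ∀ p : A, γ (algebraMap A F p) = g p := by
  refine ⟨IsFractionRing.liftAlgHom (g := g) hg, fun p => ?_⟩
  rw [IsFractionRing.liftAlgHom_apply]
  exact IsFractionRing.lift_algebraMap (g := (g : A →+* F)) hg p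

theorem L1r {K : Type*} [Field K] [CharZero K] [IsAlgClosed K] {n : ℕ}
    (N D : Fin n → MvPolynomial (Fin n) K) (hfs : Function.Injective (fs N D))
    (x : ℕ → Fin n → K) (hx : Orb N D x) (hdx : DenseSeq x)
    (a b : Polynomial (MvPolynomial (Fin n) K)) (hab : Mob a b)
    (hfs' : Function.Injective (fs (Step N a) (Step D b)))
    (hdet : ∀ t, eval (x t) (a.coeff 1 * b.coeff 0 - a.coeff 0 * b.coeff 1) ≠ 0)
    (y : Fin 3 → ℕ → K)
    (hy : ∀ i t, (b.map (eval (x t))).eval (y i t) ≠ 0 ∧
      y i (t + 1) * (b.map (eval (x t))).eval (y i t) = (a.map (eval (x t))).eval (y i t))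
    (hne : Function.Injective fun i => y i 0)
    (hnd : ∀ i, ¬ DenseSeq (fun t => (Fin.cons (y i t) (x t) : Fin (n + 1) → K))) :
    RInv (Step N a) (Step D b) := by
  classical
  have hbad : ∀ i, ∃ P : Polynomial (MvPolynomial (Fin n) K), P ≠ 0 ∧
      ∀ t, (P.map (eval (x t))).eval (y i t) = 0 := by
    intro i
    have h := hnd i
    rw [denseSeq_step] at h
    push Not at h
    exact h
  obtain ⟨P, μ, hμ, hP3, hsep, hsemi⟩ := BADr N D hfs x hx hdx a b hab hdet y hy hne hbad
  obtain ⟨γ, hγ⟩ := L1r_ext (fs N D) hfs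
  obtain ⟨τ, hτ⟩ := L1r_ext (fs (Step N a) (Step D b)) hfs'
  let algFL : Algebra (FractionRing (MvPolynomial (Fin n) K))
    (FractionRing (MvPolynomial (Fin (n + 1)) K)) := (J K n).toAlgebra
  have hJ : ∀ c, algebraMap (FractionRing (MvPolynomial (Fin n) K))
    (FractionRing (MvPolynomial (Fin (n + 1)) K)) c = J K n c := fun c => rfl
  have hKF : ∀ c : K, algebraMap K (FractionRing (MvPolynomial (Fin n) K)) c =
      algebraMap (MvPolynomial (Fin n) K) _ (C c) := fun c => by
    rw [IsScalarTower.algebraMap_apply K (MvPolynomial (Fin n) K)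
      (FractionRing (MvPolynomial (Fin n) K)) c, MvPolynomial.algebraMap_eq]
  have hKL : ∀ c : K, algebraMap K (FractionRing (MvPolynomial (Fin (n + 1)) K)) c =
      algebraMap (MvPolynomial (Fin (n + 1)) K) _ (C c) := fun c => by
    rw [IsScalarTower.algebraMap_apply K (MvPolynomial (Fin (n + 1)) K)
      (FractionRing (MvPolynomial (Fin (n + 1)) K)) c, MvPolynomial.algebraMap_eq]
  have : IsScalarTower K (FractionRing (MvPolynomial (Fin n) K))
      (FractionRing (MvPolynomial (Fin (n + 1)) K)) := by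
    refine IsScalarTower.of_algebraMap_eq fun c => ?_
    rw [hJ, hKF, hKL, J_algebraMap, rename_C]
  have hγτ : ∀ c : FractionRing (MvPolynomial (Fin n) K),
      τ (algebraMap _ _ c) = algebraMap _ _ (γ c) := by
    intro c
    obtain ⟨p, q, hq, rfl⟩ := IsFractionRing.div_surjective (A := MvPolynomial (Fin n) K) c
    rw [hJ, hJ, map_div₀, map_div₀, map_div₀, map_div₀, J_algebraMap, J_algebraMap, hτ, hτ,
      hγ, hγ, fs_rename, fs_rename]
  have hev : ∀ Q : Polynomial (FractionRing (MvPolynomial (Fin n) K)),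
      Polynomial.aeval (algebraMap (MvPolynomial (Fin (n + 1)) K)
        (FractionRing (MvPolynomial (Fin (n + 1)) K)) (X 0)) Q = evY K n Q := fun Q => rfl
  have hinj : Function.Injective (algebraMap (MvPolynomial (Fin n) K)
      (FractionRing (MvPolynomial (Fin n) K))) := IsFractionRing.injective _ _
  have hinj' : Function.Injective (algebraMap (MvPolynomial (Fin (n + 1)) K)
      (FractionRing (MvPolynomial (Fin (n + 1)) K))) := IsFractionRing.injective _ _
  have hY : Transcendental (FractionRing (MvPolynomial (Fin n) K))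
      (algebraMap (MvPolynomial (Fin (n + 1)) K)
        (FractionRing (MvPolynomial (Fin (n + 1)) K)) (X 0)) := by
    rw [transcendental_iff_injective]
    exact evY_injective
  have hdet0 : (a.map (algebraMap _ (FractionRing (MvPolynomial (Fin n) K)))).coeff 1 *
      (b.map (algebraMap _ (FractionRing (MvPolynomial (Fin n) K)))).coeff 0 -
      (a.map (algebraMap _ (FractionRing (MvPolynomial (Fin n) K)))).coeff 0 *
      (b.map (algebraMap _ (FractionRing (MvPolynomial (Fin n) K)))).coeff 1 ≠ 0 := by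
    rw [Polynomial.coeff_map, Polynomial.coeff_map, Polynomial.coeff_map, Polynomial.coeff_map,
      ← map_mul, ← map_mul, ← map_sub]
    intro h
    exact hab.2.2 (hinj (by rw [h, map_zero]))
  have hab' : Mob (a.map (algebraMap _ (FractionRing (MvPolynomial (Fin n) K))))
      (b.map (algebraMap _ (FractionRing (MvPolynomial (Fin n) K)))) :=
    ⟨Polynomial.natDegree_map_le.trans hab.1, Polynomial.natDegree_map_le.trans hab.2.1, hdet0⟩
  have hB0 : b.map (algebraMap _ (FractionRing (MvPolynomial (Fin n) K))) ≠ 0 := by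
    intro h
    apply hdet0
    rw [h, Polynomial.coeff_zero, Polynomial.coeff_zero, mul_zero, mul_zero, sub_zero]
  have hevB : evY K n (b.map (algebraMap _ (FractionRing (MvPolynomial (Fin n) K)))) ≠ 0 := by
    intro h
    exact hB0 (evY_injective (by rw [h, map_zero]))
  have hτY : τ (algebraMap (MvPolynomial (Fin (n + 1)) K)
        (FractionRing (MvPolynomial (Fin (n + 1)) K)) (X 0)) *
      Polynomial.aeval (algebraMap (MvPolynomial (Fin (n + 1)) K)
        (FractionRing (MvPolynomial (Fin (n + 1)) K)) (X 0))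
          (b.map (algebraMap _ (FractionRing (MvPolynomial (Fin n) K)))) =
      Polynomial.aeval (algebraMap (MvPolynomial (Fin (n + 1)) K)
        (FractionRing (MvPolynomial (Fin (n + 1)) K)) (X 0))
          (a.map (algebraMap _ (FractionRing (MvPolynomial (Fin n) K)))) := by
    rw [hev, hev, hτ, fs_zero, div_mul_cancel₀ _ hevB]
  have hdeg : (P.map (algebraMap _ (FractionRing (MvPolynomial (Fin n) K)))).natDegree =
      P.natDegree := Polynomial.natDegree_map_eq_of_injective hinj P
  obtain ⟨u, hu, huK⟩ := MOBr γ τ hγτ _ hY _ _ hab' hτY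
    (P.map (algebraMap _ (FractionRing (MvPolynomial (Fin n) K)))) μ hμ
    (by rw [hdeg]; exact hP3) hsep (by
      rw [hdeg, ← hsemi]
      refine Finset.sum_congr rfl fun j _ => ?_
      rw [Polynomial.coeff_map, hγ])
  obtain ⟨P', Q', hQ', rfl⟩ := IsFractionRing.div_surjective (A := MvPolynomial (Fin (n + 1)) K) u
  have hQ0 : Q' ≠ 0 := nonZeroDivisors.ne_zero hQ'
  have hQi : algebraMap (MvPolynomial (Fin (n + 1)) K)
      (FractionRing (MvPolynomial (Fin (n + 1)) K)) Q' ≠ 0 := by
    intro h
    exact hQ0 (hinj' (by rw [h, map_zero]))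
  have hfQ : fs (Step N a) (Step D b) Q' ≠ 0 := by
    intro h
    exact hQ0 (hfs' (by rw [h, map_zero]))
  refine ⟨P', Q', hQ0, fun c hc => huK ⟨c, ?_⟩, ?_⟩
  · rw [hc, map_mul, mul_div_assoc, div_self hQi, mul_one, hKL]
  · rw [map_div₀, hτ, hτ, div_eq_div_iff hfQ hQi] at hu
    exact hu

end H42.ZR
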