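import Pool.Agent.H42.ZR.Df

/-!
# ZR row LN: noetherian local subrings of a local place

PROOF. Let `S0 ⊆ K` be the subring generated by `B` (`Algebra.adjoin ℤ B`, or `Subring.closure B`);
`S0 ⊆ w.Λ`. `S0` is a finitely generated `ℤ`-algebra, hence noetherian. Let `ψ0 : S0 → w.k` be the
restriction of `w.ψ`, `m0 = ker ψ0`. The image of `ψ0` is a subring of `w.k` generated by finitely many
elements `y_1, …, y_m`; by `w.lf` there is `r > 0` with `y_i^(p^r) = y_i` for all `i` (take the product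
of the individual exponents), so the image is contained in the finite set `{y | y^(p^r) = y}` (a
subring, characteristic `p`; the roots of `X^(p^r) - X`). So the image `F` of `ψ0` is a finite domain, a
finite field, and `m0` is a maximal, hence prime, ideal.

Let `S = {s ∈ K | ∃ u v ∈ S0, ψ0 v ≠ 0 ∧ s * v = u}`. It is a subring of `K`: the localization of `S0` at
the prime ideal `m0` (`IsLocalization.AtPrime`; or use
`Localization.subalgebra`-type constructions), so it is noetherian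
(`IsLocalization.isNoetherianRing`). `S ⊆ w.Λ` because `w` is local (`v⁻¹ ∈ w.Λ` if `ψ0 v ≠ 0`;
note `v ≠ 0`). If `s v = u` with `w.ψ s ≠ 0` then `ψ0 u = w.ψ s * ψ0 v ≠ 0`, so `s⁻¹ u = v` shows
`s⁻¹ ∈ S`. The image of `S` in `w.k` consists of the quotients `ψ0 u / ψ0 v`, so it equals the finite
field `F`; hence `S ⧸ ker` is finite (it is isomorphic to the image:
`RingHom.quotientKerEquivRange`).
-/

open MvPolynomial

namespace H42.ZR

open H42.ZD

universe u

theorem LN_pow {k : Type*} [CommRing k] (p r : ℕ) (y : k) (h : y ^ (p ^ r) = y) (m : ℕ) :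
    y ^ (p ^ (r * m)) = y := by
  induction m with
  | zero => simp
  | succ m ih => rw [Nat.mul_succ, pow_add, pow_mul, ih, h]

theorem LN_exp {k : Type*} [CommRing k] (p : ℕ) (hlf : ∀ y : k, ∃ r : ℕ, 0 < r ∧ y ^ (p ^ r) = y)
    (s : Finset k) : ∃ r : ℕ, 0 < r ∧ ∀ y ∈ s, y ^ (p ^ r) = y := by
  classical
  induction s using Finset.induction_on with
  | empty => exact ⟨1, one_pos, by simp⟩
  | insert a s _ ih =>
    obtain ⟨r, hr, h⟩ := ih
    obtain ⟨q, hq, h'⟩ := hlf a
    refine ⟨r * q, Nat.mul_pos hr hq, fun y hy => ?_⟩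
    rcases Finset.mem_insert.1 hy with rfl | hy
    · rw [mul_comm r q]; exact LN_pow p q y h' r
    · exact LN_pow p r y (h y hy) q

theorem LN_fin {k : Type*} [Field k] (p r : ℕ) (hp : 1 < p ^ r) :
    {y : k | y ^ (p ^ r) = y}.Finite := by
  classical
  have hne : (Polynomial.X ^ (p ^ r) - Polynomial.X : Polynomial k) ≠ 0 :=
    FiniteField.X_pow_card_sub_X_ne_zero k hp
  refine (Polynomial.X ^ (p ^ r) - Polynomial.X : Polynomial k).roots.toFinset.finite_toSet.subset ?_
  intro y hy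
  have hy' : y ^ (p ^ r) = y := hy
  simp [Polynomial.mem_roots hne, hy']

theorem LNr {K : Type u} [Field K] (w : Plc K) (hw : IsLoc w) (B : Finset K)
    (hB : ∀ b ∈ B, b ∈ w.Λ) :
    ∃ (S : Subring K) (hS : S ≤ w.Λ), (∀ b ∈ B, b ∈ S) ∧ IsNoetherianRing S ∧
      (∀ s : S, w.ψ (Subring.inclusion hS s) ≠ 0 → (s : K)⁻¹ ∈ S) ∧
      Finite (S ⧸ RingHom.ker (w.ψ.comp (Subring.inclusion hS))) := by
  classical
  have : Fact w.p.Prime := ⟨w.hp⟩
  set S0 : Subring K := Subring.closure (B : Set K) with hS0def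
  have hS0 : S0 ≤ w.Λ := Subring.closure_le.2 fun b hb => hB b hb
  have hN0 : IsNoetherianRing S0 := is_noetherian_subring_closure _ B.finite_toSet
  let ψ0 : S0 →+* w.k := w.ψ.comp (Subring.inclusion hS0)
  -- the image is finite
  obtain ⟨r, hr, hfix⟩ := LN_exp w.p w.lf
    (B.attach.image fun b : {x // x ∈ B} => w.ψ (⟨b.1, hB b.1 b.2⟩ : w.Λ))
  have : ExpChar w.k w.p := expChar_prime w.k w.p
  let T : Subring w.k := RingHom.eqLocus (iterateFrobenius w.k w.p r) (RingHom.id w.k)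
  have hT : ∀ y : w.k, y ∈ T ↔ y ^ (w.p ^ r) = y := fun y => Iff.rfl
  have hle : S0 ≤ (T.comap w.ψ).map w.Λ.subtype := by
    refine Subring.closure_le.2 fun b hb => ?_
    refine ⟨⟨b, hB b hb⟩, ?_, rfl⟩
    exact (hT _).2 (hfix _ (Finset.mem_image.2 ⟨⟨b, hb⟩, Finset.mem_attach _ _, rfl⟩))
  have hψT : ∀ s : S0, (ψ0 s) ^ (w.p ^ r) = ψ0 s := by
    intro s
    obtain ⟨x, hx, hxs⟩ := hle s.2
    have : x = Subring.inclusion hS0 s := Subtype.ext hxs
    have h2 : w.ψ x ∈ T := hx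
    rw [this] at h2
    exact (hT _).1 h2
  have hpr : 1 < w.p ^ r := Nat.one_lt_pow hr.ne' w.hp.one_lt
  -- the localisation
  let S : Subring K :=
    { carrier := {s | ∃ u v : S0, ψ0 v ≠ 0 ∧ s * (v : K) = (u : K)}
      mul_mem' := by
        rintro a b ⟨u, v, hv, h⟩ ⟨u', v', hv', h'⟩
        refine ⟨u * u', v * v', by rw [map_mul]; exact mul_ne_zero hv hv', ?_⟩
        push_cast
        rw [← h, ← h']; ring
      one_mem' := ⟨1, 1, by simp, by simp⟩
      add_mem' := by
        rintro a b ⟨u, v, hv, h⟩ ⟨u', v', hv', h'⟩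
        refine ⟨u * v' + u' * v, v * v', by rw [map_mul]; exact mul_ne_zero hv hv', ?_⟩
        push_cast
        rw [← h, ← h']; ring
      zero_mem' := ⟨0, 1, by simp, by simp⟩
      neg_mem' := by
        rintro a ⟨u, v, hv, h⟩
        refine ⟨-u, v, hv, ?_⟩
        push_cast
        rw [← h]; ring }
  have hmemS : ∀ s : K, s ∈ S ↔ ∃ u v : S0, ψ0 v ≠ 0 ∧ s * (v : K) = (u : K) := fun s => Iff.rfl
  have hv0 : ∀ v : S0, ψ0 v ≠ 0 → (v : K) ≠ 0 := by
    intro v hv h0
    apply hv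
    have : v = 0 := Subtype.ext h0
    rw [this, map_zero]
  have hvΛ : ∀ v : S0, ψ0 v ≠ 0 → (v : K)⁻¹ ∈ w.Λ := fun v hv => hw (Subring.inclusion hS0 v) hv
  have hS : S ≤ w.Λ := by
    intro s hs
    obtain ⟨u, v, hv, h⟩ := (hmemS s).1 hs
    have : s = (u : K) * (v : K)⁻¹ := by
      rw [← h, mul_inv_cancel_right₀ (hv0 v hv)]
    rw [this]
    exact w.Λ.mul_mem (hS0 u.2) (hvΛ v hv)
  have hS0S : S0 ≤ S := fun s hs => (hmemS s).2 ⟨⟨s, hs⟩, 1, by simp, by simp⟩
  have hψS : ∀ (s : S) (u v : S0), ψ0 v ≠ 0 → (s : K) * (v : K) = (u : K) →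
      w.ψ (Subring.inclusion hS s) * ψ0 v = ψ0 u := by
    intro s u v _ h
    have : Subring.inclusion hS s * Subring.inclusion hS0 v = Subring.inclusion hS0 u :=
      Subtype.ext h
    show w.ψ _ * w.ψ _ = w.ψ _
    rw [← map_mul, this]
  refine ⟨S, hS, fun b hb => hS0S (Subring.subset_closure hb), ?_, ?_, ?_⟩
  · letI : Algebra S0 S := (Subring.inclusion hS0S).toAlgebra
    have hprm : (RingHom.ker ψ0).IsPrime := RingHom.ker_isPrime ψ0
    have hM : ∀ v : S0, v ∈ (RingHom.ker ψ0).primeCompl ↔ ψ0 v ≠ 0 := fun v => Iff.rfl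
    have halg : ∀ v : S0, ((algebraMap S0 S v : S) : K) = (v : K) := fun v => rfl
    have : IsLocalization (RingHom.ker ψ0).primeCompl S := by
      refine ⟨?_, ?_, ?_⟩
      · rintro ⟨v, hv⟩
        have hv' := (hM v).1 hv
        have hinv : (v : K)⁻¹ ∈ S := (hmemS _).2 ⟨1, v, hv', by
          rw [inv_mul_cancel₀ (hv0 v hv')]; simp⟩
        refine ⟨⟨algebraMap S0 S v, ⟨_, hinv⟩, ?_, ?_⟩, rfl⟩
        · exact Subtype.ext (mul_inv_cancel₀ (hv0 v hv'))
        · exact Subtype.ext (inv_mul_cancel₀ (hv0 v hv'))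
      · intro s
        obtain ⟨u, v, hv, h⟩ := (hmemS s).1 s.2
        exact ⟨(u, ⟨v, (hM v).2 hv⟩), Subtype.ext h⟩
      · intro x y hxy
        refine ⟨1, ?_⟩
        have : (x : K) = (y : K) := by rw [← halg x, ← halg y, hxy]
        rw [Subtype.ext this]
    exact IsLocalization.isNoetherianRing (RingHom.ker ψ0).primeCompl S hN0
  · intro s hs
    obtain ⟨u, v, hv, h⟩ := (hmemS s).1 s.2
    have h2 := hψS s u v hv h
    have hu : ψ0 u ≠ 0 := by rw [← h2]; exact mul_ne_zero hs hv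
    refine (hmemS _).2 ⟨v, u, hu, ?_⟩
    have hs0 : (s : K) ≠ 0 := by
      intro h0
      apply hv0 u hu
      rw [← h, h0, zero_mul]
    rw [← h, inv_mul_cancel_left₀ hs0]
  · have hrange : Set.Finite ((w.ψ.comp (Subring.inclusion hS)).range : Set w.k) := by
      have hFfin := LN_fin (k := w.k) w.p r hpr
      refine hFfin.subset ?_
      rintro _ ⟨s, rfl⟩
      obtain ⟨u, v, hv, h⟩ := (hmemS s).1 s.2
      have h2 := hψS s u v hv h
      show (w.ψ (Subring.inclusion hS s)) ^ (w.p ^ r) = w.ψ (Subring.inclusion hS s)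
      have h3 : w.ψ (Subring.inclusion hS s) = ψ0 u * (ψ0 v)⁻¹ := by
        rw [← h2, mul_inv_cancel_right₀ hv]
      rw [h3, mul_pow, inv_pow, hψT, hψT]
    have : Finite (w.ψ.comp (Subring.inclusion hS)).range := hrange.to_subtype
    exact Finite.of_equiv _ (RingHom.quotientKerEquivRange (w.ψ.comp (Subring.inclusion hS))).symm.toEquiv

end H42.ZR
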