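import Pool.Agent.H42.ZR.RL
import Pool.Agent.H42.ZR.GR
import Pool.Agent.H42.ZR.LN

/-!
# ZR row L2: growth lemma over a local place

`w` is a local place with prime `p = w.p`; `NL`, `DL` are the base data and `aL`, `bL` the fibre data
with coefficients in `w.Λ`; `x t ∈ w.Λ^n` is a base orbit with periodic, non-degenerate reduction, dense
over `K`; `Y t ∈ K` is a fibre orbit with `p * Y 0 = z`, `ψ z ≠ 0`. Then no non-zero polynomial
vanishes on `(Y_t, x_t)`. (The polynomial case is `Pool/Agent/H42/ZD/L2.lean`, proved: adapt.)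

PROOF. Suppose `P ≠ 0` and `(P.map (eval x_t)).eval (Y t) = 0` for all `t`. By `w.fr` (finitely many
times) there is `0 ≠ s ∈ w.Λ` such that all coefficients of `s P` are in `w.Λ`; so we may assume
`P = PL.map (map w.Λ.subtype)`, `PL ≠ 0`. Let `B ⊆ K` be the finite set of all coefficients of the
`NL i`, `DL i`, of (the coefficients of) `aL`, `bL`, `PL`, the `x 0 i` and `z`. Let `S` be as in
`LNr w hw B`, and `I = RingHom.ker (w.ψ.comp (Subring.inclusion hS))`. `S ⧸ I` is a finite domain, so
`I` is maximal; `S` noetherian so `I.FG`. Elements `s ∉ I` are units of `S`.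
All `x t i ∈ S`: induction on `t`, `x_{t+1,i} = N_i(x_t) / D_i(x_t)`, and `D_i(x_t) ∈ S` with
`ψ (D_i(x_t)) ≠ 0` so its inverse is in `S`.
Lift everything to `S` (`xS`, `NS`, `DS`, `aS`, `bS`, `PS`, `zS`; `vars`, `natDegree`,
`leadingCoeff`, `Jac` are compatible with the injective maps `S → w.Λ → K`:
`MvPolynomial.map_injective`, `vars_map_of_injective`, `Polynomial.natDegree_map_eq_of_injective`,
`pderiv_map`, and `φ (eval x q) = eval (φ ∘ x) (map φ q)`).
`RLr` (with `S`, `I`, `NS`, `DS`, `xS`, `N0`; `hper` from the periodicity of the reduction) gives the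
recurrence `hrec` of `GRr`. `GRr` (with `K`, `π = p ∈ I` as `w.k` has characteristic `p`, `aS`, `bS`,
`zS`, `Y`, `PS`) gives `eval (xS t) PS.leadingCoeff = 0` for all `t`, so the non-zero polynomial
`map w.Λ.subtype PL.leadingCoeff` vanishes along `x`, contradicting `hdense`.
-/

open MvPolynomial

namespace H42.ZR

open H42.ZD

/-! ### Generalities -/

section gen

variable {R R' : Type*} [CommRing R] [CommRing R'] {n : ℕ}

private theorem L2r_eval (φ : R →+* R') (x : Fin n → R) (q : MvPolynomial (Fin n) R) :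
    φ (eval x q) = eval (fun i => φ (x i)) (map φ q) := by
  rw [eval_map, ← eval₂_id, eval₂_comp_left, RingHom.comp_id]
  rfl

private theorem L2r_lift1 (φ : R →+* R') (q : MvPolynomial (Fin n) R')
    (h : ∀ c ∈ q.coeffs, c ∈ Set.range φ) : ∃ q' : MvPolynomial (Fin n) R, map φ q' = q := by
  have h1 : q ∈ Set.range (MvPolynomial.map (σ := Fin n) φ) :=
    mem_range_map_iff_coeffs_subset.2 fun c hc => h c hc
  exact h1

private theorem L2r_lift2 (φ : R →+* R') (P : Polynomial (MvPolynomial (Fin n) R'))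
    (h : ∀ i ∈ P.support, ∀ c ∈ (P.coeff i).coeffs, c ∈ Set.range φ) :
    ∃ P' : Polynomial (MvPolynomial (Fin n) R), P'.map (map φ) = P := by
  have h1 : P ∈ Polynomial.lifts (map (σ := Fin n) φ) := by
    rw [Polynomial.lifts_iff_coeff_lifts]
    intro i
    by_cases hi : i ∈ P.support
    · exact L2r_lift1 φ _ (h i hi)
    · rw [Polynomial.notMem_support_iff] at hi
      rw [hi]
      exact ⟨0, map_zero _⟩
  exact (Polynomial.mem_lifts P).1 h1

private theorem L2r_jac (φ : R →+* R') (N D : Fin n → MvPolynomial (Fin n) R) (i : Fin n) :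
    map φ (Jac N D i) = Jac (fun i => map φ (N i)) (fun i => map φ (D i)) i := by
  rw [Jac, Jac, map_sub, map_mul, map_mul, pderiv_map, pderiv_map]

end gen

universe u

private theorem L2r_den {K : Type u} [Field K] (w : Plc K) (T : Finset K) :
    ∃ s ∈ w.Λ, s ≠ 0 ∧ ∀ a ∈ T, s * a ∈ w.Λ := by
  classical
  induction T using Finset.induction_on with
  | empty => exact ⟨1, w.Λ.one_mem, one_ne_zero, fun a ha => absurd ha (Finset.notMem_empty a)⟩
  | insert b T _ ih =>
    obtain ⟨s, hs, hs0, h⟩ := ih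
    obtain ⟨s', hs', hs0', h'⟩ := w.fr b
    refine ⟨s * s', w.Λ.mul_mem hs hs', mul_ne_zero hs0 hs0', fun a ha => ?_⟩
    rcases Finset.mem_insert.1 ha with rfl | ha
    · rw [mul_assoc]
      exact w.Λ.mul_mem hs h'
    · rw [mul_right_comm]
      exact w.Λ.mul_mem (h a ha) hs'

private theorem L2r_clear {K : Type u} [Field K] (w : Plc K) {n : ℕ}
    (P : Polynomial (MvPolynomial (Fin n) K)) :
    ∃ s : K, s ≠ 0 ∧ ∃ PL : Polynomial (MvPolynomial (Fin n) w.Λ),
      PL.map (map w.Λ.subtype) = Polynomial.C (C s) * P := by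
  classical
  obtain ⟨s, hs, hs0, h⟩ := L2r_den w (P.support.biUnion fun i => (P.coeff i).coeffs)
  refine ⟨s, hs0, L2r_lift2 w.Λ.subtype _ fun i _ c hc => ?_⟩
  rw [Polynomial.coeff_C_mul] at hc
  obtain ⟨m, hm, rfl⟩ := mem_coeffs_iff.1 hc
  rw [coeff_C_mul]
  by_cases h0 : coeff m (P.coeff i) = 0
  · rw [h0, mul_zero]
    exact ⟨0, map_zero _⟩
  · have h1 : coeff m (P.coeff i) ∈ (P.coeff i).coeffs := coeff_mem_coeffs m h0
    have h2 : i ∈ P.support := by
      rw [Polynomial.mem_support_iff]
      intro h3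
      rw [h3, coeff_zero] at h0
      exact h0 rfl
    exact ⟨⟨_, h _ (Finset.mem_biUnion.2 ⟨i, h2, h1⟩)⟩, rfl⟩

theorem L2r {K : Type u} [Field K] [CharZero K] (w : Plc K) (hw : IsLoc w) {n : ℕ}
    (NL DL : Fin n → MvPolynomial (Fin n) w.Λ) (hN : ∀ i, ∀ j ∈ (NL i).vars, i ≤ j)
    (hD : ∀ i, ∀ j ∈ (DL i).vars, i ≤ j) (aL bL : Polynomial (MvPolynomial (Fin n) w.Λ))
    (hab : bL.natDegree + 2 ≤ aL.natDegree) (x : ℕ → Fin n → w.Λ)
    (hx : ∀ t i, x (t + 1) i * eval (x t) (DL i) = eval (x t) (NL i))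
    (hdense : DenseSeq fun t i => ((x t i : w.Λ) : K)) (N0 : ℕ) (hN0 : 0 < N0)
    (hper : ∀ t i, w.ψ (x (t + N0) i) = w.ψ (x t i))
    (hDx : ∀ t i, w.ψ (eval (x t) (DL i)) ≠ 0)
    (hJ : ∀ t i, w.ψ (eval (x t) (Jac NL DL i)) ≠ 0)
    (ha : ∀ t, w.ψ (eval (x t) aL.leadingCoeff) ≠ 0)
    (hb : ∀ t, w.ψ (eval (x t) bL.leadingCoeff) ≠ 0) (z : w.Λ) (hz : w.ψ z ≠ 0) (Y : ℕ → K)
    (hY0 : (w.p : K) * Y 0 = z)
    (hY : ∀ t, Y (t + 1) * bL.eval₂ (w.Λ.subtype.comp (eval (x t))) (Y t) =
      aL.eval₂ (w.Λ.subtype.comp (eval (x t))) (Y t))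
    (P : Polynomial (MvPolynomial (Fin n) K)) (hP : P ≠ 0) :
    ∃ t : ℕ, (P.map (eval fun i => ((x t i : w.Λ) : K))).eval (Y t) ≠ 0 := by
  classical
  by_contra hcon
  push Not at hcon
  obtain ⟨s, hs0, PL, hPL⟩ := L2r_clear w P
  -- the finite set
  obtain ⟨T, hT⟩ : ∃ T : Finset w.Λ, T = (Finset.univ.biUnion fun i => (NL i).coeffs) ∪
      ((Finset.univ.biUnion fun i => (DL i).coeffs) ∪
      ((aL.support.biUnion fun i => (aL.coeff i).coeffs) ∪
      ((bL.support.biUnion fun i => (bL.coeff i).coeffs) ∪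
        ((PL.support.biUnion fun i => (PL.coeff i).coeffs) ∪
          (Finset.univ.image (x 0) ∪ {z}))))) := ⟨_, rfl⟩
  obtain ⟨S, hS, hBS, hnoeth, hinv, hfin⟩ := LNr w hw (T.image (fun a : w.Λ => (a : K))) (by
    intro b hb'
    obtain ⟨a, -, rfl⟩ := Finset.mem_image.1 hb'
    exact a.2)
  obtain ⟨inc, hinc⟩ : ∃ inc : S →+* w.Λ, inc = Subring.inclusion hS := ⟨_, rfl⟩
  rw [← hinc] at hfin hinv
  have hincK : ∀ a : S, ((inc a : w.Λ) : K) = (a : K) := by
    intro a
    rw [hinc]
    rfl
  have hsub : ∀ a ∈ T, a ∈ Set.range inc := by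
    intro a ha'
    refine ⟨⟨(a : K), hBS _ (Finset.mem_image_of_mem _ ha')⟩, ?_⟩
    apply Subtype.ext
    rw [hincK]
  have hNS : ∀ i, ∃ q : MvPolynomial (Fin n) S, map inc q = NL i := fun i =>
    L2r_lift1 _ _ fun c hc => hsub c (by
      rw [hT]
      exact Finset.mem_union_left _ (Finset.mem_biUnion.2 ⟨i, Finset.mem_univ _, hc⟩))
  choose NS hNS using hNS
  have hDS : ∀ i, ∃ q : MvPolynomial (Fin n) S, map inc q = DL i := fun i =>
    L2r_lift1 _ _ fun c hc => hsub c (by
      rw [hT]
      exact Finset.mem_union_right _ (Finset.mem_union_left _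
        (Finset.mem_biUnion.2 ⟨i, Finset.mem_univ _, hc⟩)))
  choose DS hDS using hDS
  obtain ⟨aS, haS⟩ := L2r_lift2 inc aL fun i hi c hc => hsub c (by
      rw [hT]
      exact Finset.mem_union_right _ (Finset.mem_union_right _ (Finset.mem_union_left _
        (Finset.mem_biUnion.2 ⟨i, hi, hc⟩))))
  obtain ⟨bS, hbS⟩ := L2r_lift2 inc bL fun i hi c hc => hsub c (by
      rw [hT]
      exact Finset.mem_union_right _ (Finset.mem_union_right _ (Finset.mem_union_right _
        (Finset.mem_union_left _ (Finset.mem_biUnion.2 ⟨i, hi, hc⟩)))))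
  obtain ⟨PS, hPS⟩ := L2r_lift2 inc PL fun i hi c hc => hsub c (by
      rw [hT]
      exact Finset.mem_union_right _ (Finset.mem_union_right _ (Finset.mem_union_right _
        (Finset.mem_union_right _ (Finset.mem_union_left _
          (Finset.mem_biUnion.2 ⟨i, hi, hc⟩))))))
  have hx0 : ∀ i, ∃ a : S, inc a = x 0 i := fun i =>
    hsub (x 0 i) (by
      rw [hT]
      exact Finset.mem_union_right _ (Finset.mem_union_right _ (Finset.mem_union_right _
        (Finset.mem_union_right _ (Finset.mem_union_right _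
          (Finset.mem_union_left _ (Finset.mem_image_of_mem (x 0) (Finset.mem_univ i))))))))
  obtain ⟨zS, hzS⟩ : ∃ a : S, inc a = z :=
    hsub z (by
      rw [hT]
      exact Finset.mem_union_right _ (Finset.mem_union_right _ (Finset.mem_union_right _
        (Finset.mem_union_right _ (Finset.mem_union_right _
          (Finset.mem_union_right _ (Finset.mem_singleton_self z)))))))
  have hinj1 : Function.Injective inc := by
    intro a b hab'
    apply Subtype.ext
    rw [← hincK a, ← hincK b, hab']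
  -- the reduction
  obtain ⟨ρ, hρ⟩ : ∃ ρ : S →+* w.k, ρ = w.ψ.comp inc := ⟨_, rfl⟩
  have hρa : ∀ a : S, ρ a = w.ψ (inc a) := by
    intro a
    rw [hρ]
    rfl
  rw [← hρ] at hfin
  have hmax : (RingHom.ker ρ).IsMaximal := by
    have hprime := RingHom.ker_isPrime ρ
    exact Ideal.Quotient.maximal_of_isField _ (Finite.isDomain_to_isField _)
  have hunit : ∀ a : S, a ∉ RingHom.ker ρ → IsUnit a := by
    intro a ha'
    rw [RingHom.mem_ker, hρa] at ha'
    have h1 := hinv a ha'
    have h2 : (a : K) ≠ 0 := by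
      intro h0
      apply ha'
      have h3 : a = 0 := Subtype.ext h0
      rw [h3, map_zero, map_zero]
    refine IsUnit.of_mul_eq_one ⟨_, h1⟩ ?_
    apply Subtype.ext
    exact mul_inv_cancel₀ h2
  -- the orbit
  have hxS : ∀ t, ∃ y : Fin n → S, ∀ i, inc (y i) = x t i := by
    intro t
    induction t with
    | zero =>
      choose y hy using hx0
      exact ⟨y, hy⟩
    | succ t ih =>
      obtain ⟨y, hy⟩ := ih
      have hyx : (fun i => inc (y i)) = x t := funext hy
      have key : ∀ i, ∃ a : S, inc a = x (t + 1) i := by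
        intro i
        have h1 : inc (eval y (DS i)) = eval (x t) (DL i) := by
          rw [L2r_eval, hyx, hDS]
        have h2 : inc (eval y (NS i)) = eval (x t) (NL i) := by
          rw [L2r_eval, hyx, hNS]
        obtain ⟨U, hU⟩ := (hunit (eval y (DS i)) (by
          rw [RingHom.mem_ker, hρa, h1]
          exact hDx t i)).exists_right_inv
        refine ⟨eval y (NS i) * U, ?_⟩
        rw [map_mul, h2, ← hx t i, mul_assoc, ← h1, ← map_mul, hU, map_one, mul_one]
      choose y' hy' using key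
      exact ⟨y', hy'⟩
  choose xS hxS using hxS
  have hxx : ∀ t, (fun i => inc (xS t i)) = x t := fun t => funext (hxS t)
  have hev : ∀ t q, inc (eval (xS t) q) = eval (x t) (map inc q) := by
    intro t q
    rw [L2r_eval, hxx]
  have hrec : ∀ k : ℕ, ∃ M : ℕ, 0 < M ∧ ∀ t i, xS (t + M) i - xS t i ∈ RingHom.ker ρ ^ k :=
    fun k => RLr (RingHom.ker ρ) (IsNoetherian.noetherian _) NS DS
      (by
        intro i j hj
        refine hN i j ?_
        rw [← hNS i, vars_map_of_injective _ hinj1]
        exact hj)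
      (by
        intro i j hj
        refine hD i j ?_
        rw [← hDS i, vars_map_of_injective _ hinj1]
        exact hj) xS
      (by
        intro t i
        rw [RingHom.mem_ker, hρa, hev, hDS]
        exact hDx t i)
      (by
        intro t i
        apply hinj1
        rw [map_mul, hev, hev, hDS, hNS, hxS]
        exact hx t i) N0 hN0
      (by
        intro t i
        rw [RingHom.mem_ker, map_sub, sub_eq_zero, hρa, hρa, hxS, hxS]
        exact hper t i)
      (by
        intro t i
        rw [RingHom.mem_ker, hρa, hev, L2r_jac]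
        simp only [hNS, hDS]
        exact hJ t i) k
  -- evaluation over K
  obtain ⟨φ, hφ⟩ : ∃ φ : S →+* K, φ = w.Λ.subtype.comp inc := ⟨_, rfl⟩
  have hinj : Function.Injective φ := by
    rw [hφ]
    exact Subtype.val_injective.comp hinj1
  have hφx : ∀ t, (fun i => φ (xS t i)) = fun i => ((x t i : w.Λ) : K) := by
    intro t
    funext i
    rw [← hxS, hφ]
    rfl
  have hcomp : ∀ t, (w.Λ.subtype.comp (eval (x t))).comp (map inc) =
      (φ.comp (eval (xS t)) : MvPolynomial (Fin n) S →+* K) := by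
    intro t
    refine RingHom.ext fun q => ?_
    rw [hφ]
    change ((eval (x t) (map inc q) : w.Λ) : K) = ((inc (eval (xS t) q) : w.Λ) : K)
    rw [hev]
  have hcomp2 : ∀ t, (eval (fun i => ((x t i : w.Λ) : K))).comp (map φ) =
      (φ.comp (eval (xS t)) : MvPolynomial (Fin n) S →+* K) := by
    intro t
    refine RingHom.ext fun q => ?_
    change eval (fun i => ((x t i : w.Λ) : K)) (map φ q) = φ (eval (xS t) q)
    rw [L2r_eval, hφx]
  have hmm : ((map w.Λ.subtype : MvPolynomial (Fin n) w.Λ →+* _).comp (map inc)) =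
      (map φ : MvPolynomial (Fin n) S →+* _) := by
    refine RingHom.ext fun q => ?_
    rw [RingHom.comp_apply, map_map, hφ]
  have hPK : Polynomial.C (C s) * P = PS.map (map φ) := by
    rw [← hPL, ← hPS, Polynomial.map_map, hmm]
  have hinjm : Function.Injective (map φ : MvPolynomial (Fin n) S →+* _) :=
    map_injective φ hinj
  have hinjm1 : Function.Injective (map inc : MvPolynomial (Fin n) S →+* _) :=
    map_injective _ hinj1
  have hPS0 : PS ≠ 0 := by
    rintro rfl
    rw [Polynomial.map_zero] at hPK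
    rcases mul_eq_zero.1 hPK with h0 | h0
    · rw [Polynomial.C_eq_zero, C_eq_zero] at h0
      exact hs0 h0
    · exact hP h0
  let _ : Algebra S K := φ.toAlgebra
  have halg : algebraMap S K = φ := rfl
  have hφinc : ∀ a : S, φ a = ((inc a : w.Λ) : K) := by
    intro a
    rw [hφ]
    rfl
  have key := fun t => GRr (S := S) (K := K) hinj (RingHom.ker ρ) hunit (w.p : S)
    (by
      rw [RingHom.mem_ker, map_natCast]
      exact CharP.cast_eq_zero w.k w.p) xS hrec aS bS
    (by
      rw [← haS, ← hbS, Polynomial.natDegree_map_eq_of_injective hinjm1,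
        Polynomial.natDegree_map_eq_of_injective hinjm1] at hab
      exact hab)
    (by
      intro t
      rw [RingHom.mem_ker, hρa, hev, ← Polynomial.leadingCoeff_map_of_injective hinjm1, haS]
      exact ha t)
    (by
      intro t
      rw [RingHom.mem_ker, hρa, hev, ← Polynomial.leadingCoeff_map_of_injective hinjm1, hbS]
      exact hb t) zS
    (by
      rw [RingHom.mem_ker, hρa, hzS]
      exact hz) Y
    (by
      rw [halg, map_natCast, hφinc, hzS]
      exact hY0)
    (by
      intro t
      have h1 := hY t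
      rw [← haS, ← hbS, Polynomial.eval₂_map, Polynomial.eval₂_map, hcomp] at h1
      exact h1) PS
    (by
      intro t
      have h1 := hcon t
      rw [halg, ← hcomp2, ← Polynomial.eval₂_map, ← hPK, ← Polynomial.eval_map,
        Polynomial.map_mul, Polynomial.eval_mul, h1, mul_zero]) t
  have hlc : map φ PS.leadingCoeff ≠ 0 := by
    intro h0
    rw [← map_zero (map φ : MvPolynomial (Fin n) S →+* _)] at h0
    exact hPS0 (Polynomial.leadingCoeff_eq_zero.1 (hinjm h0))
  obtain ⟨t, ht⟩ := hdense _ hlc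
  apply ht
  have h5 := congrArg φ (key t)
  rw [L2r_eval, hφx, map_zero] at h5
  exact h5

end H42.ZR
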