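import Pool.Agent.H42.ZR.Df

/-!
# ZR row RL: recurrence of orbits of rational triangular maps modulo powers of an ideal

The sequence `x t ∈ S^n` satisfies `x_{t+1,i} D_i(x_t) = N_i(x_t)`, `D_i(x_t) ∉ I`, it is periodic
modulo the maximal ideal `I`, and the diagonal Jacobians `Jac N D i` do not vanish modulo `I`
along it. Then it is recurrent modulo every power of `I`. (The polynomial case, with a different
wording, is `Pool/Agent/H42/ZD/RL.lean`, proved: adapt that proof.)

PROOF. Write `u ≡ v mod J` for `∀ i, u i - v i ∈ J`; `eval` preserves congruences.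

(0) An element outside the maximal ideal `I` is a unit modulo `I`, hence a unit modulo `J = I^k`
(if `a U + e = 1` with `e ∈ I`, then `(a U + e)^k = 1` gives `a' U - 1 ∈ I^k`). So
`U ∉ I`, `δ U ∈ I^k` imply `δ ∈ I^k`.

(1) FORWARD. If `x_s ≡ x_{s'} mod I^k` then `x_{s+1} ≡ x_{s'+1} mod I^k`: for every `i`,
`(x_{s+1,i} - x_{s'+1,i}) D_i(x_s) = N_i(x_s) - N_i(x_{s'}) - x_{s'+1,i} (D_i(x_s) - D_i(x_{s'})) ∈ I^k`
and `D_i(x_s) ∉ I`; use (0).

(2) BACKWARD. Let `J = I^k`. If `x_s ≡ x_{s'} mod I` and `x_{s+1} ≡ x_{s'+1} mod J`, then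
`x_s ≡ x_{s'} mod J`. Write `z = x_s`, `z' = x_{s'}`. From the relations and (0)-type manipulations,
`N_i(z) D_i(z') - N_i(z') D_i(z) = (x_{s+1,i} - x_{s'+1,i}) D_i(z) D_i(z') ∈ J` for all `i`.
Show `z i - z' i ∈ J` by strong induction from the largest index downwards. Suppose it holds for
all `j > i`. `N_i`, `D_i` only involve `X_j`, `j ≥ i`. Modulo `J` we may replace the coordinates
`j > i` of `z'` by those of `z` (and the coordinates `j < i` do not matter), so with
`z'' = Function.update z i (z' i)`: `N_i(z) D_i(z'') - N_i(z'') D_i(z) ∈ J`. With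
`δ = z' i - z i ∈ I`, one-variable Taylor expansion (`Polynomial.binomExpansion` for the
one-variable polynomials `aeval (Function.update (C ∘ z) i X) N_i`, whose derivative is
`aeval (…) (pderiv i N_i)`) gives `N_i(z'') = N_i(z) + δ ∂_iN_i(z) + δ² n`,
`D_i(z'') = D_i(z) + δ ∂_iD_i(z) + δ² d`. Hence
`N_i(z) D_i(z'') - N_i(z'') D_i(z) = -δ (Jac_i(z) + δ e)` for some `e ∈ S`, where
`Jac_i = ∂_iN_i D_i - N_i ∂_iD_i`. `Jac_i(z) ∉ I` and `δ ∈ I`, so `Jac_i(z) + δ e ∉ I`, and (0) gives
`δ ∈ J`.

(3) Fix `k`. `S ⧸ I^k` is finite (`Ideal.finite_quotient_pow hfg k`), so the sequence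
`t ↦ (x_t mod I^k, t mod N0)` takes two equal values: `s < s'`, `x_s ≡ x_{s'} mod I^k`,
`M = s' - s > 0` a multiple of `N0`. By `hper` `x_{t+M} ≡ x_t mod I` for all `t`. By (2), descending
from `s` to `0`, `x_0 ≡ x_M mod I^k`; by (1), ascending, `x_t ≡ x_{t+M} mod I^k` for all `t`.
-/

open MvPolynomial

namespace H42.ZR

open H42.ZD

private theorem RL_congv {S : Type*} [CommRing S] {n : ℕ} (J : Ideal S) (u v : Fin n → S)
    (p : MvPolynomial (Fin n) S) (h : ∀ j ∈ p.vars, u j - v j ∈ J) :
    eval u p - eval v p ∈ J := by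
  rw [← Ideal.Quotient.eq]
  have e : ∀ w : Fin n → S, Ideal.Quotient.mk J (eval w p) =
      eval₂Hom (Ideal.Quotient.mk J) (fun j => Ideal.Quotient.mk J (w j)) p := by
    intro w
    rw [MvPolynomial.coe_eval₂Hom]
    exact MvPolynomial.eval₂_comp _ _ _
  rw [e, e]
  refine MvPolynomial.eval₂Hom_congr' rfl (fun j hj _ => ?_) rfl
  exact Ideal.Quotient.eq.2 (h j hj)

private theorem RL_taylor {S : Type*} [CommRing S] {n : ℕ} (z : Fin n → S) (i : Fin n) (δ : S)
    (p : MvPolynomial (Fin n) S) :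
    ∃ c, eval (Function.update z i (z i + δ)) p = eval z p + δ * (eval z (pderiv i p) + δ * c) := by
  induction p using MvPolynomial.induction_on with
  | C a => exact ⟨0, by simp⟩
  | add p q hp hq =>
    obtain ⟨c, hc⟩ := hp
    obtain ⟨d, hd⟩ := hq
    refine ⟨c + d, ?_⟩
    simp only [map_add, hc, hd]
    ring
  | mul_X p j hp =>
    obtain ⟨c, hc⟩ := hp
    by_cases hj : j = i
    · subst hj
      refine ⟨c * z j + eval z (pderiv j p) + δ * c, ?_⟩
      simp only [map_mul, hc, eval_X, Function.update_self, Derivation.leibniz, pderiv_X_self,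
        smul_eq_mul, map_add, map_one]
      ring
    · refine ⟨c * z j, ?_⟩
      have h1 : pderiv i (X j : MvPolynomial (Fin n) S) = 0 := pderiv_X_of_ne hj
      simp only [map_mul, hc, eval_X, Function.update_of_ne hj, Derivation.leibniz, h1,
        smul_eq_mul, map_add, map_zero, mul_zero, zero_add]
      ring

private theorem RL_unit {S : Type*} [CommRing S] (I : Ideal S) [I.IsMaximal] (U δ : S)
    (hU : U ∉ I) (k : ℕ) (h : δ * U ∈ I ^ k) : δ ∈ I ^ k := by
  obtain ⟨a, e, he, hae⟩ := Ideal.IsMaximal.exists_inv ‹I.IsMaximal› hU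
  have key : ∀ m, m ≤ k → δ ∈ I ^ m := by
    intro m
    induction m with
    | zero => intro _; simp
    | succ m ih =>
      intro hm
      have h1 : δ = a * (δ * U) + e * δ := by
        calc δ = δ * (a * U + e) := by rw [hae, mul_one]
          _ = a * (δ * U) + e * δ := by ring
      rw [h1]
      refine Ideal.add_mem _ ?_ ?_
      · exact Ideal.mul_mem_left _ _ (Ideal.pow_le_pow_right hm h)
      · rw [pow_succ']
        exact Ideal.mul_mem_mul he (ih (by omega))
  exact key k le_rfl

private theorem RL_fwd {S : Type*} [CommRing S] (I : Ideal S) [I.IsMaximal] {n : ℕ}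
    (N D : Fin n → MvPolynomial (Fin n) S) (z z' w w' : Fin n → S)
    (hD : ∀ i, eval z' (D i) ∉ I)
    (hw : ∀ i, w i * eval z (D i) = eval z (N i))
    (hw' : ∀ i, w' i * eval z' (D i) = eval z' (N i)) (k : ℕ)
    (h : ∀ i, z' i - z i ∈ I ^ k) : ∀ i, w' i - w i ∈ I ^ k := by
  intro i
  have h1 : eval z' (N i) - eval z (N i) ∈ I ^ k := RL_congv _ _ _ _ (fun j _ => h j)
  have h2 : eval z' (D i) - eval z (D i) ∈ I ^ k := RL_congv _ _ _ _ (fun j _ => h j)
  refine RL_unit I (eval z' (D i)) _ (hD i) k ?_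
  have h3 := Ideal.sub_mem _ h1 (Ideal.mul_mem_left _ (w i) h2)
  have e : (w' i - w i) * eval z' (D i) =
      eval z' (N i) - eval z (N i) - w i * (eval z' (D i) - eval z (D i)) := by
    rw [← hw, ← hw']; ring
  rw [e]
  exact h3

private theorem RL_key {S : Type*} [CommRing S] (I : Ideal S) [I.IsMaximal] {n : ℕ}
    (N D : Fin n → MvPolynomial (Fin n) S) (hN : ∀ i, ∀ j ∈ (N i).vars, i ≤ j)
    (hD : ∀ i, ∀ j ∈ (D i).vars, i ≤ j)
    (z z' w w' : Fin n → S) (hz : ∀ i, z' i - z i ∈ I)
    (hw : ∀ i, w i * eval z (D i) = eval z (N i))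
    (hw' : ∀ i, w' i * eval z' (D i) = eval z' (N i))
    (hu : ∀ i, eval z (Jac N D i) ∉ I) (k : ℕ)
    (hF : ∀ i, w' i - w i ∈ I ^ k) : ∀ i, z' i - z i ∈ I ^ k := by
  have main : ∀ m : ℕ, ∀ i : Fin n, n - i.val = m → z' i - z i ∈ I ^ k := by
    intro m
    induction m using Nat.strong_induction_on with
    | _ m ih =>
      intro i hi
      have hup : ∀ j : Fin n, i < j → z' j - z j ∈ I ^ k := by
        intro j hj
        have hj' : i.val < j.val := hj
        exact ih (n - j.val) (by have := j.isLt; omega) j rfl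
      have h2 : ∀ p : MvPolynomial (Fin n) S, (∀ j ∈ p.vars, i ≤ j) →
          eval z' p - eval (Function.update z i (z' i)) p ∈ I ^ k := by
        intro p hp
        refine RL_congv _ _ _ _ (fun j hj => ?_)
        rcases eq_or_lt_of_le (hp j hj) with h | h
        · subst h; simp
        · rw [Function.update_of_ne (ne_of_gt h)]
          exact hup j h
      have hN2 := h2 (N i) (hN i)
      have hD2 := h2 (D i) (hD i)
      obtain ⟨c, hc⟩ := RL_taylor z i (z' i - z i) (N i)
      obtain ⟨d, hd⟩ := RL_taylor z i (z' i - z i) (D i)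
      have e1 : z i + (z' i - z i) = z' i := by ring
      rw [e1] at hc hd
      have h3 : eval z (N i) * eval z' (D i) - eval z' (N i) * eval z (D i) ∈ I ^ k := by
        have e2 : eval z (N i) * eval z' (D i) - eval z' (N i) * eval z (D i) =
            -(eval z (D i) * eval z' (D i)) * (w' i - w i) := by
          rw [← hw, ← hw']; ring
        rw [e2]
        exact Ideal.mul_mem_left _ _ (hF i)
      have h4 : (z' i - z i) * (eval z (Jac N D i) +
          (z' i - z i) * (c * eval z (D i) - eval z (N i) * d)) ∈ I ^ k := by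
        have h5 := Ideal.sub_mem _ (Ideal.sub_mem _ (Ideal.mul_mem_left _ (eval z (N i)) hD2)
          (Ideal.mul_mem_left _ (eval z (D i)) hN2)) h3
        rw [hc, hd] at h5
        have e3 : eval z (N i) * (eval z' (D i) - (eval z (D i) + (z' i - z i) *
            (eval z (pderiv i (D i)) + (z' i - z i) * d))) -
            eval z (D i) * (eval z' (N i) - (eval z (N i) + (z' i - z i) *
            (eval z (pderiv i (N i)) + (z' i - z i) * c))) -
            (eval z (N i) * eval z' (D i) - eval z' (N i) * eval z (D i)) =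
            (z' i - z i) * (eval z (Jac N D i) +
              (z' i - z i) * (c * eval z (D i) - eval z (N i) * d)) := by
          simp only [Jac, map_sub, map_mul]
          ring
        rwa [e3] at h5
      refine RL_unit I _ _ ?_ k h4
      intro h5
      apply hu i
      have h6 := Ideal.sub_mem _ h5
        (Ideal.mul_mem_right (c * eval z (D i) - eval z (N i) * d) _ (hz i))
      simpa using h6
  exact fun i => main _ i rfl

theorem RLr {S : Type*} [CommRing S] (I : Ideal S) [I.IsMaximal] (hfg : I.FG) [Finite (S ⧸ I)]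
    {n : ℕ} (N D : Fin n → MvPolynomial (Fin n) S) (hN : ∀ i, ∀ j ∈ (N i).vars, i ≤ j)
    (hD : ∀ i, ∀ j ∈ (D i).vars, i ≤ j) (x : ℕ → Fin n → S)
    (hDx : ∀ t i, eval (x t) (D i) ∉ I)
    (hx : ∀ t i, x (t + 1) i * eval (x t) (D i) = eval (x t) (N i))
    (N0 : ℕ) (hN0 : 0 < N0) (hper : ∀ t i, x (t + N0) i - x t i ∈ I)
    (hJ : ∀ t i, eval (x t) (Jac N D i) ∉ I) (k : ℕ) :
    ∃ M : ℕ, 0 < M ∧ ∀ t i, x (t + M) i - x t i ∈ I ^ k := by
  rcases Nat.eq_zero_or_pos k with hk | hk
  · subst hk
    exact ⟨1, one_pos, fun t i => by simp⟩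
  have hfin : Finite (S ⧸ I ^ k) := Ideal.finite_quotient_pow hfg k
  have hperm : ∀ m t i, x (t + N0 * m) i - x t i ∈ I := by
    intro m
    induction m with
    | zero => intro t i; simp
    | succ m ih =>
      intro t i
      have h1 := hper (t + N0 * m) i
      have h2 := ih t i
      have h3 := Ideal.add_mem _ h1 h2
      have e : t + N0 * (m + 1) = t + N0 * m + N0 := by ring
      rw [e]
      simpa using h3
  obtain ⟨s, s', hne, heq⟩ := Finite.exists_ne_map_eq_of_infinite
    (fun t : ℕ => ((fun i => Ideal.Quotient.mk (I ^ k) (x t i)),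
      (⟨t % N0, Nat.mod_lt _ hN0⟩ : Fin N0)))
  wlog hss : s < s' generalizing s s'
  · exact this s' s hne.symm heq.symm (by omega)
  simp only [Prod.mk.injEq, Fin.mk.injEq] at heq
  obtain ⟨hq, hmod⟩ := heq
  have hdvd : N0 ∣ s' - s := (Nat.modEq_iff_dvd' hss.le).1 hmod
  obtain ⟨m, hm⟩ := hdvd
  refine ⟨s' - s, by omega, ?_⟩
  have hdown : ∀ r, r ≤ s → ∀ i, x (s - r + (s' - s)) i - x (s - r) i ∈ I ^ k := by
    intro r
    induction r with
    | zero =>
      intro _ i
      have h1 := congrFun hq i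
      have e : s - 0 + (s' - s) = s' := by omega
      rw [e, Nat.sub_zero]
      exact Ideal.Quotient.eq.1 h1.symm
    | succ r ih =>
      intro hr
      refine RL_key I N D hN hD (x (s - (r + 1))) (x (s - (r + 1) + (s' - s)))
        (x (s - (r + 1) + 1)) (x (s - (r + 1) + (s' - s) + 1)) ?_ (fun i => hx _ i)
        (fun i => hx _ i) (fun i => hJ _ i) k ?_
      · rw [hm]
        exact hperm m _
      · have e1 : s - (r + 1) + (s' - s) + 1 = s - r + (s' - s) := by omega
        have e2 : s - (r + 1) + 1 = s - r := by omega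
        rw [e1, e2]
        exact ih (by omega)
  have h0 := hdown s le_rfl
  rw [Nat.sub_self] at h0
  intro t
  induction t with
  | zero => exact h0
  | succ t ih =>
    have e : t + 1 + (s' - s) = t + (s' - s) + 1 := by omega
    rw [e]
    exact RL_fwd I N D (x t) (x (t + (s' - s))) (x (t + 1)) (x (t + (s' - s) + 1))
      (fun i => hDx _ i) (fun i => hx _ i) (fun i => hx _ i) k ih

end H42.ZR
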