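import Pool.Agent.H42.ZR.Df

/-!
# ZR row Rd: spreading out: reduction of towers at almost all places

`Spread φ`: `φ` holds at every place where finitely many given elements are integral and one given
non-zero element has non-zero reduction.

PROOFS.
`Spread.and`: take the union of the two finite sets together with `{β, β'}`, and the element `β β'`
(if `β, β' ∈ w.Λ` and `ψ(β β') ≠ 0` then `ψ β ≠ 0`, `ψ β' ≠ 0`). `Spread.mono` is clear.
`Spread_lift`: `B` = the coefficients of `H`, `β = 1`; use `mem_range_map_iff_coeffs_subset` (see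
`Tn_lift` in `Pool/Agent/H42/ZD/Tn.lean`). `Spread_liftP`: the same for `P : Polynomial (MvPolynomial σ K)`
(`B` = all coefficients of the coefficients, `Polynomial.lifts_iff_coeff_lifts`).
`Spread_poly`: `β` = a non-zero coefficient of `H`, at the monomial `m` say; the lift `HL` has
`coeff m (map ψ HL) = ψ (coeff m HL) ≠ 0` (see the proof of `Tn_place` in the same file).
`Step_map`: coordinatewise (`Fin.cases`); coordinate `0`: `map φ ((finSuccEquiv R n).symm h) =
(finSuccEquiv S n).symm (h.map (map φ))` (apply to `h = finSuccEquiv R n P` and do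
`MvPolynomial.induction_on P`), coordinate `succ i`: `map_rename`.
`Spread_tow`: induction on the tower. `zero`: every `w` works (`Fin 0`, `Tow.zero`). `step N D a b`:
combine, by `Spread.and`, the induction hypothesis, `Spread_liftP` for `a` and `b`, and
- if `Mob a b`: `Spread_poly` for `δ = a.coeff 1 * b.coeff 0 - a.coeff 0 * b.coeff 1`;
- if `Sup a b` (with `U a + V b = C ρ`): `Spread_liftP` for `U`, `V` and `Spread_poly` for
  `a.leadingCoeff * b.leadingCoeff * ρ`.
At such a `w` take `NL = Step N' aL`, `DL = Step D' bL` (lifts). By `Step_map` they lift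
`Step N a`, `Step D b`, and their reductions are `Step (red N') (aL.map (map w.ψ))`, …; the map
`MvPolynomial (Fin n) w.Λ → MvPolynomial (Fin n) K` is injective, so the lifts satisfy the same
identities (`δL` lifts `δ`, `UL aL + VL bL = C ρL`) and have the same degrees and leading
coefficients. Hence the reductions satisfy `Mob` (degrees only drop, determinant = reduction of `δL`,
non-zero), resp. `Sup` (leading coefficients have non-zero reductions, so
`natDegree (aL.map _) = natDegree a`, same for `b`; `bL.map _ ≠ 0`; the Bezout identity reduces, with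
`map ψ ρL ≠ 0`).
-/

open MvPolynomial

namespace H42.ZR

open H42.ZD

universe u

/-- `φ` holds at almost all places, in the sense above. -/
def Spread {K : Type u} [Field K] (φ : Plc K → Prop) : Prop :=
  ∃ (B : Finset K) (β : K), β ≠ 0 ∧ ∀ w : Plc K, (∀ x ∈ B, x ∈ w.Λ) →
    (∃ h : β ∈ w.Λ, w.ψ ⟨β, h⟩ ≠ 0) → φ w

variable {K : Type u} [Field K]

theorem Spread.and {φ χ : Plc K → Prop} (h1 : Spread φ) (h2 : Spread χ) :
    Spread fun w => φ w ∧ χ w := by
  classical
  obtain ⟨B1, b1, hb1, H1⟩ := h1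
  obtain ⟨B2, b2, hb2, H2⟩ := h2
  refine ⟨(B1 ∪ B2) ∪ {b1, b2}, b1 * b2, mul_ne_zero hb1 hb2, fun w hw hb => ?_⟩
  obtain ⟨hb, hψ⟩ := hb
  have m1 : b1 ∈ w.Λ := hw b1 (Finset.mem_union_right _ (Finset.mem_insert_self _ _))
  have m2 : b2 ∈ w.Λ := hw b2 (Finset.mem_union_right _
    (Finset.mem_insert_of_mem (Finset.mem_singleton_self _)))
  have e : (⟨b1 * b2, hb⟩ : w.Λ) = ⟨b1, m1⟩ * ⟨b2, m2⟩ := rfl
  rw [e, map_mul] at hψ
  exact ⟨H1 w (fun x hx => hw x (Finset.mem_union_left _ (Finset.mem_union_left _ hx)))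
      ⟨m1, left_ne_zero_of_mul hψ⟩,
    H2 w (fun x hx => hw x (Finset.mem_union_left _ (Finset.mem_union_right _ hx)))
      ⟨m2, right_ne_zero_of_mul hψ⟩⟩

theorem Spread.mono {φ χ : Plc K → Prop} (h1 : Spread φ) (h : ∀ w, φ w → χ w) : Spread χ := by
  obtain ⟨B, b, hb, H⟩ := h1
  exact ⟨B, b, hb, fun w hw hbw => h w (H w hw hbw)⟩

private theorem Rd_lift {σ : Type*} (S : Subring K) (p : MvPolynomial σ K)
    (hp : ∀ c ∈ p.coeffs, c ∈ S) : ∃ q : MvPolynomial σ S, map S.subtype q = p := by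
  have h1 : p ∈ Set.range (map S.subtype : MvPolynomial σ S → MvPolynomial σ K) := by
    rw [mem_range_map_iff_coeffs_subset]
    intro c hc
    exact ⟨⟨c, hp c hc⟩, rfl⟩
  exact h1

theorem Spread_lift {σ : Type*} (H : MvPolynomial σ K) :
    Spread fun w => ∃ HL : MvPolynomial σ w.Λ, map w.Λ.subtype HL = H :=
  ⟨H.coeffs, 1, one_ne_zero, fun w hw _ => Rd_lift w.Λ H hw⟩

theorem Spread_liftP {σ : Type*} (H : Polynomial (MvPolynomial σ K)) :
    Spread fun w => ∃ HL : Polynomial (MvPolynomial σ w.Λ), HL.map (map w.Λ.subtype) = H := by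
  classical
  refine ⟨H.support.biUnion fun j => (H.coeff j).coeffs, 1, one_ne_zero, fun w hw _ => ?_⟩
  change ∃ HL : Polynomial (MvPolynomial σ w.Λ), HL.map (map w.Λ.subtype) = H
  rw [← Polynomial.mem_lifts, Polynomial.lifts_iff_coeff_lifts]
  intro j
  obtain ⟨q, hq⟩ := Rd_lift w.Λ (H.coeff j) (by
    intro c hc
    refine hw c (Finset.mem_biUnion.2 ⟨j, ?_, hc⟩)
    rw [Polynomial.mem_support_iff]
    intro h0
    rw [h0, coeffs_zero] at hc
    exact absurd hc (Finset.notMem_empty c))
  exact ⟨q, hq⟩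

theorem Spread_poly {σ : Type*} (H : MvPolynomial σ K) (hH : H ≠ 0) :
    Spread fun w => ∃ HL : MvPolynomial σ w.Λ, map w.Λ.subtype HL = H ∧ map w.ψ HL ≠ 0 := by
  obtain ⟨m, hm⟩ := ne_zero_iff.1 hH
  refine ⟨H.coeffs, coeff m H, hm, fun w hw hb => ?_⟩
  obtain ⟨hb, hψ⟩ := hb
  obtain ⟨HL, hHL⟩ := Rd_lift w.Λ H hw
  refine ⟨HL, hHL, ?_⟩
  rw [ne_zero_iff]
  refine ⟨m, ?_⟩
  rw [coeff_map]
  have h1 : coeff m HL = ⟨coeff m H, hb⟩ := by
    apply Subtype.ext
    have h2 := congrArg (coeff m) hHL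
    rw [coeff_map] at h2
    exact h2
  rw [h1]
  exact hψ

private theorem Rd_fse {R S : Type*} [CommRing R] [CommRing S] (φ : R →+* S) {n : ℕ}
    (P : MvPolynomial (Fin (n + 1)) R) :
    finSuccEquiv S n (map φ P) = (finSuccEquiv R n P).map (map φ) := by
  have fa : ∀ a b, finSuccEquiv S n (a + b) = finSuccEquiv S n a + finSuccEquiv S n b :=
    fun a b => map_add (finSuccEquiv S n) a b
  have fm : ∀ a b, finSuccEquiv S n (a * b) = finSuccEquiv S n a * finSuccEquiv S n b :=
    fun a b => map_mul (finSuccEquiv S n) a b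
  have ga : ∀ a b, finSuccEquiv R n (a + b) = finSuccEquiv R n a + finSuccEquiv R n b :=
    fun a b => map_add (finSuccEquiv R n) a b
  have gm : ∀ a b, finSuccEquiv R n (a * b) = finSuccEquiv R n a * finSuccEquiv R n b :=
    fun a b => map_mul (finSuccEquiv R n) a b
  induction P using MvPolynomial.induction_on with
  | C a => rw [map_C, fse_C, fse_C, Polynomial.map_C, map_C]
  | add p q hp hq => rw [map_add, fa, ga, hp, hq, Polynomial.map_add]
  | mul_X p i hp =>
    rw [map_mul, fm, gm, hp, Polynomial.map_mul, map_X]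
    congr 1
    refine Fin.cases ?_ (fun i => ?_) i
    · rw [finSuccEquiv_X_zero, finSuccEquiv_X_zero, Polynomial.map_X]
    · rw [finSuccEquiv_X_succ, finSuccEquiv_X_succ, Polynomial.map_C, map_X]

theorem Step_map {R S : Type*} [CommRing R] [CommRing S] (φ : R →+* S) {n : ℕ}
    (g : Fin n → MvPolynomial (Fin n) R) (h : Polynomial (MvPolynomial (Fin n) R)) :
    (fun i => map φ (Step g h i)) = Step (fun i => map φ (g i)) (h.map (map φ)) := by
  funext i
  refine Fin.cases ?_ (fun i => ?_) i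
  · simp only [Step, Fin.cons_zero]
    apply (finSuccEquiv S n).injective
    rw [Rd_fse, AlgEquiv.apply_symm_apply, AlgEquiv.apply_symm_apply]
  · simp only [Step, Fin.cons_succ]
    rw [map_rename]

private theorem Rd_mob {n : ℕ} (a b : Polynomial (MvPolynomial (Fin n) K)) (h : Mob a b) :
    Spread fun w => ∃ aL bL : Polynomial (MvPolynomial (Fin n) w.Λ),
      aL.map (map w.Λ.subtype) = a ∧ bL.map (map w.Λ.subtype) = b ∧
      Mob (aL.map (map w.ψ)) (bL.map (map w.ψ)) := by
  obtain ⟨h1, h2, h3⟩ := h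
  refine (((Spread_liftP a).and (Spread_liftP b)).and (Spread_poly _ h3)).mono fun w hw => ?_
  obtain ⟨⟨⟨aL, ha⟩, bL, hb⟩, L, hL, hL0⟩ := hw
  have hinj : Function.Injective (map w.Λ.subtype :
      MvPolynomial (Fin n) w.Λ → MvPolynomial (Fin n) K) :=
    map_injective _ Subtype.val_injective
  refine ⟨aL, bL, ha, hb, ?_, ?_, ?_⟩
  · refine Polynomial.natDegree_map_le.trans ?_
    rw [← Polynomial.natDegree_map_eq_of_injective hinj aL, ha]
    exact h1
  · refine Polynomial.natDegree_map_le.trans ?_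
    rw [← Polynomial.natDegree_map_eq_of_injective hinj bL, hb]
    exact h2
  · have e : L = aL.coeff 1 * bL.coeff 0 - aL.coeff 0 * bL.coeff 1 := by
      apply hinj
      rw [hL, ← ha, ← hb, map_sub, map_mul, map_mul]
      simp only [Polynomial.coeff_map]
    rw [e, map_sub, map_mul, map_mul] at hL0
    simp only [Polynomial.coeff_map]
    exact hL0

private theorem Rd_sup {n : ℕ} (a b : Polynomial (MvPolynomial (Fin n) K)) (h : Sup a b) :
    Spread fun w => ∃ aL bL : Polynomial (MvPolynomial (Fin n) w.Λ),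
      aL.map (map w.Λ.subtype) = a ∧ bL.map (map w.Λ.subtype) = b ∧
      Sup (aL.map (map w.ψ)) (bL.map (map w.ψ)) := by
  obtain ⟨h1, h2, U, V, ρ, hρ, hUV⟩ := h
  have ha0 : a ≠ 0 := by
    rintro rfl
    rw [Polynomial.natDegree_zero] at h2
    omega
  have hl : a.leadingCoeff * b.leadingCoeff * ρ ≠ 0 :=
    mul_ne_zero (mul_ne_zero (Polynomial.leadingCoeff_ne_zero.2 ha0)
      (Polynomial.leadingCoeff_ne_zero.2 h1)) hρ
  refine ((((Spread_liftP a).and (Spread_liftP b)).and
    ((Spread_liftP U).and (Spread_liftP V))).and (Spread_poly _ hl)).mono fun w hw => ?_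
  obtain ⟨⟨⟨⟨aL, ha⟩, bL, hb⟩, ⟨UL, hU⟩, VL, hV⟩, L, hL, hL0⟩ := hw
  have hinj : Function.Injective (map w.Λ.subtype :
      MvPolynomial (Fin n) w.Λ → MvPolynomial (Fin n) K) :=
    map_injective _ Subtype.val_injective
  have hinjP : Function.Injective (Polynomial.map (map w.Λ.subtype :
      MvPolynomial (Fin n) w.Λ →+* MvPolynomial (Fin n) K)) := Polynomial.map_injective _ hinj
  obtain ⟨r, hr⟩ : ∃ r, r = (UL * aL + VL * bL).coeff 0 := ⟨_, rfl⟩
  have hrK : map w.Λ.subtype r = ρ := by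
    rw [hr, ← Polynomial.coeff_map, Polynomial.map_add, Polynomial.map_mul, Polynomial.map_mul,
      hU, ha, hV, hb, hUV, Polynomial.coeff_C_zero]
  have hUVL : UL * aL + VL * bL = Polynomial.C r := by
    apply hinjP
    rw [Polynomial.map_add, Polynomial.map_mul, Polynomial.map_mul, hU, ha, hV, hb, hUV,
      Polynomial.map_C, hrK]
  have e : L = aL.leadingCoeff * bL.leadingCoeff * r := by
    apply hinj
    rw [hL, map_mul, map_mul, hrK, ← ha, ← hb, Polynomial.leadingCoeff_map_of_injective hinj,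
      Polynomial.leadingCoeff_map_of_injective hinj]
  rw [e, map_mul, map_mul] at hL0
  have g1 : map w.ψ aL.leadingCoeff ≠ 0 := left_ne_zero_of_mul (left_ne_zero_of_mul hL0)
  have g2 : map w.ψ bL.leadingCoeff ≠ 0 := right_ne_zero_of_mul (left_ne_zero_of_mul hL0)
  have g3 : map w.ψ r ≠ 0 := right_ne_zero_of_mul hL0
  have da : (aL.map (map w.ψ)).natDegree = a.natDegree := by
    rw [Polynomial.natDegree_map_of_leadingCoeff_ne_zero _ g1, ← ha,
      Polynomial.natDegree_map_eq_of_injective hinj]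
  have db : (bL.map (map w.ψ)).natDegree = b.natDegree := by
    rw [Polynomial.natDegree_map_of_leadingCoeff_ne_zero _ g2, ← hb,
      Polynomial.natDegree_map_eq_of_injective hinj]
  refine ⟨aL, bL, ha, hb, ?_, ?_, UL.map (map w.ψ), VL.map (map w.ψ), map w.ψ r, g3, ?_⟩
  · intro h0
    have h3 := congrArg (fun P => Polynomial.coeff P bL.natDegree) h0
    simp only [Polynomial.coeff_map, Polynomial.coeff_zero] at h3
    exact g2 h3
  · rw [da, db]
    exact h2
  · rw [← Polynomial.map_mul, ← Polynomial.map_mul, ← Polynomial.map_add, hUVL, Polynomial.map_C]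

theorem Spread_tow (q : Prop) {n : ℕ} (N D : Fin n → MvPolynomial (Fin n) K) (hT : Tow q N D) :
    Spread fun w => ∃ NL DL : Fin n → MvPolynomial (Fin n) w.Λ,
      (∀ i, map w.Λ.subtype (NL i) = N i) ∧ (∀ i, map w.Λ.subtype (DL i) = D i) ∧
      Tow q (fun i => map w.ψ (NL i)) (fun i => map w.ψ (DL i)) := by
  induction hT with
  | zero N D =>
    exact ⟨∅, 1, one_ne_zero, fun w _ _ => ⟨fun i => i.elim0, fun i => i.elim0,
      fun i => i.elim0, fun i => i.elim0, Tow.zero _ _⟩⟩
  | step N D a b h hab ih =>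
    have key : Spread fun w => ∃ aL bL : Polynomial (MvPolynomial (Fin _) w.Λ),
        aL.map (map w.Λ.subtype) = a ∧ bL.map (map w.Λ.subtype) = b ∧
        ((q ∧ Mob (aL.map (map w.ψ)) (bL.map (map w.ψ))) ∨
          Sup (aL.map (map w.ψ)) (bL.map (map w.ψ))) := by
      rcases hab with ⟨hq, hab⟩ | hab
      · refine (Rd_mob a b hab).mono fun w hw => ?_
        obtain ⟨aL, bL, h1, h2, h3⟩ := hw
        exact ⟨aL, bL, h1, h2, Or.inl ⟨hq, h3⟩⟩
      · refine (Rd_sup a b hab).mono fun w hw => ?_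
        obtain ⟨aL, bL, h1, h2, h3⟩ := hw
        exact ⟨aL, bL, h1, h2, Or.inr h3⟩
    refine (ih.and key).mono fun w hw => ?_
    obtain ⟨⟨NL, DL, h1, h2, h3⟩, aL, bL, ha, hb, hab'⟩ := hw
    refine ⟨Step NL aL, Step DL bL, ?_, ?_, ?_⟩
    · intro i
      have h4 := congrFun (Step_map w.Λ.subtype NL aL) i
      rw [ha, funext h1] at h4
      exact h4
    · intro i
      have h4 := congrFun (Step_map w.Λ.subtype DL bL) i
      rw [hb, funext h2] at h4
      exact h4
    · rw [Step_map, Step_map]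
      exact Tow.step _ _ _ _ h3 hab'

end H42.ZR
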