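import Pool.Agent.H42.ZR.Rd
import Pool.Agent.H42.ZD.Tn

/-!
# ZR: orbit sequences, Jacobians and lifts of towers
-/

open MvPolynomial

namespace H42.ZR

open H42.ZD

universe u

section seq

variable {K : Type*} [Field K] {n : ℕ}

/-- The orbit of the point `x` (with junk values if a denominator vanishes). -/
noncomputable def oseq (N D : Fin n → MvPolynomial (Fin n) K) (x : Fin n → K) : ℕ → Fin n → K
  | 0 => x
  | t + 1 => fun i => eval (oseq N D x t) (N i) / eval (oseq N D x t) (D i)

/-- The fibre coordinate of the orbit. -/
noncomputable def yseq (a b : Polynomial (MvPolynomial (Fin n) K)) (x : ℕ → Fin n → K) (y : K) :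
    ℕ → K
  | 0 => y
  | t + 1 => (a.map (eval (x t))).eval (yseq a b x y t) /
      (b.map (eval (x t))).eval (yseq a b x y t)

theorem oseq_step (N D : Fin n → MvPolynomial (Fin n) K)
    (a b : Polynomial (MvPolynomial (Fin n) K)) (x : Fin n → K) (y : K) (t : ℕ) :
    oseq (Step N a) (Step D b) (Fin.cons y x : Fin (n + 1) → K) t =
      Fin.cons (yseq a b (oseq N D x) y t) (oseq N D x t) := by
  induction t with
  | zero => rfl
  | succ t ih =>
    funext i
    simp only [oseq]
    rw [ih]
    refine Fin.cases ?_ (fun i => ?_) i
    · simp only [Step, Fin.cons_zero, eval_cons_symm, yseq]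
    · simp only [Step, Fin.cons_succ, eval_cons_rename, oseq]

theorem oseq_orb (N D : Fin n → MvPolynomial (Fin n) K) (x : Fin n → K)
    (h : ∀ t i, eval (oseq N D x t) (D i) ≠ 0) : Orb N D (oseq N D x) := by
  intro t i
  refine ⟨h t i, ?_⟩
  simp only [oseq]
  rw [div_mul_cancel₀ _ (h t i)]

end seq

section vars

theorem tow_vars {R : Type*} [CommRing R] {q : Prop} {n : ℕ} {N D : Fin n → MvPolynomial (Fin n) R}
    (hT : Tow q N D) :
    (∀ i, ∀ j ∈ (N i).vars, i ≤ j) ∧ (∀ i, ∀ j ∈ (D i).vars, i ≤ j) := by
  classical
  have key : ∀ {n : ℕ} (N : Fin n → MvPolynomial (Fin n) R)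
      (a : Polynomial (MvPolynomial (Fin n) R)), (∀ i, ∀ j ∈ (N i).vars, i ≤ j) →
      ∀ i, ∀ j ∈ (Step N a i).vars, i ≤ j := by
    intro n N a h i
    refine Fin.cases ?_ (fun i => ?_) i
    · intro j _
      exact Fin.zero_le j
    · intro j hj
      simp only [Step, Fin.cons_succ] at hj
      have := vars_rename Fin.succ (N i) hj
      obtain ⟨j', hj', rfl⟩ := Finset.mem_image.1 this
      exact Fin.succ_le_succ_iff.2 (h i j' hj')
  induction hT with
  | zero N D => exact ⟨fun i => i.elim0, fun i => i.elim0⟩
  | step N D a b h hab ih => exact ⟨key N a ih.1, key D b ih.2⟩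

end vars

section jac

variable {R : Type*} [CommRing R] {n : ℕ}

theorem fse_pderiv_zero (P : MvPolynomial (Fin (n + 1)) R) :
    finSuccEquiv R n (pderiv 0 P) = Polynomial.derivative (finSuccEquiv R n P) := by
  have fa : ∀ a b, finSuccEquiv R n (a + b) = finSuccEquiv R n a + finSuccEquiv R n b :=
    fun a b => map_add (finSuccEquiv R n) a b
  have fm : ∀ a b, finSuccEquiv R n (a * b) = finSuccEquiv R n a * finSuccEquiv R n b :=
    fun a b => map_mul (finSuccEquiv R n) a b
  induction P using MvPolynomial.induction_on with
  | C a => rw [pderiv_C, fse_C, Polynomial.derivative_C, map_zero]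
  | add p q hp hq => rw [map_add, fa, hp, hq, fa, Polynomial.derivative_add]
  | mul_X p i hp =>
    rw [pderiv_mul, fa, fm, fm, hp, fm, Polynomial.derivative_mul]
    congr 2
    refine Fin.cases ?_ (fun i => ?_) i
    · rw [pderiv_X_self, finSuccEquiv_X_zero, Polynomial.derivative_X, map_one]
    · rw [pderiv_X_of_ne (Fin.succ_ne_zero i), finSuccEquiv_X_succ, Polynomial.derivative_C,
        map_zero]

theorem jac_zero (N D : Fin n → MvPolynomial (Fin n) R)
    (a b : Polynomial (MvPolynomial (Fin n) R)) :
    Jac (Step N a) (Step D b) 0 = (finSuccEquiv R n).symm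
      (Polynomial.derivative a * b - a * Polynomial.derivative b) := by
  apply (finSuccEquiv R n).injective
  rw [AlgEquiv.apply_symm_apply, Jac, map_sub, map_mul, map_mul, fse_pderiv_zero, fse_pderiv_zero]
  simp only [Step, Fin.cons_zero]
  rw [AlgEquiv.apply_symm_apply, AlgEquiv.apply_symm_apply]

theorem jac_succ (N D : Fin n → MvPolynomial (Fin n) R)
    (a b : Polynomial (MvPolynomial (Fin n) R)) (i : Fin n) :
    Jac (Step N a) (Step D b) i.succ = rename Fin.succ (Jac N D i) := by
  simp only [Jac, Step, Fin.cons_succ]
  rw [pderiv_rename (Fin.succ_injective n), pderiv_rename (Fin.succ_injective n), map_sub, map_mul,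
    map_mul]

/-- For a fractional linear fibre map the Jacobian is the determinant. -/
theorem mob_jac (a b : Polynomial (MvPolynomial (Fin n) R)) (hab : Mob a b) :
    Polynomial.derivative a * b - a * Polynomial.derivative b =
      Polynomial.C (a.coeff 1 * b.coeff 0 - a.coeff 0 * b.coeff 1) := by
  obtain ⟨h1, h2, -⟩ := hab
  have e1 := Polynomial.eq_X_add_C_of_natDegree_le_one h1
  have e2 := Polynomial.eq_X_add_C_of_natDegree_le_one h2
  set a1 := a.coeff 1
  set a0 := a.coeff 0
  set b1 := b.coeff 1
  set b0 := b.coeff 0
  rw [e1, e2]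
  simp only [Polynomial.derivative_add, Polynomial.derivative_C, Polynomial.derivative_C_mul,
    Polynomial.derivative_X, map_sub, map_mul]
  ring

theorem cast_pred_add {R : Type*} [CommRing R] (d : ℕ) (h : d - 1 + 1 = d) :
    ((d - 1 : ℕ) : R) + 1 = (d : R) := by
  rw [← Nat.cast_succ, Nat.succ_eq_add_one, h]

theorem tow_jac {K : Type*} [Field K] [CharZero K] {q : Prop} {n : ℕ}
    {N D : Fin n → MvPolynomial (Fin n) K} (hT : Tow q N D) : ∀ i, Jac N D i ≠ 0 := by
  induction hT with
  | zero N D => exact fun i => i.elim0
  | step N D a b h hab ih =>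
    intro i
    refine Fin.cases ?_ (fun i => ?_) i
    · rw [jac_zero]
      intro h0
      have h1 : Polynomial.derivative a * b - a * Polynomial.derivative b = 0 :=
        (map_eq_zero_iff _ (finSuccEquiv K _).symm.injective).1 h0
      rcases hab with ⟨-, hab⟩ | ⟨hb, hab, -⟩
      · rw [mob_jac a b hab, Polynomial.C_eq_zero] at h1
        exact hab.2.2 h1
      · have ha : a ≠ 0 := by
          rintro rfl
          simp at hab
        have h2 := congrArg (fun p => p.coeff (a.natDegree - 1 + b.natDegree)) h1
        simp only [Polynomial.coeff_sub, Polynomial.coeff_zero] at h2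
        have e1 : (Polynomial.derivative a * b).coeff (a.natDegree - 1 + b.natDegree) =
            a.natDegree * (a.leadingCoeff * b.leadingCoeff) := by
          rw [Polynomial.coeff_mul_add_eq_of_natDegree_le (Polynomial.natDegree_derivative_le a) le_rfl,
            Polynomial.coeff_derivative]
          have : a.natDegree - 1 + 1 = a.natDegree := by omega
          rw [this]
          rw [cast_pred_add _ this]
          simp only [Polynomial.leadingCoeff]
          ring
        have e2 : (a * Polynomial.derivative b).coeff (a.natDegree - 1 + b.natDegree) =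
            b.natDegree * (a.leadingCoeff * b.leadingCoeff) := by
          by_cases hb0 : b.natDegree = 0
          · have : b = Polynomial.C (b.coeff 0) := Polynomial.eq_C_of_natDegree_eq_zero hb0
            rw [this, Polynomial.derivative_C, mul_zero, Polynomial.coeff_zero,
              Polynomial.natDegree_C]
            simp
          · have h4 : a.natDegree - 1 + b.natDegree = a.natDegree + (b.natDegree - 1) := by omega
            rw [h4, Polynomial.coeff_mul_add_eq_of_natDegree_le le_rfl
              (Polynomial.natDegree_derivative_le b), Polynomial.coeff_derivative]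
            have : b.natDegree - 1 + 1 = b.natDegree := by omega
            rw [this]
            rw [cast_pred_add _ this]
            simp only [Polynomial.leadingCoeff]
            ring
        rw [e1, e2, ← sub_mul] at h2
        have h5 : a.leadingCoeff * b.leadingCoeff ≠ 0 :=
          mul_ne_zero (Polynomial.leadingCoeff_ne_zero.2 ha) (Polynomial.leadingCoeff_ne_zero.2 hb)
        have h6 := (mul_eq_zero.1 h2).resolve_right h5
        rw [sub_eq_zero] at h6
        have h7 : (a.natDegree : ℕ) = b.natDegree := by exact_mod_cast h6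
        omega
    · rw [jac_succ]
      intro h0
      exact ih i (rename_injective _ (Fin.succ_injective _) (by rw [h0, map_zero]))

end jac

end H42.ZR
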