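import Pool.Agent.H42.ZR.Sq
import Pool.Agent.H42.ZR.CL
import Pool.Agent.H42.ZR.L1
import Pool.Agent.H42.ZR.L2
import Pool.Agent.H42.ZR.GP
import Pool.Agent.H42.ZR.In
import Pool.Agent.H42.ZD.AP

/-!
# ZR: dense orbits with prescribed reductions in towers (induction on the tower)
-/

open MvPolynomial

namespace H42.ZR

open H42.ZD

universe u

section red

variable {K : Type u} [Field K]

theorem Tr_red_eval {σ : Type*} (w : Plc K) (x : σ → K) (ξ : σ → w.k) (hx : ∀ j, Red w (x j) (ξ j))
    (Q : MvPolynomial σ w.Λ) :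
    Red w (eval x (map w.Λ.subtype Q)) (eval ξ (map w.ψ Q)) := by
  choose hΛ hψ using hx
  have e1 := Tn_eval_map w.Λ.subtype Q (fun j => (⟨x j, hΛ j⟩ : w.Λ))
  have e2 := Tn_eval_map w.ψ Q (fun j => (⟨x j, hΛ j⟩ : w.Λ))
  have e3 : (fun j => w.Λ.subtype (⟨x j, hΛ j⟩ : w.Λ)) = x := rfl
  have e4 : (fun j => w.ψ (⟨x j, hΛ j⟩ : w.Λ)) = ξ := funext hψ
  rw [e3] at e1
  rw [e4] at e2
  rw [← e1, ← e2]
  exact ⟨(eval (fun j => (⟨x j, hΛ j⟩ : w.Λ)) Q).2, rfl⟩

theorem Tr_red_div (w : Plc K) (hw : IsLoc w) {x y : K} {a b : w.k} (hx : Red w x a)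
    (hy : Red w y b) (hb : b ≠ 0) : y ≠ 0 ∧ Red w (x / y) (a / b) := by
  obtain ⟨h1, rfl⟩ := hx
  obtain ⟨h2, rfl⟩ := hy
  have hy0 : y ≠ 0 := by
    rintro rfl
    apply hb
    have : (⟨0, h2⟩ : w.Λ) = 0 := rfl
    rw [this, map_zero]
  refine ⟨hy0, ?_⟩
  have h3 : y⁻¹ ∈ w.Λ := hw ⟨y, h2⟩ hb
  have h4 : w.ψ ⟨y⁻¹, h3⟩ * w.ψ ⟨y, h2⟩ = 1 := by
    rw [← map_mul, ← map_one w.ψ]
    congr 1
    apply Subtype.ext
    exact inv_mul_cancel₀ hy0
  refine ⟨?_, ?_⟩
  · rw [div_eq_mul_inv]
    exact w.Λ.mul_mem h1 h3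
  · rw [eq_div_iff hb]
    have : (⟨x / y, by rw [div_eq_mul_inv]; exact w.Λ.mul_mem h1 h3⟩ : w.Λ) =
        ⟨x, h1⟩ * ⟨y⁻¹, h3⟩ := by
      apply Subtype.ext
      exact div_eq_mul_inv x y
    rw [this, map_mul, mul_assoc, h4, mul_one]

/-- The orbit of a point with good reduction is well defined and reduces to the reduced orbit. -/
theorem Tr_orb_red (w : Plc K) (hw : IsLoc w) {n : ℕ} (N D : Fin n → MvPolynomial (Fin n) K)
    (NL DL : Fin n → MvPolynomial (Fin n) w.Λ) (hN : ∀ i, map w.Λ.subtype (NL i) = N i)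
    (hD : ∀ i, map w.Λ.subtype (DL i) = D i) (ξ : ℕ → Fin n → w.k)
    (hξ : Orb (fun i => map w.ψ (NL i)) (fun i => map w.ψ (DL i)) ξ) (x : Fin n → K)
    (hx : ∀ j, Red w (x j) (ξ 0 j)) :
    (∀ t j, Red w (oseq N D x t j) (ξ t j)) ∧ Orb N D (oseq N D x) := by
  have key : ∀ t, (∀ j, Red w (oseq N D x t j) (ξ t j)) := by
    intro t
    induction t with
    | zero => exact hx
    | succ t ih =>
      intro j
      have h1 := Tr_red_eval w _ _ ih (NL j)
      have h2 := Tr_red_eval w _ _ ih (DL j)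
      rw [hN] at h1
      rw [hD] at h2
      obtain ⟨h3, h4⟩ := hξ t j
      have h5 := (Tr_red_div w hw h1 h2 h3).2
      have h6 : ξ (t + 1) j = eval (ξ t) (map w.ψ (NL j)) / eval (ξ t) (map w.ψ (DL j)) := by
        rw [eq_div_iff h3, h4]
      rw [h6]
      exact h5
  refine ⟨key, oseq_orb N D x fun t i => ?_⟩
  have h2 := Tr_red_eval w _ _ (key t) (DL i)
  rw [hD] at h2
  exact (Tr_red_div w hw h2 h2 (hξ t i).1).1

/-- Lifts of a step are steps of lifts. -/
theorem Tr_lift_step (S : Subring K) {n : ℕ} (g : Fin n → MvPolynomial (Fin n) K)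
    (h : Polynomial (MvPolynomial (Fin n) K)) (NL : Fin (n + 1) → MvPolynomial (Fin (n + 1)) S)
    (hNL : ∀ i, map S.subtype (NL i) = Step g h i) :
    ∃ (gL : Fin n → MvPolynomial (Fin n) S) (hL : Polynomial (MvPolynomial (Fin n) S)),
      (∀ i, map S.subtype (gL i) = g i) ∧ hL.map (map S.subtype) = h ∧ NL = Step gL hL := by
  classical
  have hcoef : ∀ i m, coeff m (Step g h i) ∈ S := by
    intro i m
    rw [← hNL i, coeff_map]
    exact (coeff m (NL i)).2
  have h1 : ∀ i, ∃ q : MvPolynomial (Fin n) S, map S.subtype q = g i := by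
    intro i
    refine Tn_lift S (g i) fun c hc => ?_
    obtain ⟨m, -, rfl⟩ := mem_coeffs_iff.1 hc
    have := hcoef i.succ (Finsupp.mapDomain Fin.succ m)
    simp only [Step, Fin.cons_succ] at this
    rwa [coeff_rename_mapDomain _ (Fin.succ_injective n)] at this
  choose gL hgL using h1
  have h2 : ∃ q : Polynomial (MvPolynomial (Fin n) S), q.map (map S.subtype) = h := by
    rw [← Polynomial.mem_lifts, Polynomial.lifts_iff_coeff_lifts]
    intro j
    obtain ⟨q, hq⟩ := Tn_lift S (h.coeff j) (by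
      intro c hc
      obtain ⟨m, -, rfl⟩ := mem_coeffs_iff.1 hc
      have := hcoef 0 (m.cons j)
      simp only [Step, Fin.cons_zero] at this
      rw [← finSuccEquiv_coeff_coeff, AlgEquiv.apply_symm_apply] at this
      exact this)
    exact ⟨q, hq⟩
  obtain ⟨hL, hhL⟩ := h2
  refine ⟨gL, hL, hgL, hhL, ?_⟩
  have h3 := Step_map S.subtype gL hL
  rw [funext hgL, hhL] at h3
  funext i
  apply map_injective S.subtype Subtype.val_injective
  rw [hNL i]
  exact (congrFun h3 i).symm

end red

/-- An invariant of the base is an invariant of the total space. -/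
theorem Tr_inv_base {K : Type*} [Field K] {n : ℕ} (N D : Fin n → MvPolynomial (Fin n) K)
    (a b : Polynomial (MvPolynomial (Fin n) K)) (hI : RInv N D) : RInv (Step N a) (Step D b) := by
  obtain ⟨P, Q, hQ, hc, he⟩ := hI
  refine ⟨rename Fin.succ P, rename Fin.succ Q, ?_, ?_, ?_⟩
  · intro h0
    apply hQ
    apply rename_injective _ (Fin.succ_injective n)
    rw [h0, map_zero]
  · intro c h0
    apply hc c
    apply rename_injective _ (Fin.succ_injective n)
    rw [h0, map_mul, rename_C]
  · rw [fs_rename, fs_rename, ← J_algebraMap, ← J_algebraMap, ← map_mul, ← map_mul, he]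

/-- The leading coefficient and the Jacobians as one polynomial. -/
theorem Tr_prod_ne {R : Type*} [CommRing R] [IsDomain R] {n : ℕ} {x : Fin n → R}
    {P Q : MvPolynomial (Fin n) R} (h : eval x (P * Q) ≠ 0) : eval x P ≠ 0 ∧ eval x Q ≠ 0 := by
  rw [map_mul] at h
  exact ⟨left_ne_zero_of_mul h, right_ne_zero_of_mul h⟩

/-- The auxiliary place and cycle for the base of a step. -/
theorem Tr_place {K : Type u} [Field K] [CharZero K] [IsAlgClosed K] (A : Finset K)
    (hA : Algebra.IsAlgebraic (Algebra.adjoin ℤ (A : Set K)) K) {q : Prop} {n : ℕ}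
    {N D : Fin n → MvPolynomial (Fin n) K} (hT : Tow q N D)
    (a b : Polynomial (MvPolynomial (Fin n) K)) (ha : a ≠ 0) (hb : b ≠ 0) (M : ℕ) :
    ∃ (w : Plc K) (NL DL : Fin n → MvPolynomial (Fin n) w.Λ)
      (aL bL : Polynomial (MvPolynomial (Fin n) w.Λ)) (ξ : ℕ → Fin n → w.k) (N0 : ℕ),
      IsLoc w ∧ M < w.p ∧ (∀ i, map w.Λ.subtype (NL i) = N i) ∧
      (∀ i, map w.Λ.subtype (DL i) = D i) ∧ aL.map (map w.Λ.subtype) = a ∧
      bL.map (map w.Λ.subtype) = b ∧ 0 < N0 ∧ (∀ t, ξ (t + N0) = ξ t) ∧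
      Orb (fun i => map w.ψ (NL i)) (fun i => map w.ψ (DL i)) ξ ∧
      (∀ t, eval (ξ t) (map w.ψ aL.leadingCoeff) ≠ 0) ∧
      (∀ t, eval (ξ t) (map w.ψ bL.leadingCoeff) ≠ 0) ∧
      ∀ t i, eval (ξ t) (map w.ψ (Jac NL DL i)) ≠ 0 := by
  set H : MvPolynomial (Fin n) K := a.leadingCoeff * b.leadingCoeff * ∏ i, Jac N D i with hH
  have hH0 : H ≠ 0 := mul_ne_zero (mul_ne_zero (Polynomial.leadingCoeff_ne_zero.2 ha)
    (Polynomial.leadingCoeff_ne_zero.2 hb)) (Finset.prod_ne_zero_iff.2 fun i _ => tow_jac hT i)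
  obtain ⟨B, β, hβ, hsp⟩ := ((Spread_tow q N D hT).and (Spread_poly H hH0)).and
    ((Spread_liftP a).and (Spread_liftP b))
  obtain ⟨w, hw, hwM, hwB, hwβ⟩ := GPr A hA B β hβ M
  obtain ⟨⟨⟨NL, DL, hNL, hDL, hTk⟩, HL, hHL, hHψ⟩, ⟨aL, haL⟩, bL, hbL⟩ := hsp w hwB hwβ
  have hinj : Function.Injective (map w.Λ.subtype :
      MvPolynomial (Fin n) w.Λ → MvPolynomial (Fin n) K) :=
    map_injective _ Subtype.val_injective
  have hla : map w.Λ.subtype aL.leadingCoeff = a.leadingCoeff := by
    rw [← haL]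
    exact (Polynomial.leadingCoeff_map_of_injective hinj aL).symm
  have hlb : map w.Λ.subtype bL.leadingCoeff = b.leadingCoeff := by
    rw [← hbL]
    exact (Polynomial.leadingCoeff_map_of_injective hinj bL).symm
  have hJ : ∀ i, map w.Λ.subtype (Jac NL DL i) = Jac N D i := by
    intro i
    simp only [Jac, map_sub, map_mul, ← pderiv_map, hNL, hDL]
  have hHL' : HL = aL.leadingCoeff * bL.leadingCoeff * ∏ i, Jac NL DL i := by
    apply hinj
    rw [hHL, hH, map_mul, map_mul, hla, hlb, map_prod]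
    congr 1
    exact Finset.prod_congr rfl fun i _ => (hJ i).symm
  have : Fact w.p.Prime := ⟨w.hp⟩
  obtain ⟨ξ, N0, hN0, hper, horb, hHξ⟩ := CLr w.lf q _ _ hTk _ hHψ
  have hξ : ∀ t, eval (ξ t) (map w.ψ aL.leadingCoeff) ≠ 0 ∧
      eval (ξ t) (map w.ψ bL.leadingCoeff) ≠ 0 ∧
      ∀ i, eval (ξ t) (map w.ψ (Jac NL DL i)) ≠ 0 := by
    intro t
    have h1 := hHξ t
    rw [hHL', map_mul (map w.ψ), map_mul (map w.ψ)] at h1
    obtain ⟨h2, h3⟩ := Tr_prod_ne h1
    obtain ⟨h4, h5⟩ := Tr_prod_ne h2
    rw [map_prod] at h3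
    refine ⟨h4, h5, fun i => ?_⟩
    rw [map_prod, Finset.prod_ne_zero_iff] at h3
    exact h3 i (Finset.mem_univ i)
  exact ⟨w, NL, DL, aL, bL, ξ, N0, hw, hwM, hNL, hDL, haL, hbL, hN0, hper, horb,
    fun t => (hξ t).1, fun t => (hξ t).2.1, fun t i => (hξ t).2.2 i⟩

/-- **Dense orbits with prescribed reductions in towers.** -/
theorem Tr {K : Type u} [Field K] [CharZero K] [IsAlgClosed K] (A : Finset K)
    (hA : Algebra.IsAlgebraic (Algebra.adjoin ℤ (A : Set K)) K) {q : Prop} {n : ℕ}
    {N D : Fin n → MvPolynomial (Fin n) K} (hT : Tow q N D) :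
    (q → ¬ RInv N D) →
    ∀ (m : ℕ) (v : Fin (m + 1) → Plc K), (Function.Injective fun i => (v i).p) → IsLoc (v 0) →
    ∀ (ρ : ∀ i, Fin n → (v i).k) (NL DL : Fin n → MvPolynomial (Fin n) (v 0).Λ),
    (∀ i, map (v 0).Λ.subtype (NL i) = N i) → (∀ i, map (v 0).Λ.subtype (DL i) = D i) →
    ∀ (ξ : ℕ → Fin n → (v 0).k), ξ 0 = ρ 0 →
    Orb (fun i => map (v 0).ψ (NL i)) (fun i => map (v 0).ψ (DL i)) ξ →
    (∀ t i, eval (ξ t) (map (v 0).ψ (Jac NL DL i)) ≠ 0) →
    ∃ x : Fin n → K, DenseSeq (oseq N D x) ∧ ∀ i j, Red (v i) (x j) (ρ i j) := by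
  induction hT with
  | zero N D =>
    intro _ m v _ _ ρ _ _ _ _ _ _ _ _
    refine ⟨fun i => i.elim0, ?_, fun i j => j.elim0⟩
    intro P hP
    refine ⟨0, fun h0 => hP ?_⟩
    rw [eq_C_of_isEmpty P] at h0 ⊢
    rw [eval_C] at h0
    rw [h0, C_0]
  | @step n N D a b hT hab ih =>
    intro hI m v hv hloc ρ NL' DL' hNL' hDL' ξ hξ0 hξ hJξ
    -- nonvanishing
    have hab0 : a ≠ 0 ∧ b ≠ 0 := by
      rcases hab with ⟨-, h1, h2, h3⟩ | ⟨hb, h1, -⟩
      · constructor
        · rintro rfl
          simp at h3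
        · rintro rfl
          simp at h3
      · refine ⟨?_, hb⟩
        rintro rfl
        simp at h1
    -- lifts at `v 0`
    obtain ⟨NL, aL, hNL, haL, rfl⟩ := Tr_lift_step _ N a NL' hNL'
    obtain ⟨DL, bL, hDL, hbL, rfl⟩ := Tr_lift_step _ D b DL' hDL'
    -- the reduced orbit at `v 0`
    set η : ℕ → (v 0).k := fun t => ξ t 0 with hη
    set ξ' : ℕ → Fin n → (v 0).k := fun t j => ξ t j.succ with hξ'
    have hξc : ∀ t, ξ t = Fin.cons (η t) (ξ' t) := by
      intro t
      funext j
      refine Fin.cases ?_ (fun j => ?_) j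
      · rfl
      · rfl
    have hξorb : Orb (fun i => map (v 0).ψ (NL i)) (fun i => map (v 0).ψ (DL i)) ξ' := by
      have h1 := hξ
      have e1 : (fun t => (Fin.cons (η t) (ξ' t) : Fin (n + 1) → (v 0).k)) = ξ :=
        funext fun t => (hξc t).symm
      rw [Step_map, Step_map, ← e1] at h1
      exact ((orb_step _ _ _ _ ξ' η).1 h1).1
    have hJ0 : ∀ t, eval (ξ t) (map (v 0).ψ (Jac (Step NL aL) (Step DL bL) 0)) ≠ 0 :=
      fun t => hJξ t 0
    have hJs : ∀ t i, eval (ξ' t) (map (v 0).ψ (Jac NL DL i)) ≠ 0 := by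
      intro t i
      have h1 := hJξ t i.succ
      rw [jac_succ, map_rename, hξc, eval_cons_rename] at h1
      exact h1
    -- the base
    have hIb : q → ¬ RInv N D := fun hq hR => hI hq (Tr_inv_base N D a b hR)
    obtain ⟨w, NW, DW, aW, bW, ζ, N0, hw, hwM, hNW, hDW, haW, hbW, hN0, hper, hζ, hζa, hζb, hζJ⟩ :=
      Tr_place A hA hT a b hab0.1 hab0.2 (Finset.univ.sup fun i => (v i).p)
    have hwv : ∀ i, (v i).p ≠ w.p := by
      intro i
      have : (v i).p ≤ Finset.univ.sup fun i => (v i).p :=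
        Finset.le_sup (f := fun i => (v i).p) (Finset.mem_univ i)
      omega
    have hv' : Function.Injective fun i =>
        ((Fin.cons (v 0) (Fin.cons w fun i : Fin m => v i.succ) : Fin (m + 1 + 1) → Plc K) i).p := by
      intro i j
      refine Fin.cases ?_ (fun i => ?_) i <;> refine Fin.cases ?_ (fun j => ?_) j
      · simp
      · refine Fin.cases ?_ (fun j => ?_) j
        · intro hij
          exact absurd hij (hwv 0)
        · intro hij
          exact absurd (hv hij) (Fin.succ_ne_zero j).symm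
      · refine Fin.cases ?_ (fun i => ?_) i
        · intro hij
          exact absurd hij.symm (hwv 0)
        · intro hij
          exact absurd (hv hij) (Fin.succ_ne_zero i)
      · refine Fin.cases ?_ (fun i => ?_) i <;> refine Fin.cases ?_ (fun j => ?_) j
        · simp
        · intro hij
          exact absurd hij.symm (hwv j.succ)
        · intro hij
          exact absurd hij (hwv i.succ)
        · intro hij
          exact congrArg (fun z : Fin m => z.succ.succ) (Fin.succ_injective _ (hv hij))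
    obtain ⟨x, hx, hxρ⟩ := ih hIb (m + 1)
      (Fin.cons (v 0) (Fin.cons w fun i : Fin m => v i.succ)) hv' hloc
      (Fin.cons (α := fun i => Fin n → ((Fin.cons (v 0)
        (Fin.cons w fun i : Fin m => v i.succ) : Fin (m + 1 + 1) → Plc K) i).k)
        (fun j => ρ 0 j.succ) (Fin.cons (α := fun i => Fin n →
          ((Fin.cons w fun i : Fin m => v i.succ : Fin (m + 1) → Plc K) i).k) (ζ 0)
          (fun i j => ρ i.succ j.succ))) NL DL hNL hDL ξ'
      (by funext j; exact congrFun hξ0 j.succ) hξorb hJs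
    have hx0 : ∀ j, Red (v 0) (x j) (ρ 0 j.succ) := fun j => hxρ 0 j
    have hxw : ∀ j, Red w (x j) (ζ 0 j) := fun j => hxρ 1 j
    have hxs : ∀ (i : Fin m) j, Red (v i.succ) (x j) (ρ i.succ j.succ) :=
      fun i j => hxρ i.succ.succ j
    have hxv : ∀ i j, Red (v i) (x j) (ρ i j.succ) := by
      intro i
      refine Fin.cases hx0 (fun i => hxs i) i
    have horbx : Orb N D (oseq N D x) :=
      (Tr_orb_red (v 0) hloc N D NL DL hNL hDL ξ' hξorb x (by
        intro j
        have := congrFun hξ0 j.succ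
        rw [hξ']
        simp only
        rw [this]
        exact hx0 j)).2
    -- orbits of points of the total space
    have hall : ∀ y : K, Red (v 0) y (ρ 0 0) →
        Orb (Step N a) (Step D b) (oseq (Step N a) (Step D b) (Fin.cons y x : Fin (n + 1) → K)) ∧
        ∀ t j, Red (v 0) (oseq (Step N a) (Step D b) (Fin.cons y x : Fin (n + 1) → K) t j)
          (ξ t j) := by
      intro y hy
      have h1 := Tr_orb_red (v 0) hloc (Step N a) (Step D b) (Step NL aL) (Step DL bL) hNL' hDL' ξ
        hξ (Fin.cons y x) (by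
          intro j
          rw [hξ0]
          refine Fin.cases hy (fun j => hx0 j) j)
      exact ⟨h1.2, h1.1⟩
    have horbY : ∀ y : K, Red (v 0) y (ρ 0 0) → ∀ t,
        (b.map (eval (oseq N D x t))).eval (yseq a b (oseq N D x) y t) ≠ 0 ∧
        yseq a b (oseq N D x) y (t + 1) *
          (b.map (eval (oseq N D x t))).eval (yseq a b (oseq N D x) y t) =
          (a.map (eval (oseq N D x t))).eval (yseq a b (oseq N D x) y t) := by
      intro y hy
      have h1 := (hall y hy).1
      have e1 : oseq (Step N a) (Step D b) (Fin.cons y x : Fin (n + 1) → K) =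
          fun t => Fin.cons (yseq a b (oseq N D x) y t) (oseq N D x t) :=
        funext fun t => oseq_step N D a b x y t
      rw [e1] at h1
      exact ((orb_step N D a b (oseq N D x) (yseq a b (oseq N D x) y)).1 h1).2
    have hdn : ∀ y : K, DenseSeq (oseq (Step N a) (Step D b) (Fin.cons y x : Fin (n + 1) → K)) ↔
        DenseSeq (fun t => (Fin.cons (yseq a b (oseq N D x) y t) (oseq N D x t) :
          Fin (n + 1) → K)) := by
      intro y
      have e1 : oseq (Step N a) (Step D b) (Fin.cons y x : Fin (n + 1) → K) =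
          fun t => Fin.cons (yseq a b (oseq N D x) y t) (oseq N D x t) :=
        funext fun t => oseq_step N D a b x y t
      rw [e1]
    have hY := AP v (fun i => ρ i 0) hv w hwv
    have key : ∃ y ∈ {y : K | (∀ i, Red (v i) y (ρ i 0)) ∧
        ∃ h : (w.p : K) * y ∈ w.Λ, w.ψ ⟨_, h⟩ ≠ 0},
        DenseSeq (oseq (Step N a) (Step D b) (Fin.cons y x : Fin (n + 1) → K)) := by
      rcases hab with ⟨hq, hab⟩ | hab
      · -- fractional linear
        by_contra hno
        push Not at hno
        obtain ⟨s, hs, hs3⟩ := hY.exists_subset_card_eq 3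
        have e3 : Fin 3 ≃ s := by
          rw [← hs3]
          exact (Finset.equivFin s).symm
        have hmem : ∀ i : Fin 3, ((e3 i : s) : K) ∈ {y : K | (∀ i, Red (v i) y (ρ i 0)) ∧
            ∃ h : (w.p : K) * y ∈ w.Λ, w.ψ ⟨_, h⟩ ≠ 0} := fun i => hs (e3 i).2
        refine hI hq (L1r N D (INJr q N D hT) (oseq N D x) horbx hx a b hab
          (INJr q _ _ (Tow.step N D a b hT (Or.inl ⟨hq, hab⟩))) ?_
          (fun i => yseq a b (oseq N D x) ((e3 i : s) : K)) ?_ ?_ ?_)
        · intro t h0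
          have h1 := (hall _ ((hmem 0).1 0)).2 t
          have h2 := Tr_red_eval (v 0) _ _ h1 (Jac (Step NL aL) (Step DL bL) 0)
          have h3 : map (v 0).Λ.subtype (Jac (Step NL aL) (Step DL bL) 0) =
              Jac (Step N a) (Step D b) 0 := by
            simp only [Jac, map_sub, map_mul, ← pderiv_map, hNL', hDL']
          rw [h3, jac_zero, mob_jac a b hab, oseq_step, eval_cons_symm, Polynomial.map_C,
            Polynomial.eval_C, h0] at h2
          have h4 := Red.natCast (v 0) 0
          rw [Nat.cast_zero, Nat.cast_zero] at h4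
          exact hJ0 t (h2.unique h4)
        · intro i t
          exact horbY _ ((hmem i).1 0) t
        · intro i j hij
          exact e3.injective (Subtype.ext hij)
        · intro i hd
          exact hno _ (hmem i) ((hdn _).2 hd)
      · -- superattracting
        obtain ⟨y, hy⟩ := hY.nonempty
        refine ⟨y, hy, (hdn y).2 ?_⟩
        obtain ⟨hyv, hyΛ, hyψ⟩ := hy
        have hredw := (Tr_orb_red w hw N D NW DW hNW hDW ζ hζ x hxw).1
        have hxΛ : ∀ t j, oseq N D x t j ∈ w.Λ := fun t j => (hredw t j).1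
        set xL : ℕ → Fin n → w.Λ := fun t j => ⟨oseq N D x t j, hxΛ t j⟩ with hxL
        have hxψ : ∀ t j, w.ψ (xL t j) = ζ t j := fun t j => (hredw t j).2
        have hxψ' : ∀ t, (fun j => w.ψ (xL t j)) = ζ t := fun t => funext (hxψ t)
        have hxK : ∀ t, (fun j => w.Λ.subtype (xL t j)) = oseq N D x t := fun t => rfl
        have hev : ∀ t (Q : MvPolynomial (Fin n) w.Λ),
            ((eval (xL t) Q : w.Λ) : K) = eval (oseq N D x t) (map w.Λ.subtype Q) := by
          intro t Q
          have := Tn_eval_map w.Λ.subtype Q (xL t)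
          rw [hxK] at this
          exact this
        have hevψ : ∀ t (Q : MvPolynomial (Fin n) w.Λ),
            w.ψ (eval (xL t) Q) = eval (ζ t) (map w.ψ Q) := by
          intro t Q
          have := Tn_eval_map w.ψ Q (xL t)
          rw [hxψ'] at this
          exact this
        have hinj : Function.Injective (map w.Λ.subtype :
            MvPolynomial (Fin n) w.Λ → MvPolynomial (Fin n) K) :=
          map_injective _ Subtype.val_injective
        have hvN : ∀ i, ∀ j ∈ (NW i).vars, i ≤ j := by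
          intro i j hj
          refine (tow_vars hT).1 i j ?_
          rw [← hNW i, vars_map_of_injective _ Subtype.val_injective]
          exact hj
        have hvD : ∀ i, ∀ j ∈ (DW i).vars, i ≤ j := by
          intro i j hj
          refine (tow_vars hT).2 i j ?_
          rw [← hDW i, vars_map_of_injective _ Subtype.val_injective]
          exact hj
        have hdeg : bW.natDegree + 2 ≤ aW.natDegree := by
          have h1 : aW.natDegree = a.natDegree := by
            rw [← haW]
            exact (Polynomial.natDegree_map_eq_of_injective hinj aW).symm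
          have h2 : bW.natDegree = b.natDegree := by
            rw [← hbW]
            exact (Polynomial.natDegree_map_eq_of_injective hinj bW).symm
          rw [h1, h2]
          exact hab.2.1
        have hcomp : ∀ t, w.Λ.subtype.comp (eval (xL t)) =
            (eval (oseq N D x t)).comp (map w.Λ.subtype) := by
          intro t
          refine RingHom.ext fun Q => ?_
          exact hev t Q
        have hev2 : ∀ t (Q : Polynomial (MvPolynomial (Fin n) w.Λ)) (z : K),
            Q.eval₂ (w.Λ.subtype.comp (eval (xL t))) z =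
              ((Q.map (map w.Λ.subtype)).map (eval (oseq N D x t))).eval z := by
          intro t Q z
          rw [hcomp, Polynomial.eval_map, Polynomial.eval₂_map]
        rw [denseSeq_step]
        intro P hP
        refine L2r w hw NW DW hvN hvD aW bW hdeg xL ?_ hx N0 hN0 ?_ ?_ ?_ ?_ ?_ ⟨_, hyΛ⟩ hyψ
          (yseq a b (oseq N D x) y) rfl ?_ P hP
        · intro t i
          apply Subtype.val_injective
          have h1 := (horbx t i).2
          rw [← hNW i, ← hDW i, ← hev, ← hev] at h1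
          exact h1
        · intro t i
          rw [hxψ, hxψ, hper]
        · intro t i
          rw [hevψ]
          exact (hζ t i).1
        · intro t i
          rw [hevψ]
          exact hζJ t i
        · intro t
          rw [hevψ]
          exact hζa t
        · intro t
          rw [hevψ]
          exact hζb t
        · intro t
          rw [hev2, hev2, haW, hbW]
          exact (horbY y (hyv 0) t).2
    obtain ⟨y, ⟨hyρ, -⟩, hyd⟩ := key
    refine ⟨Fin.cons y x, hyd, ?_⟩
    intro i j
    refine Fin.cases ?_ (fun j => ?_) j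
    · exact hyρ i
    · exact hxv i j

end H42.ZR
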