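import Pool.Agent.H42.ZR.Fd

/-!
# ZR row Vl: values of rational functions at points

`L = K(x_0, …, x_{n-1})`, `x` algebraically independent. `Val x ξ u c`: `u = P(x)/Q(x)` with `Q(ξ) ≠ 0` and
`c = P(ξ)/Q(ξ)`.

PROOFS. `aeval x : MvPolynomial (Fin n) K → L` is injective (`hx`). If `Q(ξ) ≠ 0` then `Q ≠ 0`, so
`aeval x Q ≠ 0`.
`Val_unique`: `u = P/Q = P'/Q'` gives `P Q' = P' Q` as polynomials; evaluate at `ξ`.
`Val_add`, `Val_mul`, `Val_algebraMap`: obvious formulas (`Q Q'` as denominator, resp. `Q = 1`).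
`Val_exists`: `hgen` says every `u ∈ L` is `aeval x P / aeval x Q` with `Q ≠ 0`
(`IntermediateField.mem_adjoin_range_iff` or induction on the adjoin); take `H = Q`.
`Val_ne`: same with `P ≠ 0` (as `u ≠ 0`); `H = P * Q`, value `P(ξ)/Q(ξ) ≠ 0`.
`Val_map`: `u * aeval x Q = aeval x P`, `Q(ξ') ≠ 0`. Let `r` be at least all `degreeOf i P`,
`degreeOf i Q`, `P~ = Cl N D r P`, `Q~ = Cl N D r Q`. By `Cl_spec` with `φ = aeval x` (as a ring hom) and
`y i = σ (x i)`: `aeval x P~ = (∏ aeval x (D i))^r * σ (aeval x P)` (`P.eval₂ (φ.comp C) (σ ∘ x)` is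
`σ (aeval x P)`), same for `Q`; and with `φ = eval ξ`, `y = ξ'`:
`eval ξ P~ = (∏ eval ξ (D i))^r * eval ξ' P`, same for `Q`. So `(P~, Q~)` is a witness for
`Val x ξ (σ u) c`: `eval ξ Q~ ≠ 0`; `σ u * aeval x Q~ = aeval x P~`; `c * eval ξ Q~ = eval ξ P~`.
`Val_dense`: write `u = P/Q`, `P ≠ 0`, `Q ≠ 0` (`hgen`). By density choose `t` with `P(ξ_t) ≠ 0`. If
`Val x (ξ t) u 0` with witnesses `P₁, Q₁`: `P₁(ξ_t) = 0`, `Q₁(ξ_t) ≠ 0`, and `P Q₁ = P₁ Q` gives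
`P(ξ_t) Q₁(ξ_t) = 0`, a contradiction.
-/

open MvPolynomial

namespace H42.ZR

open H42.ZD

variable {K L : Type*} [Field K] [Field L] [Algebra K L] {n : ℕ} {x : Fin n → L}

theorem Vl_frac (hgen : IntermediateField.adjoin K (Set.range x) = ⊤) (u : L) :
    ∃ P Q : MvPolynomial (Fin n) K, Q ≠ 0 ∧ u * aeval x Q = aeval x P := by
  obtain ⟨P, Q, h⟩ := (IntermediateField.mem_adjoin_range_iff K x u).1 (by rw [hgen]; trivial)
  by_cases hQ : aeval x Q = 0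
  · refine ⟨0, 1, one_ne_zero, ?_⟩
    rw [h, hQ, div_zero, zero_mul, map_zero]
  · refine ⟨P, Q, fun h0 => hQ (by rw [h0, map_zero]), ?_⟩
    rw [h, div_mul_cancel₀ _ hQ]

theorem Vl_cross (hx : AlgebraicIndependent K x) {u : L} {P Q P' Q' : MvPolynomial (Fin n) K}
    (h : u * aeval x Q = aeval x P) (h' : u * aeval x Q' = aeval x P') : P * Q' = P' * Q := by
  have hi : Function.Injective (aeval x : MvPolynomial (Fin n) K →ₐ[K] L) := hx
  apply hi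
  rw [map_mul, map_mul, ← h, ← h']
  ring

theorem Vl_P_ne {u : L} (hx : AlgebraicIndependent K x) (hu : u ≠ 0)
    {P Q : MvPolynomial (Fin n) K} (hQ : Q ≠ 0) (h : u * aeval x Q = aeval x P) : P ≠ 0 := by
  have hi : Function.Injective (aeval x : MvPolynomial (Fin n) K →ₐ[K] L) := hx
  intro h0
  rw [h0, map_zero] at h
  rcases mul_eq_zero.1 h with h1 | h1
  · exact hu h1
  · exact hQ (hi (by rw [h1, map_zero]))

theorem Val_unique (hx : AlgebraicIndependent K x) {ξ : Fin n → K} {u : L} {c c' : K}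
    (h : Val x ξ u c) (h' : Val x ξ u c') : c = c' := by
  obtain ⟨P, Q, hQ, h1, h2⟩ := h
  obtain ⟨P', Q', hQ', h1', h2'⟩ := h'
  have h3 := congrArg (eval ξ) (Vl_cross hx h1 h1')
  rw [map_mul, map_mul, ← h2, ← h2'] at h3
  have h4 : (c - c') * (eval ξ Q * eval ξ Q') = 0 := by linear_combination h3
  rcases mul_eq_zero.1 h4 with h5 | h5
  · exact sub_eq_zero.1 h5
  · exact absurd h5 (mul_ne_zero hQ hQ')

theorem Val_add {ξ : Fin n → K} {u u' : L} {c c' : K} (h : Val x ξ u c) (h' : Val x ξ u' c') :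
    Val x ξ (u + u') (c + c') := by
  obtain ⟨P, Q, hQ, h1, h2⟩ := h
  obtain ⟨P', Q', hQ', h1', h2'⟩ := h'
  refine ⟨P * Q' + P' * Q, Q * Q', ?_, ?_, ?_⟩
  · rw [map_mul]
    exact mul_ne_zero hQ hQ'
  · rw [map_mul, map_add, map_mul, map_mul]
    linear_combination (aeval x Q') * h1 + (aeval x Q) * h1'
  · rw [map_mul, map_add, map_mul, map_mul]
    linear_combination (eval ξ Q') * h2 + (eval ξ Q) * h2'

theorem Val_mul {ξ : Fin n → K} {u u' : L} {c c' : K} (h : Val x ξ u c) (h' : Val x ξ u' c') :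
    Val x ξ (u * u') (c * c') := by
  obtain ⟨P, Q, hQ, h1, h2⟩ := h
  obtain ⟨P', Q', hQ', h1', h2'⟩ := h'
  refine ⟨P * P', Q * Q', ?_, ?_, ?_⟩
  · rw [map_mul]
    exact mul_ne_zero hQ hQ'
  · rw [map_mul, map_mul, ← h1, ← h1']
    ring
  · rw [map_mul, map_mul, ← h2, ← h2']
    ring

theorem Val_algebraMap (ξ : Fin n → K) (c : K) : Val x ξ (algebraMap K L c) c := by
  refine ⟨C c, 1, ?_, ?_, ?_⟩
  · rw [map_one]
    exact one_ne_zero
  · rw [map_one, mul_one, aeval_C]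
  · rw [map_one, mul_one, eval_C]

theorem Val_exists (hgen : IntermediateField.adjoin K (Set.range x) = ⊤)
    (hx : AlgebraicIndependent K x) (u : L) :
    ∃ H : MvPolynomial (Fin n) K, H ≠ 0 ∧ ∀ ξ, eval ξ H ≠ 0 → ∃ c, Val x ξ u c := by
  obtain ⟨P, Q, hQ, h⟩ := Vl_frac hgen u
  exact ⟨Q, hQ, fun ξ hξ => ⟨eval ξ P / eval ξ Q, P, Q, hξ, h, div_mul_cancel₀ _ hξ⟩⟩

theorem Val_ne (hgen : IntermediateField.adjoin K (Set.range x) = ⊤)
    (hx : AlgebraicIndependent K x) (u : L) (hu : u ≠ 0) :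
    ∃ H : MvPolynomial (Fin n) K, H ≠ 0 ∧ ∀ ξ, eval ξ H ≠ 0 → ∃ c, c ≠ 0 ∧ Val x ξ u c := by
  obtain ⟨P, Q, hQ, h⟩ := Vl_frac hgen u
  refine ⟨P * Q, mul_ne_zero (Vl_P_ne hx hu hQ h) hQ, fun ξ hξ => ?_⟩
  rw [map_mul] at hξ
  exact ⟨eval ξ P / eval ξ Q, div_ne_zero (left_ne_zero_of_mul hξ) (right_ne_zero_of_mul hξ),
    P, Q, right_ne_zero_of_mul hξ, h, div_mul_cancel₀ _ (right_ne_zero_of_mul hξ)⟩

theorem Val_map (σ : L →ₐ[K] L) (N D : Fin n → MvPolynomial (Fin n) K)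
    (hND : ∀ i, aeval x (D i) ≠ 0 ∧ σ (x i) * aeval x (D i) = aeval x (N i)) {ξ ξ' : Fin n → K}
    (hξ : ∀ i, eval ξ (D i) ≠ 0 ∧ ξ' i * eval ξ (D i) = eval ξ (N i)) {u : L} {c : K}
    (h : Val x ξ' u c) : Val x ξ (σ u) c := by
  obtain ⟨P, Q, hQ, h1, h2⟩ := h
  obtain ⟨r, hr⟩ : ∃ r : ℕ, r = ∑ i, degreeOf i P + ∑ i, degreeOf i Q := ⟨_, rfl⟩
  have hP : ∀ i, degreeOf i P ≤ r := by
    intro i
    have := Finset.single_le_sum (f := fun i => degreeOf i P) (fun i _ => Nat.zero_le _)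
      (Finset.mem_univ i)
    rw [hr]
    exact le_trans this (Nat.le_add_right _ _)
  have hQr : ∀ i, degreeOf i Q ≤ r := by
    intro i
    have := Finset.single_le_sum (f := fun i => degreeOf i Q) (fun i _ => Nat.zero_le _)
      (Finset.mem_univ i)
    rw [hr]
    exact le_trans this (Nat.le_add_left _ _)
  have hx1 : ∀ T : MvPolynomial (Fin n) K, (∀ i, degreeOf i T ≤ r) →
      aeval x (Cl N D r T) = (∏ i, aeval x (D i)) ^ r * σ (aeval x T) := by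
    intro T hT
    have h3 := Cl_spec N D r T hT ((aeval x : MvPolynomial (Fin n) K →ₐ[K] L) :
      MvPolynomial (Fin n) K →+* L) (fun i => σ (x i)) fun i => (hND i).2
    have h4 : (((aeval x : MvPolynomial (Fin n) K →ₐ[K] L) :
        MvPolynomial (Fin n) K →+* L).comp C) = algebraMap K L := by
      ext z
      simp
    rw [h4, ← aeval_def, ← comp_aeval_apply] at h3
    exact h3
  have hx2 : ∀ T : MvPolynomial (Fin n) K, (∀ i, degreeOf i T ≤ r) →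
      eval ξ (Cl N D r T) = (∏ i, eval ξ (D i)) ^ r * eval ξ' T := by
    intro T hT
    have h3 := Cl_spec N D r T hT (eval ξ) ξ' fun i => (hξ i).2
    have h4 : (eval ξ).comp C = RingHom.id K := by
      ext z
      simp
    rw [h4] at h3
    exact h3
  refine ⟨Cl N D r P, Cl N D r Q, ?_, ?_, ?_⟩
  · rw [hx2 Q hQr]
    exact mul_ne_zero (pow_ne_zero _ (Finset.prod_ne_zero_iff.2 fun i _ => (hξ i).1)) hQ
  · rw [hx1 Q hQr, hx1 P hP, ← h1, map_mul]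
    ring
  · rw [hx2 Q hQr, hx2 P hP, ← h2]
    ring

theorem Val_dense (hgen : IntermediateField.adjoin K (Set.range x) = ⊤)
    (hx : AlgebraicIndependent K x) (ξ : ℕ → Fin n → K) (hξ : DenseSeq ξ) (u : L) (hu : u ≠ 0) :
    ∃ t, ¬ Val x (ξ t) u 0 := by
  obtain ⟨P, Q, hQ, h⟩ := Vl_frac hgen u
  obtain ⟨t, ht⟩ := hξ P (Vl_P_ne hx hu hQ h)
  refine ⟨t, ?_⟩
  rintro ⟨P', Q', hQ', h1, h2⟩
  have h3 := congrArg (eval (ξ t)) (Vl_cross hx h h1)
  rw [map_mul, map_mul, ← h2, zero_mul, zero_mul] at h3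
  exact mul_ne_zero ht hQ' h3

end H42.ZR
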